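import Pool.Agent.P.MP_ca04ec_pr.G.GDefs
import Pool.Agent.P.MP_ca04ec_pr.Det.QB2

/-! Finite planar maps with positions, systems of limiting energies, regimes. -/

open MeasureTheory ProbabilityTheory Set Filter Topology Metric
open scoped ENNReal

namespace Pool.Agent.QL

open Pool.Agent.LGD

/-- `f` is constant on the cycles of `π`. -/
def Inv {D : Type} (π : Equiv.Perm D) (f : D → ℝ) : Prop := ∀ d, f (π d) = f d

/-- A finite map on the sphere: `φ` turns around faces, `σ` around vertices, and both halves of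
the Hodge decomposition hold. -/
structure FMap where
  D : Type
  fin : Fintype D
  α : Equiv.Perm D
  φ : Equiv.Perm D
  σ : Equiv.Perm D
  α_α : ∀ d, α (α d) = d
  α_ne : ∀ d, α d ≠ d
  σ_eq : ∀ d, σ d = φ (α d)
  φ_eq : ∀ d, φ d = σ (α d)
  hodge : ∀ ω : D → ℝ, (∀ d, ω (α d) = -ω d) → (∀ g, Inv φ g → ∑ d, ω d * g d = 0) →
    ∃ F, Inv σ F ∧ ∀ d, ω d = F (α d) - F d
  hodge' : ∀ ω : D → ℝ, (∀ d, ω (α d) = -ω d) → (∀ g, Inv σ g → ∑ d, ω d * g d = 0) →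
    ∃ F, Inv φ F ∧ ∀ d, ω d = F (α d) - F d

namespace FMap

instance (M : FMap) : Fintype M.D := M.fin

/-- The dual map. -/
def dual (M : FMap) : FMap where
  D := M.D
  fin := M.fin
  α := M.α
  φ := M.σ
  σ := M.φ
  α_α := M.α_α
  α_ne := M.α_ne
  σ_eq := M.φ_eq
  φ_eq := M.σ_eq
  hodge := M.hodge'
  hodge' := M.hodge

/-- Darts on a common edge, face or vertex. -/
def Adj (M : FMap) (d e : M.D) : Prop := e = M.α d ∨ M.φ.SameCycle d e ∨ M.σ.SameCycle d e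

open Classical in
/-- Energy carried by the edges both of whose darts are in `K`. -/
noncomputable def en (M : FMap) (K : Set M.D) (f : M.D → ℝ) : ℝ :=
  1 / 2 * ∑ d, if d ∈ K ∧ M.α d ∈ K then (f (M.α d) - f d) ^ 2 else 0

/-- Least energy on `K` of a vertex function subject to interval constraints. -/
noncomputable def dE (M : FMap) (K : Set M.D) (C : List (Set M.D × ℝ × ℝ)) : ℝ≥0∞ :=
  ⨅ (f : M.D → ℝ) (_ : Inv M.σ f) (_ : ∀ c ∈ C, ∀ d ∈ c.1, f d ∈ Icc c.2.1 c.2.2),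
    ENNReal.ofReal (M.en K f)

end FMap

/-- A domain and a list of interval constraints. -/
abbrev Data : Type := Set ℂ × List (Set ℂ × ℝ × ℝ)

/-- Preimage of data. -/
def Data.pre {A : Type} (x : Data) (p : A → ℂ) : Set A × List (Set A × ℝ × ℝ) :=
  (p ⁻¹' x.1, x.2.map fun c => (p ⁻¹' c.1, c.2))

/-- `x` is compactly inside `y`, with weaker constraints. -/
def Data.Sub (x y : Data) : Prop :=
  Bornology.IsBounded x.1 ∧ closure x.1 ⊆ y.1 ∧ ∀ c ∈ x.2, Bornology.IsBounded c.1 ∧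
    ∃ c' ∈ y.2, closure c.1 ⊆ c'.1 ∩ y.1 ∧ c.2.1 ≤ c'.2.1 ∧ c'.2.2 ≤ c.2.2

/-- Finite unions of rational balls. -/
def IsQU (K : Set ℂ) : Prop := ∃ s : Finset (Set ℂ), (∀ T ∈ s, IsQBall T) ∧ K = ⋃ T ∈ s, T

/-- Rational data. -/
def Data.IsQ (x : Data) : Prop :=
  IsQU x.1 ∧ ∀ c ∈ x.2, IsQU c.1 ∧ (∃ q : ℚ, c.2.1 = q) ∧ ∃ q : ℚ, c.2.2 = q

/-- The countable index set. -/
def Idx : Type := {x : Data // x.IsQ}

theorem countable_isQU : {K : Set ℂ | IsQU K}.Countable := by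
  have h := (Set.countable_ofPred_finite_subset countable_isQBall).image (fun s => ⋃₀ s)
  refine h.mono ?_
  rintro K ⟨s, hs, rfl⟩
  exact ⟨(s : Set (Set ℂ)), ⟨s.finite_toSet, fun T hT => hs T hT⟩, by ext; simp⟩

instance : Countable Idx := by
  have h1 : Countable {K : Set ℂ // IsQU K} := countable_isQU.to_subtype
  let g : {K : Set ℂ // IsQU K} × List ({K : Set ℂ // IsQU K} × ℚ × ℚ) → Data :=
    fun p => (p.1.1, p.2.map fun c => (c.1.1, (c.2.1 : ℝ), (c.2.2 : ℝ)))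
  have h2 : {x : Data | x.IsQ} ⊆ range g := by
    rintro ⟨K, C⟩ ⟨hK, hC⟩
    replace hK : IsQU K := hK
    replace hC : ∀ c ∈ C, IsQU c.1 ∧ (∃ q : ℚ, c.2.1 = q) ∧ ∃ q : ℚ, c.2.2 = q := hC
    have h3 : ∃ l : List ({K : Set ℂ // IsQU K} × ℚ × ℚ),
        (l.map fun c => (c.1.1, (c.2.1 : ℝ), (c.2.2 : ℝ))) = C := by
      induction C with
      | nil => exact ⟨[], rfl⟩
      | cons c C ih =>
        obtain ⟨l, hl⟩ := ih fun c' hc' => hC c' (List.mem_cons_of_mem _ hc')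
        obtain ⟨h4, ⟨q, hq⟩, ⟨q', hq'⟩⟩ := hC c List.mem_cons_self
        refine ⟨(⟨c.1, h4⟩, q, q') :: l, ?_⟩
        rw [List.map_cons, hl]
        congr 1
        exact Prod.ext rfl (Prod.ext hq.symm hq'.symm)
    obtain ⟨l, hl⟩ := h3
    exact ⟨(⟨K, hK⟩, l), Prod.ext rfl hl⟩
  exact ((countable_range g).mono h2).to_subtype

/-- Rational frames. -/
def Fr : Type := {p : ℂ × ℂ // IsFr p.1 p.2}

namespace Fr

/-- centre -/
def z (F : Fr) : ℂ := F.1.1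
/-- multiplier -/
def a (F : Fr) : ℂ := F.1.2
/-- the affine map -/
def map (F : Fr) : ℂ → ℂ := aff F.z F.a
/-- its inverse -/
noncomputable def inv (F : Fr) : ℂ → ℂ := unaff F.z F.a

theorem isQU (F : Fr) {K : Set ℂ} (h : IsQU K) : IsQU (F.inv ⁻¹' K) := by
  classical
  obtain ⟨s, hs, rfl⟩ := h
  refine ⟨s.image fun T => F.inv ⁻¹' T, fun T hT => ?_, ?_⟩
  · obtain ⟨T', hT', rfl⟩ := Finset.mem_image.1 hT
    exact (hs T' hT').preimage_unaff F.2
  · ext x; simp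

/-- Image of rational data under a frame. -/
noncomputable def act (F : Fr) (i : Idx) : Idx :=
  ⟨i.1.pre F.inv, F.isQU i.2.1, fun c hc => by
    obtain ⟨c', hc', rfl⟩ := List.mem_map.1 hc
    exact ⟨F.isQU (i.2.2 c' hc').1, (i.2.2 c' hc').2⟩⟩

end Fr

/-- Primal and dual limiting energies. -/
abbrev Sys : Type := (Idx → ℝ≥0∞) × (Idx → ℝ≥0∞)

/-- Pull-back of a system under a frame. -/
noncomputable def pull (F : Fr) (s : Sys) : Sys := (fun i => s.1 (F.act i), fun i => s.2 (F.act i))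

/-- The energy of arbitrary data, by exhaustion. -/
noncomputable def En (s : Idx → ℝ≥0∞) (y : Data) : ℝ≥0∞ := ⨆ (i : Idx) (_ : i.1.Sub y), s i

set_option warn.classDefReducibility false in
/-- The sigma-algebra of the part of the system inside `U`. -/
noncomputable def SS (U : Set ℂ) : MeasurableSpace Sys :=
  ⨆ (i : Idx) (_ : closure i.1.1 ⊆ U),
    MeasurableSpace.comap (fun s : Sys => (s.1 i, s.2 i)) inferInstance

/-- Finite maps with positions of the darts, along an ultrafilter. -/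
structure FNet where
  U : Ultrafilter ℕ
  M : ℕ → FMap
  p : ∀ k, (M k).D → ℂ
  κ : ℕ → ℝ
  κ_pos : ∀ k, 0 < κ k
  mesh : ∀ R η : ℝ, 0 < η → ∀ᶠ k in (U : Filter ℕ), ∀ d e, ‖p k d‖ ≤ R → (M k).Adj d e →
    ‖p k e - p k d‖ ≤ η
  dense : ∀ (x : ℂ) (η : ℝ), 0 < η → ∀ᶠ k in (U : Filter ℕ), ∃ d, ‖p k d - x‖ ≤ η
  lift : ∀ R η : ℝ, 0 < η → ∃ η' : ℝ, 0 < η' ∧ ∀ᶠ k in (U : Filter ℕ), ∀ d d', ‖p k d‖ ≤ R →
    ‖p k d' - p k d‖ ≤ η' →
    Relation.ReflTransGen (fun e e' => (M k).Adj e e' ∧ ‖p k e' - p k d‖ ≤ η) d d'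

namespace FNet

/-- Limit of the normalised primal energy. -/
noncomputable def limE (N : FNet) (x : Data) : ℝ≥0∞ :=
  liminf (fun k => ENNReal.ofReal (N.κ k) * (N.M k).dE (x.pre (N.p k)).1 (x.pre (N.p k)).2) N.U

theorem adj_dual {M : FMap} {d e : M.D} : M.dual.Adj d e ↔ M.Adj d e :=
  or_congr_right or_comm

/-- The dual net, with the inverse normalisation. -/
noncomputable def dual (N : FNet) : FNet where
  U := N.U
  M k := (N.M k).dual
  p := N.p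
  κ k := (N.κ k)⁻¹
  κ_pos k := inv_pos.2 (N.κ_pos k)
  mesh R η hη := (N.mesh R η hη).mono fun _ h d e hd ha => h d e hd (adj_dual.1 ha)
  dense := N.dense
  lift R η hη := by
    obtain ⟨η', h1, h2⟩ := N.lift R η hη
    refine ⟨η', h1, h2.mono fun _ h d d' hd hd' => ?_⟩
    simp only [adj_dual]
    exact h d d' hd hd'

/-- `s` is the inner regularisation of the limiting primal energies. -/
def Real1 (N : FNet) (s : Idx → ℝ≥0∞) : Prop :=
  (∀ i : Idx, s i ≤ N.limE i.1) ∧ ∀ (x : Data) (i : Idx), x.Sub i.1 → N.limE x ≤ s i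

/-- The net realises the system. -/
def Real (N : FNet) (s : Sys) : Prop := N.Real1 s.1 ∧ N.dual.Real1 s.2

end FNet

/-- Systems that come from a net. -/
def Realized (s : Sys) : Prop := ∃ N : FNet, N.Real s

/-- Crossing data of the bar `(-a,a) × (b,c)` between the zones `re < -w` and `re > w`. -/
def bar (a b c w : ℝ) : Data :=
  (rect a b c 0, [(rect a b c 0 ∩ {x | x.re < -w}, 0, 0), (rect a b c 0 ∩ {x | w < x.re}, 1, 1)])

/-- Resistance of the larger bar. -/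
noncomputable def Rp (s : Idx → ℝ≥0∞) : ℝ≥0∞ :=
  (En s (bar (14 / 5) (21 / 10) (12 / 5) (5 / 2)))⁻¹

/-- Resistance of the smaller bar. -/
noncomputable def Rm (s : Idx → ℝ≥0∞) : ℝ≥0∞ :=
  (En s (bar (27 / 10) (11 / 5) (23 / 10) (13 / 5)))⁻¹

/-- `γ`. -/
noncomputable def gam : ℝ := √(8 / 3)

/-- `Q`. -/
noncomputable def QQ : ℝ := 2 / gam + gam / 2

/-- Adding a constant to a field. -/
noncomputable def lev (k : Dist) (c : ℝ) : Dist := k + c • ofFun fun _ => 1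

/-- The coordinate change `k ∘ F + Q log |a|`. -/
noncomputable def absF (F : Fr) (k : Dist) : Dist :=
  lev (precomp (pushT F.z F.a) k) (QQ * Real.log ‖F.a‖)

/-- The field with a random additive constant. -/
noncomputable def nuh (ν : Measure Dist) : Measure Dist :=
  (ν.prod (gaussianReal 0 1)).map fun p => lev p.1 p.2

/-- The reference domain. -/
def U0 : Set ℂ := ball 0 4

/-- Convex open subsets of the reference domain. -/
def Nice (U : Set ℂ) : Prop := IsOpen U ∧ Convex ℝ U ∧ U ⊆ U0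

/-- The conditional law of the system given the field. -/
structure Regime (ν : Measure Dist) where
  K : Kernel Dist Sys
  markov : IsMarkovKernel K
  real : ∀ᵐ k ∂nuh ν, ∀ᵐ s ∂(K k), Realized s
  cov : ∀ F : Fr, MapsTo F.map U0 U0 → ∀ E, MeasurableSet[SS U0] E →
    ∀ᵐ k ∂nuh ν, K k (pull F ⁻¹' E) = K (absF F k) E
  loc : ∀ U, Nice U → ∀ E, MeasurableSet[SS U] E →
    ∃ G : Dist → ℝ≥0∞, Measurable[fieldSigma id U] G ∧ ∀ᵐ k ∂nuh ν, K k E = G k
  indep : ∀ U V, Nice U → Disjoint U V → ∀ E E', MeasurableSet[SS U] E → MeasurableSet[SS V] E' →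
    ∀ᵐ k ∂nuh ν, K k (E ∩ E') = K k E * K k E'

/-- Probability of `E` at a level uniform in `[c, c + 1]`. -/
noncomputable def Regime.bet {ν : Measure Dist} (R : Regime ν) (c : ℝ) (E : Set Sys) : ℝ≥0∞ :=
  ∫⁻ s in Icc (0 : ℝ) 1, ∫⁻ k, R.K (lev k (c + s)) E ∂ν

/-- The function `u` is a logarithmic quantile of the resistance of the bars, seen from the base
points `t` with logarithmic normalisation `lk`. -/
structure Lk {ν : Measure Dist} (R : Regime ν) (ε₀ : ℝ) (u : ℝ → ℝ) (t lk : ℕ → ℝ)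
    (𝒰 : Ultrafilter ℕ) (pr : Sys → Idx → ℝ≥0∞) : Prop where
  up : ∀ (t' : ℕ → ℝ) (c x : ℝ), Tendsto (fun k => t' k - t k) 𝒰 (𝓝 c) →
    (∀ᶠ k in (𝒰 : Filter ℕ), u (t' k) - lk k ≤ x) →
    R.bet c {s | ex x < Rp (pr s)} ≤ ENNReal.ofReal (2 * ε₀)
  low : ∀ (t' : ℕ → ℝ) (c x : ℝ), Tendsto (fun k => t' k - t k) 𝒰 (𝓝 c) →
    (∀ᶠ k in (𝒰 : Filter ℕ), x < u (t' k) - lk k) →
    ENNReal.ofReal (ε₀ / 2) ≤ R.bet c {s | ex x ≤ Rm (pr s)}

/-- Every sequence of levels and normalisations has a regime. -/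
structure Link (ν : Measure Dist) (ε₀ : ℝ) (u v : ℝ → ℝ) : Prop where
  bdd : ∀ T : ℝ, ∃ B : ℝ, ∀ t, |t| ≤ T → |u t| ≤ B ∧ |v t| ≤ B
  reg : ∀ (t lk : ℕ → ℝ) (𝒰 : Ultrafilter ℕ), Tendsto t 𝒰 atTop →
    ∃ R : Regime ν, Lk R ε₀ u t lk 𝒰 Prod.fst ∧ Lk R ε₀ v t (fun k => -lk k) 𝒰 Prod.snd

/-- Two-sided flat bounds. -/
def Flat (u v : ℝ → ℝ) : Prop :=
  ∃ B : ℝ, ∀ m : ℝ, ∀ᶠ t in atTop, ∀ s, |s - t| ≤ m → |u s - u t| ≤ B ∧ |u s + v s| ≤ B

/-- Statement of block AR. -/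
def ARStmt (ν : Measure Dist) : Prop :=
  ∃ ε : ℝ≥0∞, 0 < ε ∧ ∀ (R : Regime ν) (x : ℝ) (p : ℝ≥0∞), 0 < p →
    (∀ c ≤ 0, R.bet c {s | ex x < Rp s.1} ≤ ε) → (∀ c ≤ 0, p ≤ R.bet c {s | Rm s.2 = ⊤}) →
    ∀ᵐ k ∂nuh ν, ∀ᵐ s ∂(R.K k), Rm s.1 = 0

/-- Statement of block RSW. -/
def RSWStmt (ν : Measure Dist) : Prop :=
  ∀ ε : ℝ, 0 < ε → ∃ ε₀ : ℝ, 0 < ε₀ ∧ ε₀ ≤ ε ∧ ∀ u v, Link ν ε₀ u v → Flat u v

end Pool.Agent.QL
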