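import Pool.Agent.P.MP_7a6434d8_pr.QL.KGDefs
import Pool.Agent.P.MP_7a6434d8_pr.QL.Sys

/-! Relaxed energies, cutoffs and crossings for nets of finite maps. -/

open MeasureTheory Set Filter Topology Metric
open scoped ENNReal

namespace Pool.Agent.QL

open Pool.Agent.LGD

/-- the linear function with gradient `e` -/
def lin (e z : ℂ) : ℝ := e.re * z.re + e.im * z.im

namespace FNet

variable (N : FNet)

/-- increment along a dart -/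
def dd (m : ℕ) (v : (N.M m).D → ℝ) (d : (N.M m).D) : ℝ := v ((N.M m).α d) - v d

/-- both darts of the edge are in `S` -/
def In (m : ℕ) (S : Set ℂ) (d : (N.M m).D) : Prop := N.p m d ∈ S ∧ N.p m ((N.M m).α d) ∈ S

open Classical in
/-- normalised mutual energy of the edges inside `S` -/
noncomputable def en (m : ℕ) (S : Set ℂ) (u v : (N.M m).D → ℝ) : ℝ :=
  N.κ m * (1 / 2 * ∑ d, if N.In m S d then N.dd m u d * N.dd m v d else 0)

/-- `v` is a vertex function within `η` of `f` on `S` -/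
def Close (m : ℕ) (v : (N.M m).D → ℝ) (f : ℂ → ℝ) (S : Set ℂ) (η : ℝ) : Prop :=
  Inv (N.M m).σ v ∧ ∀ d, N.p m d ∈ S → |v d - f (N.p m d)| ≤ η

/-- uniform convergence on `S` -/
def Conv (v : ∀ m, (N.M m).D → ℝ) (f : ℂ → ℝ) (S : Set ℂ) : Prop :=
  ∀ η > 0, ∀ᶠ m in (N.U : Filter ℕ), N.Close m (v m) f S η

/-- relaxed energy of `f` on `S` -/
noncomputable def F (f : ℂ → ℝ) (S : Set ℂ) : ℝ≥0∞ :=
  ⨆ (η : ℝ) (_ : 0 < η), liminf
    (fun m => ⨅ (v : (N.M m).D → ℝ) (_ : N.Close m v f S η), ENNReal.ofReal (N.en m S v v)) N.U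

/-- cutoffs equal to one on `A`, zero off `B`, of energy at most `M` -/
def Cut (A B : Set ℂ) (M : ℝ) : Prop :=
  ∀ᶠ m in (N.U : Filter ℕ), ∃ χ : (N.M m).D → ℝ, Inv (N.M m).σ χ ∧ (∀ d, 0 ≤ χ d ∧ χ d ≤ 1) ∧
    (∀ d, N.p m d ∈ A → χ d = 1) ∧ (∀ d, N.p m d ∉ B → χ d = 0) ∧ N.en m univ χ χ ≤ M

/-- one step: cross an edge satisfying `G`, or turn around a vertex -/
def Step (m : ℕ) (G : (N.M m).D → Prop) (d e : (N.M m).D) : Prop :=
  (e = (N.M m).α d ∧ G d) ∨ (N.M m).σ.SameCycle d e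

/-- a path along edges satisfying `G` from a dart in `A` to a dart in `B` -/
def Lnk (m : ℕ) (G : (N.M m).D → Prop) (A B : Set ℂ) : Prop :=
  ∃ d e, N.p m d ∈ A ∧ N.p m e ∈ B ∧ Relation.ReflTransGen (N.Step m G) d e

/-- two paths from `A` to `B`, on which `g` is at least one and at most zero -/
def Two (m : ℕ) (g : (N.M m).D → ℝ) (A B : Set ℂ) : Prop :=
  Inv (N.M m).σ g ∧ N.Lnk m (fun d => 1 ≤ g d ∧ 1 ≤ g ((N.M m).α d)) A B ∧
    N.Lnk m (fun d => g d ≤ 0 ∧ g ((N.M m).α d) ≤ 0) A B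

/-- two such paths from a small disc to distance `R` cost much energy -/
def SepAt (z : ℂ) : Prop :=
  ∀ R C : ℝ, 0 < R → ∃ r > 0, ∀ᶠ m in (N.U : Filter ℕ), ∀ g : (N.M m).D → ℝ,
    N.Two m g (ball z r) (ball z R)ᶜ → C ≤ N.en m (ball z R) g g

/-- the conductance between `A` and `B` inside `K` is at least `M` -/
def CondGe (K A B : Set ℂ) (M : ℝ) : Prop :=
  ∀ᶠ m in (N.U : Filter ℕ), ∀ g : (N.M m).D → ℝ, Inv (N.M m).σ g →
    (∀ d, N.p m d ∈ A → g d ≤ 0) → (∀ d, N.p m d ∈ B → 1 ≤ g d) → M ≤ N.en m K g g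

/-- the measure `Γ` dominates the limit energies of `v` inside `O` -/
def Dom (v : ∀ m, (N.M m).D → ℝ) (O : Set ℂ) (Γ : Measure ℂ) : Prop :=
  ∀ A : Set ℂ, IsClosed A → ∀ ε > 0, ∀ᶠ m in (N.U : Filter ℕ),
    N.en m (A ∩ O) (v m) (v m) ≤ Γ.real A + ε

/-- lower bound for the conductance of every rectangle in `O`, in both directions -/
def LS (a : ℝ) (O : Set ℂ) : Prop :=
  ∀ x₀ x₁ y₀ y₁ δ M : ℝ, x₀ < x₁ → y₀ < y₁ → crect x₀ x₁ y₀ y₁ ⊆ O → 0 < δ →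
    (M * a * (x₁ - x₀) < y₁ - y₀ → N.CondGe (orect x₀ x₁ y₀ y₁)
      (orect x₀ (x₀ + δ) y₀ y₁) (orect (x₁ - δ) x₁ y₀ y₁) M) ∧
    (M * a * (y₁ - y₀) < x₁ - x₀ → N.CondGe (orect x₀ x₁ y₀ y₁)
      (orect x₀ x₁ y₀ (y₀ + δ)) (orect x₀ x₁ (y₁ - δ) y₁) M)

/-- the relaxed energy of linear functions is `a |e|² area` on the rectangles inside `O` -/
def Lin (a : ℝ) (O : Set ℂ) : Prop :=
  ∀ e ∈ ({1, Complex.I, 1 + Complex.I, 1 - Complex.I} : Set ℂ), ∀ s₀ s₁ t₀ t₁ : ℝ,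
    s₀ < s₁ → t₀ < t₁ → crect s₀ s₁ t₀ t₁ ⊆ O →
    N.F (lin e) (orect s₀ s₁ t₀ t₁) = ENNReal.ofReal (a * ‖e‖ ^ 2 * ((s₁ - s₀) * (t₁ - t₀)))

end FNet

/-- relaxed energy read from a system -/
noncomputable def FS (s : Idx → ℝ≥0∞) (f : ℂ → ℝ) (S : Set ℂ) : ℝ≥0∞ :=
  ⨆ (i : Idx) (_ : closure i.1.1 ⊆ S)
    (_ : ∀ c ∈ i.1.2, closure c.1 ⊆ S ∧ ∀ z ∈ closure c.1, f z ∈ Ioo c.2.1 c.2.2), s i

/-- the reference square -/
def S0 : Set ℂ := orect (-(14 / 5)) (14 / 5) (-(14 / 5)) (14 / 5)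

/-- one half of the system is homogeneous and isotropic with constant `a` -/
def Hom1 (a : ℝ) (s : Idx → ℝ≥0∞) : Prop :=
  ∀ F : Fr, MapsTo F.map U0 U0 → ∀ e : ℂ, IsQ e →
    FS (fun i => s (F.act i)) (lin e) S0 = ENNReal.ofReal (a * ‖e‖ ^ 2 * (28 / 5) ^ 2)

/-- both halves are homogeneous -/
def Homog (a b : ℝ) (s : Sys) : Prop := Hom1 a s.1 ∧ Hom1 b s.2

end Pool.Agent.QL
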