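import Pool.Agent.P.MP_7a6434d8_pr.QL.QMap
import Pool.Agent.P.MP_7a6434d8_pr.Defs2
import Pool.Agent.P.MP_7a6434d8_pr.CountA
import Pool.Agent.P.MP_7a6434d8_pr.Quad2

/-! Discrete objects of the locality argument: samples, ball data, holes, codes of discs. -/

open MeasureTheory ProbabilityTheory Set Filter Topology
open scoped ENNReal

namespace Pool.Agent.QL

open Pool.Agent.P.MP_7a6434d8_pr Pool.Agent.P.MP_7a6434d8_pr.Mp

instance instMSV (t : Mp) : MeasurableSpace (V t) := ⊤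
instance instDMSV (t : Mp) : DiscreteMeasurableSpace (V t) := ⟨fun _ => trivial⟩
instance instNonemptyV (t : Mp) : Nonempty (V t) := ⟨bv t 0⟩
instance instMSVtx {n : ℕ} (q : Quad n) : MeasurableSpace q.Vertex := ⊤
instance instDMSVtx {n : ℕ} (q : Quad n) : DiscreteMeasurableSpace q.Vertex :=
  ⟨fun _ => trivial⟩
instance instNEVtx {n : ℕ} (q : Quad n) : Nonempty q.Vertex := ⟨q.tail q.root⟩
instance instFinVtx {n : ℕ} (q : Quad n) : Finite q.Vertex :=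
  inferInstanceAs (Finite (Quotient _))

/-- Independent uniform samples. -/
noncomputable def smpl (X : Type) [MeasurableSpace X] : Measure (ℕ → X) :=
  Measure.infinitePi fun _ : ℕ => (uniformOn univ : Measure X)

/-- Graph distance in a disc. -/
noncomputable def dW (t : Mp) (x y : V t) : ℕ := sInf {k | Within t k x y}

/-- Distance to the boundary. -/
noncomputable def dB (t : Mp) (x : V t) : ℕ := sInf {k | ∃ p, p ≤ 2 * per t ∧ dW t x (bv t p) = k}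

/-- Average over discs of half-perimeter `L` with `m` inner faces. -/
noncomputable def AV (L m : ℕ) (F : Mp → ℝ≥0∞) : ℝ≥0∞ :=
  (∑ t ∈ countaT L m, F t) / (countaT L m).card

/-- Average over a disc and its samples. -/
noncomputable def AVS (L m : ℕ) (G : (t : Mp) → (ℕ → V t) → ℝ≥0∞) : ℝ≥0∞ :=
  AV L m fun t => ∫⁻ s, G t s ∂smpl (V t)

/-- Average over labelled quadrangulations and samples. -/
noncomputable def EQS (n : ℕ) (G : (q : Quad n) → (ℕ → q.Vertex) → ℝ≥0∞) : ℝ≥0∞ :=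
  (∑' q : Quad n, ∫⁻ S, G q S ∂smpl q.Vertex) / Nat.card (Quad n)

open Classical in
/-- Least energy on `K` of a `π`-invariant function subject to interval constraints. -/
noncomputable def dEg {D : Type} [Fintype D] (α π : D → D) (K : Set D)
    (C : List (Set D × ℝ × ℝ)) : ℝ≥0∞ :=
  ⨅ (f : D → ℝ) (_ : ∀ d, f (π d) = f d) (_ : ∀ c ∈ C, ∀ d ∈ c.1, f d ∈ Icc c.2.1 c.2.2),
    ENNReal.ofReal (1 / 2 * ∑ d, if d ∈ K ∧ α d ∈ K then (f (α d) - f d) ^ 2 else 0)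

theorem dE_eq (M : FMap) (K : Set M.D) (C : List (Set M.D × ℝ × ℝ)) :
    M.dE K C = dEg M.α M.σ K C := rfl

/-- Darts, vertices and a distance. -/
structure GM where
  D : Type
  X : Type
  fin : Fintype D
  α : D → D
  φ : D → D
  tl : D → X
  dist : X → X → ℕ

/-- The structure of a quadrangulation. -/
noncomputable def gmQ {n : ℕ} (q : Quad n) : GM :=
  ⟨Fin (4 * n), q.Vertex, inferInstance, q.α, q.φ, q.tail, q.graph.dist⟩

/-- The structure of a disc. -/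
noncomputable def gmT (t : Mp) : GM := ⟨Dt t, V t, inferInstance, al t, ph t, org t, dW t⟩

/-- Ball data: lists of (sample index, radius). -/
abbrev BDat (R : Type) : Type := List (ℕ × R) × List (List (ℕ × R) × ℚ × ℚ)

/-- All balls of the data. -/
def BDat.balls {R : Type} (j : BDat R) : List (ℕ × R) := j.1 ++ j.2.flatMap fun c => c.1

/-- Relabelling of indices and radii. -/
def BDat.map {R R' : Type} (g : ℕ × R → ℕ × R') (j : BDat R) : BDat R' :=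
  (j.1.map g, j.2.map fun c => (c.1.map g, c.2))

/-- Integer radii at edge length `δ`. -/
noncomputable def BDat.toN (δ : ℝ) (j : BDat ℚ) : BDat ℕ := j.map fun c : ℕ × ℚ => (c.1, ⌊(c.2 : ℝ) / δ⌋₊)

/-- Darts starting in a union of balls. -/
def GM.bset (G : GM) (S : ℕ → G.X) (l : List (ℕ × ℕ)) : Set G.D :=
  {d | ∃ c ∈ l, G.dist (S c.1) (G.tl d) ≤ c.2}

/-- Primal (`pr = true`) or dual energy of ball data. -/
noncomputable def GM.ballE (G : GM) (S : ℕ → G.X) (pr : Bool) (j : BDat ℕ) : ℝ≥0∞ :=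
  @dEg G.D G.fin G.α (if pr then fun d => G.φ (G.α d) else G.φ) (G.bset S j.1)
    (j.2.map fun c => (G.bset S c.1, (c.2.1 : ℝ), (c.2.2 : ℝ)))

/-! ### holes -/

section Hole

variable {n : ℕ} (q : Quad n) (S : ℕ → q.Vertex) (J : List (ℕ × ℕ)) (t₀ : ℕ)

/-- The union of the balls. -/
def InBall (x : q.Vertex) : Prop := ∃ c ∈ J, q.graph.dist (S c.1) x ≤ c.2

/-- The component of the target sample in the complement of the balls. -/
def VO : Set q.Vertex :=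
  {x | ¬ InBall q S J (S t₀) ∧
    Relation.ReflTransGen (fun u w => q.graph.Adj u w ∧ ¬ InBall q S J w) (S t₀) x}

/-- The balls form a nonempty connected family and the hole has an edge. -/
def Ev : Prop :=
  J ≠ [] ∧ (∀ c ∈ J, ∀ c' ∈ J, Relation.ReflTransGen (fun a b : ℕ × ℕ => b ∈ J ∧
    (q.graph.dist (S a.1) (S b.1) ≤ a.2 ∨ q.graph.dist (S a.1) (S b.1) ≤ b.2)) c c') ∧
  ∃ d, q.tail d ∈ VO q S J t₀ ∧ q.head d ∈ VO q S J t₀

end Hole

/-- The disc `t` is the submap of `q` induced on `A`. -/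
structure SubQ {n : ℕ} (q : Quad n) (A : Set q.Vertex) (t : Mp) (θ : Dt t → Fin (4 * n))
    (ι : V t → q.Vertex) : Prop where
  ok : ok t
  per_pos : 1 ≤ per t
  θ_inj : Function.Injective θ
  θ_range : ∀ d, d ∈ range θ ↔ q.tail d ∈ A ∧ q.head d ∈ A
  θ_al : ∀ d, θ (al t d) = q.α (θ d)
  θ_ph : ∀ d, (∀ p, bd t p ≠ some d) → θ (ph t d) = q.φ (θ d)
  tail : ∀ d, q.tail (θ d) = ι (org t d)
  ι_inj : Function.Injective ι
  ι_range : range ι = A
  out_bd : ∀ e, q.tail e ∈ A → q.head e ∉ A → ∃ p, p < 2 * per t ∧ q.tail e = ι (bv t p)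
  bd_out : ∀ p, p ≤ 2 * per t → ∃ i, i ≤ 4 ∧ ∃ e,
    q.tail e = ι (bv t ((p + i) % (2 * per t))) ∧ q.head e ∉ A

/-- Coordinates of the outer code. -/
inductive IIdx : Type
  | per : IIdx
  | size : IIdx
  | pat : ℕ → IIdx
  | dist : ℕ ⊕ ℕ → ℕ ⊕ ℕ → IIdx
  | en : Bool → BDat ℕ → IIdx

/-- A choice of the hole for every vertex set, with outer distances between nodes (outer vertices
and boundary positions). -/
structure HoleSys (n : ℕ) where
  W : (q : Quad n) → Set q.Vertex → Mp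
  θ : ∀ q A, Dt (W q A) → Fin (4 * n)
  ι : ∀ q A, V (W q A) → q.Vertex
  dI : (q : Quad n) → Set q.Vertex → q.Vertex ⊕ ℕ → q.Vertex ⊕ ℕ → ℝ≥0∞

namespace HoleSys

variable {n : ℕ} (H : HoleSys n)

/-- The samples that fall in `A`, as vertices of the hole. -/
noncomputable def inner (q : Quad n) (A : Set q.Vertex) (S : ℕ → q.Vertex) (i : ℕ) :
    V (H.W q A) :=
  Function.invFun (H.ι q A) (S (Nat.nth (fun a => S a ∈ A) i))

/-- The vertex of a node. -/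
def vx (q : Quad n) (A : Set q.Vertex) : q.Vertex ⊕ ℕ → q.Vertex :=
  Sum.elim id fun p => H.ι q A (bv (H.W q A) p)

open Classical in
/-- The outer code. -/
noncomputable def icode (q : Quad n) (A : Set q.Vertex) (S : ℕ → q.Vertex) : IIdx → ℝ≥0∞
  | .per => per (H.W q A)
  | .size => size (H.W q A)
  | .pat a => if S a ∈ A then 1 else 0
  | .dist y y' => if (∀ a, y = .inl a → S a ∉ A) ∧ ∀ a, y' = .inl a → S a ∉ A then
      H.dI q A (y.map S id) (y'.map S id) else ⊤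
  | .en pr j => if ∀ c ∈ j.balls, ∀ x ∈ A, c.2 + 3 < q.graph.dist (S c.1) x then
      (gmQ q).ballE S pr j else 0

/-- Cost of a step between two nodes: outside, or inside the hole. -/
noncomputable def step (q : Quad n) (A : Set q.Vertex) (y y' : q.Vertex ⊕ ℕ) : ℝ≥0∞ :=
  min (H.dI q A y y') (⨅ (x : V (H.W q A)) (x' : V (H.W q A)) (_ : H.ι q A x = H.vx q A y)
    (_ : H.ι q A x' = H.vx q A y'), (dW (H.W q A) x x' : ℝ≥0∞))

open Classical in
/-- The properties of the system of holes. -/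
structure Spec : Prop where
  sub : ∀ q S J t₀, Ev q S J t₀ →
    SubQ q (VO q S J t₀) (H.W q (VO q S J t₀)) (H.θ q _) (H.ι q _)
  dI_in : ∀ q A x y, x ∈ A → H.dI q A (.inl x) y = ⊤ ∧ H.dI q A y (.inl x) = ⊤
  dI_ge : ∀ q S J t₀, Ev q S J t₀ → ∀ y y',
    (q.graph.dist (H.vx q (VO q S J t₀) y) (H.vx q (VO q S J t₀) y') : ℝ≥0∞) ≤
      H.dI q (VO q S J t₀) y y'
  glue : ∀ q S J t₀, Ev q S J t₀ → ∀ (x x' : q.Vertex) (w : q.graph.Walk x x'),
    ∃ (s : ℕ) (y : ℕ → q.Vertex ⊕ ℕ),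
      s ≤ 2 * (w.darts.filter fun e =>
        decide (InBall q S J e.fst ↔ ¬ InBall q S J e.snd)).length + 1 ∧
      y 0 = .inl x ∧ y s = .inl x' ∧
      (∀ i, 0 < i → i < s → ∃ p, p < 2 * per (H.W q (VO q S J t₀)) ∧ y i = .inr p) ∧
      ∑ i ∈ Finset.range s, H.step q (VO q S J t₀) (y i) (y (i + 1)) ≤ w.length
  plug : ∀ (J : List (ℕ × ℕ)) (t₀ : ℕ) (F : (IIdx → ℝ≥0∞) → ℝ≥0∞)
    (G : (t : Mp) → (ℕ → V t) → ℝ≥0∞), Measurable F → (∀ t, Measurable (G t)) →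
    EQS n (fun q S => if Ev q S J t₀ then F (H.icode q (VO q S J t₀) S) *
      G (H.W q (VO q S J t₀)) (H.inner q (VO q S J t₀) S) else 0) =
    EQS n (fun q S => if Ev q S J t₀ then F (H.icode q (VO q S J t₀) S) *
      AVS (per (H.W q (VO q S J t₀))) (size (H.W q (VO q S J t₀))) G else 0)

end HoleSys

/-- Existence of the system of holes. -/
def HoleStmt : Prop := ∀ n, ∃ H : HoleSys n, H.Spec

open Classical in
/-- Macroscopic holes do not have a very long boundary. -/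
def CrossStmt : Prop :=
  ∀ (a₀ η : ℝ) (J₀ : ℕ), 0 < a₀ → 0 < η → ∃ M : ℝ, ∀ᶠ n : ℕ in atTop, ∀ (H : HoleSys n), H.Spec →
    ∀ (J : List (ℕ × ℕ)) (t₀ : ℕ), J.length ≤ J₀ →
    EQS n (fun q S => if Ev q S J t₀ ∧ a₀ * n ≤ size (H.W q (VO q S J t₀)) ∧
      M * √(n : ℝ) ≤ per (H.W q (VO q S J t₀)) then 1 else 0) ≤ ENNReal.ofReal η

/-! ### the code of a disc -/

/-- Geometric coordinates of the inner code. -/
inductive GIdx : Type
  | len : GIdx
  | area : GIdx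
  | d : ℕ → ℕ → GIdx
  | f : ℕ → GIdx
  | b : ℕ → ℚ → GIdx
  | e : ℚ → ℚ → GIdx

/-- Boundary position at the fraction `x` of the perimeter. -/
noncomputable def bpos (L : ℕ) (x : ℚ) : ℕ := ⌊2 * (L : ℚ) * Int.fract x⌋₊

/-- Geometric code at edge length `δ`. -/
noncomputable def gcode (δ : ℝ) (t : Mp) (s : ℕ → V t) : GIdx → ℝ≥0∞
  | .len => ENNReal.ofReal (δ ^ 2 * per t)
  | .area => ENNReal.ofReal (δ ^ 4 * size t)
  | .d i j => ENNReal.ofReal (δ * dW t (s i) (s j))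
  | .f i => ENNReal.ofReal (δ * dB t (s i))
  | .b i x => ENNReal.ofReal (δ * dW t (s i) (bv t (bpos (per t) x)))
  | .e x y => ENNReal.ofReal (δ * dW t (bv t (bpos (per t) x)) (bv t (bpos (per t) y)))

/-- An increasing homeomorphism onto `[0, 1]`. -/
noncomputable def squash (x : ℝ≥0∞) : ℝ≥0∞ := 1 - (1 + x)⁻¹

/-- Cut-off: one for `f ≥ 3 r`, zero for `f ≤ 2 r` and for `r ≤ 0`. -/
noncomputable def cut (r : ℚ) (f : ℝ) : ℝ≥0∞ :=
  if 0 < r then ENNReal.ofReal (min 1 ((f - 2 * r) / r)) else 0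

/-- Normalisation of the primal and the dual energies. -/
noncomputable def nrm (κ : ℝ) (pr : Bool) : ℝ≥0∞ := ENNReal.ofReal (if pr then κ else κ⁻¹)

/-- Energy code at edge length `δ` and normalisation `κ`. -/
noncomputable def ecode (δ κ : ℝ) (t : Mp) (s : ℕ → V t) (x : Bool × BDat ℚ) : ℝ≥0∞ :=
  (x.2.balls.map fun c => cut c.2 (δ * dB t (s c.1))).prod *
    squash (nrm κ x.1 * (gmT t).ballE s x.1 (x.2.toN δ))

/-- The space of inner codes. -/
abbrev OCode : Type := (GIdx → ℝ≥0∞) × (Bool × BDat ℚ → ℝ≥0∞)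

/-- The inner code. -/
noncomputable def ocode (δ κ : ℝ) (t : Mp) (s : ℕ → V t) : OCode := (gcode δ t s, ecode δ κ t s)

/-- Macroscopic perimeter and area. -/
def MBox (B δ : ℝ) (L m : ℕ) : Prop :=
  1 / B ≤ δ ^ 2 * L ∧ δ ^ 2 * L ≤ B ∧ 1 / B ≤ δ ^ 4 * m ∧ δ ^ 4 * m ≤ B

/-- Equicontinuity of the law of the inner code in the perimeter and the area. -/
def SHStmt : Prop :=
  ∀ (B : ℝ) (G : C(OCode, ℝ≥0∞)) (η : ℝ≥0∞), (∀ c, G c ≤ 1) → 0 < η →
    ∃ ζ δ₀ : ℝ, 0 < ζ ∧ 0 < δ₀ ∧ ∀ δ κ : ℝ, 0 < δ → δ ≤ δ₀ → 0 < κ → ∀ L m L' m' : ℕ,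
      MBox B δ L m → MBox B δ L' m' → δ ^ 2 * |(L : ℝ) - L'| ≤ ζ → δ ^ 4 * |(m : ℝ) - m'| ≤ ζ →
      AVS L m (fun t s => G (ocode δ κ t s)) ≤ AVS L' m' (fun t s => G (ocode δ κ t s)) + η

open Classical in
/-- Modulus of continuity of the boundary, fixed size. -/
def E1Stmt : Prop :=
  ∀ (B ε : ℝ) (η : ℝ≥0∞), 0 < ε → 0 < η → ∃ θ δ₀ : ℝ, 0 < θ ∧ 0 < δ₀ ∧ ∀ δ : ℝ, 0 < δ → δ ≤ δ₀ →
    ∀ L m, MBox B δ L m → AV L m (fun t => if ∃ p p', p ≤ p' ∧ p' ≤ 2 * L ∧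
      (p' : ℝ) - p ≤ θ * L ∧ ε < δ * dW t (bv t p) (bv t p') then 1 else 0) ≤ η

open Classical in
/-- Injectivity of the boundary, fixed size. -/
def E2Stmt : Prop :=
  ∀ (B θ : ℝ) (η : ℝ≥0∞), 0 < B → 0 < θ → 0 < η → ∃ ε δ₀ : ℝ, 0 < ε ∧ 0 < δ₀ ∧ ∀ δ : ℝ, 0 < δ → δ ≤ δ₀ →
    ∀ L m, MBox B δ L m → AV L m (fun t => if ∃ p p', p ≤ p' ∧ p' ≤ 2 * L ∧
      θ * L ≤ (p' : ℝ) - p ∧ (p' : ℝ) - p ≤ (2 - θ) * L ∧ δ * dW t (bv t p) (bv t p') ≤ ε
      then 1 else 0) ≤ η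

/-- `t'` is `t` with the boundary positions relabelled by `π`. -/
def IsoB (π : ℕ → ℕ) (t t' : Mp) : Prop :=
  ∃ e : V t ≃ V t', (∀ x y, dW t' (e x) (e y) = dW t x y) ∧
    (∀ p, p ≤ 2 * per t → bv t' p = e (bv t (π p))) ∧
    ∀ s pr j, (gmT t').ballE (fun i => e (s i)) pr j = (gmT t).ballE s pr j

/-- Rotations and the mirror image act on discs of given perimeter and size. -/
def SymStmt : Prop :=
  ∀ L m : ℕ, 1 ≤ L → (∀ k : ℕ, ∃ R : Mp → Mp, BijOn R (countaT L m) (countaT L m) ∧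
      ∀ t ∈ countaT L m, IsoB (fun p => (p + k) % (2 * L)) t (R t)) ∧
    ∃ R : Mp → Mp, BijOn R (countaT L m) (countaT L m) ∧
      ∀ t ∈ countaT L m, IsoB (fun p => 2 * L - p) t (R t)

/-- The largest number of consecutive intervals in `[p, p']` on each of which `l` has range at
least `h`. -/
noncomputable def NR (l : ℕ → ℕ) (h p p' : ℕ) : ℕ :=
  sSup {N | ∃ s : ℕ → ℕ, Monotone s ∧ p ≤ s 0 ∧ s N ≤ p' ∧ ∀ i < N, ∃ x y, s i ≤ x ∧
    x ≤ s (i + 1) ∧ s i ≤ y ∧ y ≤ s (i + 1) ∧ l x + h ≤ l y}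

open Classical in
/-- Quadratic variation and range of the distances from a uniform vertex to the boundary. -/
def QVStmt : Prop :=
  ∃ C : ℝ, 0 < C ∧ ∀ L m : ℕ, 1 ≤ L →
    (∀ (h p p' : ℕ) (η : ℝ), 1 ≤ h → p ≤ p' → p' ≤ 2 * L → p' ≤ p + L → 0 < η → η ≤ 1 →
      AVS L m (fun t s => if η * L + C * h ^ 2 <
        |(NR (fun x => dW t (s 0) (bv t x)) h p p' : ℝ) * (h * (h + 1) / 2) - (p' - p)|
        then 1 else 0) ≤ ENNReal.ofReal (C * h ^ 2 / (η ^ 2 * L))) ∧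
    ∀ (i y : ℕ), 1 ≤ y → AVS L m (fun t s => if ∃ p p', p ≤ 2 * L ∧ p' ≤ 2 * L ∧
      dW t (s i) (bv t p) + y ≤ dW t (s i) (bv t p') then 1 else 0) ≤
        ENNReal.ofReal (C * L / y ^ 2)

/-- Discrete Stokes identity. -/
def ClassStmt : Prop :=
  ∀ (t : Mp), ok t → ∀ a b : V t → ℝ,
    (∀ x, (∀ y, Within t 2 x y → a y = a x) ∨ ∀ y, Within t 2 x y → b y = b x) →
    ∑ p ∈ Finset.range (2 * per t),
      (a (bv t p) + a (bv t (p + 1))) * (b (bv t (p + 1)) - b (bv t p)) = 0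

/-- Energies of ball data away from the boundary are the same in the hole and in the map. -/
def BallStmt : Prop :=
  ∀ {n : ℕ} (q : Quad n) (A : Set q.Vertex) (t : Mp) (θ : Dt t → Fin (4 * n))
    (ι : V t → q.Vertex), SubQ q A t θ ι →
    (∀ x y, adj t x y ↔ q.graph.Adj (ι x) (ι y)) ∧
    (∀ x y, q.graph.dist (ι x) (ι y) ≤ dW t x y) ∧
    (∀ x z, q.graph.dist (ι x) z ≤ dB t x → ∃ y, ι y = z ∧ dW t x y = q.graph.dist (ι x) z) ∧
    ∀ (s : ℕ → V t) (S : ℕ → q.Vertex) (idx : ℕ → ℕ) (pr : Bool) (j : BDat ℕ),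
      (∀ c ∈ j.balls, S (idx c.1) = ι (s c.1) ∧ c.2 + 3 < dB t (s c.1)) →
      (gmT t).ballE s pr j = (gmQ q).ballE S pr (j.map fun c => (idx c.1, c.2))

end Pool.Agent.QL
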