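import Pool.Agent.P.MP_7a6434d8_pr.QL.GT.Basic

/-! Composition of frames, rotations, loops, measurability of energies. -/

open MeasureTheory ProbabilityTheory Set Filter Topology Metric
open scoped ENNReal

namespace Pool.Agent.QL

open Pool.Agent.LGD

namespace Fr

theorem map_inv (F : Fr) (x : ℂ) : F.map (F.inv x) = x := aff_unaff F.a_ne x

theorem inv_map (F : Fr) (x : ℂ) : F.inv (F.map x) = x := unaff_aff F.a_ne x

theorem map_apply (F : Fr) (x : ℂ) : F.map x = F.a * x + F.z := rfl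

theorem image_eq (F : Fr) (U : Set ℂ) : F.map '' U = F.inv ⁻¹' U :=
  congrFun (image_eq_preimage_of_inverse F.inv_map F.map_inv) U

theorem continuous_map (F : Fr) : Continuous F.map := continuous_aff _ _

theorem continuous_inv (F : Fr) : Continuous F.inv := continuous_unaff _ _

theorem ext' {F G : Fr} (hz : F.z = G.z) (ha : F.a = G.a) : F = G :=
  Subtype.ext (Prod.ext hz ha)

/-- Composition of frames. -/
def comp (F G : Fr) : Fr :=
  ⟨(aff F.z F.a G.z, F.a * G.a),
    (F.2.2.1.mul G.2.1).add F.2.1, F.2.2.1.mul G.2.2.1, mul_ne_zero F.a_ne G.a_ne⟩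

theorem comp_z (F G : Fr) : (F.comp G).z = aff F.z F.a G.z := rfl

theorem comp_a (F G : Fr) : (F.comp G).a = F.a * G.a := rfl

theorem comp_map (F G : Fr) (x : ℂ) : (F.comp G).map x = F.map (G.map x) := by
  simp only [map, comp_z, comp_a, aff]; ring

theorem comp_inv (F G : Fr) (x : ℂ) : (F.comp G).inv x = G.inv (F.inv x) := by
  have h1 := F.a_ne
  have h2 := G.a_ne
  simp only [inv, comp_z, comp_a, aff, unaff]; field_simp; ring

theorem comp_act (F G : Fr) (i : Idx) : (F.comp G).act i = F.act (G.act i) := by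
  have h : (F.comp G).inv = G.inv ∘ F.inv := funext (comp_inv F G)
  refine Subtype.ext ?_
  change i.1.pre (F.comp G).inv = Data.pre (i.1.pre G.inv) F.inv
  rw [h]
  simp only [Data.pre, List.map_map]
  rfl

theorem mem_image_ball (F : Fr) (R : ℝ) (x : ℂ) :
    x ∈ F.map '' ball 0 R ↔ ‖x - F.z‖ < R * ‖F.a‖ := by
  rw [image_eq, mem_preimage, mem_ball_zero_iff, inv, unaff, norm_div,
    div_lt_iff₀ (norm_pos_iff.2 F.a_ne)]

theorem closure_image (F : Fr) (U : Set ℂ) : closure (F.map '' U) = F.map '' closure U :=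
  ((affH F.z F.a F.a_ne).image_closure U).symm

/-- The inner disc of a frame. -/
def core (F : Fr) : Set ℂ := F.map '' ball 0 1

/-- The outer disc of a frame. -/
def body (F : Fr) : Set ℂ := F.map '' ball 0 4

theorem mem_core (F : Fr) (x : ℂ) : x ∈ F.core ↔ ‖x - F.z‖ < ‖F.a‖ := by
  rw [core, mem_image_ball, one_mul]

theorem mem_body (F : Fr) (x : ℂ) : x ∈ F.body ↔ ‖x - F.z‖ < 4 * ‖F.a‖ := mem_image_ball F 4 x

end Fr

/-- Rotation by `j π / 2`. -/
def rotF (j : ℕ) : Fr := ⟨(0, Complex.I ^ j), isQ_zero, isQ_I.pow j, pow_ne_zero j Complex.I_ne_zero⟩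

theorem rotF_z (j : ℕ) : (rotF j).z = 0 := rfl

theorem rotF_a (j : ℕ) : (rotF j).a = Complex.I ^ j := rfl

theorem norm_rotF_a (j : ℕ) : ‖(rotF j).a‖ = 1 := by simp [rotF_a]

theorem norm_rotF_map (j : ℕ) (x : ℂ) : ‖(rotF j).map x‖ = ‖x‖ := by
  simp [Fr.map_apply, rotF_a, rotF_z]

theorem pull_comp (F G : Fr) (s : Sys) : pull (F.comp G) s = pull G (pull F s) := by
  simp only [pull, Fr.comp_act]

theorem pull_swap (F : Fr) (s : Sys) : pull F s.swap = (pull F s).swap := rfl

/-- The larger bar. -/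
noncomputable def Tp : Data := bar (14 / 5) (21 / 10) (12 / 5) (5 / 2)

/-- The smaller bar. -/
noncomputable def Tn : Data := bar (27 / 10) (11 / 5) (23 / 10) (13 / 5)

theorem Rp_eq (s : Idx → ℝ≥0∞) : Rp s = (En s Tp)⁻¹ := rfl

theorem Rm_eq (s : Idx → ℝ≥0∞) : Rm s = (En s Tn)⁻¹ := rfl

/-- The largest resistance of the four bars of a frame. -/
noncomputable def Loop (F : Fr) (s : Sys) : ℝ≥0∞ :=
  ⨆ j : Fin 4, Rp (pull (F.comp (rotF j)) s).1

theorem SS_le (U : Set ℂ) : SS U ≤ (inferInstance : MeasurableSpace Sys) :=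
  iSup₂_le fun i _ => Measurable.comap_le (by fun_prop)

theorem SS_mono {U V : Set ℂ} (h : U ⊆ V) : SS U ≤ SS V :=
  iSup₂_le fun i hi => le_iSup₂_of_le (f := fun (i : Idx) (_ : closure i.1.1 ⊆ V) =>
    MeasurableSpace.comap (fun s : Sys => (s.1 i, s.2 i)) inferInstance) i (hi.trans h) le_rfl

theorem measurable_SS_pair {U : Set ℂ} {i : Idx} (h : closure i.1.1 ⊆ U) :
    Measurable[SS U] fun s : Sys => (s.1 i, s.2 i) :=
  Measurable.of_comap_le (le_iSup₂_of_le (f := fun (i : Idx) (_ : closure i.1.1 ⊆ U) =>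
    MeasurableSpace.comap (fun s : Sys => (s.1 i, s.2 i)) inferInstance) i h le_rfl)

theorem measurable_toSS {A : Type*} {m : MeasurableSpace A} {U : Set ℂ} {f : A → Sys}
    (h : ∀ i : Idx, closure i.1.1 ⊆ U → Measurable fun a => ((f a).1 i, (f a).2 i)) :
    @Measurable A Sys m (SS U) f := by
  refine Measurable.of_comap_le ?_
  simp only [SS, MeasurableSpace.comap_iSup, MeasurableSpace.comap_comp]
  exact iSup₂_le fun i hi => (h i hi).comap_le

theorem measurable_En_fst (y : Data) : Measurable[SS y.1] fun s : Sys => En s.1 y := by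
  refine Measurable.iSup fun i => ?_
  by_cases hi : i.1.Sub y
  · simp only [hi, iSup_pos]
    exact measurable_fst.comp (measurable_SS_pair hi.2.1)
  · simp [hi]

theorem measurable_swap_SS (U : Set ℂ) : @Measurable Sys Sys (SS U) (SS U) Prod.swap :=
  measurable_toSS fun _ hi => measurable_swap.comp (measurable_SS_pair hi)

theorem measurable_En_snd (y : Data) : Measurable[SS y.1] fun s : Sys => En s.2 y :=
  (measurable_En_fst y).comp (measurable_swap_SS y.1)

theorem measurable_pull_SS (F : Fr) (U : Set ℂ) :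
    @Measurable Sys Sys (SS (F.map '' U)) (SS U) (pull F) := by
  refine measurable_toSS fun i hi => measurable_SS_pair (i := F.act i) ?_
  change closure (F.inv ⁻¹' i.1.1) ⊆ _
  rw [← F.image_eq, F.closure_image]
  exact image_mono hi

theorem measurable_pull (F : Fr) : Measurable (pull F) := by
  unfold pull; fun_prop

theorem measurable_Rp_SS : Measurable[SS Tp.1] fun s : Sys => Rp s.1 :=
  (measurable_En_fst Tp).inv

theorem measurable_Rm_SS : Measurable[SS Tn.1] fun s : Sys => Rm s.1 :=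
  (measurable_En_fst Tn).inv

theorem measurable_Rp : Measurable fun s : Sys => Rp s.1 := measurable_Rp_SS.mono (SS_le _) le_rfl

theorem measurable_Rm : Measurable fun s : Sys => Rm s.1 := measurable_Rm_SS.mono (SS_le _) le_rfl

theorem measurable_Loop (F : Fr) : Measurable (Loop F) :=
  Measurable.iSup fun _ => measurable_Rp.comp (measurable_pull _)

theorem Loop_le_iff {F : Fr} {s : Sys} {l : ℝ≥0∞} :
    Loop F s ≤ l ↔ ∀ j < 4, Rp (pull (F.comp (rotF j)) s).1 ≤ l :=
  iSup_le_iff.trans ⟨fun h j hj => h ⟨j, hj⟩, fun h j => h j j.2⟩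

theorem Tp_subset : Tp.1 ⊆ ann 0 2 4 := by
  rintro x ⟨h1, h2, h3⟩
  simp only [rot, pow_zero, one_mul] at h1 h2 h3
  have h4 := Complex.abs_im_le_norm x
  have h5 : ‖x‖ ^ 2 = x.re ^ 2 + x.im ^ 2 := by
    rw [Complex.sq_norm, Complex.normSq_apply]; ring
  have h6 := abs_lt.1 h1
  refine ⟨?_, ?_⟩
  · rw [sub_zero]; linarith [le_abs_self x.im]
  · rw [sub_zero]; nlinarith [norm_nonneg x]

theorem Tn_subset : Tn.1 ⊆ Tp.1 := by
  rintro x ⟨h1, h2, h3⟩
  exact ⟨by linarith, by linarith, by linarith⟩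

theorem ann_subset_U0 : ann 0 2 4 ⊆ U0 := fun x hx => by
  simpa [U0] using hx.2

theorem U0_nice : Nice U0 := ⟨isOpen_ball, convex_ball _ _, subset_rfl⟩

theorem nice_Tp : Nice Tp.1 := by
  have e : Tp.1 = ({x : ℂ | -(14 / 5) < x.re} ∩ {x | x.re < 14 / 5}) ∩
      ({x | 21 / 10 < x.im} ∩ {x | x.im < 12 / 5}) := by
    ext x; simp [Tp, bar, rect, rot, abs_lt]
  refine ⟨?_, ?_, Tp_subset.trans ann_subset_U0⟩
  · rw [e]
    exact ((isOpen_lt continuous_const Complex.continuous_re).inter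
      (isOpen_lt Complex.continuous_re continuous_const)).inter
      ((isOpen_lt continuous_const Complex.continuous_im).inter
        (isOpen_lt Complex.continuous_im continuous_const))
  · rw [e]
    exact ((convex_halfSpace_re_gt _).inter (convex_halfSpace_re_lt _)).inter
      ((convex_halfSpace_im_gt _).inter (convex_halfSpace_im_lt _))

theorem Nice.image {U : Set ℂ} (h : Nice U) {F : Fr} (hF : MapsTo F.map U0 U0) :
    Nice (F.map '' U) := by
  refine ⟨?_, ?_, (hF.mono_left h.2.2).image_subset⟩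
  · rw [F.image_eq]; exact h.1.preimage F.continuous_inv
  · rintro _ ⟨x, hx, rfl⟩ _ ⟨y, hy, rfl⟩ a b ha hb hab
    refine ⟨_, h.2.1 hx hy ha hb hab, ?_⟩
    have : (a : ℂ) + b = 1 := by exact_mod_cast hab
    simp only [Fr.map_apply, Complex.real_smul]
    linear_combination (-F.z) * this

theorem mapsTo_rotF (j : ℕ) : MapsTo (rotF j).map U0 U0 := fun x hx => by
  simpa [U0, norm_rotF_map] using hx

theorem FNet.dual_dual_limE (N : FNet) (x : Data) : N.dual.dual.limE x = N.limE x := by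
  simp only [FNet.limE, FNet.dual, inv_inv]
  rfl

theorem Realized.swap {s : Sys} (h : Realized s) : Realized s.swap := by
  obtain ⟨N, h1, h2⟩ := h
  refine ⟨N.dual, h2, fun i => ?_, fun x i hx => ?_⟩
  · rw [FNet.dual_dual_limE]; exact h1.1 i
  · rw [FNet.dual_dual_limE]; exact h1.2 x i hx

/-- Rows: loops covering a strip bound the resistance of the smaller bar. -/
def N6Stmt : Prop :=
  ∃ C : ℝ≥0∞, C ≠ ⊤ ∧ ∀ s, Realized s → ∀ (ι : Type) (S : Finset ι) (F : ι → Fr)
    (Λ : ι → ℝ≥0∞) (w : ι → ℝ), (∀ i ∈ S, ‖(F i).a‖ ≤ 1 / 1000) → (∀ i ∈ S, 0 < w i) →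
    (∀ x : ℂ, |x.re| ≤ 266 / 100 → 223 / 100 ≤ x.im → x.im ≤ 227 / 100 →
      ∃ i ∈ S, x ∈ (F i).core) →
    (∀ x : ℂ, ∑ i ∈ S, (F i).body.indicator (fun _ => (w i)⁻¹) x ≤ 1) →
    (∀ i ∈ S, Loop (F i) s ≤ Λ i) →
    Rm s.1 ≤ C * ∑ i ∈ S, ENNReal.ofReal (‖(F i).a‖ ^ 2 * w i) * Λ i

/-- Duality at a corner. -/
def N8Stmt : Prop := ∀ s, Realized s → En s.1 Tp ≤ Rp (pull (rotF 1) s).2

end Pool.Agent.QL
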