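import Pool.Agent.P.MP_7a6434d8_pr.QL.Sys
import Pool.Agent.P.MP_7a6434d8_pr.Euler

/-! A quadrangulation as a finite map with both halves of the Hodge decomposition. -/

namespace Pool.Agent.QL

open Pool.Agent.P.MP_7a6434d8_pr

theorem hodge_gen {m : ℕ} (α φ σ : Equiv.Perm (Fin m)) (r : Fin m) (h1 : ∀ d, α (α d) = d)
    (h2 : ∀ d, α d ≠ d) (hσ : ∀ d, σ d = φ (α d))
    (hc : ∀ F : Fin m → ℝ, (∀ d, F (α d) = F d) → (∀ d, F (φ d) = F d) → ∀ d, F d = F r)
    (hd : m + 4 ≤ 2 * (Module.finrank ℝ (eulerInv σ) + Module.finrank ℝ (eulerInv φ)))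
    (ω : Fin m → ℝ) (hω : ∀ d, ω (α d) = -ω d) (ho : ∀ g, Inv φ g → ∑ d, ω d * g d = 0) :
    ∃ F, Inv σ F ∧ ∀ d, ω d = F (α d) - F d := by
  classical
  set G := (eulerInv σ).map (eulerGrad α) with hG
  set C := (eulerInv φ).map (eulerGrad α) with hC
  set W := eulerAnti α ⊓ eulerOrth φ with hW
  have hanti : ∀ F : Fin m → ℝ, eulerGrad α F ∈ eulerAnti α := by
    intro F d
    show F (α (α d)) - F (α d) = -(F (α d) - F d)
    rw [h1]; ring
  have hGW : G ≤ W := by
    rintro _ ⟨F, hF, rfl⟩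
    refine ⟨hanti F, fun g hg => ?_⟩
    have hF' : ∀ d, F (σ d) = F d := hF
    show ∑ d, (F (α d) - F d) * g d = 0
    have e1 : ∑ d, F (φ d) * g (φ d) = ∑ d, F d * g d :=
      Equiv.sum_comp φ (fun d => F d * g d)
    have e2 : ∀ d, F (φ d) = F (α d) := by
      intro d
      have := hF' (α d)
      rwa [hσ, h1] at this
    simp only [sub_mul, Finset.sum_sub_distrib]
    rw [← e1]
    simp only [e2, hg, sub_self]
  have hWC : W ⊓ C = ⊥ := by
    rw [eq_bot_iff]
    rintro ω ⟨⟨ha, ho⟩, g, hg, rfl⟩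
    have hg' : ∀ d, g (φ d) = g d := hg
    set ω := eulerGrad α g with hω
    have ha' : ∀ d, ω (α d) = -ω d := ha
    have e0 : ∑ d, ω d * g d = 0 := ho g hg'
    have e1 : ∑ d, ω (α d) * g (α d) = ∑ d, ω d * g d :=
      Equiv.sum_comp α (fun d => ω d * g d)
    have e2 := euler_sum_anti α ω g ha'
    have e3 : ∑ d, ω d * ω d = 0 := by
      have : ∀ d, ω d * ω d = ω d * g (α d) - ω d * g d := by
        intro d
        have : ω d = g (α d) - g d := rfl
        rw [← mul_sub, ← this]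
      simp only [this, Finset.sum_sub_distrib]
      rw [e2, e1, e0]; simp
    rw [Submodule.mem_bot]
    funext d
    have := (Finset.sum_eq_zero_iff_of_nonneg (fun d _ => mul_self_nonneg (ω d))).1 e3 d
      (Finset.mem_univ d)
    exact mul_self_eq_zero.1 this
  have hsup : W ⊔ C ≤ eulerAnti α := by
    refine sup_le inf_le_left ?_
    rintro _ ⟨g, -, rfl⟩
    exact hanti g
  have d1 := Submodule.finrank_sup_add_finrank_inf_eq W C
  rw [hWC, finrank_bot] at d1
  have d2 := Submodule.finrank_mono hsup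
  have d3 := euler_anti_finrank α h1 h2
  have d4 := euler_map_finrank α r (eulerInv σ) (by
    intro F hF h d
    have hF' : ∀ d, F (σ d) = F d := hF
    refine hc F h (fun d => ?_) d
    have := hF' (α d)
    rw [hσ, h1] at this
    rw [this, h])
  have d5 := euler_map_finrank α r (eulerInv φ) (by
    intro F hF h d
    exact hc F h hF d)
  have hEq : G = W := Submodule.eq_of_le_of_finrank_le hGW (by
    rw [← hG] at d4
    rw [← hC] at d5
    omega)
  have hmem : ω ∈ W := ⟨hω, ho⟩
  rw [← hEq] at hmem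
  obtain ⟨F, hF, hFe⟩ := hmem
  exact ⟨F, hF, fun d => (congrFun hFe d).symm⟩

theorem quad_rank {n : ℕ} (q : Quad n) : 4 * n + 4 ≤
    2 * (Module.finrank ℝ (eulerInv (q.φ * q.α)) + Module.finrank ℝ (eulerInv q.φ)) := by
  have d6 := euler_card_le_finrank (q.φ * q.α)
  have d7 := euler_card_le_finrank q.φ
  have d8 := euler_faces q
  have d9 := q.euler
  omega

/-- The finite map of a quadrangulation. -/
noncomputable def toFMap {n : ℕ} (q : Quad n) : FMap where
  D := Fin (4 * n)
  fin := inferInstance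
  α := q.α
  φ := q.φ
  σ := q.φ * q.α
  α_α := q.α_α
  α_ne := q.α_ne
  σ_eq _ := rfl
  φ_eq d := by simp [q.α_α]
  hodge := hodge_gen q.α q.φ (q.φ * q.α) q.root q.α_α q.α_ne (fun _ => rfl)
    (fun F h1 h2 d => euler_const q F h1 h2 d q.root) (quad_rank q)
  hodge' := hodge_gen q.α (q.φ * q.α) q.φ q.root q.α_α q.α_ne (fun d => by simp [q.α_α])
    (fun F h1 h2 d => euler_const q F h1 (fun e => by
      have := h2 (q.α e)
      rw [Equiv.Perm.mul_apply, q.α_α] at this
      rw [this, h1]) d q.root) (by have := quad_rank q; omega)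

end Pool.Agent.QL
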