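import Pool.Agent.P.MP_ca04ec_pr.Defs
import Pool.Agent.P.MP_7a6434d8_pr.Quad2

/-!
Definitions for the statement: GHP and GHPU distances, convergence in law, the metric graph of a
quadrangulation with its vertex measure and its interpolated random walk, the Liouville quantum
gravity sphere and Liouville Brownian motion.
-/

open MeasureTheory ProbabilityTheory Set Filter Topology Metric
open scoped ENNReal NNReal

namespace Pool.Agent.QL

open Pool.Agent.LGD Pool.Agent.P.MP_7a6434d8_pr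

/-- Infimum over isometric embeddings `ι, ι'` of `(X, d)` and `(Y, d')` in a common metric space
of the Hausdorff distance of the images, plus the Prokhorov distance of the image measures, plus
`S` of the cross distance. -/
noncomputable def gh {X Y : Type} [MeasurableSpace X] [MeasurableSpace Y]
    (d : X → X → ℝ) (ν : Measure X) (d' : Y → Y → ℝ) (ν' : Measure Y)
    (S : (X → Y → ℝ≥0∞) → ℝ≥0∞) : ℝ≥0∞ :=
  ⨅ (W : Type) (_ : MetricSpace W) (_ : MeasurableSpace W) (_ : BorelSpace W) (ι : X → W)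
    (ι' : Y → W) (_ : ∀ x y, dist (ι x) (ι y) = d x y) (_ : ∀ x y, dist (ι' x) (ι' y) = d' x y),
    hausdorffEDist (range ι) (range ι') + levyProkhorovEDist (ν.map ι) (ν'.map ι') +
      S fun x y => edist (ι x) (ι' y)

/-- The curve term of the GHPU distance, for the cross distance `e`. -/
noncomputable def curveTerm {X Y : Type} (η : ℝ≥0 → X) (η' : ℝ≥0 → Y) (e : X → Y → ℝ≥0∞) : ℝ≥0∞ :=
  ∫⁻ T in Ioi (0 : ℝ), ENNReal.ofReal (Real.exp (-T)) *
    min 1 (⨆ (t : ℝ≥0) (_ : (t : ℝ) ≤ T), e (η t) (η' t))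

/-- Convergence in law for the distance `ρ`, in coupling form (outer probability). -/
def ConvLaw {S : ℕ → Type} [∀ n, MeasurableSpace (S n)] {Ω : Type} [MeasurableSpace Ω]
    (Pn : ∀ n, Measure (S n)) (P : Measure Ω) (ρ : ∀ n, S n → Ω → ℝ≥0∞) : Prop :=
  ∀ ε : ℝ≥0∞, 0 < ε → ∀ᶠ n in atTop, ∃ Γ : Measure (S n × Ω),
    Γ.fst = Pn n ∧ Γ.snd = P ∧ Γ {p | ε < ρ n p.1 p.2} ≤ ε

/-- Points of the metric graph: a dart and a position along it. -/
abbrev Pt (n : ℕ) : Type := Fin (4 * n) × unitInterval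

/-- An end of the edge through a point, and the distance to it along the edge. -/
def endOf {n : ℕ} (q : Quad n) (x : Pt n) (b : Bool) : q.Vertex × ℝ :=
  if b then (q.head x.1, 1 - x.2) else (q.tail x.1, x.2)

/-- The path metric of the metric graph with edges of length `(9/8)^{1/4} n^{-1/4}`. -/
noncomputable def mdist {n : ℕ} (q : Quad n) (x y : Pt n) : ℝ :=
  (9 / 8 / n : ℝ) ^ (1 / 4 : ℝ) * sInf {r : ℝ |
    (∃ b b', r = (endOf q x b).2 + q.graph.dist (endOf q x b).1 (endOf q y b').1 +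
      (endOf q y b').2) ∨
    (y.1 = x.1 ∧ r = |(x.2 : ℝ) - y.2|) ∨ (y.1 = q.α x.1 ∧ r = |(x.2 : ℝ) + y.2 - 1|)}

/-- `1/n` times counting measure on vertices. -/
noncomputable def vmeas {n : ℕ} (q : Quad n) : Measure (Pt n) :=
  (n : ℝ≥0∞)⁻¹ • Measure.sum fun v : q.Vertex => Measure.dirac (Quotient.out v, 0)

/-- A uniform dart out of `v`. -/
noncomputable def pick {n : ℕ} (q : Quad n) (v : q.Vertex) : Measure (Fin (4 * n)) :=
  (PMF.uniformOfFinset (q.out v) (q.out_nonempty v)).toMeasure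

/-- The next dart is uniform out of the head of the current dart. -/
noncomputable def next {n : ℕ} (q : Quad n) (t : ℕ) :
    Kernel (Finset.Iic t → Fin (4 * n)) (Fin (4 * n)) :=
  Kernel.ofFunOfCountable fun e => pick q (q.head (e ⟨t, Finset.mem_Iic.2 le_rfl⟩))

instance {n : ℕ} (q : Quad n) (t : ℕ) : IsMarkovKernel (next q t) :=
  ⟨fun _ => PMF.toMeasure.isProbabilityMeasure _⟩

/-- Law of the darts crossed by simple random walk started at `v`. -/
noncomputable def walkLaw {n : ℕ} (q : Quad n) (v : q.Vertex) : Measure (ℕ → Fin (4 * n)) :=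
  Kernel.trajMeasure (X := fun _ => Fin (4 * n)) (pick q v) (next q)

/-- The linearly interpolated walk, one edge per unit of time. -/
noncomputable def curve {n : ℕ} (e : ℕ → Fin (4 * n)) (t : ℝ≥0) : Pt n :=
  (e ⌊t⌋₊, ⟨Int.fract (t : ℝ), Int.fract_nonneg _, (Int.fract_lt_one _).le⟩)

instance (n : ℕ) : MeasurableSpace (RootedQuad n) := ⊤

/-- A uniform rooted quadrangulation with simple random walk from its root vertex. -/
noncomputable def jointLaw (n : ℕ) : Measure (RootedQuad n × (ℕ → Fin (4 * n))) :=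
  (uniformOn univ).bind fun c : RootedQuad n =>
    (walkLaw (Quot.out c) ((Quot.out c).tail (Quot.out c).root)).map (Prod.mk c)

/-- The Riemann sphere. -/
abbrev Sph : Type := OnePoint ℂ

noncomputable instance : MeasurableSpace Sph := borel Sph

/-- `d` is a continuous geodesic metric on the sphere. -/
structure IsGeoMetric (d : Sph → Sph → ℝ) : Prop where
  symm : ∀ x y, d x y = d y x
  triangle : ∀ x y z, d x z ≤ d x y + d y z
  eq_iff : ∀ x y, d x y = 0 ↔ x = y
  cont : Continuous fun p : Sph × Sph => d p.1 p.2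
  geo : ∀ x y, ∃ g : ℝ → Sph, g 0 = x ∧ g 1 = y ∧
    ∀ s ∈ Icc (0 : ℝ) 1, ∀ t ∈ Icc (0 : ℝ) 1, d (g s) (g t) = |s - t| * d x y

/-- `d` and `μ` are the `γ`-LQG metric and area measure of the field `h + f - c`, where `μ₀` is
the area measure of `h`, and the constant `c` makes the area one. -/
def IsSphere (γ : ℝ) (D : Dist → ℂ → ℂ → ℝ) (f : ℂ → ℝ) (h : Dist) (μ₀ : Measure ℂ)
    (d : Sph → Sph → ℝ) (μ : Measure ℂ) : Prop :=
  IsGeoMetric d ∧ IsProbabilityMeasure μ ∧ ∃ c : ℝ,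
    μ = μ₀.withDensity (fun z => ENNReal.ofReal (Real.exp (γ * (f z - c)))) ∧
    ∀ (U : Set ℂ) (g : ℂ → ℝ) (k : Dist), IsOpen U → Continuous g →
      (∀ z ∈ U, z ≠ 0 ∧ z ≠ 1 ∧ g z = f z - c) → IsAdd h g k →
      ∀ x y, internal (fun a b : ℂ => d a b) x y U = internal (D k) x y U

/-- Continuous planar paths. -/
abbrev Path : Type := {w : ℝ≥0 → ℂ // Continuous w}

/-- Translation of a path. -/
def tr (x : ℂ) (w : Path) : Path := ⟨fun t => x + w.1 t, continuous_const.add w.2⟩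

/-- Time shift of a path. -/
def shift (s : ℝ≥0) (w : Path) : Path :=
  ⟨fun t => w.1 (s + t), w.2.comp (continuous_const.add continuous_id)⟩

/-- Law of standard planar Brownian motion started at the origin. -/
structure IsWiener (W : Measure Path) : Prop where
  re : IsPreBrownianReal (fun t w => (w.1 t).re) W
  im : IsPreBrownianReal (fun t w => (w.1 t).im) W
  indep : IndepFun (fun (w : Path) t => (w.1 t).re) (fun (w : Path) t => (w.1 t).im) W

/-- `A` is a positive continuous additive functional of planar Brownian motion, with defining set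
`Λ` and Revuz measure `μ`, strictly increasing to infinity, and `B w` is the path `w` time-changed
by `A`. In the Revuz formula the inner integral is `∫₀ᵗ φ(w s) dA s`, written in the variable
`u = A s`. -/
structure IsClock (W : Measure Path) (μ : Measure ℂ) (A : Path → ℝ≥0 → ℝ≥0) (Λ : Set Path)
    (B : Path → Path) : Prop where
  adapted : ∀ t, @Measurable Path ℝ≥0
    (MeasurableSpace.comap (fun (w : Path) (s : Iic t) => w.1 s) inferInstance) _ fun w => A w t
  measΛ : MeasurableSet Λ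
  shift_mem : ∀ w ∈ Λ, ∀ s, shift s w ∈ Λ
  full : ∀ᵐ x ∂(volume + μ), ∀ᵐ w ∂W, tr x w ∈ Λ
  mono : ∀ w ∈ Λ, StrictMono (A w) ∧ Function.Surjective (A w)
  add : ∀ w ∈ Λ, ∀ s t, A w (s + t) = A w s + A (shift s w) t
  measB : Measurable B
  change : ∀ w ∈ Λ, ∀ t, (B w).1 (A w t) = w.1 t
  revuz : ∀ φ : ℂ → ℝ≥0∞, Measurable φ → ∀ t : ℝ≥0,
    ∫⁻ x, ∫⁻ w, ∫⁻ u in Ioc (0 : ℝ) (A (tr x w) t), φ ((B (tr x w)).1 u.toNNReal) ∂volume ∂W =
      t * ∫⁻ z, φ z ∂μ

/-- `L` is the law of Liouville Brownian motion for the area measure `μ`, started from a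
`μ`-distributed root. -/
def IsLBM (W : Measure Path) (μ : Measure ℂ) (L : Measure Path) : Prop :=
  ∃ A Λ B, IsClock W μ A Λ B ∧ L = (μ.prod W).map fun p => B (tr p.1 p.2)

/-- The statement. -/
def Target : Prop :=
  ∀ (c₀ : ℝ) (_ : 0 < c₀) (D : Dist → ℂ → ℂ → ℝ)
    (_ : IsLQGMetric (√(8 / 3)) (√(8 / 3) / 4) D) (θ : Test) (Θ : ℝ → ℂ → Test)
    (_ : IsMollifier θ Θ) (Ω : Type) [MeasurableSpace Ω] (P₀ P : Measure Ω)
    [IsProbabilityMeasure P₀] [IsProbabilityMeasure P] (_ : P ≪ P₀) (_ : P₀ ≪ P)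
    (h : Ω → Dist) (_ : IsGFF P₀ h) (μ₀ : Ω → Measure ℂ)
    (_ : IsLQGMeasure P₀ h (√(8 / 3)) c₀ Θ μ₀) (f : ℂ → ℝ)
    (_ : ContDiffOn ℝ (⊤ : ℕ∞) f {0, 1}ᶜ) (d : Ω → Sph → Sph → ℝ)
    (_ : ∀ x y, Measurable fun ω => d ω x y) (μ : Ω → Measure ℂ)
    (_ : ∀ᵐ ω ∂P, IsSphere (√(8 / 3)) D f (h ω) (μ₀ ω) (d ω) (μ ω))
    (_ : ConvLaw (fun n => (uniformOn univ : Measure (RootedQuad n))) P fun _ c ω =>
      gh (mdist (Quot.out c)) (vmeas (Quot.out c)) (d ω) ((μ ω).map (↑)) fun _ => 0)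
    (W : Measure Path) (_ : IsWiener W) (L : Kernel Ω Path) [IsMarkovKernel L]
    (_ : ∀ᵐ ω ∂P, IsLBM W (μ ω) (L ω)),
    ∃ a : ℕ → ℝ≥0, (∀ n, 0 < a n) ∧ ConvLaw jointLaw (P ⊗ₘ L) fun n p r =>
      gh (mdist (Quot.out p.1)) (vmeas (Quot.out p.1)) (d r.1) ((μ r.1).map (↑))
        (curveTerm (fun t => curve p.2 (a n * t)) fun t => (r.2.1 t : Sph))

end Pool.Agent.QL
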