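import Pool.Agent.P.MP_7a6434d8_pr.QL.NBasic

/-! Weighted energies along recovery sequences of linear functions. -/

open MeasureTheory Set Filter Topology Metric
open scoped ENNReal

namespace Pool.Agent.QL

theorem nrec_open (x₀ x₁ y₀ y₁ : ℝ) : IsOpen (orect x₀ x₁ y₀ y₁) :=
  (isOpen_Ioo.preimage Complex.continuous_re).inter (isOpen_Ioo.preimage Complex.continuous_im)

theorem nrec_compact (x₀ x₁ y₀ y₁ : ℝ) : IsCompact (crect x₀ x₁ y₀ y₁) :=
  isCompact_Icc.reProdIm isCompact_Icc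

theorem nrec_sub (x₀ x₁ y₀ y₁ : ℝ) : orect x₀ x₁ y₀ y₁ ⊆ crect x₀ x₁ y₀ y₁ :=
  fun _ h => ⟨Ioo_subset_Icc_self h.1, Ioo_subset_Icc_self h.2⟩

theorem nrec_prod (A B : Set ℝ) :
    volume {z : ℂ | z.re ∈ A ∧ z.im ∈ B} = volume A * volume B := by
  have h : {z : ℂ | z.re ∈ A ∧ z.im ∈ B} = Complex.measurableEquivRealProd ⁻¹' (A ×ˢ B) := rfl
  rw [h, Complex.volume_preserving_equiv_real_prod.measure_preimage_equiv, Measure.volume_eq_prod,
    Measure.prod_prod]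

theorem nrec_vol {s₀ s₁ t₀ t₁ : ℝ} (hs : s₀ ≤ s₁) (ht : t₀ ≤ t₁) :
    volume.real (orect s₀ s₁ t₀ t₁) = (s₁ - s₀) * (t₁ - t₀) := by
  rw [Measure.real, orect, nrec_prod, Real.volume_Ioo, Real.volume_Ioo, ENNReal.toReal_mul,
    ENNReal.toReal_ofReal (sub_nonneg.2 hs), ENNReal.toReal_ofReal (sub_nonneg.2 ht)]

theorem nrec_int {h : ℂ → ℝ} (hh : Continuous h) (s₀ s₁ t₀ t₁ : ℝ) :
    IntegrableOn h (orect s₀ s₁ t₀ t₁) :=
  (hh.continuousOn.integrableOn_compact (nrec_compact s₀ s₁ t₀ t₁)).mono_set (nrec_sub _ _ _ _)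

theorem nrec_bdd {h : ℂ → ℝ} (hh : Continuous h) (s₀ s₁ t₀ t₁ : ℝ) :
    ∃ H, 0 ≤ H ∧ ∀ z ∈ orect s₀ s₁ t₀ t₁, |h z| ≤ H := by
  obtain ⟨H, hH⟩ := (nrec_compact s₀ s₁ t₀ t₁).exists_bound_of_continuousOn hh.continuousOn
  exact ⟨max H 0, le_max_right _ _, fun z hz => (hH z (nrec_sub _ _ _ _ hz)).trans (le_max_left _ _)⟩

/-- induction by cutting an interval in short pieces -/
theorem nrec_cut (Q : ℝ → ℝ → Prop) {lo hi ρ : ℝ} (hρ : 0 < ρ)
    (hb : ∀ a b, lo ≤ a → a < b → b ≤ hi → b - a ≤ ρ → Q a b)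
    (hs : ∀ a c b, lo ≤ a → a < c → c < b → b ≤ hi → Q a c → Q c b → Q a b) (h : lo < hi) :
    Q lo hi := by
  have key : ∀ n : ℕ, ∀ a, lo ≤ a → a < hi → hi - a ≤ (n + 1) * ρ → Q a hi := by
    intro n
    induction n with
    | zero => exact fun a h1 h2 h3 => hb a hi h1 h2 le_rfl (by simpa using h3)
    | succ n ih =>
      intro a h1 h2 h3
      rcases le_or_gt (hi - a) ρ with h4 | h4
      · exact hb a hi h1 h2 le_rfl h4
      · refine hs a (a + ρ) hi h1 (by linarith) (by linarith) le_rfl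
          (hb _ _ h1 (by linarith) (by linarith) (by linarith))
          (ih _ (by linarith) (by linarith) ?_)
        push_cast at h3
        linarith
  obtain ⟨n, hn⟩ := exists_nat_ge ((hi - lo) / ρ)
  refine key n lo le_rfl h ?_
  rw [div_le_iff₀ hρ] at hn
  linarith

namespace FNet

variable (N : FNet)

open Classical in
/-- normalised sum over the edges inside `S` -/
noncomputable def Sw (m : ℕ) (S : Set ℂ) (q : (N.M m).D → ℝ) : ℝ :=
  N.κ m * (1 / 2 * ∑ d, if N.In m S d then q d else 0)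

theorem en_Sw (m : ℕ) (S : Set ℂ) (u v : (N.M m).D → ℝ) :
    N.en m S u v = N.Sw m S fun d => N.dd m u d * N.dd m v d := rfl

theorem Sw_mono {m : ℕ} {S : Set ℂ} {q q' : (N.M m).D → ℝ} (h : ∀ d, N.In m S d → q d ≤ q' d) :
    N.Sw m S q ≤ N.Sw m S q' := by
  unfold Sw
  refine mul_le_mul_of_nonneg_left (mul_le_mul_of_nonneg_left
    (Finset.sum_le_sum fun d _ => ?_) (by norm_num)) (N.κ_pos m).le
  split_ifs with h1
  · exact h d h1
  · exact le_rfl

theorem Sw_add (m : ℕ) (S : Set ℂ) (q q' : (N.M m).D → ℝ) :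
    N.Sw m S (fun d => q d + q' d) = N.Sw m S q + N.Sw m S q' := by
  unfold Sw
  rw [← mul_add, ← mul_add, ← Finset.sum_add_distrib]
  congr 2
  refine Finset.sum_congr rfl fun d _ => ?_
  split_ifs <;> simp

theorem Sw_mul (m : ℕ) (S : Set ℂ) (c : ℝ) (q : (N.M m).D → ℝ) :
    N.Sw m S (fun d => c * q d) = c * N.Sw m S q := by
  unfold Sw
  rw [mul_left_comm c, mul_left_comm c, Finset.mul_sum Finset.univ _ c]
  congr 2
  refine Finset.sum_congr rfl fun d _ => ?_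
  split_ifs <;> simp

/-- comparison of linear combinations -/
theorem Sw_le {m : ℕ} {S : Set ℂ} {q q₁ q₂ q₃ : (N.M m).D → ℝ} (a b c : ℝ)
    (h : ∀ d, N.In m S d → q d ≤ a * q₁ d + b * q₂ d + c * q₃ d) :
    N.Sw m S q ≤ a * N.Sw m S q₁ + b * N.Sw m S q₂ + c * N.Sw m S q₃ := by
  rw [← N.Sw_mul, ← N.Sw_mul, ← N.Sw_mul, ← N.Sw_add, ← N.Sw_add]
  exact N.Sw_mono h

theorem Sw_union {m : ℕ} {T T₁ T₂ : Set ℂ} (h₁ : T₁ ⊆ T) (h₂ : T₂ ⊆ T) (hd : Disjoint T₁ T₂)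
    {q : (N.M m).D → ℝ} (hq : ∀ d, N.In m T d → 0 ≤ q d) :
    N.Sw m T₁ q + N.Sw m T₂ q ≤ N.Sw m T q := by
  unfold Sw
  rw [← mul_add, ← mul_add, ← Finset.sum_add_distrib]
  refine mul_le_mul_of_nonneg_left (mul_le_mul_of_nonneg_left
    (Finset.sum_le_sum fun d _ => ?_) (by norm_num)) (N.κ_pos m).le
  by_cases k1 : N.In m T₁ d
  · have k2 : ¬N.In m T₂ d := fun k2 => disjoint_left.1 hd k1.1 k2.1
    rw [if_pos k1, if_neg k2, if_pos (show N.In m T d from ⟨h₁ k1.1, h₁ k1.2⟩), add_zero]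
  · rw [if_neg k1, zero_add]
    by_cases k2 : N.In m T₂ d
    · rw [if_pos k2, if_pos (show N.In m T d from ⟨h₂ k2.1, h₂ k2.2⟩)]
    · rw [if_neg k2]
      split_ifs with k
      · exact hq d k
      · exact le_rfl

/-- weighted lower bound -/
def LB (f : ℂ → ℝ) (h : ℂ → ℝ) (T : Set ℂ) (L : ℝ) : Prop :=
  ∀ ε > 0, ∃ η > 0, ∀ᶠ m in (N.U : Filter ℕ), ∀ w, N.Close m w f T η →
    L - ε ≤ N.Sw m T fun d => h (N.p m d) * (N.dd m w d * N.dd m w d)

theorem LB_union {f h k : ℂ → ℝ} {c : ℝ} {T T₁ T₂ : Set ℂ} (h₁ : T₁ ⊆ T) (h₂ : T₂ ⊆ T)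
    (hd : Disjoint T₁ T₂) (hm : MeasurableSet T₂) (h0 : volume (T \ (T₁ ∪ T₂)) = 0)
    (hk : IntegrableOn k T) (hh : ∀ z ∈ T, 0 ≤ h z) (b₁ : N.LB f h T₁ (c * ∫ z in T₁, k z))
    (b₂ : N.LB f h T₂ (c * ∫ z in T₂, k z)) : N.LB f h T (c * ∫ z in T, k z) := by
  intro ε hε
  obtain ⟨η₁, e₁, b₁⟩ := b₁ (ε / 2) (by positivity)
  obtain ⟨η₂, e₂, b₂⟩ := b₂ (ε / 2) (by positivity)
  refine ⟨min η₁ η₂, lt_min e₁ e₂, ?_⟩
  filter_upwards [b₁, b₂] with m b₁ b₂ w hw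
  have e : ∫ z in T, k z = (∫ z in T₁, k z) + ∫ z in T₂, k z := by
    rw [← setIntegral_union hd hm (hk.mono_set h₁) (hk.mono_set h₂)]
    refine setIntegral_congr_set (ae_eq_set.2 ⟨h0, ?_⟩)
    rw [sdiff_eq_empty.2 (union_subset h₁ h₂), measure_empty]
  have k1 := b₁ w (N.nbasic_close_mono hw h₁ (min_le_left _ _))
  have k2 := b₂ w (N.nbasic_close_mono hw h₂ (min_le_right _ _))
  have k3 := N.Sw_union h₁ h₂ hd (q := fun d => h (N.p m d) * (N.dd m w d * N.dd m w d))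
    fun d hd => mul_nonneg (hh _ hd.1) (mul_self_nonneg _)
  rw [e, mul_add]
  linarith

theorem LB_rect {f h : ℂ → ℝ} {c s₀ s₁ t₀ t₁ : ℝ} (hc : 0 ≤ c) (hs : s₀ < s₁) (ht : t₀ < t₁)
    (hF : ∀ a b a' b', s₀ ≤ a → a < b → b ≤ s₁ → t₀ ≤ a' → a' < b' → b' ≤ t₁ →
      ENNReal.ofReal (c * ((b - a) * (b' - a'))) ≤ N.F f (orect a b a' b'))
    (hh : Continuous h) (h0 : ∀ z ∈ orect s₀ s₁ t₀ t₁, 0 ≤ h z) :
    N.LB f h (orect s₀ s₁ t₀ t₁) (c * ∫ z in orect s₀ s₁ t₀ t₁, h z) := by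
  have key : ∀ δ > 0, N.LB f h (orect s₀ s₁ t₀ t₁) (c * ∫ z in orect s₀ s₁ t₀ t₁, (h z - δ)) := by
    intro δ hδ
    obtain ⟨ρ, hρ, hρ'⟩ := Metric.uniformContinuousOn_iff_le.1
      ((nrec_compact s₀ s₁ t₀ t₁).uniformContinuousOn_of_continuous hh.continuousOn) (δ / 2)
      (by positivity)
    have hk : Continuous fun z => h z - δ := hh.sub continuous_const
    refine nrec_cut (fun a b => N.LB f h (orect a b t₀ t₁) (c * ∫ z in orect a b t₀ t₁, (h z - δ)))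
      (half_pos hρ) (fun a b l1 l2 l3 l4 => ?_) (fun a x b l1 l2 l3 l4 b₁ b₂ => ?_) hs
    · refine nrec_cut (fun a' b' => N.LB f h (orect a b a' b')
        (c * ∫ z in orect a b a' b', (h z - δ))) (half_pos hρ) (fun a' b' k1 k2 k3 k4 => ?_)
        (fun a' x b' k1 k2 k3 k4 b₁ b₂ => ?_) ht
      · have hz : ∀ z ∈ orect a b a' b', |h z - h ⟨a, a'⟩| ≤ δ / 2 := by
          rintro z ⟨⟨z1, z2⟩, z3, z4⟩
          refine hρ' z ⟨⟨by linarith, by linarith⟩, by linarith, by linarith⟩ ⟨a, a'⟩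
            ⟨⟨l1, by linarith⟩, k1, by linarith⟩ ?_
          rw [dist_eq_norm]
          refine (Complex.norm_le_abs_re_add_abs_im _).trans ?_
          rw [Complex.sub_re, Complex.sub_im, abs_of_nonneg (by linarith),
            abs_of_nonneg (by linarith)]
          linarith
        set μ := max (h ⟨a, a'⟩ - δ / 2) 0
        have m0 : 0 ≤ μ := le_max_right _ _
        have i1 : ∫ z in orect a b a' b', (h z - δ) ≤ μ * ((b - a) * (b' - a')) := by
          rw [← nrec_vol l2.le k2.le, mul_comm, ← smul_eq_mul, ← setIntegral_const]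
          refine setIntegral_mono_on (nrec_int hk _ _ _ _) (nrec_int continuous_const _ _ _ _)
            (nrec_open _ _ _ _).measurableSet fun z hz' => le_max_of_le_left ?_
          linarith [(abs_le.1 (hz z hz')).2]
        intro ε hε
        obtain ⟨η, hη, hb⟩ := (N.le_F_iff _ _ _).1 (hF a b a' b' l1 l2 l3 k1 k2 k3) (ε / (μ + 1))
          (by positivity)
        refine ⟨η, hη, hb.mono fun m hb w hw => ?_⟩
        have j1 := mul_le_mul_of_nonneg_left (hb w hw) m0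
        have j2 : μ * (ε / (μ + 1)) ≤ ε := by
          rw [← mul_div_assoc, div_le_iff₀ (by positivity)]; linarith
        have j3 := mul_le_mul_of_nonneg_left i1 hc
        rw [en_Sw, ← Sw_mul] at j1
        refine le_trans (by linarith) (j1.trans (N.Sw_mono fun d hd => ?_))
        refine mul_le_mul_of_nonneg_right (max_le ?_ (h0 _ ?_)) (mul_self_nonneg _)
        · linarith [(abs_le.1 (hz _ hd.1)).1]
        · obtain ⟨⟨z1, z2⟩, z3, z4⟩ := hd.1
          exact ⟨⟨by linarith, by linarith⟩, by linarith, by linarith⟩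
      · refine N.LB_union (T := orect a b a' b') (T₁ := orect a b a' x) (T₂ := orect a b x b')
          (fun z ⟨z1, z2, z3⟩ => ⟨z1, z2, z3.trans k3⟩)
          (fun z ⟨z1, z2, z3⟩ => ⟨z1, k2.trans z2, z3⟩)
          (disjoint_left.2 fun z z1 z2 => lt_asymm z1.2.2 z2.2.1) (nrec_open _ _ _ _).measurableSet
          (measure_mono_null (t := {z : ℂ | z.re ∈ univ ∧ z.im ∈ ({x} : Set ℝ)}) ?_ ?_)
          (nrec_int hk _ _ _ _) (fun z ⟨⟨z1, z2⟩, z3, z4⟩ => h0 z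
            ⟨⟨by linarith, by linarith⟩, by linarith, by linarith⟩) b₁ b₂
        · rintro z ⟨⟨z1, z2, z3⟩, z4⟩
          refine ⟨trivial, by_contra fun z5 => z4 ?_⟩
          rcases lt_or_gt_of_ne z5 with z6 | z6
          exacts [.inl ⟨z1, z2, z6⟩, .inr ⟨z1, z6, z3⟩]
        · rw [nrec_prod]; simp
    · refine N.LB_union (T := orect a b t₀ t₁) (T₁ := orect a x t₀ t₁) (T₂ := orect x b t₀ t₁)
        (fun z ⟨⟨z1, z2⟩, z3⟩ => ⟨⟨z1, z2.trans l3⟩, z3⟩)
        (fun z ⟨⟨z1, z2⟩, z3⟩ => ⟨⟨l2.trans z1, z2⟩, z3⟩)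
        (disjoint_left.2 fun z z1 z2 => lt_asymm z1.1.2 z2.1.1) (nrec_open _ _ _ _).measurableSet
        (measure_mono_null (t := {z : ℂ | z.re ∈ ({x} : Set ℝ) ∧ z.im ∈ univ}) ?_ ?_)
        (nrec_int hk _ _ _ _) (fun z ⟨⟨z1, z2⟩, z3⟩ => h0 z ⟨⟨by linarith, by linarith⟩, z3⟩) b₁ b₂
      · rintro z ⟨⟨⟨z1, z2⟩, z3⟩, z4⟩
        refine ⟨by_contra fun z5 => z4 ?_, trivial⟩
        rcases lt_or_gt_of_ne z5 with z6 | z6
        exacts [.inl ⟨⟨z1, z6⟩, z3⟩, .inr ⟨⟨z6, z2⟩, z3⟩]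
      · rw [nrec_prod]; simp
  intro ε hε
  set A := c * volume.real (orect s₀ s₁ t₀ t₁)
  have hA : 0 ≤ A := mul_nonneg hc measureReal_nonneg
  obtain ⟨η, hη, hb⟩ := key (ε / 2 / (A + 1)) (by positivity) (ε / 2) (by positivity)
  refine ⟨η, hη, hb.mono fun m hb w hw => le_trans ?_ (hb w hw)⟩
  rw [integral_sub (nrec_int hh _ _ _ _) (nrec_int continuous_const _ _ _ _), setIntegral_const,
    smul_eq_mul, mul_sub, ← mul_assoc]
  have j2 : A * (ε / 2 / (A + 1)) ≤ ε / 2 := by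
    rw [← mul_div_assoc, div_le_iff₀ (by positivity)]; linarith
  linarith

theorem Sw_shift (m : ℕ) (S : Set ℂ) (h q : (N.M m).D → ℝ) (H : ℝ) :
    N.Sw m S (fun d => (h d + H) * q d) = N.Sw m S (fun d => h d * q d) + H * N.Sw m S q := by
  rw [← N.Sw_mul, ← N.Sw_add]
  simp only [add_mul]

/-- weighted lower bound for all nonnegative weights -/
def LBa (f : ℂ → ℝ) (S : Set ℂ) (c : ℝ) : Prop :=
  ∀ h : ℂ → ℝ, Continuous h → (∀ z ∈ S, 0 ≤ h z) → N.LB f h S (c * ∫ z in S, h z)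

/-- recovery sequence -/
def Rec (v : ∀ m, (N.M m).D → ℝ) (f : ℂ → ℝ) (S : Set ℂ) (c : ℝ) : Prop :=
  N.LBa f S c ∧ N.Conv v f S ∧
    ∀ ε > 0, ∀ᶠ m in (N.U : Filter ℕ), N.en m S (v m) (v m) ≤ c * volume.real S + ε

variable {N} {s₀ s₁ t₀ t₁ c : ℝ} {f f' : ℂ → ℝ} {v v' : ∀ m, (N.M m).D → ℝ}

theorem Rec.lim (hv : N.Rec v f (orect s₀ s₁ t₀ t₁) c) {h : ℂ → ℝ} (hh : Continuous h) :
    Tendsto (fun m => N.Sw m (orect s₀ s₁ t₀ t₁)
      fun d => h (N.p m d) * (N.dd m (v m) d * N.dd m (v m) d)) N.U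
      (𝓝 (c * ∫ z in orect s₀ s₁ t₀ t₁, h z)) := by
  have low : ∀ h : ℂ → ℝ, Continuous h → ∀ ε > 0, ∀ᶠ m in (N.U : Filter ℕ),
      (c * ∫ z in orect s₀ s₁ t₀ t₁, h z) - ε ≤ N.Sw m (orect s₀ s₁ t₀ t₁)
        fun d => h (N.p m d) * (N.dd m (v m) d * N.dd m (v m) d) := by
    intro h hh ε hε
    obtain ⟨H, H0, hH⟩ := nrec_bdd hh s₀ s₁ t₀ t₁
    obtain ⟨η, hη, hb⟩ := hv.1 (fun z => h z + H) (hh.add continuous_const)
      (fun z hz => by linarith [(abs_le.1 (hH z hz)).1]) (ε / (H + 1)) (by positivity)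
    filter_upwards [hb, hv.2.1 η hη, hv.2.2 (ε / (H + 1)) (by positivity)] with m hb h1 h2
    have h3 := hb _ h1
    rw [integral_add (nrec_int hh _ _ _ _) (nrec_int continuous_const _ _ _ _), setIntegral_const,
      smul_eq_mul, N.Sw_shift, ← en_Sw] at h3
    have h4 := mul_le_mul_of_nonneg_left h2 H0
    have h5 : (H + 1) * (ε / (H + 1)) = ε := by field_simp
    linarith
  refine Metric.tendsto_nhds.2 fun ε hε => ?_
  filter_upwards [low h hh (ε / 2) (by positivity),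
    low (fun z => -1 * h z) (continuous_const.mul hh) (ε / 2) (by positivity)] with m h1 h2
  simp only [mul_assoc (-1 : ℝ)] at h2
  rw [integral_const_mul, N.Sw_mul] at h2
  rw [Real.dist_eq, abs_lt]
  constructor <;> linarith

/-- orthogonality to small functions of bounded energy -/
theorem Rec.orth (hv : N.Rec v f (orect s₀ s₁ t₀ t₁) c) {h : ℂ → ℝ} (hh : Continuous h) (C : ℝ)
    {θ : ℝ} (hθ : 0 < θ) : ∃ η > 0, ∀ᶠ m in (N.U : Filter ℕ), ∀ r,
      N.Close m r (fun _ => 0) (orect s₀ s₁ t₀ t₁) η → N.en m (orect s₀ s₁ t₀ t₁) r r ≤ C →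
      |N.Sw m (orect s₀ s₁ t₀ t₁) fun d => h (N.p m d) * (N.dd m (v m) d * N.dd m r d)| ≤ θ := by
  have pos : ∀ h : ℂ → ℝ, Continuous h → (∀ z ∈ orect s₀ s₁ t₀ t₁, 0 ≤ h z) → ∀ θ > 0,
      ∃ η > 0, ∀ᶠ m in (N.U : Filter ℕ), ∀ r,
      N.Close m r (fun _ => 0) (orect s₀ s₁ t₀ t₁) η → N.en m (orect s₀ s₁ t₀ t₁) r r ≤ C →
      |N.Sw m (orect s₀ s₁ t₀ t₁) fun d => h (N.p m d) * (N.dd m (v m) d * N.dd m r d)| ≤ θ := by
    intro h hh h0 θ hθ
    obtain ⟨H, H0, hH⟩ := nrec_bdd hh s₀ s₁ t₀ t₁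
    have hC : 0 < H * |C| + 1 := by positivity
    obtain ⟨t, ht, ht'⟩ : ∃ t > 0, t * (H * |C| + 1) = θ :=
      ⟨θ / (H * |C| + 1), by positivity, by field_simp⟩
    obtain ⟨η, hη, hb⟩ := hv.1 h hh h0 (t * θ / 2) (by positivity)
    refine ⟨η / 2 / t, by positivity, ?_⟩
    filter_upwards [hb, hv.2.1 (η / 2) (by positivity),
      (hv.lim hh).eventually (gt_mem_nhds (lt_add_of_pos_right _ (by positivity : 0 < t * θ / 2)))]
      with m hb h1 h2 r hr hC'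
    have key : ∀ τ, |τ| = t → -(t * θ) ≤ τ * N.Sw m (orect s₀ s₁ t₀ t₁)
        fun d => h (N.p m d) * (N.dd m (v m) d * N.dd m r d) := by
      intro τ hτ
      have h3 := hb (fun d => v m d + τ * r d) ⟨fun d => by
        beta_reduce; rw [h1.1 d, hr.1 d], fun d hd => by
          have k1 := h1.2 d hd
          have k2 := mul_le_mul_of_nonneg_left (hr.2 d hd) ht.le
          have k3 : t * (η / 2 / t) = η / 2 := by field_simp
          rw [sub_zero, k3, ← hτ, ← abs_mul] at k2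
          rw [add_sub_right_comm]
          exact (abs_add_le _ _).trans (by linarith)⟩
      have h4 := h3.trans (N.Sw_le (q₁ := fun d => h (N.p m d) * (N.dd m (v m) d * N.dd m (v m) d))
        (q₂ := fun d => h (N.p m d) * (N.dd m (v m) d * N.dd m r d))
        (q₃ := fun d => N.dd m r d * N.dd m r d) 1 (2 * τ) (t ^ 2 * H) fun d hd => by
          have e : N.dd m (fun d => v m d + τ * r d) d = N.dd m (v m) d + τ * N.dd m r d := by
            unfold dd; ring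
          have k := mul_le_mul_of_nonneg_right (abs_le.1 (hH _ hd.1)).2
            (mul_self_nonneg (τ * N.dd m r d))
          rw [e, ← hτ, sq_abs]
          linarith)
      rw [← en_Sw] at h4
      have h5 := mul_le_mul_of_nonneg_left (hC'.trans (le_abs_self C))
        (by positivity : 0 ≤ t ^ 2 * H)
      have h6 : t ^ 2 * H * |C| + t ^ 2 = t * θ := by rw [← ht']; ring
      nlinarith [sq_nonneg t]
    have k1 := key t (abs_of_pos ht)
    have k2 := key (-t) (by rw [abs_neg, abs_of_pos ht])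
    rw [abs_le]
    constructor <;> nlinarith
  obtain ⟨H, H0, hH⟩ := nrec_bdd hh s₀ s₁ t₀ t₁
  obtain ⟨η₁, e₁, b₁⟩ := pos (fun z => h z + H) (hh.add continuous_const)
    (fun z hz => by linarith [(abs_le.1 (hH z hz)).1]) (θ / 2) (by positivity)
  obtain ⟨η₂, e₂, b₂⟩ := pos (fun _ => H) continuous_const (fun _ _ => H0) (θ / 2) (by positivity)
  refine ⟨min η₁ η₂, lt_min e₁ e₂, ?_⟩
  filter_upwards [b₁, b₂] with m b₁ b₂ r hr hC
  have k1 := b₁ r (N.nbasic_close_mono hr subset_rfl (min_le_left _ _)) hC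
  have k2 := b₂ r (N.nbasic_close_mono hr subset_rfl (min_le_right _ _)) hC
  rw [N.Sw_shift] at k1
  rw [N.Sw_mul] at k2
  rw [abs_le] at *
  constructor <;> linarith [k1.1, k1.2, k2.1, k2.2]

/-- mixed energies vanish -/
theorem Rec.mix (hv : N.Rec v f (orect s₀ s₁ t₀ t₁) c) (hv' : N.Rec v' f' (orect s₀ s₁ t₀ t₁) c)
    (hL : ∀ τ : ℝ, τ = 1 ∨ τ = -1 → N.LBa (fun z => f z + τ * f' z) (orect s₀ s₁ t₀ t₁) (c * 2))
    {h : ℂ → ℝ} (hh : Continuous h) :
    Tendsto (fun m => N.Sw m (orect s₀ s₁ t₀ t₁)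
      fun d => h (N.p m d) * (N.dd m (v m) d * N.dd m (v' m) d)) N.U (𝓝 0) := by
  have pos : ∀ h : ℂ → ℝ, Continuous h → (∀ z ∈ orect s₀ s₁ t₀ t₁, 0 ≤ h z) →
      Tendsto (fun m => N.Sw m (orect s₀ s₁ t₀ t₁)
        fun d => h (N.p m d) * (N.dd m (v m) d * N.dd m (v' m) d)) N.U (𝓝 0) := by
    intro h hh h0
    have key : ∀ τ : ℝ, τ = 1 ∨ τ = -1 → ∀ ε > 0, ∀ᶠ m in (N.U : Filter ℕ),
        -ε < τ * N.Sw m (orect s₀ s₁ t₀ t₁)
          fun d => h (N.p m d) * (N.dd m (v m) d * N.dd m (v' m) d) := by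
      intro τ hτ ε hε
      have t1 : |τ| = 1 := by rcases hτ with rfl | rfl <;> simp
      have t2 : τ * τ = 1 := by rcases hτ with rfl | rfl <;> simp
      obtain ⟨η, hη, hb⟩ := hL τ hτ h hh h0 (ε / 2) (by positivity)
      filter_upwards [hb, hv.2.1 (η / 2) (by positivity), hv'.2.1 (η / 2) (by positivity),
        (hv.lim hh).eventually (gt_mem_nhds (lt_add_of_pos_right _ (half_pos hε))),
        (hv'.lim hh).eventually (gt_mem_nhds (lt_add_of_pos_right _ (half_pos hε)))]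
        with m hb h1 h1' h2 h2'
      have h3 := hb (fun d => v m d + τ * v' m d) ⟨fun d => by
        beta_reduce; rw [h1.1 d, h1'.1 d], fun d hd => by
          have k1 := h1.2 d hd
          have k2 := h1'.2 d hd
          rw [← one_mul (abs _), ← t1, ← abs_mul] at k2
          rw [add_sub_add_comm, ← mul_sub]
          exact (abs_add_le _ _).trans (by linarith)⟩
      have h4 := h3.trans (N.Sw_le (q₁ := fun d => h (N.p m d) * (N.dd m (v m) d * N.dd m (v m) d))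
        (q₂ := fun d => h (N.p m d) * (N.dd m (v m) d * N.dd m (v' m) d))
        (q₃ := fun d => h (N.p m d) * (N.dd m (v' m) d * N.dd m (v' m) d)) 1 (2 * τ) (τ * τ)
        fun d hd => by
          have e : N.dd m (fun d => v m d + τ * v' m d) d =
              N.dd m (v m) d + τ * N.dd m (v' m) d := by
            unfold dd; ring
          rw [e]
          linarith)
      rw [t2] at h4
      linarith
    refine Metric.tendsto_nhds.2 fun ε hε => ?_
    filter_upwards [key 1 (.inl rfl) ε hε, key (-1) (.inr rfl) ε hε] with m h1 h2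
    rw [Real.dist_eq, abs_lt]
    constructor <;> linarith
  obtain ⟨H, H0, hH⟩ := nrec_bdd hh s₀ s₁ t₀ t₁
  have k := (pos (fun z => h z + H) (hh.add continuous_const)
    (fun z hz => by linarith [(abs_le.1 (hH z hz)).1])).sub
    (pos (fun _ => H) continuous_const fun _ _ => H0)
  rw [sub_zero] at k
  refine k.congr fun m => ?_
  rw [N.Sw_shift, N.Sw_mul, add_sub_cancel_right]

/-- recovered coordinates -/
def Co (N : FNet) (v v' : ∀ m, (N.M m).D → ℝ) (S : Set ℂ) (a : ℝ) : Prop :=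
  N.Rec v (fun z => z.re) S a ∧ N.Rec v' (fun z => z.im) S a ∧
    ∀ τ : ℝ, τ = 1 ∨ τ = -1 → N.LBa (fun z => z.re + τ * z.im) S (a * 2)

theorem exists_co (N : FNet) {a : ℝ} {O : Set ℂ} (ha : 0 ≤ a) (hF : N.Lin a O) (hs : s₀ < s₁)
    (ht : t₀ < t₁) (hO : crect s₀ s₁ t₀ t₁ ⊆ O) : ∃ v v', N.Co v v' (orect s₀ s₁ t₀ t₁) a := by
  have hL : ∀ e ∈ ({1, Complex.I, 1 + Complex.I, 1 - Complex.I} : Set ℂ),
      N.LBa (lin e) (orect s₀ s₁ t₀ t₁) (a * ‖e‖ ^ 2) := fun e he h hh h0 =>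
    N.LB_rect (by positivity) hs ht (fun x y x' y' k1 k2 k3 k4 k5 k6 =>
      (hF e he x y x' y' k2 k5 fun z ⟨⟨z1, z2⟩, z3, z4⟩ =>
        hO ⟨⟨k1.trans z1, z2.trans k3⟩, k4.trans z3, z4.trans k6⟩).ge) hh h0
  have hR : ∀ e ∈ ({1, Complex.I, 1 + Complex.I, 1 - Complex.I} : Set ℂ),
      ∃ v, N.Rec v (lin e) (orect s₀ s₁ t₀ t₁) (a * ‖e‖ ^ 2) := by
    intro e he
    obtain ⟨v, h1, h2⟩ := N.recovery _ _ (mul_nonneg (by positivity)
      (mul_pos (sub_pos.2 hs) (sub_pos.2 ht)).le) (hF e he _ _ _ _ hs ht hO).le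
    exact ⟨v, hL e he, h1, by rwa [nrec_vol hs.le ht.le]⟩
  obtain ⟨v, hv⟩ := hR 1 (by simp)
  obtain ⟨v', hv'⟩ := hR Complex.I (by simp)
  have e1 : lin 1 = fun z => z.re := by ext z; simp [lin]
  have e2 : lin Complex.I = fun z => z.im := by ext z; simp [lin]
  rw [e1, norm_one, one_pow, mul_one] at hv
  rw [e2, Complex.norm_I, one_pow, mul_one] at hv'
  refine ⟨v, v', hv, hv', ?_⟩
  rintro τ (rfl | rfl)
  · convert hL (1 + Complex.I) (by simp) using 2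
    · simp [lin]
    · rw [Complex.sq_norm, Complex.normSq_apply]; norm_num
  · convert hL (1 - Complex.I) (by simp) using 2
    · simp [lin]
    · rw [Complex.sq_norm, Complex.normSq_apply]; norm_num

end FNet

end Pool.Agent.QL
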