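import Pool.Agent.P.MP_7a6434d8_pr.QL.NBasic

open MeasureTheory Set Filter Topology Metric
open scoped ENNReal

namespace Pool.Agent.QL

open Pool.Agent.LGD

theorem ncond_sup {ι : Type} {J : Finset ι} (hJ : J.Nonempty) (f g : ι → ℝ) :
    ∃ i ∈ J, |J.sup' hJ f - J.sup' hJ g| ≤ |f i - g i| := by
  rcases le_total (J.sup' hJ f) (J.sup' hJ g) with h | h
  · obtain ⟨i, hi, e⟩ := J.exists_mem_eq_sup' hJ g
    have := J.le_sup' f hi
    exact ⟨i, hi, abs_le.2 ⟨by linarith [neg_abs_le (f i - g i)],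
      by linarith [abs_nonneg (f i - g i)]⟩⟩
  · obtain ⟨i, hi, e⟩ := J.exists_mem_eq_sup' hJ f
    have := J.le_sup' g hi
    exact ⟨i, hi, abs_le.2 ⟨by linarith [abs_nonneg (f i - g i)],
      by linarith [le_abs_self (f i - g i)]⟩⟩

theorem ncond_inf {ι : Type} {J : Finset ι} (hJ : J.Nonempty) (f g : ι → ℝ) :
    ∃ i ∈ J, |J.inf' hJ f - J.inf' hJ g| ≤ |f i - g i| := by
  rcases le_total (J.inf' hJ f) (J.inf' hJ g) with h | h
  · obtain ⟨i, hi, e⟩ := J.exists_mem_eq_inf' hJ f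
    have := J.inf'_le g hi
    exact ⟨i, hi, abs_le.2 ⟨by linarith [neg_abs_le (f i - g i)],
      by linarith [abs_nonneg (f i - g i)]⟩⟩
  · obtain ⟨i, hi, e⟩ := J.exists_mem_eq_inf' hJ g
    have := J.inf'_le f hi
    exact ⟨i, hi, abs_le.2 ⟨by linarith [abs_nonneg (f i - g i)],
      by linarith [le_abs_self (f i - g i)]⟩⟩

theorem IsQU.ncond_bdd {U : Set ℂ} (h : IsQU U) : Bornology.IsBounded U := by
  obtain ⟨s, hs, rfl⟩ := h
  refine (Bornology.isBounded_biUnion_finset s).2 fun T hT => ?_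
  obtain ⟨c, r, -, -, -, rfl⟩ := hs T hT
  exact isBounded_ball

theorem ncond_ball {O : Set ℂ} (hO : IsOpen O) {x : ℂ} (hx : x ∈ O) :
    ∃ T, IsQBall T ∧ x ∈ T ∧ closure T ⊆ O := by
  obtain ⟨r, hr, h⟩ := Metric.isOpen_iff.1 hO x hx
  obtain ⟨T, h1, h2, -, h3⟩ := exists_isQBall_pair (mem_ball_self hr : x ∈ ball x r)
    (mem_ball_self hr)
  exact ⟨T, h1, h2, h3.trans h⟩

theorem ncond_one {T : Set ℂ} (h : IsQBall T) : IsQU T := ⟨{T}, by simpa using h, by simp⟩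

theorem ncond_cover {K O : Set ℂ} (hK : IsCompact K) (hO : IsOpen O) (h : K ⊆ O) :
    ∃ U, IsQU U ∧ K ⊆ U ∧ closure U ⊆ O := by
  classical
  choose! T h1 h2 h3 using fun x (hx : x ∈ K) => ncond_ball hO (h hx)
  obtain ⟨t, ht, hc⟩ := hK.elim_nhds_subcover T fun x hx => (h1 x hx).isOpen.mem_nhds (h2 x hx)
  refine ⟨⋃ x ∈ t, T x, ⟨t.image T, fun S hS => ?_, by rw [Finset.set_biUnion_finset_image]⟩, hc,
    ?_⟩
  · obtain ⟨x, hx, rfl⟩ := Finset.mem_image.1 hS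
    exact h1 x (ht x hx)
  · rw [Finset.closure_biUnion]
    exact iUnion₂_subset fun x hx => h3 x (ht x hx)

namespace FNet

variable (N : FNet)

theorem ncond_sum (m : ℕ) (S : Set ℂ) {ι : Type} (J : Finset ι) {u : (N.M m).D → ℝ}
    {v : ι → (N.M m).D → ℝ} (h : ∀ d, N.dd m u d ^ 2 ≤ ∑ i ∈ J, N.dd m (v i) d ^ 2) :
    N.en m S u u ≤ ∑ i ∈ J, N.en m S (v i) (v i) := by
  simp only [en]
  rw [← Finset.mul_sum, ← Finset.mul_sum, Finset.sum_comm]
  refine mul_le_mul_of_nonneg_left (mul_le_mul_of_nonneg_left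
    (Finset.sum_le_sum fun d _ => ?_) (by norm_num)) (N.κ_pos m).le
  split_ifs
  · simpa only [pow_two] using h d
  · simp

theorem ncond_dE (m : ℕ) (x : Data) :
    ENNReal.ofReal (N.κ m) * (N.M m).dE (x.pre (N.p m)).1 (x.pre (N.p m)).2 =
      ⨅ (f : (N.M m).D → ℝ) (_ : Inv (N.M m).σ f)
        (_ : ∀ c ∈ x.2, ∀ d, N.p m d ∈ c.1 → f d ∈ Icc c.2.1 c.2.2),
        ENNReal.ofReal (N.en m x.1 f f) := by
  have h0 : ENNReal.ofReal (N.κ m) ≠ 0 := (ENNReal.ofReal_pos.2 (N.κ_pos m)).ne'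
  simp only [FMap.dE, ENNReal.mul_iInf_of_ne h0 ENNReal.ofReal_ne_top, Data.pre,
    List.forall_mem_map, en_eq, ENNReal.ofReal_mul (N.κ_pos m).le, mem_preimage]

theorem Cut.mono {N : FNet} {A B A' B' : Set ℂ} {M M' : ℝ} (h : N.Cut A B M) (hA : A' ⊆ A)
    (hB : B ⊆ B') (hM : M ≤ M') : N.Cut A' B' M' := by
  filter_upwards [h] with m ⟨χ, h1, h2, h3, h4, h5⟩
  exact ⟨χ, h1, h2, fun d hd => h3 d (hA hd), fun d hd => h4 d fun h => hd (hB h), h5.trans hM⟩

theorem CondGe.mono {N : FNet} {K A B K' A' B' : Set ℂ} {M M' : ℝ} (h : N.CondGe K A B M)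
    (hK : K ⊆ K') (hA : A ⊆ A') (hB : B ⊆ B') (hM : M' ≤ M) : N.CondGe K' A' B' M' := by
  filter_upwards [h] with m hm g h1 h2 h3
  exact hM.trans ((hm g h1 (fun d hd => h2 d (hA hd)) fun d hd => h3 d (hB hd)).trans
    (N.en_mono m hK g))

theorem CondGe.symm {N : FNet} {K A B : Set ℂ} {M : ℝ} (h : N.CondGe K A B M) :
    N.CondGe K B A M := by
  filter_upwards [h] with m hm g h1 h2 h3
  refine (hm (fun d => 1 - g d) (fun d => congrArg (1 - ·) (h1 d))
    (fun d hd => by linarith [h3 d hd]) fun d hd => by linarith [h2 d hd]).trans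
    (N.en_le_of_dd m K fun d _ => ?_)
  simp only [dd]
  rw [sub_sub_sub_cancel_left, abs_sub_comm]

/-- cutoffs for finite unions -/
theorem cut_union {ι : Type} (J : Finset ι) (A B : ι → Set ℂ) (M : ι → ℝ)
    (h : ∀ i ∈ J, N.Cut (A i) (B i) (M i)) :
    N.Cut (⋃ i ∈ J, A i) (⋃ i ∈ J, B i) (∑ i ∈ J, M i) := by
  rcases J.eq_empty_or_nonempty with rfl | hJ
  · refine Eventually.of_forall fun m => ⟨fun _ => 0, fun _ => rfl, fun _ => ⟨le_rfl, zero_le_one⟩,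
      fun d hd => by simp at hd, fun _ _ => rfl, ?_⟩
    simp [en, dd]
  filter_upwards [(Finset.eventually_all J).2 h] with m hm
  choose! χ h1 h2 h3 h4 h5 using hm
  refine ⟨fun d => J.sup' hJ fun i => χ i d, fun d => ?_, fun d => ⟨?_, ?_⟩, fun d hd => ?_,
    fun d hd => ?_, (N.ncond_sum m univ J (v := χ) fun d => ?_).trans (Finset.sum_le_sum h5)⟩
  · exact Finset.sup'_congr hJ rfl fun i hi => h1 i hi d
  · obtain ⟨i, hi⟩ := hJ
    exact (h2 i hi d).1.trans (J.le_sup' (fun i => χ i d) hi)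
  · exact Finset.sup'_le _ _ fun i hi => (h2 i hi d).2
  · obtain ⟨i, hi, hd⟩ := mem_iUnion₂.1 hd
    refine le_antisymm (Finset.sup'_le _ _ fun i hi => (h2 i hi d).2) ?_
    rw [← h3 i hi d hd]
    exact J.le_sup' (fun i => χ i d) hi
  · exact Finset.sup'_eq_of_forall _ _ fun i hi => h4 i hi d fun h => hd (mem_biUnion hi h)
  · obtain ⟨i, hi, e⟩ := ncond_sup hJ (fun i => χ i ((N.M m).α d)) fun i => χ i d
    exact (sq_le_sq.2 e).trans
      (Finset.single_le_sum (f := fun i => N.dd m (χ i) d ^ 2) (fun _ _ => sq_nonneg _) hi)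

/-- subadditivity of conductance -/
theorem cond_pigeon {ι ι' : Type} (J : Finset ι) (J' : Finset ι') (hJ : J.Nonempty)
    (hJ' : J'.Nonempty) (K : Set ℂ) (A : ι → Set ℂ) (B : ι' → Set ℂ) (M : ℝ)
    (h : N.CondGe K (⋃ i ∈ J, A i) (⋃ j ∈ J', B j) (J.card * J'.card * M)) :
    ∃ i ∈ J, ∃ j ∈ J', N.CondGe K (A i) (B j) M := by
  by_contra hn
  have h1 : ∀ x ∈ J ×ˢ J', ∀ᶠ m in (N.U : Filter ℕ), ∃ g : (N.M m).D → ℝ, Inv (N.M m).σ g ∧
      (∀ d, N.p m d ∈ A x.1 → g d ≤ 0) ∧ (∀ d, N.p m d ∈ B x.2 → 1 ≤ g d) ∧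
        N.en m K g g < M := by
    intro x hx
    have h2 : ¬ N.CondGe K (A x.1) (B x.2) M := fun h2 =>
      hn ⟨x.1, (Finset.mem_product.1 hx).1, x.2, (Finset.mem_product.1 hx).2, h2⟩
    filter_upwards [Ultrafilter.eventually_not.2 h2] with m hm
    by_contra h3
    exact hm fun g g1 g2 g3 => not_lt.1 fun g4 => h3 ⟨g, g1, g2, g3, g4⟩
  obtain ⟨m, hm, hm'⟩ := (((Finset.eventually_all _).2 h1).and h).exists
  choose! g g1 g2 g3 g4 using hm
  have h2 := hm' (fun d => J.inf' hJ fun i => J'.sup' hJ' fun j => g (i, j) d)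
    (fun d => Finset.inf'_congr hJ rfl fun i hi => Finset.sup'_congr hJ' rfl fun j hj =>
      g1 _ (Finset.mk_mem_product hi hj) d) (fun d hd => ?_) fun d hd => ?_
  · refine (h2.trans (N.ncond_sum m K (J ×ˢ J') (v := g) fun d => ?_)).not_gt ?_
    · obtain ⟨i, hi, e⟩ := ncond_inf hJ (fun i => J'.sup' hJ' fun j => g (i, j) ((N.M m).α d))
        fun i => J'.sup' hJ' fun j => g (i, j) d
      obtain ⟨j, hj, e'⟩ := ncond_sup hJ' (fun j => g (i, j) ((N.M m).α d)) fun j => g (i, j) d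
      exact (sq_le_sq.2 (e.trans e')).trans (Finset.single_le_sum
        (f := fun x => N.dd m (g x) d ^ 2) (fun _ _ => sq_nonneg _) (Finset.mk_mem_product hi hj))
    · refine (Finset.sum_lt_sum_of_nonempty (hJ.product hJ') g4).trans_eq ?_
      rw [Finset.sum_const, Finset.card_product, nsmul_eq_mul, Nat.cast_mul]
  · obtain ⟨i, hi, hd⟩ := mem_iUnion₂.1 hd
    exact (J.inf'_le _ hi).trans (Finset.sup'_le _ _ fun j hj =>
      g2 _ (Finset.mk_mem_product hi hj) d hd)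
  · obtain ⟨j, hj, hd⟩ := mem_iUnion₂.1 hd
    exact Finset.le_inf' _ _ fun i hi => (g3 _ (Finset.mk_mem_product hi hj) d hd).trans
      (J'.le_sup' (fun j => g (i, j) d) hj)

/-- from the system to the net -/
theorem condGe_of_en {s : Idx → ℝ≥0∞} (h : N.Real1 s) (K A B : Set ℂ) {M : ℝ}
    (hM : ENNReal.ofReal M < En s (K, [(A, 0, 0), (B, 1, 1)])) : N.CondGe K A B M := by
  obtain ⟨i, hi⟩ := lt_iSup_iff.1 hM
  obtain ⟨⟨-, h1, h2⟩, hi⟩ := lt_iSup_iff.1 hi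
  filter_upwards [eventually_lt_of_lt_liminf (hi.trans_le (h.1 i))] with m hm g g1 g2 g3
  rw [ncond_dE] at hm
  have h3 := hm.trans_le (iInf_le_of_le (fun d => max 0 (min 1 (g d))) (iInf₂_le
    (fun d => congrArg (fun t => max 0 (min 1 t)) (g1 d)) fun c hc d hd => ?_))
  · have h4 := lt_of_not_ge fun h4 => h3.not_ge (ENNReal.ofReal_le_ofReal h4)
    refine h4.le.trans ((N.en_mono m (subset_closure.trans h1) _).trans
      (N.en_le_of_dd m K fun d _ => ?_))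
    refine (abs_max_sub_max_le_max _ _ _ _).trans (max_le (by simp) ?_)
    exact (abs_min_sub_min_le_max _ _ _ _).trans (max_le (by simp) le_rfl)
  · obtain ⟨-, c', hc', e1, e2, e3⟩ := h2 c hc
    have h4 := (e1 (subset_closure hd)).1
    simp only [List.mem_cons, List.not_mem_nil, or_false] at hc'
    beta_reduce
    rcases hc' with rfl | rfl
    · rw [max_eq_left ((min_le_right _ _).trans (g2 d h4))]
      exact ⟨e2, e3⟩
    · rw [min_eq_left (g3 d h4), max_eq_right zero_le_one]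
      exact ⟨e2, e3⟩

/-- from the net to the system -/
theorem le_en_of_condGe {s : Idx → ℝ≥0∞} (h : N.Real1 s) {K A B K' A' B' : Set ℂ} {M : ℝ}
    (hK' : IsOpen K') (hA' : IsOpen A') (hB' : IsOpen B') (hb : Bornology.IsBounded K')
    (hK : closure K ⊆ K') (hA : closure A ⊆ A' ∩ K') (hB : closure B ⊆ B' ∩ K')
    (hc : N.CondGe K A B M) : ENNReal.ofReal M ≤ En s (K', [(A', 0, 0), (B', 1, 1)]) := by
  have hbd : ∀ {X : Set ℂ}, closure X ⊆ K' → Bornology.IsBounded X := fun h =>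
    hb.subset (subset_closure.trans h)
  have bA := hbd (hA.trans inter_subset_right)
  have bB := hbd (hB.trans inter_subset_right)
  obtain ⟨K₁, k1, k2, k3⟩ := ncond_cover
    (((hbd hK).isCompact_closure.union bA.isCompact_closure).union bB.isCompact_closure) hK'
    (union_subset (union_subset hK (hA.trans inter_subset_right)) (hB.trans inter_subset_right))
  obtain ⟨A₁, a1, a2, a3⟩ := ncond_cover bA.isCompact_closure (hA'.inter hK') hA
  obtain ⟨B₁, b1, b2, b3⟩ := ncond_cover bB.isCompact_closure (hB'.inter hK') hB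
  let i : Idx := ⟨(K₁, [(A₁, 0, 0), (B₁, 1, 1)]), k1, List.forall_mem_cons.2
    ⟨⟨a1, ⟨0, by simp⟩, 0, by simp⟩, List.forall_mem_singleton.2 ⟨b1, ⟨1, by simp⟩, 1, by simp⟩⟩⟩
  have h1 : Data.Sub (K, [(A, 0, 0), (B, 1, 1)]) i.1 :=
    ⟨hbd hK, (subset_union_left.trans subset_union_left).trans k2, List.forall_mem_cons.2
      ⟨⟨bA, (A₁, 0, 0), List.mem_cons_self, subset_inter a2
        ((subset_union_right.trans subset_union_left).trans k2), le_rfl, le_rfl⟩,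
      List.forall_mem_singleton.2 ⟨bB, (B₁, 1, 1), List.mem_cons_of_mem _ List.mem_cons_self,
        subset_inter b2 (subset_union_right.trans k2), le_rfl, le_rfl⟩⟩⟩
  have h2 : i.1.Sub (K', [(A', 0, 0), (B', 1, 1)]) :=
    ⟨k1.ncond_bdd, k3, List.forall_mem_cons.2
      ⟨⟨a1.ncond_bdd, (A', 0, 0), List.mem_cons_self, a3, le_rfl, le_rfl⟩,
      List.forall_mem_singleton.2 ⟨b1.ncond_bdd, (B', 1, 1),
        List.mem_cons_of_mem _ List.mem_cons_self, b3, le_rfl, le_rfl⟩⟩⟩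
  refine le_trans ?_ ((h.2 _ i h1).trans (le_iSup₂_of_le i h2 le_rfl))
  refine le_liminf_of_le (by isBoundedDefault) ?_
  filter_upwards [hc] with m hm
  rw [ncond_dE]
  refine le_iInf fun f => le_iInf₂ fun f1 f2 => ENNReal.ofReal_le_ofReal (hm f f1 ?_ ?_)
  · exact fun d hd => (f2 (A, 0, 0) List.mem_cons_self d hd).2
  · exact fun d hd => (f2 (B, 1, 1) (List.mem_cons_of_mem _ List.mem_cons_self) d hd).1

theorem ncond_le {s : Idx → ℝ≥0∞} (h : N.Real1 s) {f : ℂ → ℝ} (hf : Continuous f) {S : Set ℂ} :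
    FS s f S ≤ ⨆ (K : Set ℂ) (_ : IsCompact K) (_ : K ⊆ S), N.F f K := by
  refine iSup_le fun i => iSup₂_le fun h1 h2 => ?_
  have hc : ∀ c ∈ i.1.2, IsCompact (closure c.1) := fun c hc =>
    (i.2.2 c hc).1.ncond_bdd.isCompact_closure
  have hfin := i.1.2.finite_toSet
  have hη : ∀ᶠ η in 𝓝[>] (0 : ℝ), ∀ c ∈ {c | c ∈ i.1.2}, ∀ z ∈ closure c.1,
      η ≤ min (f z - c.2.1) (c.2.2 - f z) := by
    refine (eventually_all_finite hfin).2 fun c hc' => ?_
    obtain ⟨a, ha, h3⟩ := (hc c hc').exists_forall_le'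
      (f := fun z => min (f z - c.2.1) (c.2.2 - f z)) (by fun_prop) (a := 0) fun z hz =>
        lt_min (sub_pos.2 ((h2 c hc').2 z hz).1) (sub_pos.2 ((h2 c hc').2 z hz).2)
    filter_upwards [mem_nhdsWithin_of_mem_nhds (Iic_mem_nhds ha)] with η hη z hz
    exact le_trans hη (h3 z hz)
  obtain ⟨η, h3, h4⟩ := (hη.and self_mem_nhdsWithin).exists
  refine le_iSup_of_le (closure i.1.1 ∪ ⋃ c ∈ {c | c ∈ i.1.2}, closure c.1) (le_iSup₂_of_le
    (i.2.1.ncond_bdd.isCompact_closure.union (hfin.isCompact_biUnion hc))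
    (union_subset h1 (iUnion₂_subset fun c hc => (h2 c hc).1)) ?_)
  refine (h.1 i).trans (le_iSup₂_of_le η h4 (liminf_le_liminf (Eventually.of_forall fun m => ?_)))
  rw [ncond_dE]
  refine le_iInf₂ fun v hv => iInf_le_of_le v (iInf₂_le_of_le hv.1 (fun c hc d hd => ?_)
    (ENNReal.ofReal_le_ofReal (N.en_mono m (subset_closure.trans subset_union_left) v)))
  have h5 := abs_le.1 (hv.2 d (Or.inr (mem_biUnion hc (subset_closure hd))))
  have h6 := le_min_iff.1 (h3 c hc _ (subset_closure hd))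
  exact ⟨by linarith [h5.1, h6.1], by linarith [h5.2, h6.2]⟩

theorem ncond_ge {s : Idx → ℝ≥0∞} (h : N.Real1 s) {f : ℂ → ℝ} (hf : Continuous f) {S K : Set ℂ}
    (hS : IsOpen S) (hK : IsCompact K) (hKS : K ⊆ S) : N.F f K ≤ FS s f S := by
  refine iSup₂_le fun η hη => ?_
  have h1 : ∀ x ∈ K, ∃ (T C : Set ℂ) (a b : ℚ), IsQBall T ∧ IsCompact C ∧ C ∈ 𝓝 x ∧ C ⊆ T ∧
      closure T ⊆ S ∩ f ⁻¹' Ioo (a : ℝ) b ∧ (b : ℝ) - a ≤ η := by
    intro x hx
    obtain ⟨a, a1, a2⟩ := exists_rat_btwn (show f x - η / 2 < f x by linarith)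
    obtain ⟨b, b1, b2⟩ := exists_rat_btwn (show f x < f x + η / 2 by linarith)
    obtain ⟨T, t1, t2, t3⟩ := ncond_ball (hS.inter (isOpen_Ioo.preimage hf))
      (show x ∈ S ∩ f ⁻¹' Ioo (a : ℝ) b from ⟨hKS hx, a2, b1⟩)
    obtain ⟨C, c1, c2, c3⟩ := local_compact_nhds (t1.isOpen.mem_nhds t2)
    exact ⟨T, C, a, b, t1, c3, c1, c2, t3, by linarith⟩
  choose! T C a b t1 c1 c2 c3 t2 hab using h1
  obtain ⟨t, ht, hc⟩ := hK.elim_nhds_subcover C c2
  obtain ⟨K₁, k1, k2, k3⟩ := ncond_cover hK hS hKS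
  have ht' : ∀ x ∈ t.toList, x ∈ K := fun x hx => ht x (Finset.mem_toList.1 hx)
  let i : Idx := ⟨(K₁, t.toList.map fun x => (T x, (a x : ℝ), (b x : ℝ))), k1,
    List.forall_mem_map.2 fun x hx => ⟨ncond_one (t1 x (ht' x hx)), ⟨_, rfl⟩, _, rfl⟩⟩
  have h2 : Data.Sub (K, t.toList.map fun x => (C x ∩ K, (a x : ℝ), (b x : ℝ))) i.1 := by
    refine ⟨hK.isBounded, hK.isClosed.closure_subset.trans k2, List.forall_mem_map.2 fun x hx =>
      ⟨hK.isBounded.subset inter_subset_right, _, List.mem_map.2 ⟨x, hx, rfl⟩, ?_, le_rfl, le_rfl⟩⟩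
    exact ((c1 x (ht' x hx)).isClosed.inter hK.isClosed).closure_subset.trans
      (inter_subset_inter (c3 x (ht' x hx)) k2)
  refine le_trans ?_ ((h.2 _ i h2).trans (le_iSup_of_le i (le_iSup₂_of_le k3
    (List.forall_mem_map.2 fun x hx => ⟨(t2 x (ht' x hx)).trans inter_subset_left,
      fun z hz => (t2 x (ht' x hx) hz).2⟩) le_rfl)))
  refine liminf_le_liminf (Eventually.of_forall fun m => ?_)
  rw [ncond_dE]
  refine le_iInf fun v => le_iInf₂ fun v1 v2 => iInf₂_le v ⟨v1, fun d hd => ?_⟩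
  obtain ⟨x, hx, hd'⟩ := mem_iUnion₂.1 (hc hd)
  have h3 := v2 _ (List.mem_map.2 ⟨x, Finset.mem_toList.2 hx, rfl⟩) d ⟨hd', hd⟩
  have h4 := (t2 x (ht x hx) (subset_closure (c3 x (ht x hx) hd'))).2
  have h5 := hab x (ht x hx)
  exact abs_le.2 ⟨by linarith [h3.1, h4.2], by linarith [h3.2, h4.1]⟩

/-- the relaxed energy read from the system is the inner regularisation of that of the net -/
theorem fs_eq {s : Idx → ℝ≥0∞} (h : N.Real1 s) {f : ℂ → ℝ} (hf : Continuous f) {S : Set ℂ}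
    (hS : IsOpen S) : FS s f S = ⨆ (K : Set ℂ) (_ : IsCompact K) (_ : K ⊆ S), N.F f K :=
  le_antisymm (N.ncond_le h hf) (iSup_le fun _ => iSup₂_le fun hK hKS => N.ncond_ge h hf hS hK hKS)

end FNet

end Pool.Agent.QL
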