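import Pool.Agent.P.MP_7a6434d8_pr.QL.NCross
import Pool.Agent.P.MP_7a6434d8_pr.QL.NCond

open MeasureTheory Set Filter Topology Metric
open scoped ENNReal

namespace Pool.Agent.QL

open Pool.Agent.LGD

namespace FNet

variable (N : FNet)

/-- A cheap dual function between bottom and top gives a large left-right conductance. -/
theorem cond_of_dual {ζ : ℂ} (hζ : ‖ζ‖ = 1) {x₀ x₁ y₀ y₁ δ B M : ℝ} (hx : x₀ < x₁) (hy : y₀ < y₁)
    (hδ : 0 < δ) (hB : 0 ≤ B) (hM : 4 * B * M < 1)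
    (h : ¬ N.dual.CondGe {z | ζ * z ∈ orect x₀ x₁ y₀ y₁} {z | ζ * z ∈ orect x₀ x₁ y₀ (y₀ + δ)}
      {z | ζ * z ∈ orect x₀ x₁ (y₁ - δ) y₁} B) :
    N.CondGe {z | ζ * z ∈ orect x₀ x₁ y₀ y₁} {z | ζ * z ∈ orect x₀ (x₀ + δ) y₀ y₁}
      {z | ζ * z ∈ orect (x₁ - δ) x₁ y₀ y₁} M := by
  classical
  have h' := (Ultrafilter.eventually_not (f := N.U)).2 h
  filter_upwards [h', N.cut_cross hζ hx hy hδ] with m hm hc g hg hg0 hg1
  push Not at hm
  obtain ⟨ψ, hψ, hψ0, hψ1, hen⟩ := hm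
  set K : Set ℂ := {z | ζ * z ∈ orect x₀ x₁ y₀ y₁} with hK
  have hψ' : ∀ d, ψ ((N.M m).φ d) = ψ d := hψ
  have key := N.coarea m K ψ g (t₀ := 0) (t₁ := 1) (ω := 1) zero_le_one zero_le_one (by
    intro t ht
    obtain ⟨d, e, hd, he, hp⟩ := hc {d | t < ψ d}
      (fun d => by simp only [mem_ofPred_eq, hψ' d])
      (fun d hd => lt_of_lt_of_le ht.2 (hψ1 d hd))
      (fun d hd hlt => absurd (lt_of_lt_of_le hlt (hψ0 d hd)) (not_lt.2 ht.1.le))
    have h1 := N.var_le m _ g hg hp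
    have h2 := hg0 d hd
    have h3 := hg1 e he
    have h4 : 1 ≤ |g d - g e| := by
      rw [abs_sub_comm]
      exact le_trans (by linarith) (le_abs_self _)
    refine le_trans h4 (le_trans h1 (le_of_eq ?_))
    refine Finset.sum_congr rfl fun x _ => ?_
    exact if_congr Iff.rfl rfl rfl)
  have e1 := N.en_nonneg m K g
  have e2 := N.dual.en_nonneg m K ψ
  by_contra hlt
  push Not at hlt
  have e3 : N.dual.en m K ψ ψ * N.en m K g g ≤ B * M :=
    mul_le_mul hen.le hlt.le e1 hB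
  nlinarith

theorem nls_not_cond {f : ℂ → ℝ} {S A A' : Set ℂ} {c η ε p q B : ℝ} (hc : 0 ≤ c) (hη : 0 < η)
    (hε : 0 < ε) (hF : N.F f S ≤ ENNReal.ofReal c) (hA : A ⊆ S) (hA' : A' ⊆ S)
    (h0 : ∀ z ∈ A, ∀ y, |y - f z| ≤ η → p * y + q ≤ 0)
    (h1 : ∀ z ∈ A', ∀ y, |y - f z| ≤ η → 1 ≤ p * y + q) (hB : p ^ 2 * (c + ε) < B) :
    ¬ N.CondGe S A A' B := by
  intro h
  obtain ⟨m, hm, v, hv, hen⟩ := (h.and ((N.F_le_iff f S hc).1 hF η hη ε hε)).exists
  have h2 := hm (fun d => p * v d + q) (fun d => by simp only [hv.1 d])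
    (fun d hd => h0 _ hd _ (hv.2 d (hA hd))) (fun d hd => h1 _ hd _ (hv.2 d (hA' hd)))
  rw [N.en_affine_left, N.en_comm, N.en_affine_left] at h2
  have h3 : p * (p * N.en m S v v) = p ^ 2 * N.en m S v v := by ring
  have h4 : p ^ 2 * N.en m S v v ≤ p ^ 2 * (c + ε) :=
    mul_le_mul_of_nonneg_left hen (sq_nonneg _)
  linarith

theorem nls_num {a W H M δ' : ℝ} (ha : 0 ≤ a) (hW : 0 < W) (hH : 0 < H) (hM : 0 < M)
    (hδ : 0 < δ') (hδH : δ' ≤ H / 100) (h : M * (5 * a) * W < H) :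
    ∃ ε B : ℝ, 0 < ε ∧ 0 ≤ B ∧ 4 * B * M < 1 ∧
      (1 / (H - 4 * δ')) ^ 2 * (a * (W * H) + ε) < B := by
  have hH' : 0 < H - 4 * δ' := by linarith
  have hε : 0 < H ^ 2 / (100 * M) := by positivity
  have hp : 0 < (1 / (H - 4 * δ')) ^ 2 := by positivity
  refine ⟨H ^ 2 / (100 * M), (1 / (H - 4 * δ')) ^ 2 * (a * (W * H) + 2 * (H ^ 2 / (100 * M))),
    hε, by positivity, ?_, ?_⟩
  · have e1 : 4 * ((1 / (H - 4 * δ')) ^ 2 * (a * (W * H) + 2 * (H ^ 2 / (100 * M)))) * M =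
        (4 * (M * a * W) * H + 8 * H ^ 2 / 100) / (H - 4 * δ') ^ 2 := by
      field_simp
      ring
    rw [e1, div_lt_one (by positivity)]
    have e2 : 4 * (M * a * W) * H ≤ 4 / 5 * H ^ 2 := by nlinarith
    have e3 : (24 / 25 * H) ^ 2 ≤ (H - 4 * δ') ^ 2 := by
      apply pow_le_pow_left₀ (by positivity)
      linarith
    nlinarith [sq_pos_of_pos hH]
  · exact mul_lt_mul_of_pos_left (by linarith) hp

/-- Cheap dual coordinates give primal conductances. -/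
theorem ls_of_dual {a : ℝ} (ha : 0 ≤ a) {O : Set ℂ} (h : N.dual.Lin a O) : N.LS (5 * a) O := by
  intro x₀ x₁ y₀ y₁ δ M hx hy hO hδ
  have hW : 0 < x₁ - x₀ := sub_pos.2 hx
  have hH : 0 < y₁ - y₀ := sub_pos.2 hy
  have triv : M ≤ 0 → ∀ K A A' : Set ℂ, N.CondGe K A A' M := fun hM K A A' =>
    Eventually.of_forall fun m g _ _ _ => hM.trans (N.en_nonneg m K g)
  constructor
  · intro hM
    rcases le_or_gt M 0 with hM0 | hM0
    · exact triv hM0 _ _ _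
    set δ' := min δ ((y₁ - y₀) / 100) with hδ'
    have hδ0 : 0 < δ' := lt_min hδ (by positivity)
    have hδ1 : δ' ≤ δ := min_le_left _ _
    have hδ2 : δ' ≤ (y₁ - y₀) / 100 := min_le_right _ _
    obtain ⟨ε, B, hε, hB, hBM, hlt⟩ := nls_num ha hW hH hM0 hδ0 hδ2 hM
    have hF := h Complex.I (by simp) x₀ x₁ y₀ y₁ hx hy hO
    rw [Complex.norm_I, one_pow, mul_one] at hF
    have hp : 0 < y₁ - y₀ - 4 * δ' := by linarith
    have hn := N.dual.nls_not_cond (S := orect x₀ x₁ y₀ y₁) (A := orect x₀ x₁ y₀ (y₀ + δ'))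
      (A' := orect x₀ x₁ (y₁ - δ') y₁) (p := 1 / (y₁ - y₀ - 4 * δ'))
      (q := -(y₀ + 2 * δ') / (y₁ - y₀ - 4 * δ')) (by positivity) hδ0 hε hF.le
      (fun z hz => ⟨hz.1, hz.2.1, by linarith [hz.2.2]⟩)
      (fun z hz => ⟨hz.1, by linarith [hz.2.1], hz.2.2⟩)
      (fun z hz y hy' => by
        have e1 : lin Complex.I z = z.im := by simp [lin]
        rw [e1, abs_le] at hy'
        have e2 : 1 / (y₁ - y₀ - 4 * δ') * y + -(y₀ + 2 * δ') / (y₁ - y₀ - 4 * δ') =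
            (y - (y₀ + 2 * δ')) / (y₁ - y₀ - 4 * δ') := by ring
        rw [e2]
        exact div_nonpos_of_nonpos_of_nonneg (by linarith [hz.2.2, hy'.2]) hp.le)
      (fun z hz y hy' => by
        have e1 : lin Complex.I z = z.im := by simp [lin]
        rw [e1, abs_le] at hy'
        have e2 : 1 / (y₁ - y₀ - 4 * δ') * y + -(y₀ + 2 * δ') / (y₁ - y₀ - 4 * δ') =
            (y - (y₀ + 2 * δ')) / (y₁ - y₀ - 4 * δ') := by ring
        rw [e2, le_div_iff₀ hp]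
        linarith [hz.2.1, hy'.1]) hlt
    have hc := N.cond_of_dual (ζ := 1) norm_one hx hy hδ0 hB hBM (by
      simpa only [one_mul, ofPred_mem_eq] using hn)
    simp only [one_mul, ofPred_mem_eq] at hc
    exact hc.mono subset_rfl (fun z hz => ⟨⟨hz.1.1, by linarith [hz.1.2]⟩, hz.2⟩)
      (fun z hz => ⟨⟨by linarith [hz.1.1], hz.1.2⟩, hz.2⟩) le_rfl
  · intro hM
    rcases le_or_gt M 0 with hM0 | hM0
    · exact triv hM0 _ _ _
    set δ' := min δ ((x₁ - x₀) / 100) with hδ'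
    have hδ0 : 0 < δ' := lt_min hδ (by positivity)
    have hδ1 : δ' ≤ δ := min_le_left _ _
    have hδ2 : δ' ≤ (x₁ - x₀) / 100 := min_le_right _ _
    obtain ⟨ε, B, hε, hB, hBM, hlt⟩ := nls_num ha hH hW hM0 hδ0 hδ2 hM
    have hF := h 1 (by simp) x₀ x₁ y₀ y₁ hx hy hO
    rw [norm_one, one_pow, mul_one, mul_comm (x₁ - x₀)] at hF
    have hp : 0 < x₁ - x₀ - 4 * δ' := by linarith
    have hmem : ∀ (s₀ s₁ t₀ t₁ : ℝ) (z : ℂ), -Complex.I * z ∈ orect s₀ s₁ t₀ t₁ ↔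
        z ∈ orect (-t₁) (-t₀) s₀ s₁ := by
      intro s₀ s₁ t₀ t₁ z
      have e1 : (-Complex.I * z).re = z.im := by simp
      have e2 : (-Complex.I * z).im = -z.re := by simp
      simp only [orect, mem_ofPred_eq, e1, e2, mem_Ioo]
      constructor
      · rintro ⟨⟨h1, h2⟩, h3, h4⟩
        exact ⟨⟨by linarith, by linarith⟩, h1, h2⟩
      · rintro ⟨⟨h1, h2⟩, h3, h4⟩
        exact ⟨⟨h3, h4⟩, by linarith, by linarith⟩
    have hn := N.dual.nls_not_cond (S := orect x₀ x₁ y₀ y₁) (A := orect (x₁ - δ') x₁ y₀ y₁)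
      (A' := orect x₀ (x₀ + δ') y₀ y₁) (p := -(1 / (x₁ - x₀ - 4 * δ')))
      (q := (x₁ - 2 * δ') / (x₁ - x₀ - 4 * δ')) (B := B) (by positivity) hδ0 hε hF.le
      (fun z hz => ⟨⟨by linarith [hz.1.1], hz.1.2⟩, hz.2⟩)
      (fun z hz => ⟨⟨hz.1.1, by linarith [hz.1.2]⟩, hz.2⟩)
      (fun z hz y hy' => by
        have e1 : lin 1 z = z.re := by simp [lin]
        rw [e1, abs_le] at hy'
        have e2 : -(1 / (x₁ - x₀ - 4 * δ')) * y + (x₁ - 2 * δ') / (x₁ - x₀ - 4 * δ') =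
            (x₁ - 2 * δ' - y) / (x₁ - x₀ - 4 * δ') := by ring
        rw [e2]
        exact div_nonpos_of_nonpos_of_nonneg (by linarith [hz.1.1, hy'.1]) hp.le)
      (fun z hz y hy' => by
        have e1 : lin 1 z = z.re := by simp [lin]
        rw [e1, abs_le] at hy'
        have e2 : -(1 / (x₁ - x₀ - 4 * δ')) * y + (x₁ - 2 * δ') / (x₁ - x₀ - 4 * δ') =
            (x₁ - 2 * δ' - y) / (x₁ - x₀ - 4 * δ') := by ring
        rw [e2, le_div_iff₀ hp]
        linarith [hz.1.2, hy'.2]) (by rw [neg_sq]; exact hlt)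
    have hc := N.cond_of_dual (ζ := -Complex.I) (by simp) (x₀ := y₀) (x₁ := y₁) (y₀ := -x₁)
      (y₁ := -x₀) hy (by linarith) hδ0 hB hBM (by
        simp only [hmem, ofPred_mem_eq, neg_neg, neg_add, neg_sub]
        have e1 : x₁ + -δ' = x₁ - δ' := by ring
        have e2 : δ' - -x₀ = x₀ + δ' := by ring
        rw [e1, e2]
        exact hn)
    simp only [hmem, ofPred_mem_eq, neg_neg] at hc
    exact hc.mono subset_rfl (fun z hz => ⟨hz.1, hz.2.1, by linarith [hz.2.2]⟩)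
      (fun z hz => ⟨hz.1, by linarith [hz.2.1], hz.2.2⟩) le_rfl

end FNet

end Pool.Agent.QL
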