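import Pool.Agent.P.MP_7a6434d8_pr.QL.GRCut

/-! Uniform decorrelation of small discs from the whole field, and the germ zero-one law. -/

open MeasureTheory ProbabilityTheory Set Filter Topology Metric
open scoped ENNReal

namespace Pool.Agent.QL

open Pool.Agent.LGD

theorem gr_process {ν : Measure Dist} (hν : IsCanon ν) :
    IsGaussianProcess (fun (φ : Test) (k : Dist) => k φ) ν := by
  classical
  refine ⟨fun I => ⟨isGaussian_of_isGaussian_map fun L => ?_⟩⟩
  have hem : Measurable (fun (k : Dist) (φ : Test) => k φ) := measurable_pi_lambda _ measurable_eval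
  have hm : Measurable (fun k : Dist => I.restrict (fun φ : Test => k φ)) :=
    (Finset.measurable_restrict I).comp hem
  set φ : Test := ∑ i : I, L (Pi.single i 1) • (i : Test) with hφ
  have hL : ∀ k : Dist, L (I.restrict (fun φ : Test => k φ)) = k φ := by
    intro k
    have : I.restrict (fun φ : Test => k φ) =
        ∑ i : I, k (i : Test) • (Pi.single i 1 : I → ℝ) := by
      funext j
      simp [Finset.sum_apply, Pi.single_apply]
    rw [this, hφ, map_sum, map_sum]
    simp [mul_comm]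
  rw [Measure.map_map L.continuous.measurable hm]
  have e : (L ∘ fun k : Dist => I.restrict (fun φ : Test => k φ)) = fun k : Dist => k φ :=
    funext hL
  rw [e]
  exact (hν.gauss φ).isGaussian_map

theorem gr_sigma_le (U : Set ℂ) : fieldSigma id U ≤ instMSDist :=
  iSup₂_le fun φ _ => (measurable_eval φ).comap_le

theorem gr_sigma_mono {U V : Set ℂ} (h : U ⊆ V) :
    fieldSigma (id : Dist → Dist) U ≤ fieldSigma id V :=
  iSup₂_le fun φ hφ => le_iSup₂_of_le (f := fun (φ : Test) (_ : tsupport φ ⊆ V) =>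
    MeasurableSpace.comap (fun k : Dist => (id k) φ) (borel ℝ)) φ (hφ.trans h) le_rfl

theorem gr_indep {ν : Measure Dist} (hν : IsCanon ν) (η : Test) (U : Set ℂ)
    (h : ∀ χ : Test, tsupport χ ⊆ U → cv χ η = 0) (Y : Dist → ℝ)
    (hY : @Measurable Dist ℝ (fieldSigma id U) _ Y) (F : ℝ → ℝ) (hF : Measurable F) :
    IndepFun Y (fun k : Dist => F (k η)) ν := by
  have := hν.prob
  let S := {χ : Test // tsupport χ ⊆ U}
  let X : S → Dist → ℝ := fun s k => k s.1
  let W : Unit → Dist → ℝ := fun _ k => k η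
  have hXW : IsGaussianProcess (Sum.elim X W) ν := by
    have h1 := (gr_process hν).comp_right (Sum.elim (fun s : S => s.1) (fun _ : Unit => η))
    refine h1.congr fun t => ?_
    rcases t with s | u
    · exact Filter.EventuallyEq.rfl
    · exact Filter.EventuallyEq.rfl
  have hI := hXW.indepFun_of_covariance_eq_zero (fun s => (measurable_eval s.1).aemeasurable)
    (fun _ => (measurable_eval η).aemeasurable) (fun s _ => by
      rw [covariance_eq_sub (hν.memLp s.1 2 (by norm_num)) (hν.memLp η 2 (by norm_num))]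
      have h1 : ∫ k, (X s * W ()) k ∂ν = 0 := by
        have := hν.cov s.1 η
        rw [h s.1 s.2] at this
        exact this
      have h2 : ∫ k, X s k ∂ν = 0 := hν.mean s.1
      change ∫ k, (X s * W ()) k ∂ν - (∫ k, X s k ∂ν) * _ = 0
      rw [h1, h2]; simp)
  rw [IndepFun_iff_Indep] at hI ⊢
  refine indep_of_indep_of_le_left (indep_of_indep_of_le_right hI ?_) ?_
  · have e : (fun k : Dist => F (k η)) =
        (fun g : Unit → ℝ => F (g ())) ∘ (fun (k : Dist) (t : Unit) => W t k) := rfl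
    rw [e, ← MeasurableSpace.comap_comp]
    exact MeasurableSpace.comap_mono (hF.comp (measurable_pi_apply ())).comap_le
  · refine hY.comap_le.trans (iSup₂_le fun φ hφ => ?_)
    have e : (fun k : Dist => (id k) φ) =
        (fun g : S → ℝ => g ⟨φ, hφ⟩) ∘ (fun (k : Dist) (s : S) => X s k) := rfl
    rw [e, ← MeasurableSpace.comap_comp]
    exact MeasurableSpace.comap_mono (measurable_pi_apply (⟨φ, hφ⟩ : S)).comap_le

theorem gr_cs {Ω : Type*} [MeasurableSpace Ω] {μ : Measure Ω} {Y H : Ω → ℝ}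
    (hY : MemLp Y 2 μ) (hH : MemLp H 2 μ) :
    |∫ k, Y k * H k ∂μ| ≤ √(∫ k, Y k ^ 2 ∂μ) * √(∫ k, H k ^ 2 ∂μ) := by
  have iY : Integrable (fun k => Y k ^ 2) μ := hY.integrable_sq
  have iH : Integrable (fun k => H k ^ 2) μ := hH.integrable_sq
  have iYH : Integrable (fun k => Y k * H k) μ := hY.integrable_mul hH
  have key : ∀ t : ℝ, 0 ≤ (∫ k, Y k ^ 2 ∂μ) * (t * t) + 2 * (∫ k, Y k * H k ∂μ) * t +
      ∫ k, H k ^ 2 ∂μ := by
    intro t
    have e : ∫ k, (t * Y k + H k) ^ 2 ∂μ = (∫ k, Y k ^ 2 ∂μ) * (t * t) +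
        2 * (∫ k, Y k * H k ∂μ) * t + ∫ k, H k ^ 2 ∂μ := by
      have e1 : (fun k => (t * Y k + H k) ^ 2) =
          fun k => (t * t * Y k ^ 2 + 2 * t * (Y k * H k)) + H k ^ 2 := by
        funext k; ring
      have i1 : Integrable (fun k => t * t * Y k ^ 2 + 2 * t * (Y k * H k)) μ :=
        (iY.const_mul _).add (iYH.const_mul _)
      rw [e1, integral_add i1 iH,
        integral_add (iY.const_mul _) (iYH.const_mul _), integral_const_mul, integral_const_mul]
      ring
    rw [← e]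
    exact integral_nonneg fun k => sq_nonneg _
  have hd := discrim_le_zero key
  rw [discrim] at hd
  rw [← Real.sqrt_mul (integral_nonneg fun k => sq_nonneg _)]
  exact Real.abs_le_sqrt (by nlinarith)

theorem gr_cs1 {Ω : Type*} [MeasurableSpace Ω] {μ : Measure Ω} [IsProbabilityMeasure μ]
    {Y : Ω → ℝ} (hY : MemLp Y 2 μ) : |∫ k, Y k ∂μ| ≤ √(∫ k, Y k ^ 2 ∂μ) := by
  have := gr_cs hY (memLp_const (μ := μ) (p := 2) (1 : ℝ))
  simpa using this

theorem gr_cs2 {Ω : Type*} [MeasurableSpace Ω] {μ : Measure Ω} [IsProbabilityMeasure μ]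
    {Y H : Ω → ℝ} (hY : MemLp Y 2 μ) (hH : MemLp H 2 μ) :
    |∫ k, Y k * H k ∂μ - (∫ k, Y k ∂μ) * ∫ k, H k ∂μ| ≤
      2 * √(∫ k, H k ^ 2 ∂μ) * √(∫ k, Y k ^ 2 ∂μ) := by
  have h1 := gr_cs hY hH
  have h2 : |(∫ k, Y k ∂μ) * ∫ k, H k ∂μ| ≤ √(∫ k, Y k ^ 2 ∂μ) * √(∫ k, H k ^ 2 ∂μ) := by
    rw [abs_mul]
    exact mul_le_mul (gr_cs1 hY) (gr_cs1 hH) (abs_nonneg _) (Real.sqrt_nonneg _)
  have h3 := abs_sub (∫ k, Y k * H k ∂μ) ((∫ k, Y k ∂μ) * ∫ k, H k ∂μ)
  linarith

theorem gr_split {Ω : Type*} [MeasurableSpace Ω] {μ : Measure Ω} [IsProbabilityMeasure μ]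
    {Y G H : Ω → ℝ} (hY : MemLp Y 2 μ) (hG : MemLp G 2 μ) (hH : MemLp H 2 μ) :
    ∫ k, Y k * (G k + H k) ∂μ - (∫ k, Y k ∂μ) * ∫ k, (G k + H k) ∂μ =
      (∫ k, Y k * G k ∂μ - (∫ k, Y k ∂μ) * ∫ k, G k ∂μ) +
        (∫ k, Y k * H k ∂μ - (∫ k, Y k ∂μ) * ∫ k, H k ∂μ) := by
  have e : (fun k => Y k * (G k + H k)) = fun k => Y k * G k + Y k * H k := by
    funext k; ring
  have i1 : Integrable (fun k => Y k * G k) μ := hY.integrable_mul hG
  have i2 : Integrable (fun k => Y k * H k) μ := hY.integrable_mul hH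
  rw [e, integral_add i1 i2,
    integral_add (hG.integrable one_le_two) (hH.integrable one_le_two)]
  ring

/-- The decorrelation property. -/
def GRP (ν : Measure Dist) (G : Dist → ℝ) : Prop :=
  ∀ ε : ℝ, 0 < ε → ∃ r > 0, ∀ z : ℂ, ‖z‖ ≤ 4 → ∀ Y : Dist → ℝ,
    @Measurable Dist ℝ (fieldSigma id (ball z r)) _ Y → MemLp Y 2 ν →
    |∫ k, Y k * G k ∂ν - (∫ k, Y k ∂ν) * ∫ k, G k ∂ν| ≤ ε * √(∫ k, Y k ^ 2 ∂ν)

theorem GRP.congr {ν : Measure Dist} {G G' : Dist → ℝ} (h : GRP ν G) (e : G =ᵐ[ν] G') :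
    GRP ν G' := by
  intro ε hε
  obtain ⟨r, hr, H⟩ := h ε hε
  refine ⟨r, hr, fun z hz Y hY hY2 => ?_⟩
  have e1 : ∫ k, Y k * G' k ∂ν = ∫ k, Y k * G k ∂ν :=
    integral_congr_ae (e.mono fun k hk => by simp only [hk])
  rw [e1, ← integral_congr_ae e]
  exact H z hz Y hY hY2

theorem GRP.add {ν : Measure Dist} [IsProbabilityMeasure ν] {G H : Dist → ℝ} (h1 : GRP ν G)
    (h2 : GRP ν H) (hG : MemLp G 2 ν) (hH : MemLp H 2 ν) : GRP ν (fun k => G k + H k) := by
  intro ε hε
  obtain ⟨r₁, hr₁, H₁⟩ := h1 (ε / 2) (by positivity)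
  obtain ⟨r₂, hr₂, H₂⟩ := h2 (ε / 2) (by positivity)
  refine ⟨min r₁ r₂, lt_min hr₁ hr₂, fun z hz Y hY hY2 => ?_⟩
  have a1 := H₁ z hz Y (hY.mono (gr_sigma_mono (ball_subset_ball (min_le_left _ _))) le_rfl) hY2
  have a2 := H₂ z hz Y (hY.mono (gr_sigma_mono (ball_subset_ball (min_le_right _ _))) le_rfl) hY2
  rw [gr_split hY2 hG hH]
  refine (abs_add_le _ _).trans ?_
  linarith

theorem GRP.smul {ν : Measure Dist} {G : Dist → ℝ} (h : GRP ν G) (c : ℝ) :
    GRP ν (fun k => c * G k) := by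
  intro ε hε
  have hc : 0 < |c| + 1 := by positivity
  obtain ⟨r, hr, H⟩ := h (ε / (|c| + 1)) (by positivity)
  refine ⟨r, hr, fun z hz Y hY hY2 => ?_⟩
  have a := H z hz Y hY hY2
  have e : (fun k => Y k * (c * G k)) = fun k => c * (Y k * G k) := by funext k; ring
  rw [e, integral_const_mul, integral_const_mul]
  have e2 : c * ∫ k, Y k * G k ∂ν - (∫ k, Y k ∂ν) * (c * ∫ k, G k ∂ν) =
      c * (∫ k, Y k * G k ∂ν - (∫ k, Y k ∂ν) * ∫ k, G k ∂ν) := by ring
  rw [e2, abs_mul]
  have hs := Real.sqrt_nonneg (∫ k, Y k ^ 2 ∂ν)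
  calc |c| * |∫ k, Y k * G k ∂ν - (∫ k, Y k ∂ν) * ∫ k, G k ∂ν|
      ≤ (|c| + 1) * (ε / (|c| + 1) * √(∫ k, Y k ^ 2 ∂ν)) :=
        mul_le_mul (by linarith) a (abs_nonneg _) hc.le
    _ = ε * √(∫ k, Y k ^ 2 ∂ν) := by field_simp

theorem GRP.lim {ν : Measure Dist} [IsProbabilityMeasure ν] {G : Dist → ℝ} (hG : MemLp G 2 ν)
    (h : ∀ δ : ℝ, 0 < δ → ∃ G' : Dist → ℝ, MemLp G' 2 ν ∧ GRP ν G' ∧
      √(∫ k, (G k - G' k) ^ 2 ∂ν) ≤ δ) : GRP ν G := by
  intro ε hε
  obtain ⟨G', hG', hP, hd⟩ := h (ε / 4) (by positivity)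
  obtain ⟨r, hr, H⟩ := hP (ε / 2) (by positivity)
  refine ⟨r, hr, fun z hz Y hY hY2 => ?_⟩
  have a1 := H z hz Y hY hY2
  have hD : MemLp (fun k => G k - G' k) 2 ν := hG.sub hG'
  have a2 := gr_cs2 hY2 hD
  have e := gr_split hY2 hG' hD
  simp only [add_sub_cancel] at e
  rw [e]
  refine (abs_add_le _ _).trans ?_
  have hs := Real.sqrt_nonneg (∫ k, Y k ^ 2 ∂ν)
  nlinarith

theorem gr_base {ν : Measure Dist} (hν : IsCanon ν) (F : ℝ → ℝ) (hF : Measurable F)
    (hb : ∀ x, |F x| ≤ 1) (hl : ∀ x y, |F x - F y| ≤ |x - y|) (φ : Test) :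
    GRP ν (fun k => F (k φ)) := by
  have := hν.prob
  have hmem : ∀ χ : Test, MemLp (fun k : Dist => F (k χ)) 2 ν := fun χ =>
    MemLp.of_bound (hF.comp (measurable_eval χ)).aestronglyMeasurable 1
      (Eventually.of_forall fun k => hb _)
  intro ε hε
  have hg : Smooth (shift (cen φ)) := (pot_smooth (cen φ)).sub contDiff_const
  obtain ⟨r, hr, H⟩ := gr_cutoff _ hg ((ε / 2) ^ 2) (by positivity)
  refine ⟨r, hr, fun z hz Y hY hY2 => ?_⟩
  obtain ⟨f, hf1, hf2, hf3⟩ := H z hz
  set η : Test := φ - lap0 f with hη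
  have hcv : ∀ χ : Test, tsupport χ ⊆ ball z r → cv χ η = 0 := by
    intro χ hχ
    have c1 : cen η = cen φ - lap0 f := by
      rw [hη, cen, cen, integral_test_sub, integral_lap0, sub_zero]; abel
    have c2 : logCov (cen χ) (cen φ) = ∫ x, shift (cen φ) x * χ x := by
      rw [integral_shift _ (integral_cen φ), cv, cen_cen]
    have c3 : ∫ x, psi x * f x = 0 := by
      have : ∀ x, psi x * f x = 0 := by
        intro x
        by_cases hx : x ∈ tsupport psi
        · have h5 := (psi_supp hx).1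
          have : x ∉ tsupport f := fun h => by
            have := hf2 h
            rw [mem_ball, dist_eq_norm] at this
            linarith
          rw [image_eq_zero_of_notMem_tsupport this, mul_zero]
        · rw [image_eq_zero_of_notMem_tsupport hx, zero_mul]
      simp [this]
    have c4 : ∫ x, cen χ x * f x = ∫ x, shift (cen φ) x * χ x := by
      have e : (fun x => cen χ x * f x) =
          fun x => shift (cen φ) x * χ x - (∫ x, χ x) * (psi x * f x) := by
        funext x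
        change (χ x - (∫ x, χ x) * psi x) * f x = _
        by_cases hx : x ∈ tsupport χ
        · rw [← hf1 x (hχ hx)]; ring
        · rw [image_eq_zero_of_notMem_tsupport hx]; ring
      rw [e, integral_sub (χ.integrable_mul (shift_continuous _))
        ((f.integrable_mul psi.continuous).const_mul _), integral_const_mul, c3]
      simp
    rw [cv, c1, logCov_sub_right, logCov_lap0, c2, c4, sub_self]
  have hI := gr_indep hν η _ hcv Y hY F hF
  have a1 : ∫ k, Y k * F (k η) ∂ν = (∫ k, Y k ∂ν) * ∫ k, F (k η) ∂ν :=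
    hI.integral_fun_mul_eq_mul_integral hY2.1 (hmem η).1
  have hD : MemLp (fun k : Dist => F (k φ) - F (k η)) 2 ν := (hmem φ).sub (hmem η)
  have a2 := gr_cs2 hY2 hD
  have e := gr_split hY2 (hmem η) hD
  simp only [add_sub_cancel] at e
  rw [e, a1, sub_self, zero_add]
  refine a2.trans (mul_le_mul_of_nonneg_right ?_ (Real.sqrt_nonneg _))
  have a3 : ∫ k, (F (k φ) - F (k η)) ^ 2 ∂ν ≤ ∫ k, k (lap0 f) * k (lap0 f) ∂ν := by
    refine integral_mono hD.integrable_sq
      ((hν.memLp _ 2 (by norm_num)).integrable_mul (hν.memLp _ 2 (by norm_num))) fun k => ?_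
    have h1 := hl (k φ) (k η)
    have h2 : k φ - k η = k (lap0 f) := by rw [hη, map_sub]; ring
    rw [h2] at h1
    have := sq_le_sq.2 h1
    simpa [sq] using this
  rw [hν.cov, cv_of_zero (integral_lap0 f) (integral_lap0 f)] at a3
  have a4 : √(∫ k, (F (k φ) - F (k η)) ^ 2 ∂ν) ≤ ε / 2 :=
    Real.sqrt_le_iff.2 ⟨by positivity, a3.trans ((energy_le' f).trans hf3)⟩
  linarith

theorem gr_ext {ν₁ ν₂ : Measure Dist} [IsFiniteMeasure ν₁] [IsFiniteMeasure ν₂]
    (h : ∀ φ : Test, ∫ k, Complex.exp ((k φ : ℝ) * Complex.I) ∂ν₁ =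
      ∫ k, Complex.exp ((k φ : ℝ) * Complex.I) ∂ν₂) : ν₁ = ν₂ := by
  classical
  set e : Dist → Test → ℝ := fun k φ => k φ with he
  have hem : Measurable e := measurable_pi_lambda _ measurable_eval
  have hfin : ∀ I : Finset Test, ν₁.map (fun k => I.restrict (e k)) =
      ν₂.map (fun k => I.restrict (e k)) := by
    intro I
    have hm : Measurable (fun k => I.restrict (e k)) := (Finset.measurable_restrict I).comp hem
    refine Measure.ext_of_charFunDual (funext fun L => ?_)
    set φ : Test := ∑ i : I, L (Pi.single i 1) • (i : Test) with hφ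
    have hL : ∀ k : Dist, L (I.restrict (e k)) = k φ := by
      intro k
      have : I.restrict (e k) = ∑ i : I, k (i : Test) • (Pi.single i 1 : I → ℝ) := by
        funext j
        simp [Finset.sum_apply, Pi.single_apply, he]
      rw [this, hφ, map_sum, map_sum]
      simp [mul_comm]
    have key : ∀ ν : Measure Dist, charFunDual (ν.map (fun k => I.restrict (e k))) L =
        ∫ k, Complex.exp ((k φ : ℝ) * Complex.I) ∂ν := by
      intro ν
      rw [charFunDual_apply, integral_map hm.aemeasurable (by fun_prop)]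
      simp only [hL]
    rw [key, key, h]
  have hmap : ν₁.map e = ν₂.map e := by
    have h1 := isProjectiveLimit_map (X := fun φ k => e k φ) (P := ν₁) hem.aemeasurable
    have h2 := isProjectiveLimit_map (X := fun φ k => e k φ) (P := ν₂) hem.aemeasurable
    have h3 : (fun I : Finset Test => ν₂.map (fun k => I.restrict (e k))) =
        fun I : Finset Test => ν₁.map (fun k => I.restrict (e k)) := funext fun I => (hfin I).symm
    have h2' : IsProjectiveLimit (ν₂.map e)
        (fun I : Finset Test => ν₁.map (fun k => I.restrict (e k))) := h3 ▸ h2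
    exact IsProjectiveLimit.unique h1 h2'
  ext s hs
  have hs' : MeasurableSet[MeasurableSpace.comap e inferInstance] s := by
    rw [he, ← instMSDist_eq]; exact hs
  obtain ⟨t, ht, rfl⟩ := hs'
  rw [← Measure.map_apply hem ht, ← Measure.map_apply hem ht, hmap]

theorem gr_uniq {ν : Measure Dist} [IsFiniteMeasure ν] {G : Dist → ℝ} (hm : Measurable G)
    (hi : Integrable G ν) (hc : ∀ φ : Test, ∫ k, Real.cos (k φ) * G k ∂ν = 0)
    (hs : ∀ φ : Test, ∫ k, Real.sin (k φ) * G k ∂ν = 0) : G =ᵐ[ν] 0 := by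
  have m1 : Measurable fun k => (G k).toNNReal := hm.real_toNNReal
  have m2 : Measurable fun k => (-G k).toNNReal := hm.neg.real_toNNReal
  have f1 : IsFiniteMeasure (ν.withDensity fun k => ((G k).toNNReal : ℝ≥0∞)) :=
    isFiniteMeasure_withDensity_ofReal hi.2
  have f2 : IsFiniteMeasure (ν.withDensity fun k => ((-G k).toNNReal : ℝ≥0∞)) :=
    isFiniteMeasure_withDensity_ofReal hi.neg.2
  have hE : (ν.withDensity fun k => ((G k).toNNReal : ℝ≥0∞)) =
      ν.withDensity fun k => ((-G k).toNNReal : ℝ≥0∞) := by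
    refine gr_ext fun φ => ?_
    rw [integral_withDensity_eq_integral_smul m1, integral_withDensity_eq_integral_smul m2]
    have hE : AEStronglyMeasurable (fun k : Dist => Complex.exp ((k φ : ℝ) * Complex.I)) ν := by
      have hc : Continuous fun x : ℝ => Complex.exp (x * Complex.I) := by fun_prop
      exact (hc.measurable.comp (measurable_eval φ)).aestronglyMeasurable
    have hb : ∀ {H : Dist → ℝ}, Integrable H ν → Integrable
        (fun k : Dist => (H k).toNNReal • Complex.exp ((k φ : ℝ) * Complex.I)) ν := by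
      intro H hH
      have h1 : Integrable (fun k => ((max (H k) 0 : ℝ) : ℂ)) ν := hH.pos_part.ofReal
      have h2 := h1.mul_bdd (c := 1) hE (Eventually.of_forall fun k => by
        rw [Complex.norm_exp_ofReal_mul_I])
      refine h2.congr (Eventually.of_forall fun k => ?_)
      simp [NNReal.smul_def]
    have hn : Integrable (fun k => -G k) ν := hi.neg
    rw [← sub_eq_zero, ← integral_sub (hb hi) (hb hn)]
    have e : (fun k : Dist => (G k).toNNReal • Complex.exp ((k φ : ℝ) * Complex.I) -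
        (-G k).toNNReal • Complex.exp ((k φ : ℝ) * Complex.I)) =
        fun k : Dist => ((Real.cos (k φ) * G k : ℝ) : ℂ) +
          ((Real.sin (k φ) * G k : ℝ) : ℂ) * Complex.I := by
      funext k
      have h1 : (max (G k) 0 : ℝ) - max (-G k) 0 = G k := max_zero_sub_max_neg_zero_eq_self _
      rw [NNReal.smul_def, NNReal.smul_def, ← sub_smul, Real.coe_toNNReal', Real.coe_toNNReal',
        h1, Complex.exp_mul_I, Complex.real_smul]
      push_cast
      ring
    have i1 : Integrable (fun k : Dist => Real.cos (k φ) * G k) ν :=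
      hi.bdd_mul (c := 1) (Real.measurable_cos.comp (measurable_eval φ)).aestronglyMeasurable
        (Eventually.of_forall fun k => Real.abs_cos_le_one _)
    have i2 : Integrable (fun k : Dist => Real.sin (k φ) * G k) ν :=
      hi.bdd_mul (c := 1) (Real.measurable_sin.comp (measurable_eval φ)).aestronglyMeasurable
        (Eventually.of_forall fun k => Real.abs_sin_le_one _)
    rw [e, integral_add i1.ofReal (i2.ofReal.mul_const _), integral_mul_const,
      integral_complex_ofReal, integral_complex_ofReal, hc, hs]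
    simp
  have h := (withDensity_eq_iff_of_sigmaFinite m1.coe_nnreal_ennreal.aemeasurable
    m2.coe_nnreal_ennreal.aemeasurable).1 hE
  filter_upwards [h] with k hk
  have h1 : (G k).toNNReal = (-G k).toNNReal := by exact_mod_cast hk
  have h2 : (max (G k) 0 : ℝ) = max (-G k) 0 := by
    rw [← Real.coe_toNNReal', ← Real.coe_toNNReal', h1]
  have h3 : (max (G k) 0 : ℝ) - max (-G k) 0 = G k := max_zero_sub_max_neg_zero_eq_self _
  change G k = 0
  linarith

theorem gr_norm {ν : Measure Dist} (f : Lp ℝ 2 ν) : √(∫ k, f k ^ 2 ∂ν) = ‖f‖ := by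
  have h := L2.inner_def (𝕜 := ℝ) f f
  rw [real_inner_self_eq_norm_sq] at h
  have e : ∫ k, f k ^ 2 ∂ν = ‖f‖ ^ 2 := by
    rw [h]
    exact integral_congr_ae (Eventually.of_forall fun k => by simp)
  rw [e, Real.sqrt_sq (norm_nonneg _)]

theorem gr_all {ν : Measure Dist} (hν : IsCanon ν) (G : Dist → ℝ) (hG : MemLp G 2 ν) :
    GRP ν G := by
  have := hν.prob
  let K : Submodule ℝ (Lp ℝ 2 ν) :=
    { carrier := {g | GRP ν g}
      add_mem' := fun {a b} ha hb =>
        (GRP.add ha hb (Lp.memLp a) (Lp.memLp b)).congr (Lp.coeFn_add a b).symm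
      zero_mem' := by
        have h0 : GRP ν (fun _ => (0 : ℝ)) := fun ε hε => ⟨1, one_pos, fun z _ Y _ _ => by
          simp only [mul_zero, integral_zero, sub_zero, abs_zero]
          positivity⟩
        exact h0.congr (Lp.coeFn_zero ℝ 2 ν).symm
      smul_mem' := fun c a ha => (GRP.smul ha c).congr (Lp.coeFn_smul c a).symm }
  have horth : ∀ (F : ℝ → ℝ), Measurable F → (∀ x, |F x| ≤ 1) →
      (∀ x y, |F x - F y| ≤ |x - y|) → ∀ g ∈ Kᗮ, ∀ φ : Test, ∫ k, F (k φ) * g k ∂ν = 0 := by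
    intro F hF hb hl g hg φ
    have hmem : MemLp (fun k : Dist => F (k φ)) 2 ν :=
      MemLp.of_bound (hF.comp (measurable_eval φ)).aestronglyMeasurable 1
        (Eventually.of_forall fun k => hb _)
    have hK : hmem.toLp _ ∈ K := (gr_base hν F hF hb hl φ).congr hmem.coeFn_toLp.symm
    have h1 := Submodule.inner_right_of_mem_orthogonal hK hg
    rw [L2.inner_def] at h1
    rw [← h1]
    refine integral_congr_ae ?_
    filter_upwards [hmem.coeFn_toLp] with k hk
    rw [hk]
    simp [mul_comm]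
  have hbot : Kᗮ = ⊥ := by
    rw [Submodule.eq_bot_iff]
    intro g hg
    rw [Lp.eq_zero_iff_ae_eq_zero]
    exact gr_uniq (Lp.stronglyMeasurable g).measurable ((Lp.memLp g).integrable one_le_two)
      (horth _ Real.measurable_cos Real.abs_cos_le_one Real.abs_cos_sub_cos_le g hg)
      (horth _ Real.measurable_sin Real.abs_sin_le_one Real.abs_sin_sub_sin_le g hg)
  have htop := Submodule.topologicalClosure_eq_top_iff.2 hbot
  refine GRP.lim hG fun δ hδ => ?_
  have hmem : hG.toLp _ ∈ closure (K : Set (Lp ℝ 2 ν)) := by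
    rw [← Submodule.topologicalClosure_coe, htop]; trivial
  obtain ⟨g, hg, hd⟩ := Metric.mem_closure_iff.1 hmem δ hδ
  refine ⟨g, Lp.memLp g, hg, ?_⟩
  have e : ∫ k, (G k - g k) ^ 2 ∂ν = ∫ k, (hG.toLp _ - g) k ^ 2 ∂ν := by
    refine integral_congr_ae ?_
    filter_upwards [Lp.coeFn_sub (hG.toLp _) g, hG.coeFn_toLp] with k h1 h2
    rw [h1, Pi.sub_apply, h2]
  rw [e, gr_norm, ← dist_eq_norm]
  exact hd.le

/-- Uniform decorrelation. -/
theorem gr_regress {ν : Measure Dist} (hν : IsCanon ν) (G : Dist → ℝ) (hG : MemLp G 2 ν)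
    (ε : ℝ) (hε : 0 < ε) : ∃ r > 0, ∀ z : ℂ, ‖z‖ ≤ 4 → ∀ Y : Dist → ℝ,
      @Measurable Dist ℝ (fieldSigma id (ball z r)) _ Y → MemLp Y 2 ν →
      |∫ k, Y k * G k ∂ν - (∫ k, Y k ∂ν) * ∫ k, G k ∂ν| ≤ ε * √(∫ k, Y k ^ 2 ∂ν) :=
  gr_all hν G hG ε hε

/-- Germ zero-one law. -/
theorem gr_zero_one {ν : Measure Dist} (hν : IsCanon ν) (z : ℂ) (hz : ‖z‖ ≤ 4) (A : Set Dist)
    (hA : ∀ r > 0, ∃ B, @MeasurableSet Dist (fieldSigma id (ball z r)) B ∧ A =ᵐ[ν] B) :
    ν A = 0 ∨ ν Aᶜ = 0 := by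
  have := hν.prob
  obtain ⟨B, hB, hAB⟩ := hA 1 one_pos
  have hBm : MeasurableSet B := gr_sigma_le _ B hB
  have hG : MemLp (B.indicator (fun _ => (1 : ℝ))) 2 ν := (memLp_const 1).indicator hBm
  have hint : ∫ k, B.indicator (fun _ => (1 : ℝ)) k ∂ν = ν.real B := by
    rw [integral_indicator hBm]; simp
  have hp : ν.real B ≤ 1 := measureReal_le_one
  have key : ∀ ε : ℝ, 0 < ε → |ν.real B - ν.real B * ν.real B| ≤ ε := by
    intro ε hε
    obtain ⟨r, hr, H⟩ := gr_regress hν _ hG ε hε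
    obtain ⟨C, hC, hAC⟩ := hA r hr
    have hCm : MeasurableSet C := gr_sigma_le _ C hC
    have hCB : C.indicator (fun _ => (1 : ℝ)) =ᵐ[ν] B.indicator (fun _ => (1 : ℝ)) :=
      indicator_ae_eq_of_ae_eq_set (hAC.symm.trans hAB)
    have h1 := H z hz (C.indicator (fun _ => (1 : ℝ)))
      (@Measurable.indicator Dist ℝ C _ (fieldSigma id (ball z r)) _ _ measurable_const hC)
      ((memLp_const 1).indicator hCm)
    have e1 : ∫ k, C.indicator (fun _ => (1 : ℝ)) k * B.indicator (fun _ => (1 : ℝ)) k ∂ν =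
        ν.real B := by
      rw [← hint]
      refine integral_congr_ae ?_
      filter_upwards [hCB] with k hk
      rw [hk]
      by_cases h : k ∈ B <;> simp [h]
    have e2 : ∫ k, C.indicator (fun _ => (1 : ℝ)) k ^ 2 ∂ν = ν.real B := by
      rw [← hint]
      refine integral_congr_ae ?_
      filter_upwards [hCB] with k hk
      rw [hk]
      by_cases h : k ∈ B <;> simp [h]
    rw [e1, e2, integral_congr_ae hCB, hint] at h1
    refine h1.trans ?_
    have : √(ν.real B) ≤ 1 := Real.sqrt_le_one.2 hp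
    nlinarith
  have h0 : ν.real B - ν.real B * ν.real B = 0 :=
    abs_eq_zero.1 (le_antisymm (le_of_forall_pos_le_add fun ε hε => by simpa using key ε hε)
      (abs_nonneg _))
  have h1 : ν.real B * (1 - ν.real B) = 0 := by linarith
  rcases mul_eq_zero.1 h1 with h | h
  · left
    rw [measure_congr hAB]
    exact (measureReal_eq_zero_iff (measure_ne_top _ _)).1 h
  · right
    rw [measure_congr hAB.compl]
    refine (measureReal_eq_zero_iff (measure_ne_top _ _)).1 ?_
    rw [probReal_compl_eq_one_sub hBm]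
    exact h

end Pool.Agent.QL
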