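import Pool.Agent.P.MP_ca04ec_pr.G.Exists

/-! Uniform decorrelation of small discs from the whole field, and the germ zero-one law. -/

open MeasureTheory ProbabilityTheory Set Filter Topology Metric
open scoped ENNReal

namespace Pool.Agent.QL

open Pool.Agent.LGD

theorem GRCut_fderiv_scale {φ : ℂ → ℝ} (hφ : Smooth φ) (c : ℝ) (z x : ℂ) :
    fderiv ℝ (fun y => φ (c • (y - z))) x = c • fderiv ℝ φ (c • (x - z)) := by
  have h1 : HasFDerivAt (fun y : ℂ => c • (y - z)) (c • ContinuousLinearMap.id ℝ ℂ) x :=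
    ((hasFDerivAt_id x).sub_const z).const_smul c
  have h2 : HasFDerivAt φ (fderiv ℝ φ (c • (x - z))) (c • (x - z)) :=
    ((hφ.differentiable (by simp)) _).hasFDerivAt
  have h3 := (h2.comp x h1).fderiv
  have h4 : (fun y => φ (c • (y - z))) = φ ∘ fun y : ℂ => c • (y - z) := rfl
  rw [h4, h3]
  ext v
  simp

theorem GRCut_energy_scale {φ : ℂ → ℝ} (hφ : Smooth φ) {c : ℝ} (hc : 0 < c) (z : ℂ) :
    ∫ x, ‖fderiv ℝ (fun y => φ (c • (y - z))) x‖ ^ 2 = ∫ x, ‖fderiv ℝ φ x‖ ^ 2 := by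
  have h1 : ∀ x, ‖fderiv ℝ (fun y => φ (c • (y - z))) x‖ ^ 2
      = c ^ 2 * ‖fderiv ℝ φ (c • (x - z))‖ ^ 2 := fun x => by
    rw [GRCut_fderiv_scale hφ, norm_smul, Real.norm_eq_abs, abs_of_pos hc, mul_pow]
  simp_rw [h1]
  rw [integral_const_mul]
  have h2 := integral_sub_right_eq_self (μ := (volume : Measure ℂ))
    (fun x => ‖fderiv ℝ φ (c • x)‖ ^ 2) z
  rw [h2]
  have h3 := Measure.integral_comp_smul (volume : Measure ℂ) (fun x => ‖fderiv ℝ φ x‖ ^ 2) c
  rw [h3, Complex.finrank_real_complex, abs_of_pos (by positivity), smul_eq_mul]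
  field_simp

theorem GRCut_smooth_scale {φ : ℂ → ℝ} (hφ : Smooth φ) (c : ℝ) (z : ℂ) :
    Smooth (fun y => φ (c • (y - z))) :=
  hφ.comp ((contDiff_id.sub contDiff_const).const_smul c)

theorem GRCut_integrable {φ : ℂ → ℝ} (hφ : Smooth φ) (hc : HasCompactSupport φ) :
    Integrable (fun x => ‖fderiv ℝ φ x‖ ^ 2) := by
  have h1 : Continuous (fderiv ℝ φ) := hφ.continuous_fderiv (by simp)
  have h2 : HasCompactSupport (fderiv ℝ φ) := hc.fderiv (𝕜 := ℝ)
  have h3 : Continuous (fun x => ‖fderiv ℝ φ x‖ ^ 2) := h1.norm.pow 2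
  refine h3.integrable_of_hasCompactSupport ?_
  refine HasCompactSupport.intro h2.isCompact fun x hx => ?_
  rw [image_eq_zero_of_notMem_tsupport hx]
  simp

theorem GRCut_norm_sum {V : Type*} [SeminormedAddCommGroup V] (a : ℕ → V)
    (h : ∀ i j, i < j → a i = 0 ∨ a j = 0) (N : ℕ) :
    ‖∑ j ∈ Finset.range N, a j‖ ^ 2 ≤ ∑ j ∈ Finset.range N, ‖a j‖ ^ 2 := by
  induction N with
  | zero => simp
  | succ N ih =>
    rw [Finset.sum_range_succ, Finset.sum_range_succ]
    by_cases hN : a N = 0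
    · simpa [hN] using ih
    · have h0 : ∑ j ∈ Finset.range N, a j = 0 :=
        Finset.sum_eq_zero fun j hj => (h j N (Finset.mem_range.1 hj)).resolve_right hN
      rw [h0, zero_add]
      have : 0 ≤ ∑ j ∈ Finset.range N, ‖a j‖ ^ 2 := Finset.sum_nonneg fun j _ => by positivity
      linarith

/-- A cutoff on the unit disc with small energy. -/
theorem GRCut_eta (δ : ℝ) (hδ : 0 < δ) : ∃ η : ℂ → ℝ, Smooth η ∧
    (∀ x, 1 ≤ ‖x‖ → η x = 0) ∧ (∀ x, |η x| ≤ 1) ∧ (∃ r > 0, ∀ x, ‖x‖ < r → η x = 1) ∧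
    ∫ x, ‖fderiv ℝ η x‖ ^ 2 ≤ δ := by
  let b : ContDiffBump (0 : ℂ) := ⟨1 / 2, 1, by norm_num, by norm_num⟩
  have hb : Smooth (b : ℂ → ℝ) := b.contDiff
  have hb1 : ∀ y : ℂ, ‖y‖ ≤ 1 / 2 → b y = 1 := fun y hy =>
    b.one_of_mem_closedBall (by simpa [b] using hy)
  have hb0 : ∀ y : ℂ, 1 ≤ ‖y‖ → b y = 0 := fun y hy => b.zero_of_le_dist (by simpa [b] using hy)
  have hd1 : ∀ y : ℂ, ‖y‖ ≤ 1 / 2 → fderiv ℝ (b : ℂ → ℝ) y = 0 := fun y hy => by
    refine IsLocalMax.fderiv_eq_zero (Filter.Eventually.of_forall fun w => ?_)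
    rw [hb1 y hy]; exact b.le_one
  have hd0 : ∀ y : ℂ, 1 ≤ ‖y‖ → fderiv ℝ (b : ℂ → ℝ) y = 0 := fun y hy => by
    refine IsLocalMin.fderiv_eq_zero (Filter.Eventually.of_forall fun w => ?_)
    rw [hb0 y hy]; exact b.nonneg
  set E : ℝ := ∫ x, ‖fderiv ℝ (b : ℂ → ℝ) x‖ ^ 2 with hE
  obtain ⟨N0, hN0⟩ := exists_nat_gt (E / δ)
  set N : ℕ := N0 + 1 with hN
  have hNpos : (0 : ℝ) < N := by rw [hN]; positivity
  have hEN : E ≤ δ * N := by
    rw [div_lt_iff₀ hδ] at hN0
    have : (N0 : ℝ) ≤ N := by rw [hN]; push_cast; linarith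
    nlinarith
  let c : ℕ → ℂ → ℝ := fun j y => b ((2 : ℝ) ^ j • (y - 0))
  have hcs : ∀ j, Smooth (c j) := fun j => GRCut_smooth_scale hb _ 0
  have hnorm : ∀ (j : ℕ) (y : ℂ), ‖(2 : ℝ) ^ j • (y - 0)‖ = 2 ^ j * ‖y‖ := fun j y => by
    rw [sub_zero, norm_smul, Real.norm_eq_abs, abs_of_pos (by positivity)]
  have hc0 : ∀ j y, 1 ≤ ‖y‖ → c j y = 0 := fun j y hy => by
    refine hb0 _ ?_
    rw [hnorm]
    have : (1 : ℝ) ≤ 2 ^ j := one_le_pow₀ (by norm_num)
    nlinarith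
  have hcc : ∀ j, HasCompactSupport (c j) := fun j =>
    HasCompactSupport.intro (isCompact_closedBall (0 : ℂ) 1) fun y hy =>
      hc0 j y (by simpa using le_of_lt (by simpa using hy))
  refine ⟨fun y => (N : ℝ)⁻¹ * ∑ j ∈ Finset.range N, c j y, ?_, ?_, ?_, ?_, ?_⟩
  · exact contDiff_const.mul (ContDiff.sum fun j _ => hcs j)
  · intro x hx
    beta_reduce
    rw [Finset.sum_eq_zero fun j _ => hc0 j x hx, mul_zero]
  · intro x
    have h1 : 0 ≤ ∑ j ∈ Finset.range N, c j x := Finset.sum_nonneg fun j _ => b.nonneg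
    have h2 : ∑ j ∈ Finset.range N, c j x ≤ N := by
      have := Finset.sum_le_card_nsmul (Finset.range N) (fun j => c j x) 1 fun j _ => b.le_one
      simpa using this
    rw [abs_of_nonneg (by positivity), inv_mul_le_iff₀ hNpos]
    linarith
  · refine ⟨1 / 2 / 2 ^ N, by positivity, fun x hx => ?_⟩
    have h1 : ∀ j ∈ Finset.range N, c j x = 1 := fun j hj => by
      refine hb1 _ ?_
      rw [hnorm]
      have h2 : (2 : ℝ) ^ j ≤ 2 ^ N :=
        pow_le_pow_right₀ (by norm_num) (Finset.mem_range.1 hj).le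
      rw [lt_div_iff₀ (by positivity)] at hx
      nlinarith [norm_nonneg x]
    beta_reduce
    rw [Finset.sum_congr rfl h1]
    simp only [Finset.sum_const, Finset.card_range, nsmul_eq_mul, mul_one]
    exact inv_mul_cancel₀ hNpos.ne'
  · have hder : ∀ x, fderiv ℝ (fun y => (N : ℝ)⁻¹ * ∑ j ∈ Finset.range N, c j y) x
        = (N : ℝ)⁻¹ • ∑ j ∈ Finset.range N, fderiv ℝ (c j) x := fun x => by
      have h1 : HasFDerivAt (fun y => ∑ j ∈ Finset.range N, c j y)
          (∑ j ∈ Finset.range N, fderiv ℝ (c j) x) x :=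
        HasFDerivAt.fun_sum fun j _ => (((hcs j).differentiable (by simp)) x).hasFDerivAt
      exact (h1.const_mul _).fderiv
    have hdis : ∀ x i j, i < j → fderiv ℝ (c i) x = 0 ∨ fderiv ℝ (c j) x = 0 := by
      intro x i j hij
      by_cases hx : ‖(2 : ℝ) ^ i • (x - 0)‖ ≤ 1 / 2
      · left
        show fderiv ℝ (fun y => b ((2 : ℝ) ^ i • (y - 0))) x = 0
        rw [GRCut_fderiv_scale hb, hd1 _ hx, smul_zero]
      · right
        show fderiv ℝ (fun y => b ((2 : ℝ) ^ j • (y - 0))) x = 0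
        rw [GRCut_fderiv_scale hb, hd0, smul_zero]
        rw [hnorm] at hx ⊢
        have h2 : (2 : ℝ) ^ (i + 1) ≤ 2 ^ j := pow_le_pow_right₀ (by norm_num) hij
        rw [pow_succ] at h2
        nlinarith [norm_nonneg x]
    have hle : ∀ x, ‖fderiv ℝ (fun y => (N : ℝ)⁻¹ * ∑ j ∈ Finset.range N, c j y) x‖ ^ 2
        ≤ (N : ℝ)⁻¹ ^ 2 * ∑ j ∈ Finset.range N, ‖fderiv ℝ (c j) x‖ ^ 2 := fun x => by
      rw [hder, norm_smul, mul_pow, Real.norm_eq_abs, sq_abs]
      exact mul_le_mul_of_nonneg_left (GRCut_norm_sum _ (hdis x) N) (by positivity)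
    have hint : ∀ j, Integrable (fun x => ‖fderiv ℝ (c j) x‖ ^ 2) := fun j =>
      GRCut_integrable (hcs j) (hcc j)
    have hI : Integrable (fun x => (N : ℝ)⁻¹ ^ 2 *
        ∑ j ∈ Finset.range N, ‖fderiv ℝ (c j) x‖ ^ 2) :=
      (integrable_finsetSum _ fun j _ => hint j).const_mul _
    refine (integral_mono_of_nonneg (Eventually.of_forall fun x => by positivity) hI
      (Eventually.of_forall hle)).trans ?_
    rw [integral_const_mul, integral_finsetSum _ fun j _ => hint j]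
    have hj : ∀ j ∈ Finset.range N, ∫ x, ‖fderiv ℝ (c j) x‖ ^ 2 = E := fun j _ =>
      GRCut_energy_scale hb (by positivity) 0
    rw [Finset.sum_congr rfl hj]
    simp only [Finset.sum_const, Finset.card_range, nsmul_eq_mul]
    have : (N : ℝ)⁻¹ ^ 2 * (N * E) = E / N := by field_simp
    rw [this, div_le_iff₀ hNpos]
    exact hEN

/-- Smooth cutoffs of small energy, uniformly in the centre. -/
theorem gr_cutoff (g : ℂ → ℝ) (hg : Smooth g) (ε : ℝ) (hε : 0 < ε) : ∃ r > 0, ∀ z : ℂ, ‖z‖ ≤ 4 →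
    ∃ f : Test, (∀ x ∈ ball z r, f x = g x) ∧ tsupport f ⊆ ball 0 5 ∧
      ∫ x, ‖fderiv ℝ f x‖ ^ 2 ≤ ε := by
  obtain ⟨M, hM⟩ := (isCompact_closedBall (0 : ℂ) 5).exists_bound_of_continuousOn
    hg.continuous.continuousOn
  obtain ⟨L, hL⟩ := (isCompact_closedBall (0 : ℂ) 5).exists_bound_of_continuousOn
    (hg.continuous_fderiv (by simp)).continuousOn
  obtain ⟨η, hηs, hη0, hη1, ⟨r, hr, hηr⟩, hηE⟩ := GRCut_eta (ε / (4 * (M ^ 2 + 1))) (by positivity)
  obtain ⟨ρ, hρ0, hρ1, hρ2⟩ : ∃ ρ : ℝ, 0 < ρ ∧ ρ ≤ 1 / 2 ∧ 2 * L ^ 2 * (Real.pi * ρ ^ 2) ≤ ε / 2 := by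
    have hp := Real.pi_pos
    refine ⟨min (1 / 2) (ε / (4 * (L ^ 2 + 1) * Real.pi)), by positivity, min_le_left _ _, ?_⟩
    set ρ := min (1 / 2) (ε / (4 * (L ^ 2 + 1) * Real.pi)) with hρ
    have h0 : 0 < ρ := by positivity
    have h1 : ρ ≤ 1 / 2 := min_le_left _ _
    have h2 : ρ ≤ ε / (4 * (L ^ 2 + 1) * Real.pi) := min_le_right _ _
    rw [le_div_iff₀ (by positivity)] at h2
    have h3 : ρ ^ 2 ≤ ρ := by nlinarith
    have h4 : L ^ 2 * (Real.pi * ρ ^ 2) ≤ (L ^ 2 + 1) * (Real.pi * ρ) :=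
      mul_le_mul (by linarith) (mul_le_mul_of_nonneg_left h3 hp.le) (by positivity) (by positivity)
    nlinarith
  refine ⟨r * ρ, by positivity, fun z hz => ?_⟩
  let e : ℂ → ℝ := fun y => η (ρ⁻¹ • (y - z))
  have hes : Smooth e := GRCut_smooth_scale hηs _ z
  have hnorm : ∀ y : ℂ, ‖ρ⁻¹ • (y - z)‖ = ‖y - z‖ / ρ := fun y => by
    rw [norm_smul, Real.norm_eq_abs, abs_of_pos (by positivity), div_eq_inv_mul]
  have he0 : ∀ y, y ∉ closedBall z ρ → e y = 0 := fun y hy => by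
    refine hη0 _ ?_
    rw [hnorm, le_div_iff₀ hρ0, one_mul]
    rw [mem_closedBall, dist_eq_norm, not_le] at hy
    exact hy.le
  have hec : HasCompactSupport e := HasCompactSupport.intro (isCompact_closedBall z ρ) he0
  have hfs : Smooth (fun y => g y * e y) := hg.mul hes
  have hf0 : ∀ y, y ∉ closedBall z ρ → g y * e y = 0 := fun y hy => by rw [he0 y hy, mul_zero]
  have hfc : HasCompactSupport (fun y => g y * e y) :=
    HasCompactSupport.intro (isCompact_closedBall z ρ) hf0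
  have hts : tsupport (fun y => g y * e y) ⊆ closedBall z ρ :=
    closure_minimal (fun y hy => by_contra fun h => hy (hf0 y h)) isClosed_closedBall
  have hsub : closedBall z ρ ⊆ ball (0 : ℂ) 5 := fun y hy => by
    rw [mem_closedBall, dist_eq_norm] at hy
    rw [mem_ball, dist_zero_right]
    have : ‖y‖ ≤ ‖y - z‖ + ‖z‖ := by simpa using norm_add_le (y - z) z
    linarith
  refine ⟨toTest fun y => g y * e y, ?_, ?_, ?_⟩
  · intro x hx
    rw [toTest_coe hfs hfc]
    have : e x = 1 := by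
      refine hηr _ ?_
      rw [hnorm, div_lt_iff₀ hρ0]
      rwa [mem_ball, dist_eq_norm] at hx
    simp [this]
  · rw [toTest_coe hfs hfc]
    exact hts.trans hsub
  · rw [toTest_coe hfs hfc]
    have hle : ∀ x, ‖fderiv ℝ (fun y => g y * e y) x‖ ^ 2 ≤
        2 * (M ^ 2 + 1) * ‖fderiv ℝ e x‖ ^ 2
          + (closedBall z ρ).indicator (fun _ => 2 * L ^ 2) x := fun x => by
      by_cases hx : x ∈ closedBall z ρ
      · rw [indicator_of_mem hx]
        have hx5 : x ∈ closedBall (0 : ℂ) 5 := ball_subset_closedBall (hsub hx)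
        have h1 := fderiv_fun_mul (𝕜 := ℝ) ((hg.differentiable (by simp)) x)
          ((hes.differentiable (by simp)) x)
        rw [h1]
        have h2 : ‖g x • fderiv ℝ e x + e x • fderiv ℝ g x‖ ≤ M * ‖fderiv ℝ e x‖ + L := by
          refine (norm_add_le _ _).trans (add_le_add ?_ ?_)
          · rw [norm_smul]
            exact mul_le_mul_of_nonneg_right (hM x hx5) (norm_nonneg _)
          · rw [norm_smul, Real.norm_eq_abs]
            have h3 : |e x| ≤ 1 := hη1 _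
            have h4 := hL x hx5
            nlinarith [norm_nonneg (fderiv ℝ g x), abs_nonneg (e x)]
        have h5 := pow_le_pow_left₀ (norm_nonneg _) h2 2
        nlinarith [sq_nonneg (M * ‖fderiv ℝ e x‖ - L), sq_nonneg ‖fderiv ℝ e x‖]
      · rw [indicator_of_notMem hx]
        have h1 : fderiv ℝ (fun y => g y * e y) x = 0 := by
          by_contra h
          exact hx (hts (support_fderiv_subset ℝ h))
        rw [h1]
        simp only [norm_zero, ne_eq, OfNat.ofNat_ne_zero, not_false_eq_true, zero_pow, add_zero]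
        positivity
    have hI1 : Integrable (fun x => 2 * (M ^ 2 + 1) * ‖fderiv ℝ e x‖ ^ 2) :=
      (GRCut_integrable hes hec).const_mul _
    have hI2 : Integrable ((closedBall z ρ).indicator fun _ => 2 * L ^ 2) :=
      (integrable_indicator_iff measurableSet_closedBall).2
        (integrableOn_const (measure_closedBall_lt_top).ne)
    refine (integral_mono_of_nonneg (Eventually.of_forall fun x => by positivity) (hI1.add hI2)
      (Eventually.of_forall hle)).trans ?_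
    simp only [Pi.add_apply]
    rw [integral_add hI1 hI2, integral_const_mul, integral_indicator measurableSet_closedBall,
      setIntegral_const, smul_eq_mul]
    have h1 : ∫ x, ‖fderiv ℝ e x‖ ^ 2 = ∫ x, ‖fderiv ℝ η x‖ ^ 2 :=
      GRCut_energy_scale hηs (by positivity) z
    have h2 : (volume : Measure ℂ).real (closedBall z ρ) = Real.pi * ρ ^ 2 := by
      rw [Measure.real, Complex.volume_closedBall, ENNReal.toReal_mul, ← ENNReal.ofReal_pow hρ0.le,
        ENNReal.toReal_ofReal (by positivity)]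
      simp [mul_comm]
    rw [h1, h2]
    have h3 : 2 * (M ^ 2 + 1) * ∫ x, ‖fderiv ℝ η x‖ ^ 2 ≤ ε / 2 := by
      have h4 := mul_le_mul_of_nonneg_left hηE (by positivity : (0 : ℝ) ≤ 2 * (M ^ 2 + 1))
      have h5 : 2 * (M ^ 2 + 1) * (ε / (4 * (M ^ 2 + 1))) = ε / 2 := by field_simp; ring
      linarith
    linarith

end Pool.Agent.QL
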