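import Pool.Agent.P.MP_7a6434d8_pr.QL.KGDefs

open MeasureTheory Set Filter Topology Metric
open scoped ENNReal

namespace Pool.Agent.QL

theorem moll_strip (Γ : Measure ℂ) [IsFiniteMeasure Γ] {p : ℂ → ℝ} (hp : Measurable p) (h : ℝ) :
    ∫⁻ x : ℝ, Γ {z | p z ∈ Icc x (x + h)} = ENNReal.ofReal h * Γ univ := by
  have hS : MeasurableSet {w : ℝ × ℂ | p w.2 ∈ Icc w.1 (w.1 + h)} :=
    (measurableSet_le measurable_fst (hp.comp measurable_snd)).inter
      (measurableSet_le (hp.comp measurable_snd) (measurable_fst.add_const h))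
  have h1 := Measure.prod_apply (μ := (volume : Measure ℝ)) (ν := Γ) hS
  have h2 := Measure.prod_apply_symm (μ := (volume : Measure ℝ)) (ν := Γ) hS
  have h3 : ∀ z : ℂ, volume ((fun x : ℝ => (x, z)) ⁻¹' {w : ℝ × ℂ | p w.2 ∈ Icc w.1 (w.1 + h)}) =
      ENNReal.ofReal h := by
    intro z
    have : (fun x : ℝ => (x, z)) ⁻¹' {w : ℝ × ℂ | p w.2 ∈ Icc w.1 (w.1 + h)} =
        Icc (p z - h) (p z) := by
      ext x
      simp only [mem_preimage, mem_ofPred_eq, mem_Icc]
      constructor <;> rintro ⟨a, b⟩ <;> constructor <;> linarith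
    rw [this, Real.volume_Icc]
    congr 1
    ring
  simp only [h3, lintegral_const] at h2
  rw [← h2, h1]
  rfl

theorem moll_dq (Γ : Measure ℂ) [IsFiniteMeasure Γ] {p : ℂ → ℝ} (hp : Measurable p)
    {a h α β γ δ : ℝ} (ha : 0 ≤ a) (hh : 0 ≤ h) (hγ : γ ≤ δ) {F : ℝ → ℝ → ℝ}
    (hF : ∀ x, Continuous (F x)) (h0 : ∀ x y, 0 ≤ F x y)
    (hb : ∀ x ∈ Icc α β, ∫ y in γ..δ, F x y ≤ a * h * Γ.real {z | p z ∈ Icc x (x + h)}) :
    ∫⁻ x in Icc α β, ∫⁻ y in Icc γ δ, ENNReal.ofReal (F x y) ≤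
      ENNReal.ofReal (a * h ^ 2 * Γ.real univ) := by
  have h1 : ∀ x ∈ Icc α β, ∫⁻ y in Icc γ δ, ENNReal.ofReal (F x y) ≤
      ENNReal.ofReal (a * h) * Γ {z | p z ∈ Icc x (x + h)} := by
    intro x hx
    rw [← ofReal_integral_eq_lintegral_ofReal (hF x).continuousOn.integrableOn_Icc
      (Eventually.of_forall (h0 x)), integral_Icc_eq_integral_Ioc,
      ← intervalIntegral.integral_of_le hγ]
    refine (ENNReal.ofReal_le_ofReal (hb x hx)).trans ?_
    rw [ENNReal.ofReal_mul (mul_nonneg ha hh), ofReal_measureReal]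
  refine (setLIntegral_mono' measurableSet_Icc h1).trans ?_
  refine (setLIntegral_le_lintegral _ _).trans ?_
  rw [lintegral_const_mul' _ _ ENNReal.ofReal_ne_top, moll_strip Γ hp, ← mul_assoc,
    ← ENNReal.ofReal_mul (mul_nonneg ha hh), ENNReal.ofReal_mul (by positivity : 0 ≤ a * h ^ 2),
    ofReal_measureReal, mul_assoc a, ← pow_two]

theorem moll_rect {f : ℂ → ℝ≥0∞} (hf : Measurable f) (α β γ δ : ℝ) :
    ∫⁻ z in crect α β γ δ, f z = ∫⁻ x in Icc α β, ∫⁻ y in Icc γ δ, f ⟨x, y⟩ ∧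
    ∫⁻ z in crect α β γ δ, f z = ∫⁻ y in Icc γ δ, ∫⁻ x in Icc α β, f ⟨x, y⟩ := by
  have h1 := Complex.volume_preserving_equiv_real_prod.symm.setLIntegral_comp_preimage_emb
    Complex.measurableEquivRealProd.symm.measurableEmbedding f (crect α β γ δ)
  have h2 : Complex.measurableEquivRealProd.symm ⁻¹' crect α β γ δ = Icc α β ×ˢ Icc γ δ := by
    ext w
    rfl
  have h3 : Measurable fun w : ℝ × ℝ => f (Complex.measurableEquivRealProd.symm w) :=
    hf.comp Complex.measurableEquivRealProd.symm.measurable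
  rw [← h1, h2, Measure.volume_eq_prod, ← Measure.prod_restrict]
  exact ⟨lintegral_prod _ h3.aemeasurable, lintegral_prod_symm _ h3.aemeasurable⟩

theorem moll_jensen {ψ f : ℂ → ℝ} (hψ : Continuous ψ) (hc : HasCompactSupport ψ)
    (h0 : ∀ t, 0 ≤ ψ t) (h1 : ∫ t, ψ t = 1) (hf : Continuous f) :
    (∫ t, ψ t * f t) ^ 2 ≤ ∫ t, ψ t * f t ^ 2 := by
  set m := ∫ t, ψ t * f t with hm
  have i0 : Integrable ψ := hψ.integrable_of_hasCompactSupport hc
  have i1 : Integrable fun t => ψ t * f t :=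
    (hψ.mul hf).integrable_of_hasCompactSupport hc.mul_right
  have i2 : Integrable fun t => ψ t * f t ^ 2 :=
    (hψ.mul (hf.pow 2)).integrable_of_hasCompactSupport hc.mul_right
  have h2 : 0 ≤ ∫ t, (ψ t * f t ^ 2 - 2 * m * (ψ t * f t) + m ^ 2 * ψ t) :=
    integral_nonneg fun t => by
      have : ψ t * f t ^ 2 - 2 * m * (ψ t * f t) + m ^ 2 * ψ t = ψ t * (f t - m) ^ 2 := by ring
      simp only [Pi.zero_apply, this]
      exact mul_nonneg (h0 t) (sq_nonneg _)
  have i3 : Integrable fun t => ψ t * f t ^ 2 - 2 * m * (ψ t * f t) := i2.sub (i1.const_mul _)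
  rw [integral_add i3 (i0.const_mul _), integral_sub i2 (i1.const_mul _),
    integral_const_mul, integral_const_mul, h1, ← hm] at h2
  linarith

theorem moll_conv {ψ f : ℂ → ℝ} (hψ : Continuous ψ) (hc : HasCompactSupport ψ)
    (h0 : ∀ t, 0 ≤ ψ t) (h1 : ∫ t, ψ t = 1) (hf : Continuous f) {K R : Set ℂ}
    (hK : MeasurableSet K) (hR : MeasurableSet R) (hKR : ∀ z ∈ K, ∀ t, ψ t ≠ 0 → z - t ∈ R) :
    ∫⁻ z in K, ENNReal.ofReal ((∫ t, ψ t * f (z - t)) ^ 2) ≤
      ∫⁻ z in R, ENNReal.ofReal (f z ^ 2) := by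
  have h2 : ∀ z, ENNReal.ofReal ((∫ t, ψ t * f (z - t)) ^ 2) ≤
      ∫⁻ t, ENNReal.ofReal (ψ t) * ENNReal.ofReal (f (z - t) ^ 2) := by
    intro z
    have hz : Continuous fun t => f (z - t) := hf.comp (continuous_const.sub continuous_id)
    refine (ENNReal.ofReal_le_ofReal (moll_jensen hψ hc h0 h1 hz)).trans (le_of_eq ?_)
    have i : Integrable fun t => ψ t * f (z - t) ^ 2 :=
      (hψ.mul (hz.pow 2)).integrable_of_hasCompactSupport hc.mul_right
    rw [ofReal_integral_eq_lintegral_ofReal i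
      (Eventually.of_forall fun t => mul_nonneg (h0 t) (sq_nonneg _))]
    exact lintegral_congr fun t => ENNReal.ofReal_mul (h0 t)
  refine (lintegral_mono h2).trans ?_
  have hm : Measurable fun w : ℂ × ℂ => ENNReal.ofReal (ψ w.2) * ENNReal.ofReal (f (w.1 - w.2) ^ 2) :=
    ((hψ.comp continuous_snd).measurable.ennreal_ofReal).mul
      ((hf.comp (continuous_fst.sub continuous_snd)).pow 2).measurable.ennreal_ofReal
  rw [lintegral_lintegral_swap hm.aemeasurable]
  have h3 : ∀ t, ∫⁻ z in K, ENNReal.ofReal (ψ t) * ENNReal.ofReal (f (z - t) ^ 2) ≤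
      ENNReal.ofReal (ψ t) * ∫⁻ z in R, ENNReal.ofReal (f z ^ 2) := by
    intro t
    by_cases ht : ψ t = 0
    · simp [ht]
    rw [lintegral_const_mul' _ _ ENNReal.ofReal_ne_top]
    refine mul_le_mul_right ?_ _
    rw [← lintegral_indicator hK, ← lintegral_indicator hR,
      ← lintegral_sub_right_eq_self (R.indicator fun z => ENNReal.ofReal (f z ^ 2)) t]
    refine lintegral_mono fun z => ?_
    by_cases hz : z ∈ K
    · rw [indicator_of_mem hz, indicator_of_mem (hKR z hz t ht)]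
    · rw [indicator_of_notMem hz]
      exact zero_le
  refine (lintegral_mono h3).trans ?_
  rw [lintegral_mul_const _ hψ.measurable.ennreal_ofReal,
    ← ofReal_integral_eq_lintegral_ofReal (hψ.integrable_of_hasCompactSupport hc)
      (Eventually.of_forall h0), h1, ENNReal.ofReal_one, one_mul]

theorem moll_fatou {g : ℂ → ℝ} (hg : Differentiable ℝ g) (e : ℂ) {K : Set ℂ} {η B : ℝ}
    (hη : 0 < η) (hb : ∀ h, 0 < h → h ≤ η →
      ∫⁻ z in K, ENNReal.ofReal ((g (z + h • e) - g z) ^ 2) ≤ ENNReal.ofReal (h ^ 2 * B)) :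
    ∫⁻ z in K, ENNReal.ofReal (fderiv ℝ g z e ^ 2) ≤ ENNReal.ofReal B := by
  set c : ℕ → ℝ := fun n => ((n : ℝ) + 1) / η with hc
  have c0 : ∀ n, 0 < c n := fun n => by positivity
  have c1 : Tendsto c atTop atTop :=
    (tendsto_atTop_add_const_right _ 1 tendsto_natCast_atTop_atTop).atTop_div_const hη
  have h1 : ∀ z, ENNReal.ofReal (fderiv ℝ g z e ^ 2) = liminf (fun n =>
      ENNReal.ofReal ((c n • (g (z + (c n)⁻¹ • e) - g z)) ^ 2)) atTop := fun z =>
    (ENNReal.tendsto_ofReal ((((hg z).hasFDerivAt.lim_real e).comp c1).pow 2)).liminf_eq.symm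
  have hcont := hg.continuous
  simp only [h1]
  refine (lintegral_liminf_le fun n => ?_).trans
    (liminf_le_of_frequently_le' (Frequently.of_forall fun n => ?_))
  · exact (((hcont.comp (continuous_id.add continuous_const)).sub hcont).const_smul
      (c n)).pow 2 |>.measurable.ennreal_ofReal
  · have h2 : (c n)⁻¹ ≤ η := by
      rw [hc, inv_div]
      exact div_le_self hη.le (by linarith [(Nat.cast_nonneg n : (0 : ℝ) ≤ n)])
    have h3 := hb _ (inv_pos.2 (c0 n)) h2
    simp only [smul_eq_mul, mul_pow, ENNReal.ofReal_mul (sq_nonneg (c n))]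
    rw [lintegral_const_mul' _ _ ENNReal.ofReal_ne_top]
    refine (mul_le_mul_right h3 _).trans (le_of_eq ?_)
    rw [← ENNReal.ofReal_mul (sq_nonneg _), ← mul_assoc, ← mul_pow, mul_inv_cancel₀ (c0 n).ne',
      one_pow, one_mul]

theorem moll_meas (α β γ δ : ℝ) : MeasurableSet (crect α β γ δ) :=
  (Complex.measurable_re measurableSet_Icc).inter (Complex.measurable_im measurableSet_Icc)

theorem moll_ext {u : ℂ → ℝ} {α β γ δ : ℝ} (h1 : α ≤ β) (h2 : γ ≤ δ)
    (hu : ContinuousOn u (crect α β γ δ)) :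
    ∃ v : ℂ → ℝ, Continuous v ∧ HasCompactSupport v ∧ ∀ z ∈ crect α β γ δ, v z = u z := by
  set r : ℝ := |α| + |β| + |γ| + |δ| + 1 with hr
  have r0 : 0 < r := by positivity
  let χ : ContDiffBump (0 : ℂ) := ⟨r, r + 1, r0, by linarith⟩
  let π : ℂ → ℂ := fun z => (max α (min z.re β) : ℝ) + (max γ (min z.im δ) : ℝ) * Complex.I
  have hπ : Continuous π := by fun_prop
  have e1 : ∀ z, (π z).re = max α (min z.re β) := fun z => by simp [π]
  have e2 : ∀ z, (π z).im = max γ (min z.im δ) := fun z => by simp [π]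
  refine ⟨fun z => χ z * u (π z), χ.continuous.mul (hu.comp_continuous hπ fun z => ?_),
    χ.hasCompactSupport.mul_right, fun z hz => ?_⟩
  · exact ⟨by rw [e1]; exact ⟨le_max_left _ _, max_le h1 (min_le_right _ _)⟩,
      by rw [e2]; exact ⟨le_max_left _ _, max_le h2 (min_le_right _ _)⟩⟩
  · obtain ⟨⟨k1, k2⟩, k3, k4⟩ := hz
    have e3 : π z = z := Complex.ext (by rw [e1, min_eq_left k2, max_eq_right k1])
      (by rw [e2, min_eq_left k4, max_eq_right k3])
    have e4 : χ z = 1 := χ.one_of_mem_closedBall (by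
      rw [mem_closedBall_zero_iff]
      refine (Complex.norm_le_abs_re_add_abs_im z).trans ?_
      have k5 : |z.re| ≤ |α| + |β| := abs_le.2
        ⟨by linarith [neg_abs_le α, abs_nonneg β], by linarith [le_abs_self β, abs_nonneg α]⟩
      have k6 : |z.im| ≤ |γ| + |δ| := abs_le.2
        ⟨by linarith [neg_abs_le γ, abs_nonneg δ], by linarith [le_abs_self δ, abs_nonneg γ]⟩
      show _ ≤ r
      linarith)
    show χ z * u (π z) = u z
    rw [e3, e4, one_mul]

/-- Mollifications have bounded Dirichlet energy. -/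
theorem kg_mollify {u : ℂ → ℝ} {Γ : Measure ℂ} [IsFiniteMeasure Γ] {a x₀ x₁ y₀ y₁ : ℝ} (ha : 0 ≤ a)
    (hu : ContinuousOn u (orect x₀ x₁ y₀ y₁)) (hq : DQ u Γ a (orect x₀ x₁ y₀ y₁))
    (K : Set ℂ) (hK : IsCompact K) (hKO : K ⊆ orect x₀ x₁ y₀ y₁) (ε : ℝ) (hε : 0 < ε) :
    ∃ g : ℂ → ℝ, ContDiff ℝ (⊤ : ℕ∞) g ∧ HasCompactSupport g ∧ (∀ z ∈ K, |g z - u z| ≤ ε) ∧
      ∫ z in K, (fderiv ℝ g z 1 ^ 2 + fderiv ℝ g z Complex.I ^ 2) ≤ 2 * a * Γ.real univ := by
  have hB : 0 ≤ a * Γ.real univ := mul_nonneg ha measureReal_nonneg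
  rcases K.eq_empty_or_nonempty with rfl | ⟨z₀, hz₀⟩
  · exact ⟨0, contDiff_const, HasCompactSupport.zero, by simp, by
      rw [Measure.restrict_empty, integral_zero_measure]; linarith⟩
  obtain ⟨η, hη, hm⟩ : ∃ η : ℝ, 0 < η ∧
      K ⊆ crect (x₀ + 4 * η) (x₁ - 4 * η) (y₀ + 4 * η) (y₁ - 4 * η) := by
    obtain ⟨η, hη, hm⟩ := hK.exists_forall_le'
      (f := fun z => min (min (z.re - x₀) (x₁ - z.re)) (min (z.im - y₀) (y₁ - z.im))) (a := 0)
      (by fun_prop) fun z hz => by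
        obtain ⟨⟨k1, k2⟩, k3, k4⟩ := hKO hz
        exact lt_min (lt_min (sub_pos.2 k1) (sub_pos.2 k2)) (lt_min (sub_pos.2 k3) (sub_pos.2 k4))
    refine ⟨η / 4, by positivity, fun z hz => ?_⟩
    have := hm z hz
    simp only [le_min_iff] at this
    obtain ⟨⟨k1, k2⟩, k3, k4⟩ := this
    exact ⟨⟨by linarith, by linarith⟩, by linarith, by linarith⟩
  obtain ⟨⟨l1, l2⟩, l3, l4⟩ := hm hz₀
  have hsub : crect (x₀ + η) (x₁ - η) (y₀ + η) (y₁ - η) ⊆ orect x₀ x₁ y₀ y₁ :=
    fun z ⟨⟨k1, k2⟩, k3, k4⟩ => ⟨⟨by linarith, by linarith⟩, by linarith, by linarith⟩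
  obtain ⟨v, hv, hvc, hvu⟩ := moll_ext (by linarith) (by linarith) (hu.mono hsub)
  obtain ⟨δ, hδ, hδ'⟩ := Metric.uniformContinuous_iff.1
    (hvc.uniformContinuous_of_continuous hv) ε hε
  have d0 : 0 < min δ η := lt_min hδ hη
  let φ : ContDiffBump (0 : ℂ) := ⟨min δ η / 2, min δ η, by positivity, by linarith⟩
  have hψ : Continuous (φ.normed volume) := φ.continuous_normed
  have hψc : HasCompactSupport (φ.normed volume) := φ.hasCompactSupport_normed
  set g := convolution (φ.normed volume) v (ContinuousLinearMap.lsmul ℝ ℝ) volume with hg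
  have hgd : ContDiff ℝ (⊤ : ℕ∞) g :=
    hψc.contDiff_convolution_left _ φ.contDiff_normed hv.locallyIntegrable
  have hg' : ∀ z, g z = ∫ t, φ.normed volume t * v (z - t) := fun z => rfl
  have key : ∀ e : ℂ, (∀ h : ℝ, 0 < h → h ≤ η →
      ∫⁻ z in crect (x₀ + 2 * η) (x₁ - 2 * η) (y₀ + 2 * η) (y₁ - 2 * η),
        ENNReal.ofReal ((v (z + h • e) - v z) ^ 2) ≤ ENNReal.ofReal (a * h ^ 2 * Γ.real univ)) →
      ∫⁻ z in K, ENNReal.ofReal (fderiv ℝ g z e ^ 2) ≤ ENNReal.ofReal (a * Γ.real univ) := by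
    intro e he
    refine moll_fatou (hgd.differentiable (by simp)) e hη fun h h0 h1 => ?_
    have hf : Continuous fun z => v (z + h • e) - v z := by fun_prop
    have h2 := moll_conv hψ hψc φ.nonneg_normed φ.integral_normed hf hK.measurableSet
      (moll_meas (x₀ + 2 * η) (x₁ - 2 * η) (y₀ + 2 * η) (y₁ - 2 * η)) fun z hz t ht => by
        have k0 : t ∈ ball (0 : ℂ) φ.rOut := φ.support_normed_eq (μ := volume) ▸ ht
        have k5 : ‖t‖ < η := (mem_ball_zero_iff.1 k0).trans_le (min_le_right _ _)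
        obtain ⟨⟨k1, k2⟩, k3, k4⟩ := hm hz
        have k6 := abs_le.1 (Complex.abs_re_le_norm t)
        have k7 := abs_le.1 (Complex.abs_im_le_norm t)
        refine ⟨?_, ?_⟩
        · rw [Complex.sub_re]
          exact ⟨by linarith [k6.2], by linarith [k6.1]⟩
        · rw [Complex.sub_im]
          exact ⟨by linarith [k7.2], by linarith [k7.1]⟩
    have h3 : ∀ z, g (z + h • e) - g z =
        ∫ t, φ.normed volume t * (v (z - t + h • e) - v (z - t)) := fun z => by
      have i : ∀ w : ℂ, Integrable fun t => φ.normed volume t * v (w - t) := fun w =>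
        (hψ.mul (hv.comp (continuous_const.sub continuous_id))).integrable_of_hasCompactSupport
          hψc.mul_right
      rw [hg', hg', ← integral_sub (i _) (i _)]
      refine integral_congr_ae (Eventually.of_forall fun t => ?_)
      simp only [mul_sub, add_sub_right_comm]
    simp only [h3]
    refine (h2.trans (he h h0 h1)).trans (le_of_eq ?_)
    congr 1
    ring
  have b1 := key 1 fun h h0 h1 => by
    rw [(moll_rect (by fun_prop) _ _ _ _).1]
    refine moll_dq Γ Complex.measurable_re ha h0.le (by linarith)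
      (F := fun x y => (v (⟨x, y⟩ + h • (1 : ℂ)) - v ⟨x, y⟩) ^ 2) (fun x => ?_)
      (fun _ _ => sq_nonneg _) fun x hx => ?_
    · have : Continuous fun y : ℝ => (⟨x, y⟩ : ℂ) := by
        simp only [Complex.mk_eq_add_mul_I]
        fun_prop
      fun_prop
    · have k := (hq x (x + h) (y₀ + 2 * η) (y₁ - 2 * η) (by linarith) (by linarith)
        fun z ⟨⟨k1, k2⟩, k3, k4⟩ =>
          ⟨⟨by linarith [hx.1], by linarith [hx.2]⟩, by linarith, by linarith⟩).1
      rw [add_sub_cancel_left] at k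
      refine (le_of_eq ?_).trans (k.trans (mul_le_mul_of_nonneg_left
        (measureReal_mono fun z hz => hz.1) (mul_nonneg ha h0.le)))
      refine intervalIntegral.integral_congr fun y hy => ?_
      rw [uIcc_of_le (by linarith)] at hy
      have e : (⟨x, y⟩ + h • (1 : ℂ)) = ⟨x + h, y⟩ := Complex.ext (by simp) (by simp)
      simp only [e]
      rw [hvu ⟨x + h, y⟩ ⟨⟨by linarith [hx.1], by linarith [hx.2]⟩, by linarith [hy.1],
        by linarith [hy.2]⟩, hvu ⟨x, y⟩ ⟨⟨by linarith [hx.1], by linarith [hx.2]⟩,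
        by linarith [hy.1], by linarith [hy.2]⟩]
  have b2 := key Complex.I fun h h0 h1 => by
    rw [(moll_rect (by fun_prop) _ _ _ _).2]
    refine moll_dq Γ Complex.measurable_im ha h0.le (by linarith)
      (F := fun y x => (v (⟨x, y⟩ + h • Complex.I) - v ⟨x, y⟩) ^ 2) (fun y => ?_)
      (fun _ _ => sq_nonneg _) fun y hy => ?_
    · have : Continuous fun x : ℝ => (⟨x, y⟩ : ℂ) := by
        simp only [Complex.mk_eq_add_mul_I]
        fun_prop
      fun_prop
    · have k := (hq (x₀ + 2 * η) (x₁ - 2 * η) y (y + h) (by linarith) (by linarith)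
        fun z ⟨⟨k1, k2⟩, k3, k4⟩ =>
          ⟨⟨by linarith, by linarith⟩, by linarith [hy.1], by linarith [hy.2]⟩).2
      rw [add_sub_cancel_left] at k
      refine (le_of_eq ?_).trans (k.trans (mul_le_mul_of_nonneg_left
        (measureReal_mono fun z hz => hz.2) (mul_nonneg ha h0.le)))
      refine intervalIntegral.integral_congr fun x hx => ?_
      rw [uIcc_of_le (by linarith)] at hx
      have e : (⟨x, y⟩ + h • Complex.I) = ⟨x, y + h⟩ := Complex.ext (by simp) (by simp)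
      simp only [e]
      rw [hvu ⟨x, y + h⟩ ⟨⟨by linarith [hx.1], by linarith [hx.2]⟩, by linarith [hy.1],
        by linarith [hy.2]⟩, hvu ⟨x, y⟩ ⟨⟨by linarith [hx.1], by linarith [hx.2]⟩,
        by linarith [hy.1], by linarith [hy.2]⟩]
  refine ⟨g, hgd, hψc.convolution _ hvc, fun z hz => ?_, ?_⟩
  · obtain ⟨⟨k1, k2⟩, k3, k4⟩ := hm hz
    rw [← hvu z ⟨⟨by linarith, by linarith⟩, by linarith, by linarith⟩, ← Real.dist_eq]
    exact φ.dist_normed_convolution_le hv.aestronglyMeasurable fun x hx =>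
      (hδ' ((mem_ball.1 hx).trans_le (min_le_left _ _))).le
  · have hd : Continuous (fderiv ℝ g) := hgd.continuous_fderiv (by simp)
    have m1 : Continuous fun z => fderiv ℝ g z 1 ^ 2 := by fun_prop
    have m2 : Continuous fun z => fderiv ℝ g z Complex.I ^ 2 := by fun_prop
    have m3 : Continuous fun z => fderiv ℝ g z 1 ^ 2 + fderiv ℝ g z Complex.I ^ 2 := m1.add m2
    rw [integral_eq_lintegral_of_nonneg_ae
      (Eventually.of_forall fun z => add_nonneg (sq_nonneg _) (sq_nonneg _))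
      m3.aestronglyMeasurable]
    refine ENNReal.toReal_le_of_le_ofReal (by linarith) ?_
    simp only [ENNReal.ofReal_add (sq_nonneg _) (sq_nonneg _)]
    rw [lintegral_add_left m1.measurable.ennreal_ofReal, mul_assoc, two_mul,
      ENNReal.ofReal_add hB hB]
    exact add_le_add b1 b2

end Pool.Agent.QL
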