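import Pool.Agent.P.MP_7a6434d8_pr.QL.NRecA

/-! Chain rule along recovered coordinates. -/

open MeasureTheory Set Filter Topology Metric
open scoped ENNReal

namespace Pool.Agent.QL

theorem nrec_clm (L : ℂ →L[ℝ] ℝ) (z : ℂ) : L z = L 1 * z.re + L Complex.I * z.im := by
  have e : z = z.re • (1 : ℂ) + z.im • Complex.I := by
    apply Complex.ext <;> simp
  conv_lhs => rw [e]
  rw [map_add, map_smul, map_smul, smul_eq_mul, smul_eq_mul, mul_comm, mul_comm z.im]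

theorem nrec_d {f : ℂ → ℝ} (hf : ContDiff ℝ 1 f) (e : ℂ) : Continuous fun w => fderiv ℝ f w e :=
  (hf.continuous_fderiv one_ne_zero).clm_apply continuous_const

theorem nrec_err {x y A B s δ H : ℝ} (hx : |x - A| ≤ δ * s) (hy : |y - B| ≤ δ * s)
    (hA : |A| ≤ H * s) (hB : |B| ≤ H * s) (hδ : 0 ≤ δ) (hδ' : δ ≤ 1) (hs : 0 ≤ s) :
    |x * y - A * B| ≤ δ * (2 * H + 1) * s ^ 2 := by
  have e : x * y - A * B = (x - A) * (y - B) + (x - A) * B + A * (y - B) := by ring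
  have h1 := mul_le_mul hx hy (abs_nonneg _) (by positivity)
  have h2 := mul_le_mul hx hB (abs_nonneg _) (by positivity)
  have h3 := mul_le_mul hA hy (abs_nonneg _) ((abs_nonneg _).trans hA)
  have h4 := mul_le_mul_of_nonneg_right hδ' (by positivity : 0 ≤ δ * s ^ 2)
  rw [← abs_mul] at h1 h2 h3
  rw [e]
  refine (abs_add_three _ _ _).trans ?_
  linarith

namespace FNet

variable {N : FNet} {s₀ s₁ t₀ t₁ a : ℝ} {v v' : ∀ m, (N.M m).D → ℝ}

theorem Sw_abs {m : ℕ} {S : Set ℂ} {q q' q₁ q₂ q₃ : (N.M m).D → ℝ} (a b c : ℝ)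
    (h : ∀ d, N.In m S d → |q d - q' d| ≤ a * q₁ d + b * q₂ d + c * q₃ d) :
    |N.Sw m S q - N.Sw m S q'| ≤ a * N.Sw m S q₁ + b * N.Sw m S q₂ + c * N.Sw m S q₃ := by
  rw [← N.Sw_mul, ← N.Sw_mul, ← N.Sw_mul, ← N.Sw_add, ← N.Sw_add, abs_sub_le_iff,
    sub_le_iff_le_add, sub_le_iff_le_add, ← N.Sw_add, ← N.Sw_add]
  exact ⟨N.Sw_mono fun d hd => by linarith [(abs_le.1 (h d hd)).2],
    N.Sw_mono fun d hd => by linarith [(abs_le.1 (h d hd)).1]⟩

theorem mesh_rect (N : FNet) (s₀ s₁ t₀ t₁ : ℝ) {η : ℝ} (hη : 0 < η) :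
    ∀ᶠ m in (N.U : Filter ℕ), ∀ d e, N.p m d ∈ orect s₀ s₁ t₀ t₁ → (N.M m).Adj d e →
      ‖N.p m e - N.p m d‖ ≤ η := by
  obtain ⟨R, -, hR⟩ := nrec_bdd continuous_norm s₀ s₁ t₀ t₁
  exact (N.mesh R η hη).mono fun m h d e hd => h d e ((le_abs_self _).trans (hR _ hd))

theorem Co.close {S : Set ℂ} (hv : N.Co v v' S a) {η : ℝ} (hη : 0 < η) :
    ∀ᶠ m in (N.U : Filter ℕ), (∀ d, (⟨v m ((N.M m).σ d), v' m ((N.M m).σ d)⟩ : ℂ) =
      ⟨v m d, v' m d⟩) ∧ ∀ d, N.p m d ∈ S → ‖(⟨v m d, v' m d⟩ : ℂ) - N.p m d‖ ≤ η := by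
  filter_upwards [hv.1.2.1 (η / 2) (half_pos hη), hv.2.1.2.1 (η / 2) (half_pos hη)] with m h1 h2
  refine ⟨fun d => by rw [h1.1 d, h2.1 d], fun d hd => ?_⟩
  refine (Complex.norm_le_abs_re_add_abs_im _).trans ?_
  rw [Complex.sub_re, Complex.sub_im]
  linarith [h1.2 d hd, h2.2 d hd]

theorem Co.conv {S : Set ℂ} (hv : N.Co v v' S a) {f : ℂ → ℝ} (hf : UniformContinuous f) :
    N.Conv (fun m d => f ⟨v m d, v' m d⟩) f S := by
  intro η hη
  obtain ⟨ρ, hρ, h⟩ := Metric.uniformContinuous_iff_le.1 hf η hη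
  filter_upwards [hv.close hρ] with m hm
  exact ⟨fun d => by beta_reduce; rw [hm.1 d], fun d hd => h (by
    rw [dist_eq_norm]; exact hm.2 d hd)⟩

theorem Co.chain (hv : N.Co v v' (orect s₀ s₁ t₀ t₁) a) {f : ℂ → ℝ} (hf : ContDiff ℝ 1 f)
    (hc : HasCompactSupport f) {δ : ℝ} (hδ : 0 < δ) :
    ∀ᶠ m in (N.U : Filter ℕ), ∀ d, N.In m (orect s₀ s₁ t₀ t₁) d →
      |N.dd m (fun d => f ⟨v m d, v' m d⟩) d - (fderiv ℝ f (N.p m d) 1 * N.dd m (v m) d +
        fderiv ℝ f (N.p m d) Complex.I * N.dd m (v' m) d)| ≤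
      δ * (|N.dd m (v m) d| + |N.dd m (v' m) d|) := by
  obtain ⟨ρ, hρ, h⟩ := Metric.uniformContinuous_iff_le.1 ((hc.fderiv ℝ).uniformContinuous_of_continuous
    (hf.continuous_fderiv one_ne_zero)) δ hδ
  filter_upwards [hv.close (half_pos hρ), N.mesh_rect s₀ s₁ t₀ t₁ (half_pos hρ)] with m h1 h2 d hd
  have k1 := h1.2 d hd.1
  have k2 := h1.2 _ hd.2
  have k3 := h2 d _ hd.1 (.inl rfl)
  have k := (convex_closedBall (N.p m d) ρ).norm_image_sub_le_of_norm_fderiv_le' (𝕜 := ℝ) (f := f)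
    (φ := fderiv ℝ f (N.p m d)) (C := δ) (x := ⟨v m d, v' m d⟩)
    (y := ⟨v m ((N.M m).α d), v' m ((N.M m).α d)⟩)
    (fun x _ => hf.differentiable one_ne_zero x)
    (fun x hx => by rw [← dist_eq_norm]; exact h hx)
    (mem_closedBall_iff_norm.2 (by linarith))
    (mem_closedBall_iff_norm.2 ((norm_sub_le_norm_sub_add_norm_sub _ (N.p m ((N.M m).α d)) _).trans
      (by linarith)))
  rw [nrec_clm] at k
  exact k.trans (mul_le_mul_of_nonneg_left (Complex.norm_le_abs_re_add_abs_im _) hδ.le)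

theorem Co.bdd {S : Set ℂ} (hv : N.Co v v' S a) : ∃ E, 0 ≤ E ∧ ∀ᶠ m in (N.U : Filter ℕ),
    N.en m S (v m) (v m) ≤ E ∧ N.en m S (v' m) (v' m) ≤ E :=
  ⟨|a * volume.real S + 1|, abs_nonneg _, ((hv.1.2.2 1 one_pos).and (hv.2.1.2.2 1 one_pos)).mono
    fun _ h => ⟨h.1.trans (le_abs_self _), h.2.trans (le_abs_self _)⟩⟩

/-- mutual energies of smooth functions of the coordinates -/
theorem Co.lim (hv : N.Co v v' (orect s₀ s₁ t₀ t₁) a) {f g : ℂ → ℝ} (hf : ContDiff ℝ 1 f)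
    (hc : HasCompactSupport f) (hg : ContDiff ℝ 1 g) (hc' : HasCompactSupport g) :
    Tendsto (fun m => N.en m (orect s₀ s₁ t₀ t₁) (fun d => f ⟨v m d, v' m d⟩)
      fun d => g ⟨v m d, v' m d⟩) N.U (𝓝 (a * ∫ z in orect s₀ s₁ t₀ t₁,
        (fderiv ℝ f z 1 * fderiv ℝ g z 1 + fderiv ℝ f z Complex.I * fderiv ℝ g z Complex.I))) := by
  have f1 := nrec_d hf 1
  have f2 := nrec_d hf Complex.I
  have g1 := nrec_d hg 1
  have g2 := nrec_d hg Complex.I
  have k := ((hv.1.lim (f1.mul g1)).add (hv.2.1.lim (f2.mul g2))).add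
    (hv.1.mix hv.2.1 hv.2.2 ((f1.mul g2).add (f2.mul g1)))
  simp only [Pi.mul_apply, Pi.add_apply] at k
  rw [add_zero, ← mul_add, ← integral_add (nrec_int (f1.fun_mul g1) _ _ _ _)
    (nrec_int (f2.fun_mul g2) _ _ _ _)] at k
  refine k.congr_dist (Metric.tendsto_nhds.2 fun ε hε => ?_)
  obtain ⟨E, E0, hE⟩ := hv.bdd
  obtain ⟨H, H0, hH⟩ := nrec_bdd (((f1.abs.add f2.abs).add g1.abs).add g2.abs) s₀ s₁ t₀ t₁
  obtain ⟨δ, hδ, hδ1, hδ2⟩ : ∃ δ > 0, δ ≤ 1 ∧ δ * ((2 * H + 1) * 4 * E) < ε := by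
    refine ⟨min 1 (ε / ((2 * H + 1) * 4 * E + 1)), by positivity, min_le_left _ _, ?_⟩
    refine (mul_le_mul_of_nonneg_right (min_le_right _ _) (by positivity)).trans_lt ?_
    rw [div_mul_eq_mul_div, div_lt_iff₀ (by positivity)]
    linarith
  filter_upwards [hE, hv.chain hf hc hδ, hv.chain hg hc' hδ] with m hE h1 h2
  rw [Real.dist_eq, sub_zero, abs_of_nonneg dist_nonneg, dist_comm, Real.dist_eq, ← N.Sw_add,
    ← N.Sw_add, en_Sw]
  refine (Sw_abs (q₁ := fun d => N.dd m (v m) d * N.dd m (v m) d)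
    (q₂ := fun d => N.dd m (v' m) d * N.dd m (v' m) d) (q₃ := fun _ => 0)
    (δ * (2 * H + 1) * 2) (δ * (2 * H + 1) * 2) 0 fun d hd => ?_).trans_lt ?_
  · have b := (le_abs_self _).trans (hH _ hd.1)
    simp only [Pi.add_apply] at b
    have c : ∀ x y : ℝ, |x| ≤ H → |y| ≤ H → |x * N.dd m (v m) d + y * N.dd m (v' m) d| ≤
        H * (|N.dd m (v m) d| + |N.dd m (v' m) d|) := fun x y hx hy => by
      refine (abs_add_le _ _).trans ?_
      rw [abs_mul, abs_mul, mul_add]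
      gcongr
    have b1 := abs_nonneg (fderiv ℝ f (N.p m d) 1)
    have b2 := abs_nonneg (fderiv ℝ f (N.p m d) Complex.I)
    have b3 := abs_nonneg (fderiv ℝ g (N.p m d) 1)
    have b4 := abs_nonneg (fderiv ℝ g (N.p m d) Complex.I)
    have e := nrec_err (h1 d hd) (h2 d hd) (c _ _ (by linarith) (by linarith))
      (c _ _ (by linarith) (by linarith)) hδ.le hδ1 (by positivity)
    have e' : (|N.dd m (v m) d| + |N.dd m (v' m) d|) ^ 2 ≤
        2 * (N.dd m (v m) d * N.dd m (v m) d) + 2 * (N.dd m (v' m) d * N.dd m (v' m) d) := by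
      rw [← abs_mul_abs_self (N.dd m (v m) d), ← abs_mul_abs_self (N.dd m (v' m) d)]
      nlinarith [sq_nonneg (|N.dd m (v m) d| - |N.dd m (v' m) d|)]
    have e'' := mul_le_mul_of_nonneg_left e' (by positivity : 0 ≤ δ * (2 * H + 1))
    refine le_trans (le_of_eq ?_) (e.trans (by linarith))
    congr 1
    ring
  · rw [← en_Sw, ← en_Sw]
    have p : 0 ≤ δ * (2 * H + 1) * 2 := by positivity
    linarith [mul_le_mul_of_nonneg_left hE.1 p, mul_le_mul_of_nonneg_left hE.2 p]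

/-- smooth functions of the coordinates are orthogonal to small functions of bounded energy -/
theorem Co.orth (hv : N.Co v v' (orect s₀ s₁ t₀ t₁) a) {f : ℂ → ℝ} (hf : ContDiff ℝ 1 f)
    (hc : HasCompactSupport f) (C : ℝ) {θ : ℝ} (hθ : 0 < θ) :
    ∃ η > 0, ∀ᶠ m in (N.U : Filter ℕ), ∀ r,
      N.Close m r (fun _ => 0) (orect s₀ s₁ t₀ t₁) η → N.en m (orect s₀ s₁ t₀ t₁) r r ≤ C →
      |N.en m (orect s₀ s₁ t₀ t₁) (fun d => f ⟨v m d, v' m d⟩) r| ≤ θ := by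
  obtain ⟨η₁, e₁, b₁⟩ := hv.1.orth (nrec_d hf 1) C (by positivity : 0 < θ / 3)
  obtain ⟨η₂, e₂, b₂⟩ := hv.2.1.orth (nrec_d hf Complex.I) C (by positivity : 0 < θ / 3)
  obtain ⟨E, E0, hE⟩ := hv.bdd
  obtain ⟨δ, hδ, hδ2⟩ : ∃ δ > 0, δ * (2 * E + |C| + 1) = θ / 3 :=
    ⟨θ / 3 / (2 * E + |C| + 1), by positivity, by field_simp⟩
  refine ⟨min η₁ η₂, lt_min e₁ e₂, ?_⟩
  filter_upwards [b₁, b₂, hE, hv.chain hf hc hδ] with m b₁ b₂ hE h1 r hr hC
  have k1 := abs_le.1 (b₁ r (N.nbasic_close_mono hr subset_rfl (min_le_left _ _)) hC)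
  have k2 := abs_le.1 (b₂ r (N.nbasic_close_mono hr subset_rfl (min_le_right _ _)) hC)
  have k3 := Sw_abs (S := orect s₀ s₁ t₀ t₁)
    (q := fun d => N.dd m (fun d => f ⟨v m d, v' m d⟩) d * N.dd m r d)
    (q' := fun d => fderiv ℝ f (N.p m d) 1 * (N.dd m (v m) d * N.dd m r d) +
      fderiv ℝ f (N.p m d) Complex.I * (N.dd m (v' m) d * N.dd m r d))
    (q₁ := fun d => N.dd m (v m) d * N.dd m (v m) d)
    (q₂ := fun d => N.dd m (v' m) d * N.dd m (v' m) d) (q₃ := fun d => N.dd m r d * N.dd m r d)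
    δ δ δ fun d hd => by
      have e := mul_le_mul_of_nonneg_right (h1 d hd) (abs_nonneg (N.dd m r d))
      rw [← abs_mul] at e
      have e' : (|N.dd m (v m) d| + |N.dd m (v' m) d|) * |N.dd m r d| ≤
          N.dd m (v m) d * N.dd m (v m) d + N.dd m (v' m) d * N.dd m (v' m) d +
          N.dd m r d * N.dd m r d := by
        rw [← abs_mul_abs_self (N.dd m (v m) d), ← abs_mul_abs_self (N.dd m (v' m) d),
          ← abs_mul_abs_self (N.dd m r d)]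
        nlinarith [sq_nonneg (|N.dd m (v m) d| - |N.dd m r d|),
          sq_nonneg (|N.dd m (v' m) d| - |N.dd m r d|), sq_nonneg (N.dd m (v m) d),
          sq_nonneg (N.dd m (v' m) d), abs_mul_abs_self (N.dd m (v m) d),
          abs_mul_abs_self (N.dd m (v' m) d)]
      have e'' := mul_le_mul_of_nonneg_left e' hδ.le
      refine le_trans (le_of_eq ?_) (e.trans (by linarith))
      congr 1
      ring
  rw [N.Sw_add, ← en_Sw, ← en_Sw, ← en_Sw, ← en_Sw, abs_le] at k3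
  have j1 := mul_le_mul_of_nonneg_left hE.1 hδ.le
  have j2 := mul_le_mul_of_nonneg_left hE.2 hδ.le
  have j3 := mul_le_mul_of_nonneg_left (hC.trans (le_abs_self C)) hδ.le
  rw [abs_le]
  constructor <;> linarith [k1.1, k1.2, k2.1, k2.2, k3.1, k3.2]

end FNet

end Pool.Agent.QL
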