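import Pool.Agent.P.MP_7a6434d8_pr.QL.NLim
import Pool.Agent.P.MP_7a6434d8_pr.QL.KGMoll
import Pool.Agent.P.MP_7a6434d8_pr.QL.NRecB
import Pool.Agent.P.MP_ca04ec_pr.G.Pot

open MeasureTheory Set Filter Topology Metric
open scoped ENNReal

namespace Pool.Agent.QL

open Pool.Agent.LGD

namespace FNet

variable (N : FNet)

/-- cutting off a function of the coordinates outside the working rectangle -/
theorem nrec_cutoff {a s₀ s₁ t₀ t₁ : ℝ} {v v' : ∀ m, (N.M m).D → ℝ}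
    (hv : N.Co v v' (orect s₀ s₁ t₀ t₁) a) {φ : ℂ → ℝ} (hφ : Continuous φ)
    (hc : HasCompactSupport φ) (hs : tsupport φ ⊆ orect s₀ s₁ t₀ t₁) :
    ∃ u : ∀ m, (N.M m).D → ℝ, N.Conv u φ univ ∧ ∀ᶠ m in (N.U : Filter ℕ), ∀ w,
      N.en m univ (u m) w = N.en m (orect s₀ s₁ t₀ t₁) (fun d => φ ⟨v m d, v' m d⟩) w ∧
      N.en m (orect s₀ s₁ t₀ t₁) w (u m) =
        N.en m (orect s₀ s₁ t₀ t₁) w (fun d => φ ⟨v m d, v' m d⟩) := by
  classical
  obtain ⟨ρ, hρ, hρ'⟩ := hc.isCompact.exists_cthickening_subset_open (nrec_open _ _ _ _) hs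
  set u : ∀ m, (N.M m).D → ℝ := fun m d =>
    if ∀ e, (N.M m).σ.SameCycle d e → N.p m e ∈ orect s₀ s₁ t₀ t₁ then φ ⟨v m d, v' m d⟩ else 0
    with hu
  have u0 : ∀ m d, N.p m d ∉ orect s₀ s₁ t₀ t₁ → u m d = 0 := fun m d hd =>
    if_neg fun h => hd (h d (Equiv.Perm.SameCycle.refl _ _))
  have key : ∀ᶠ m in (N.U : Filter ℕ), ∀ d e, N.p m d ∈ orect s₀ s₁ t₀ t₁ → (N.M m).Adj d e →
      N.p m e ∉ orect s₀ s₁ t₀ t₁ → φ ⟨v m d, v' m d⟩ = 0 := by
    filter_upwards [hv.close (half_pos hρ), N.mesh_rect s₀ s₁ t₀ t₁ (half_pos hρ)]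
      with m h1 h2 d e hd ha he
    refine by_contra fun h => he (hρ' (mem_cthickening_of_dist_le _ _ _ _
      (subset_tsupport φ h) ?_))
    rw [dist_eq_norm]
    refine (norm_sub_le_norm_sub_add_norm_sub _ (N.p m d) _).trans ?_
    linarith [h2 d e hd ha, h1.2 d hd, norm_sub_rev (N.p m d) ⟨v m d, v' m d⟩]
  have u1 : ∀ᶠ m in (N.U : Filter ℕ), ∀ d, N.p m d ∈ orect s₀ s₁ t₀ t₁ →
      u m d = φ ⟨v m d, v' m d⟩ := by
    filter_upwards [key] with m h d hd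
    by_cases k : ∀ e, (N.M m).σ.SameCycle d e → N.p m e ∈ orect s₀ s₁ t₀ t₁
    · exact if_pos k
    · refine (if_neg k).trans ?_
      push Not at k
      obtain ⟨e, k1, k2⟩ := k
      exact (h d e hd (.inr (.inr k1)) k2).symm
  refine ⟨u, fun η hη => ?_, ?_⟩
  · filter_upwards [u1, hv.close one_pos, hv.conv (hc.uniformContinuous_of_continuous hφ) η hη]
      with m h1 h2 h3
    refine ⟨fun d => ?_, fun d _ => ?_⟩
    · simp only [hu, Equiv.Perm.sameCycle_apply_left, h2.1 d]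
    · by_cases hd : N.p m d ∈ orect s₀ s₁ t₀ t₁
      · rw [h1 d hd]; exact h3.2 d hd
      · rw [u0 m d hd, image_eq_zero_of_notMem_tsupport fun h => hd (hs h), sub_zero, abs_zero]
        exact hη.le
  · filter_upwards [u1, key] with m h1 h2 w
    have e : ∀ d, N.In m (orect s₀ s₁ t₀ t₁) d →
        N.dd m (u m) d = N.dd m (fun d => φ ⟨v m d, v' m d⟩) d := fun d hd => by
      unfold dd; rw [h1 d hd.1, h1 _ hd.2]
    unfold en
    constructor
    · congr 2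
      refine Finset.sum_congr rfl fun d _ => ?_
      rw [if_pos (show N.In m univ d from ⟨trivial, trivial⟩)]
      split_ifs with hd
      · rw [e d hd]
      · refine mul_eq_zero_of_left ?_ _
        unfold dd
        by_cases k1 : N.p m d ∈ orect s₀ s₁ t₀ t₁
        · have k2 : N.p m ((N.M m).α d) ∉ orect s₀ s₁ t₀ t₁ := fun k2 => hd ⟨k1, k2⟩
          rw [u0 m _ k2, h1 d k1, h2 d _ k1 (.inl rfl) k2, sub_zero]
        · rw [u0 m d k1, sub_zero]
          by_cases k2 : N.p m ((N.M m).α d) ∈ orect s₀ s₁ t₀ t₁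
          · rw [h1 _ k2, h2 _ d k2 (.inl ((N.M m).α_α d).symm) k1]
          · exact u0 m _ k2
    · congr 2
      refine Finset.sum_congr rfl fun d _ => ?_
      split_ifs with hd
      · rw [e d hd]
      · rfl

/-- Recovery sequences for test functions and convergence of mutual energies. -/
theorem recov {a a' x₀ x₁ y₀ y₁ : ℝ} (ha : 0 ≤ a) (ha' : 0 ≤ a')
    (hF : N.Lin a (orect x₀ x₁ y₀ y₁)) (hls : N.LS a' (orect x₀ x₁ y₀ y₁))
    (φ : ℂ → ℝ) (hφ : ContDiff ℝ (⊤ : ℕ∞) φ)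
    (hc : HasCompactSupport φ) (hs : tsupport φ ⊆ orect x₀ x₁ y₀ y₁) :
    ∃ u : ∀ m, (N.M m).D → ℝ, N.Conv u φ univ ∧
      (∃ C : ℝ, ∀ᶠ m in (N.U : Filter ℕ), N.en m univ (u m) (u m) ≤ C) ∧
      ∀ (v : ∀ m, (N.M m).D → ℝ) (g : ℂ → ℝ) (C : ℝ), Continuous g →
        N.Conv v g (orect x₀ x₁ y₀ y₁) →
        (∀ᶠ m in (N.U : Filter ℕ), N.en m univ (v m) (v m) ≤ C) →
        Tendsto (fun m => N.en m univ (u m) (v m)) N.U
          (𝓝 (-a * ∫ z, g z * Laplacian.laplacian φ z)) := by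
  rcases (tsupport φ).eq_empty_or_nonempty with h0 | ⟨z₀, hz₀⟩
  · obtain rfl := tsupport_eq_empty_iff.1 h0
    have e : ∀ m w, N.en m univ (fun _ => 0) w = 0 := fun m w => by simp [en, dd]
    refine ⟨fun _ _ => 0, fun η hη => .of_forall fun m => ⟨fun _ => rfl, fun d _ => by
      simpa using hη.le⟩, ⟨0, .of_forall fun m => (e m _).le⟩, fun v g C _ _ _ => ?_⟩
    have e' : ∀ z : ℂ, Laplacian.laplacian (0 : ℂ → ℝ) z = 0 := fun z =>
      image_eq_zero_of_notMem_tsupport fun h => by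
        simpa [h0] using pot_laplacian_tsupport _ h
    simp only [e, e', mul_zero, integral_zero]
    exact tendsto_const_nhds
  obtain ⟨τ, hτ, hm⟩ : ∃ τ : ℝ, 0 < τ ∧
      tsupport φ ⊆ orect (x₀ + τ) (x₁ - τ) (y₀ + τ) (y₁ - τ) := by
    obtain ⟨η, hη, hm⟩ := hc.isCompact.exists_forall_le'
      (f := fun z => min (min (z.re - x₀) (x₁ - z.re)) (min (z.im - y₀) (y₁ - z.im))) (a := 0)
      (by fun_prop) fun z hz => by
        obtain ⟨⟨k1, k2⟩, k3, k4⟩ := hs hz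
        exact lt_min (lt_min (sub_pos.2 k1) (sub_pos.2 k2)) (lt_min (sub_pos.2 k3) (sub_pos.2 k4))
    refine ⟨η / 2, by positivity, fun z hz => ?_⟩
    have := hm z hz
    simp only [le_min_iff] at this
    obtain ⟨⟨k1, k2⟩, k3, k4⟩ := this
    exact ⟨⟨by linarith, by linarith⟩, by linarith, by linarith⟩
  have hK : crect (x₀ + τ) (x₁ - τ) (y₀ + τ) (y₁ - τ) ⊆ orect x₀ x₁ y₀ y₁ :=
    fun z ⟨⟨k1, k2⟩, k3, k4⟩ => ⟨⟨by linarith, by linarith⟩, by linarith, by linarith⟩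
  generalize x₀ + τ = s₀, x₁ - τ = s₁, y₀ + τ = t₀, y₁ - τ = t₁ at hm hK
  obtain ⟨X, Y, hX⟩ := N.exists_co ha hF ((hm hz₀).1.1.trans (hm hz₀).1.2)
    ((hm hz₀).2.1.trans (hm hz₀).2.2) hK
  have φ1 : ContDiff ℝ 1 φ := hφ.of_le (by exact_mod_cast le_top)
  have φ2 : ContDiff ℝ 2 φ := contDiff_infty.1 hφ 2
  obtain ⟨u, hu, hu'⟩ := N.nrec_cutoff hX hφ.continuous hc hm
  refine ⟨u, hu, ⟨_, (hu'.and ((hX.lim φ1 hc φ1 hc).eventually (gt_mem_nhds (lt_add_one _)))).mono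
    fun m h => ((h.1 _).1.trans (h.1 _).2).trans_le h.2.le⟩, fun v g C hg hv hC => ?_⟩
  obtain ⟨Γ, hΓ, hΓC, hD⟩ := N.exists_dom v (orect x₀ x₁ y₀ y₁)
    ((nrec_compact _ _ _ _).isBounded.subset (nrec_sub _ _ _ _))
    (hC.mono fun m h => (N.en_mono m (subset_univ _) _).trans h)
  have hq := N.dq_of_ls ha' (nrec_open _ _ _ _) subset_rfl hls v g hg.continuousOn
    (fun K _ hK η hη => (hv η hη).mono fun m h => N.nbasic_close_mono h hK le_rfl) Γ hD
  refine Metric.tendsto_nhds.2 fun θ hθ => ?_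
  obtain ⟨η, hη, hr⟩ := hX.orth φ1 hc (2 * C + 2 * (a * (2 * a' * C) + 1))
    (by positivity : 0 < θ / 3)
  have hΔ := pot_laplacian_continuous φ2
  have hΔc := pot_laplacian_compact hc
  have B0 : 0 ≤ a * ∫ z, |Laplacian.laplacian φ z| :=
    mul_nonneg ha (integral_nonneg fun z => abs_nonneg _)
  obtain ⟨ε, hε, ε1, ε2⟩ : ∃ ε > 0, ε ≤ η / 3 ∧
      ε * (a * ∫ z, |Laplacian.laplacian φ z|) ≤ θ / 3 := by
    refine ⟨min (η / 3) (θ / 3 / ((a * ∫ z, |Laplacian.laplacian φ z|) + 1)), by positivity,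
      min_le_left _ _, (mul_le_mul_of_nonneg_right (min_le_right _ _) B0).trans ?_⟩
    rw [div_mul_eq_mul_div, div_le_iff₀ (by positivity)]
    linarith
  obtain ⟨k, hk, hkc, hk1, hk2⟩ := kg_mollify ha' hg.continuousOn hq _ (nrec_compact _ _ _ _) hK ε hε
  have k1 : ContDiff ℝ 1 k := hk.of_le (by exact_mod_cast le_top)
  have i1 : (a * ∫ z in orect s₀ s₁ t₀ t₁, (fderiv ℝ k z 1 * fderiv ℝ k z 1 +
      fderiv ℝ k z Complex.I * fderiv ℝ k z Complex.I)) < a * (2 * a' * C) + 1 := by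
    refine (mul_le_mul_of_nonneg_left ?_ ha).trans_lt (lt_add_one _)
    simp only [← sq]
    refine le_trans (setIntegral_mono_set ?_ (.of_forall fun z => by positivity)
      (nrec_sub _ _ _ _).eventuallyLE) (hk2.trans (by gcongr))
    exact (((nrec_d k1 1).fun_pow 2).fun_add
      ((nrec_d k1 _).fun_pow 2)).continuousOn.integrableOn_compact (nrec_compact _ _ _ _)
  have i2 : ∫ z in orect s₀ s₁ t₀ t₁, (fderiv ℝ φ z 1 * fderiv ℝ k z 1 +
      fderiv ℝ φ z Complex.I * fderiv ℝ k z Complex.I) = -∫ z, k z * Laplacian.laplacian φ z := by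
    rw [pot_green1' k1 φ2 hc, neg_neg, setIntegral_eq_integral_of_forall_compl_eq_zero]
    · simp only [mul_comm]
    · intro z hz
      rw [image_eq_zero_of_notMem_tsupport fun h => hz (hm (tsupport_fderiv_subset ℝ h))]
      simp
  have i3 : |(∫ z, k z * Laplacian.laplacian φ z) - ∫ z, g z * Laplacian.laplacian φ z| ≤
      ε * ∫ z, |Laplacian.laplacian φ z| := by
    rw [← integral_sub ((hk.continuous.fun_mul hΔ).integrable_of_hasCompactSupport hΔc.mul_left)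
      ((hg.fun_mul hΔ).integrable_of_hasCompactSupport hΔc.mul_left), ← integral_const_mul,
      ← Real.norm_eq_abs]
    refine norm_integral_le_of_norm_le
      ((hΔ.integrable_of_hasCompactSupport hΔc).abs.const_mul ε) (.of_forall fun z => ?_)
    rw [← sub_mul, Real.norm_eq_abs, abs_mul]
    by_cases hz : z ∈ tsupport (Laplacian.laplacian φ)
    · exact mul_le_mul_of_nonneg_right
        (hk1 z (nrec_sub _ _ _ _ (hm (pot_laplacian_tsupport φ hz)))) (abs_nonneg _)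
    · rw [image_eq_zero_of_notMem_tsupport hz]; simp
  have l1 := hX.lim φ1 hc k1 hkc
  rw [i2] at l1
  filter_upwards [hu', hr, hC, hv (η / 3) (by positivity), (hX.lim k1 hkc k1 hkc).eventually
    (gt_mem_nhds i1), hX.conv (hkc.uniformContinuous_of_continuous hk.continuous) (η / 3)
    (by positivity), Metric.tendsto_nhds.1 l1 (θ / 3) (by positivity)] with m h1 h2 h3 h4 h5 h6 h7
  have j1 := h2 (fun d => v m d - k ⟨X m d, Y m d⟩) ⟨fun d => by
    have := h6.1 d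
    beta_reduce at this ⊢
    rw [h4.1 d, this], fun d hd => by
      have b1 := abs_le.1 (h4.2 d (hK (nrec_sub _ _ _ _ hd)))
      have b2 := abs_le.1 (h6.2 d hd)
      have b3 := abs_le.1 (hk1 _ (nrec_sub _ _ _ _ hd))
      rw [abs_le]
      constructor <;> linarith [b1.1, b1.2, b2.1, b2.2, b3.1, b3.2]⟩ (by
    have b := N.Sw_le (S := orect s₀ s₁ t₀ t₁)
      (q := fun d => N.dd m (fun d => v m d - k ⟨X m d, Y m d⟩) d *
        N.dd m (fun d => v m d - k ⟨X m d, Y m d⟩) d)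
      (q₁ := fun d => N.dd m (v m) d * N.dd m (v m) d)
      (q₂ := fun d => N.dd m (fun d => k ⟨X m d, Y m d⟩) d * N.dd m (fun d => k ⟨X m d, Y m d⟩) d)
      (q₃ := fun _ => 0) 2 2 0 fun d _ => by
        unfold dd
        nlinarith [sq_nonneg (v m ((N.M m).α d) - v m d +
          (k ⟨X m ((N.M m).α d), Y m ((N.M m).α d)⟩ - k ⟨X m d, Y m d⟩))]
    rw [← en_Sw, ← en_Sw, ← en_Sw] at b
    linarith [N.en_mono m (subset_univ (orect s₀ s₁ t₀ t₁)) (v m)])
  have j2 := N.en_add_left m (orect s₀ s₁ t₀ t₁) (fun d => v m d - k ⟨X m d, Y m d⟩)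
    (fun d => k ⟨X m d, Y m d⟩) fun d => φ ⟨X m d, Y m d⟩
  simp only [sub_add_cancel] at j2
  rw [N.en_comm] at j1 h7
  have j3 := mul_le_mul_of_nonneg_left i3 ha
  rw [← abs_of_nonneg ha, ← abs_mul, abs_of_nonneg ha, abs_le] at j3
  rw [(h1 _).1, N.en_comm, j2, Real.dist_eq, abs_lt]
  rw [Real.dist_eq, abs_lt] at h7
  rw [abs_le] at j1
  constructor <;> linarith [j1.1, j1.2, j3.1, j3.2, h7.1, h7.2]

end FNet

end Pool.Agent.QL
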