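import Pool.Agent.P.MP_7a6434d8_pr.QL.NPath

open MeasureTheory Set Filter Topology Metric
open scoped ENNReal

namespace Pool.Agent.QL

open Pool.Agent.LGD

namespace FNet

variable (N : FNet)

theorem sep_inv_sc {D : Type} [Finite D] {π : Equiv.Perm D} {f : D → ℝ} (hf : Inv π f) {d e : D}
    (h : π.SameCycle d e) : f e = f d := by
  obtain ⟨n, rfl⟩ := h.exists_nat_pow_eq
  induction n with
  | zero => simp
  | succ n ih => rw [pow_succ', Equiv.Perm.mul_apply, hf, ih (by exact ⟨n, by simp⟩)]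

theorem sep_step_adj {m : ℕ} {G : (N.M m).D → Prop} {d e : (N.M m).D} (h : N.Step m G d e) :
    (N.M m).Adj d e := by
  rcases h with h | h
  · exact Or.inl h.1
  · exact Or.inr (Or.inr h)

theorem sep_first {m : ℕ} {G : (N.M m).D → Prop} {d e : (N.M m).D}
    (h : Relation.ReflTransGen (N.Step m G) d e) :
    (N.M m).σ.SameCycle d e ∨ ∃ x, (N.M m).σ.SameCycle d x ∧ G x := by
  induction h with
  | refl => exact Or.inl (Equiv.Perm.SameCycle.refl _ _)
  | tail _ hs ih =>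
    rcases ih with ih | ih
    · rcases hs with hs | hs
      · exact Or.inr ⟨_, ih, hs.2⟩
      · exact Or.inl (ih.trans hs)
    · exact Or.inr ih

theorem sep_stop {m : ℕ} {G : (N.M m).D → Prop} (z : ℂ) {a η : ℝ}
    (hm : ∀ d e, ‖N.p m d - z‖ < a → (N.M m).Adj d e → ‖N.p m e - N.p m d‖ ≤ η)
    {d e : (N.M m).D} (h : Relation.ReflTransGen (N.Step m G) d e) (hd : ‖N.p m d - z‖ < a) :
    ‖N.p m e - z‖ < a ∨ ∃ e', Relation.ReflTransGen (N.Step m G) d e' ∧ a ≤ ‖N.p m e' - z‖ ∧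
      ‖N.p m e' - z‖ ≤ a + η := by
  induction h with
  | refl => exact Or.inl hd
  | @tail b c hb hs ih =>
    rcases ih with ih | ih
    · by_cases hc : ‖N.p m c - z‖ < a
      · exact Or.inl hc
      · refine Or.inr ⟨c, hb.tail hs, not_lt.1 hc, ?_⟩
        have h1 := hm b c ih (N.sep_step_adj hs)
        have h2 : ‖N.p m c - z‖ ≤ ‖N.p m c - N.p m b‖ + ‖N.p m b - z‖ :=
          norm_sub_le_norm_sub_add_norm_sub _ _ _
        linarith
    · exact Or.inr ih

theorem sep_annulus (z : ℂ) {a b : ℝ} (ha : 0 ≤ a) :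
    IsPreconnected (closedBall z b \ ball z a) := by
  have h : closedBall z b \ ball z a =
      (fun q : ℝ × ℝ => z + (q.1 : ℂ) * Complex.exp (q.2 * Complex.I)) '' (Icc a b ×ˢ univ) := by
    ext x
    simp only [Set.mem_sdiff, mem_closedBall, mem_ball, not_lt, mem_image, mem_prod, mem_Icc, mem_univ,
      and_true, dist_eq_norm]
    constructor
    · rintro ⟨h1, h2⟩
      refine ⟨(‖x - z‖, Complex.arg (x - z)), ⟨h2, h1⟩, ?_⟩
      simp only
      rw [Complex.norm_mul_exp_arg_mul_I]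
      ring
    · rintro ⟨q, ⟨h1, h2⟩, rfl⟩
      have h3 : ‖z + (q.1 : ℂ) * Complex.exp (q.2 * Complex.I) - z‖ = q.1 := by
        rw [add_sub_cancel_left, norm_mul, Complex.norm_exp_ofReal_mul_I, mul_one,
          Complex.norm_real, Real.norm_eq_abs, abs_of_nonneg (ha.trans h1)]
      rw [h3]
      exact ⟨h2, h1⟩
  rw [h]
  refine (isPreconnected_Icc.prod isPreconnected_univ).image _ ?_
  fun_prop

theorem sep_clamp (a b : ℝ) : |max 0 (min 1 a) - max 0 (min 1 b)| ≤ |a - b| := by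
  have h1 := le_abs_self (a - b)
  have h2 := neg_abs_le (a - b)
  rw [abs_le]
  constructor <;> simp only [max_def, min_def] <;> split_ifs <;> linarith [abs_nonneg (a - b)]

/-- the combinatorial core: a level cut met by two crossings carries variation at least one -/
theorem sep_core {m : ℕ} (χ g : (N.M m).D → ℝ) (hχ : Inv (N.M m).φ χ) (hg : Inv (N.M m).σ g)
    (t : ℝ) (G₀ G₁ : (N.M m).D → Prop)
    (hG₀ : ∀ x, G₀ x → ∀ y, (N.M m).σ.SameCycle ((N.M m).α x) y → (t < χ y ↔ t < χ ((N.M m).α y)))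
    (hG₁ : ∀ x, G₁ x → ∀ y, (N.M m).σ.SameCycle ((N.M m).α x) y → (t < χ y ↔ t < χ ((N.M m).α y)))
    {d₀ d₁ e₀ e₁ : (N.M m).D} (hd₀ : g d₀ ≤ 0) (hd₁ : 1 ≤ g d₁)
    (hz₁ : ∀ y, (N.M m).σ.SameCycle d₁ y → (t < χ y ↔ t < χ ((N.M m).α y)))
    (hz₀ : ∀ y, (N.M m).σ.SameCycle e₀ y → (t < χ y ↔ t < χ ((N.M m).α y)))
    (p₀ : Relation.ReflTransGen (N.Step m fun d => g d ≤ 0 ∧ g ((N.M m).α d) ≤ 0) d₀ e₀)
    (p₁ : Relation.ReflTransGen (N.Step m fun d => 1 ≤ g d ∧ 1 ≤ g ((N.M m).α d)) d₁ e₁)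
    (q₀ : Relation.ReflTransGen (N.Step m G₀) d₁ d₀)
    (q₁ : Relation.ReflTransGen (N.Step m G₁) e₀ e₁)
    (hin : t < χ d₁) (hout : ¬ t < χ e₁) :
    1 ≤ ∑ x, open Classical in if ¬ (t < χ x ↔ t < χ ((N.M m).α x)) then
      |N.dd m (fun d => max 0 (min 1 (g d))) x| else 0 := by
  classical
  by_contra hlt
  set c : (N.M m).D → ℝ := fun d => max 0 (min 1 (g d)) with hc
  have hcI : Inv (N.M m).σ c := fun d => by simp only [hc, hg d]
  set I : (N.M m).D → ℝ := fun x => if t < χ x then 1 else 0 with hI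
  have hII : Inv (N.M m).φ I := fun d => by simp only [hI, hχ d]
  set θ : (N.M m).D → ℝ := fun x => I ((N.M m).α x) - I x with hθ
  have hθ0 : ∀ x, θ x = 0 ↔ (t < χ x ↔ t < χ ((N.M m).α x)) := by
    intro x
    simp only [hθ, hI]
    by_cases h1 : t < χ x <;> by_cases h2 : t < χ ((N.M m).α x) <;> simp [h1, h2]
  set W : Set (N.M m).D :=
    {e | ∃ d, 1 ≤ g d ∧ Relation.ReflTransGen (N.Step m fun x => θ x ≠ 0) d e} with hW
  have hWs : ∀ d ∈ W, ∀ e, N.Step m (fun x => θ x ≠ 0) d e → e ∈ W := by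
    rintro d ⟨d', h1, h2⟩ e he
    exact ⟨d', h1, h2.tail he⟩
  have hWg : ∀ e ∈ W, 0 < g e := by
    rintro e ⟨d, h1, h2⟩
    have h3 := N.var_le m (fun x => θ x ≠ 0) c hcI h2
    have h4 : (∑ x, if θ x ≠ 0 then |N.dd m c x| else 0) =
        ∑ x, if ¬ (t < χ x ↔ t < χ ((N.M m).α x)) then |N.dd m c x| else 0 :=
      Finset.sum_congr rfl fun x _ => by simp only [ne_eq, hθ0 x]
    have h5 : c d = 1 := by simp only [hc]; rw [min_eq_left h1]; norm_num
    by_contra h6
    have h7 : c e = 0 := by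
      simp only [hc]
      exact max_eq_left ((min_le_right _ _).trans (not_lt.1 h6))
    rw [h4, h5, h7, sub_zero, abs_one] at h3
    exact hlt h3
  obtain ⟨ψ, hψ, hdψ⟩ := N.part_exact m θ (fun d => by simp only [hθ, (N.M m).α_α]; ring)
    (fun u hu => N.div_grad m I u hII hu) W hWs
  have hWσ : ∀ x ∈ W, ∀ y, (N.M m).σ.SameCycle x y → y ∈ W :=
    fun x hx y hy => hWs x hx y (Or.inr hy)
  -- the free region
  set Z : Set (N.M m).D := {x | ∀ y, (N.M m).σ.SameCycle x y → θ y = 0} with hZ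
  have hZ1 : ∀ x ∈ Z, ψ ((N.M m).α x) = ψ x := by
    intro x hx
    have h1 := hdψ x
    have h2 : θ x = 0 := hx x (Equiv.Perm.SameCycle.refl _ _)
    have h3 : W.indicator θ x = 0 := by
      by_cases h : x ∈ W
      · rw [indicator_of_mem h, h2]
      · exact indicator_of_notMem h _
    linarith
  have hZ2 : ∀ x ∈ Z, ∀ y, (N.M m).σ.SameCycle x y → y ∈ Z :=
    fun x hx y hy w hw => hx w (hy.trans hw)
  have e1 : ψ d₀ = ψ d₁ :=
    (N.const_along m G₀ ψ hψ Z hZ1 hZ2 (fun x _ hx y hy => (hθ0 y).2 (hG₀ x hx y hy))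
      (fun y hy => (hθ0 y).2 (hz₁ y hy)) q₀).2
  have e2 : ψ e₁ = ψ e₀ :=
    (N.const_along m G₁ ψ hψ Z hZ1 hZ2 (fun x _ hx y hy => (hθ0 y).2 (hG₁ x hx y hy))
      (fun y hy => (hθ0 y).2 (hz₀ y hy)) q₁).2
  have e3 : ψ e₀ = ψ d₀ := by
    refine (N.const_along m _ ψ hψ Wᶜ (fun x hx => ?_) (fun x hx y hy hyW => ?_)
      (fun x _ hx hW' => ?_) (fun hW' => ?_) p₀).2
    · have h1 := hdψ x
      rw [indicator_of_notMem hx] at h1
      linarith
    · exact hx (hWσ y hyW x hy.symm)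
    · exact absurd (hWg _ hW') (not_lt.2 hx.2)
    · exact absurd (hWg _ hW') (not_lt.2 hd₀)
  have e4 : I e₁ - ψ e₁ = I d₁ - ψ d₁ := by
    refine (N.const_along m _ (fun x => I x - ψ x) (fun d => by simp only [hII d, hψ d]) W
      (fun x hx => ?_) hWσ (fun x _ hx => ⟨_, hx.2, .refl⟩) ⟨_, hd₁, .refl⟩ p₁).2
    have h1 := hdψ x
    rw [indicator_of_mem hx] at h1
    simp only [hθ] at h1
    linarith
  have e5 : I d₁ = 1 := by simp only [hI, if_pos hin]
  have e6 : I e₁ = 0 := by simp only [hI, if_neg hout]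
  linarith

/-- A cheap dual cutoff of an annulus forces primal energy between two crossings. -/
theorem sep_of_cut (z : ℂ) {r R M : ℝ} (hr : 0 < r) (hR : r < R) (hM : 0 < M)
    (h : N.dual.Cut (closedBall z r) (ball z R) M) :
    ∀ᶠ m in (N.U : Filter ℕ), ∀ g : (N.M m).D → ℝ,
      N.Two m g (ball z (r / 2)) (ball z (2 * R))ᶜ →
      1 / (4 * M) ≤ N.en m (ball z (2 * R) \ closedBall z (r / 2)) g g := by
  have hη : 0 < r / 8 := by positivity
  obtain ⟨η₀, hη₀, t₀⟩ := N.track (isCompact_closedBall z (r / 2))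
    (convex_closedBall z (r / 2)).isPreconnected hη
  obtain ⟨η₁, hη₁, t₁⟩ := N.track ((isCompact_closedBall z (7 / 4 * R)).diff
    (isOpen_ball (x := z) (ε := 3 / 2 * R))) (sep_annulus z (by linarith)) hη
  filter_upwards [h, t₀, t₁, N.mesh (‖z‖ + 2 * R) (r / 8) hη] with m hm t₀ t₁ hmesh g hg
  obtain ⟨χ, hχ, hχ01, hχ1, hχ0, hχE⟩ := hm
  obtain ⟨hgI, ⟨d₁, e₁, hd₁, he₁, p₁⟩, ⟨d₀, e₀, hd₀, he₀, p₀⟩⟩ := hg
  have hme : ∀ d e, ‖N.p m d - z‖ < 2 * R → (N.M m).Adj d e → ‖N.p m e - N.p m d‖ ≤ r / 8 := by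
    intro d e hd ha
    refine hmesh d e ?_ ha
    have : ‖N.p m d‖ ≤ ‖N.p m d - z‖ + ‖z‖ := by simpa using norm_add_le (N.p m d - z) z
    linarith
  have htri : ∀ d e, ‖N.p m d - z‖ < 2 * R → (N.M m).Adj d e →
      ‖N.p m e - z‖ ≤ ‖N.p m d - z‖ + r / 8 ∧ ‖N.p m d - z‖ ≤ ‖N.p m e - z‖ + r / 8 := by
    intro d e hd ha
    have h1 := hme d e hd ha
    have h2 : ‖N.p m e - z‖ ≤ ‖N.p m e - N.p m d‖ + ‖N.p m d - z‖ :=
      norm_sub_le_norm_sub_add_norm_sub _ _ _
    have h3 : ‖N.p m d - z‖ ≤ ‖N.p m d - N.p m e‖ + ‖N.p m e - z‖ :=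
      norm_sub_le_norm_sub_add_norm_sub _ _ _
    rw [norm_sub_rev (N.p m d) (N.p m e)] at h3
    constructor <;> linarith
  simp only [mem_ball, mem_compl_iff, dist_eq_norm, not_lt] at hd₁ he₁ hd₀ he₀
  have hone : ∀ d, ‖N.p m d - z‖ ≤ r → χ d = 1 := fun d hd =>
    hχ1 d (show N.p m d ∈ closedBall z r by simpa [dist_eq_norm] using hd)
  have hzero : ∀ d, R ≤ ‖N.p m d - z‖ → χ d = 0 := fun d hd =>
    hχ0 d (show N.p m d ∉ ball z R by simpa [dist_eq_norm] using hd)
  -- values at the starting darts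
  have hg₁ : 1 ≤ g d₁ := by
    rcases N.sep_first p₁ with h1 | ⟨x, h1, h2⟩
    · have := (htri d₁ e₁ (by linarith) (Or.inr (Or.inr h1))).1
      linarith
    · rw [← sep_inv_sc hgI h1]; exact h2.1
  have hg₀ : g d₀ ≤ 0 := by
    rcases N.sep_first p₀ with h1 | ⟨x, h1, h2⟩
    · have := (htri d₀ e₀ (by linarith) (Or.inr (Or.inr h1))).1
      linarith
    · rw [← sep_inv_sc hgI h1]; exact h2.1
  -- stop the two paths
  obtain ⟨f₁, r₁, hf₁, hf₁'⟩ := (N.sep_stop z (a := 3 / 2 * R) (η := r / 8)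
    (fun d e hd ha => hme d e (by linarith) ha) p₁ (by linarith)).resolve_left (by linarith)
  obtain ⟨f₀, r₀, hf₀, hf₀'⟩ := (N.sep_stop z (a := 3 / 2 * R) (η := r / 8)
    (fun d e hd ha => hme d e (by linarith) ha) p₀ (by linarith)).resolve_left (by linarith)
  have q₀ := t₀ d₁ d₀
    (self_subset_thickening hη₀ _ (by simp only [mem_closedBall, dist_eq_norm]; linarith))
    (self_subset_thickening hη₀ _ (by simp only [mem_closedBall, dist_eq_norm]; linarith))
  have q₁ := t₁ f₀ f₁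
    (self_subset_thickening hη₁ _ (by
      simp only [Set.mem_sdiff, mem_closedBall, mem_ball, dist_eq_norm, not_lt]
      constructor <;> linarith))
    (self_subset_thickening hη₁ _ (by
      simp only [Set.mem_sdiff, mem_closedBall, mem_ball, dist_eq_norm, not_lt]
      constructor <;> linarith))
  set c : (N.M m).D → ℝ := fun d => max 0 (min 1 (g d)) with hc
  set S : Set ℂ := ball z (2 * R) \ closedBall z (r / 2) with hS
  -- cut darts lie in the annulus
  have hcut : ∀ t ∈ Ioo (0 : ℝ) 1, ∀ x, ¬ (t < χ x ↔ t < χ ((N.M m).α x)) →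
      7 / 8 * r ≤ ‖N.p m x - z‖ ∧ ‖N.p m x - z‖ ≤ R + r / 8 := by
    intro t ht x hx
    have hA : ∀ y, t < χ y → ‖N.p m y - z‖ < R := fun y hy => by
      by_contra h1
      rw [hzero y (not_lt.1 h1)] at hy
      exact absurd ht.1 (not_lt.2 hy.le)
    have hB : ∀ y, ¬ t < χ y → r < ‖N.p m y - z‖ := fun y hy => by
      by_contra h1
      rw [hone y (not_lt.1 h1)] at hy
      exact hy ht.2
    by_cases h1 : t < χ x
    · have h2 : ¬ t < χ ((N.M m).α x) := fun h2 => hx ⟨fun _ => h2, fun _ => h1⟩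
      have h3 := hA x h1
      have h4 := hB _ h2
      have h5 := (htri x _ (by linarith) (Or.inl rfl)).1
      constructor <;> linarith
    · have h2 : t < χ ((N.M m).α x) := by
        by_contra h2
        exact hx ⟨fun h => absurd h h1, fun h => absurd h h2⟩
      have h3 := hA _ h2
      have h4 := hB _ h1
      have h5 := (htri _ x (by linarith) (Or.inl ((N.M m).α_α x).symm)).1
      constructor <;> linarith
  have hco := N.coarea m S χ c (t₀ := 0) (t₁ := 1) (ω := 1) zero_le_one zero_le_one (by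
    intro t ht
    have hfree : ∀ x y, ‖N.p m x - z‖ < 2 * R → (‖N.p m x - z‖ < 3 / 4 * r ∨
        R + r / 4 < ‖N.p m x - z‖) → (N.M m).σ.SameCycle x y →
        (t < χ y ↔ t < χ ((N.M m).α y)) := by
      intro x y hx hx' hy
      by_contra h1
      have h2 := hcut t ht y h1
      have h3 := htri x y hx (Or.inr (Or.inr hy))
      rcases hx' with h4 | h4 <;> linarith [h2.1, h2.2, h3.1, h3.2]
    have key := N.sep_core χ g hχ hgI t (N.In m (thickening (r / 8) (closedBall z (r / 2))))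
      (N.In m (thickening (r / 8) (closedBall z (7 / 4 * R) \ ball z (3 / 2 * R))))
      (fun x hx y hy => by
        obtain ⟨w, hw, hw'⟩ := mem_thickening_iff.1 hx.2
        simp only [mem_closedBall, dist_eq_norm] at hw hw'
        have h1 : ‖N.p m ((N.M m).α x) - z‖ ≤ ‖N.p m ((N.M m).α x) - w‖ + ‖w - z‖ :=
          norm_sub_le_norm_sub_add_norm_sub _ _ _
        exact hfree _ y (by linarith) (Or.inl (by linarith)) hy)
      (fun x hx y hy => by
        obtain ⟨w, hw, hw'⟩ := mem_thickening_iff.1 hx.2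
        simp only [Set.mem_sdiff, mem_closedBall, mem_ball, dist_eq_norm, not_lt] at hw hw'
        have h1 : ‖N.p m ((N.M m).α x) - z‖ ≤ ‖N.p m ((N.M m).α x) - w‖ + ‖w - z‖ :=
          norm_sub_le_norm_sub_add_norm_sub _ _ _
        have h2 : ‖w - z‖ ≤ ‖w - N.p m ((N.M m).α x)‖ + ‖N.p m ((N.M m).α x) - z‖ :=
          norm_sub_le_norm_sub_add_norm_sub _ _ _
        rw [norm_sub_rev w (N.p m ((N.M m).α x))] at h2
        exact hfree _ y (by linarith [hw.1]) (Or.inr (by linarith [hw.2])) hy)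
      hg₀ hg₁ (fun y hy => hfree _ y (by linarith) (Or.inl (by linarith)) hy)
      (fun y hy => hfree _ y (by linarith) (Or.inr (by linarith)) hy) r₀ r₁ q₀ q₁
      (by rw [hone d₁ (by linarith)]; exact ht.2)
      (by rw [hzero f₁ (by linarith)]; exact not_lt.2 ht.1.le)
    refine key.trans (le_of_eq (Finset.sum_congr rfl fun x _ => ?_))
    by_cases hx : (t < χ x ↔ t < χ ((N.M m).α x))
    · simp [hx]
    · have h1 := hcut t ht x hx
      have h2 := hcut t ht ((N.M m).α x) (by rw [(N.M m).α_α]; exact fun h => hx h.symm)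
      have h3 : N.In m S x := by
        simp only [In, hS, Set.mem_sdiff, mem_closedBall, mem_ball, dist_eq_norm, not_le]
        refine ⟨⟨?_, ?_⟩, ?_, ?_⟩ <;> linarith [h1.1, h1.2, h2.1, h2.2]
      rw [if_pos hx, if_pos ⟨h3, hx⟩])
  have h1 : N.dual.en m S χ χ ≤ M := (N.dual.en_mono m (subset_univ S) χ).trans hχE
  have h2 : N.en m S c c ≤ N.en m S g g := by
    refine N.en_le_of_dd m S fun d _ => ?_
    simp only [dd, hc]
    exact sep_clamp _ _
  have h3 := N.en_nonneg m S c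
  have h4 := N.dual.en_nonneg m S χ
  rw [div_le_iff₀ (by positivity)]
  nlinarith [mul_le_mul h1 h2 h3 hM.le]

theorem sep_two_mono {m : ℕ} {g : (N.M m).D → ℝ} {A B A' B' : Set ℂ} (h : N.Two m g A B)
    (hA : A ⊆ A') (hB : B ⊆ B') : N.Two m g A' B' := by
  obtain ⟨h0, ⟨d, e, h1, h2, h3⟩, ⟨d', e', h4, h5, h6⟩⟩ := h
  exact ⟨h0, ⟨d, e, hA h1, hB h2, h3⟩, ⟨d', e', hA h4, hB h5, h6⟩⟩

/-- Infinitely many cheap annuli. -/
theorem sepAt_of_cuts (z : ℂ) {K M : ℝ} (hK : 1 < K) (hM : 0 < M)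
    (h : ∃ᶠ r in 𝓝[>] (0 : ℝ), N.dual.Cut (closedBall z r) (ball z (K * r)) M) : N.SepAt z := by
  have key : ∀ n : ℕ, ∀ R : ℝ, 0 < R → ∃ r, 0 < r ∧ r ≤ R ∧ ∀ᶠ m in (N.U : Filter ℕ),
      ∀ g : (N.M m).D → ℝ, N.Two m g (ball z r) (ball z R)ᶜ →
        n * (1 / (4 * M)) ≤ N.en m (ball z R) g g := by
    intro n
    induction n with
    | zero =>
      intro R hR
      exact ⟨R, hR, le_rfl, Eventually.of_forall fun m g _ => by simpa using N.en_nonneg m _ g⟩
    | succ n ih =>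
      intro R hR
      have hK0 : 0 < 2 * K := by linarith
      have hev : ∀ᶠ r in 𝓝[>] (0 : ℝ), r ∈ Ioo 0 (R / (2 * K)) :=
        Ioo_mem_nhdsGT (div_pos hR hK0)
      obtain ⟨s, hs, hs0, hs1⟩ := (h.and_eventually hev).exists
      have hs2 : 2 * (K * s) < R := by
        have := (lt_div_iff₀ hK0).1 hs1
        linarith
      have hs3 : s < K * s := by nlinarith
      obtain ⟨r, hr, hr', hev'⟩ := ih (s / 2) (by positivity)
      refine ⟨r, hr, by linarith, ?_⟩
      filter_upwards [hev', N.sep_of_cut z hs0 hs3 hM hs] with m h1 h2 g hg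
      have h3 := h1 g (N.sep_two_mono hg subset_rfl
        (compl_subset_compl.2 (ball_subset_ball (by linarith))))
      have h4 := h2 g (N.sep_two_mono hg (ball_subset_ball hr')
        (compl_subset_compl.2 (ball_subset_ball hs2.le)))
      have h5 := N.en_sum_le m (Finset.univ : Finset Bool)
        (fun b => if b then ball z (s / 2) else ball z (2 * (K * s)) \ closedBall z (s / 2))
        (ball z R) (by
          rintro (_ | _) _
          · exact sdiff_subset.trans (ball_subset_ball hs2.le)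
          · exact ball_subset_ball (by linarith)) (by
          have hd : Disjoint (ball z (s / 2)) (ball z (2 * (K * s)) \ closedBall z (s / 2)) :=
            disjoint_left.2 fun x hx hx' => hx'.2 (ball_subset_closedBall hx)
          rintro (_ | _) _ (_ | _) _ hne
          · exact absurd rfl hne
          · exact hd.symm
          · exact hd
          · exact absurd rfl hne) g
      simp only [Fintype.sum_bool, if_true, Bool.false_eq_true, if_false] at h5
      push_cast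
      linarith
  intro R C hR
  obtain ⟨n, hn⟩ := exists_nat_ge (C * (4 * M))
  obtain ⟨r, hr, -, hev⟩ := key n R hR
  refine ⟨r, hr, hev.mono fun m hm g hg => le_trans ?_ (hm g hg)⟩
  rw [mul_one_div, le_div_iff₀ (by positivity)]
  exact hn

end FNet

end Pool.Agent.QL
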