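import Pool.Agent.P.MP_7a6434d8_pr.QL.KGDefs

open MeasureTheory Set Filter Topology Metric
open scoped ENNReal

namespace Pool.Agent.QL

theorem kc_shift {G : ℝ → ℝ} (hG : Monotone G) {B : ℝ} (hB : ∀ x, 0 ≤ G x ∧ G x ≤ B)
    {h : ℝ} (hh : 0 ≤ h) (α β : ℝ) : ∫ x in α..β, (G (x + h) - G (x - h)) ≤ 2 * h * B := by
  have i1 : Monotone fun x => G (x + h) := fun a b hab => hG (by linarith)
  have i2 : Monotone fun x => G (x - h) := fun a b hab => hG (by linarith)
  rw [intervalIntegral.integral_sub i1.intervalIntegrable i2.intervalIntegrable,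
    intervalIntegral.integral_comp_add_right G, intervalIntegral.integral_comp_sub_right G,
    intervalIntegral.integral_interval_sub_interval_comm' hG.intervalIntegrable
      hG.intervalIntegrable hG.intervalIntegrable]
  have a1 : ∫ x in β - h..β + h, G x ≤ ∫ _ in β - h..β + h, B :=
    intervalIntegral.integral_mono_on (by linarith) hG.intervalIntegrable
      intervalIntegrable_const fun x _ => (hB x).2
  have a2 : 0 ≤ ∫ x in α - h..α + h, G x :=
    intervalIntegral.integral_nonneg (by linarith) fun x _ => (hB x).1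
  rw [intervalIntegral.integral_const, smul_eq_mul] at a1
  linarith

theorem kc_slope {F : ℝ → ℝ} (hF : Continuous F) (α β : ℝ) :
    Tendsto (fun h => ∫ x in α..β, (F (x + h) - F x) / h) (𝓝[>] 0) (𝓝 (F β - F α)) := by
  have d : ∀ s, HasDerivAt (fun s => ∫ x in (0 : ℝ)..s, F x) (F s) s := fun s =>
    (hF.integral_hasStrictDerivAt 0 s).hasDerivAt
  refine ((d β).tendsto_slope_zero_right.sub (d α).tendsto_slope_zero_right).congr fun h => ?_
  have i : ∀ a b, IntervalIntegrable F volume a b := hF.intervalIntegrable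
  have c : Continuous fun x => F (x + h) := by fun_prop
  rw [intervalIntegral.integral_div, intervalIntegral.integral_sub
    (c.intervalIntegrable _ _) (i _ _),
    intervalIntegral.integral_comp_add_right F,
    ← intervalIntegral.integral_interval_sub_left (i 0 (β + h)) (i 0 (α + h)),
    ← intervalIntegral.integral_interval_sub_left (i 0 β) (i 0 α), smul_eq_mul, smul_eq_mul]
  ring

theorem kc_min {D M : ℝ} (hM : 0 < M) : |D| ≤ min |D| M + D ^ 2 / M := by
  rcases le_total |D| M with h | h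
  · rw [min_eq_left h]
    have : 0 ≤ D ^ 2 / M := by positivity
    linarith
  · rw [min_eq_right h]
    have : |D| ≤ D ^ 2 / M := by
      rw [le_div_iff₀ hM, ← sq_abs, sq]
      exact mul_le_mul_of_nonneg_left h (abs_nonneg D)
    linarith

theorem kc_core {w : ℝ × ℝ → ℝ} (hw : Continuous w) {G : ℝ → ℝ} (hG : Monotone G) {B : ℝ}
    (hB : ∀ x, 0 ≤ G x ∧ G x ≤ B) {α β γ δ h₀ : ℝ} (hαβ : α ≤ β) (hγδ : γ ≤ δ) (hh₀ : 0 < h₀)
    (hq : ∀ x ∈ Icc α β, ∀ h ∈ Ioc 0 h₀,
      ∫ t in γ..δ, (w (x + h, t) - w (x, t)) ^ 2 ≤ h * (G (x + h) - G (x - h)))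
    (hd : ∀ᵐ x, ∀ᵐ t, x ∈ Ioc α β → t ∈ Ioc γ δ →
      Tendsto (fun h => (w (x + h, t) - w (x, t)) / h) (𝓝[>] 0) (𝓝 0)) :
    ∫ t in γ..δ, w (β, t) = ∫ t in γ..δ, w (α, t) := by
  set F : ℝ → ℝ := fun x => ∫ t in γ..δ, w (x, t) with hF
  have cF : Continuous F :=
    intervalIntegral.continuous_parametric_intervalIntegral_of_continuous'
      (f := fun x t => w (x, t)) hw γ δ
  set D : ℝ → ℝ → ℝ → ℝ := fun h x t => (w (x + h, t) - w (x, t)) / h with hD
  have cD : ∀ h, Continuous fun p : ℝ × ℝ => D h p.1 p.2 := fun h => by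
    simp only [hD]
    fun_prop
  have cD1 : ∀ h x, Continuous (D h x) := fun h x => (cD h).comp (Continuous.prodMk_right x)
  have key : ∀ M : ℝ, 0 < M → |F β - F α| ≤ 2 * B / M := by
    intro M hM
    set J : ℝ → ℝ → ℝ := fun h x => ∫ t in γ..δ, min |D h x t| M with hJ
    have cJ : ∀ h, Continuous (J h) := fun h =>
      intervalIntegral.continuous_parametric_intervalIntegral_of_continuous'
        (f := fun x t => min |D h x t| M) ((cD h).abs.min continuous_const) γ δ
    have bm : ∀ s : ℝ, ‖min |s| M‖ ≤ M := fun s => by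
      rw [Real.norm_eq_abs, abs_of_nonneg (le_min (abs_nonneg s) hM.le)]
      exact min_le_right _ _
    have t1 : Tendsto (fun h => ∫ x in α..β, J h x) (𝓝[>] 0) (𝓝 (∫ _ in α..β, (0 : ℝ))) := by
      refine intervalIntegral.tendsto_integral_filter_of_dominated_convergence
        (fun _ => M * |δ - γ|) (Eventually.of_forall fun h => (cJ h).aestronglyMeasurable)
        (Eventually.of_forall fun h => Eventually.of_forall fun x _ =>
          intervalIntegral.norm_integral_le_of_norm_le_const fun t _ => bm _)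
        intervalIntegrable_const ?_
      filter_upwards [hd] with x hx hxm
      rw [uIoc_of_le hαβ] at hxm
      have : Tendsto (fun h => J h x) (𝓝[>] 0) (𝓝 (∫ _ in γ..δ, (0 : ℝ))) := by
        refine intervalIntegral.tendsto_integral_filter_of_dominated_convergence (fun _ => M)
          (Eventually.of_forall fun h =>
            ((cD1 h x).abs.min continuous_const).aestronglyMeasurable)
          (Eventually.of_forall fun h => Eventually.of_forall fun t _ => bm _)
          intervalIntegrable_const ?_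
        filter_upwards [hx] with t ht htm
        rw [uIoc_of_le hγδ] at htm
        have := (ht hxm htm).abs.min (tendsto_const_nhds (x := M))
        rwa [abs_zero, min_eq_left hM.le] at this
      simpa using this
    rw [intervalIntegral.integral_zero] at t1
    have t2 := t1.add_const (2 * B / M)
    rw [zero_add] at t2
    refine le_of_tendsto_of_tendsto (kc_slope cF α β).abs t2 ?_
    filter_upwards [Ioc_mem_nhdsGT hh₀] with h hh
    have hp : 0 < h := hh.1
    have i1 : Monotone fun x => G (x + h) := fun a b hab => hG (by linarith)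
    have i2 : Monotone fun x => G (x - h) := fun a b hab => hG (by linarith)
    have i3 : IntervalIntegrable (fun x => (G (x + h) - G (x - h)) / (h * M)) volume α β :=
      (i1.intervalIntegrable.sub i2.intervalIntegrable).div_const _
    have pt : ∀ x ∈ Icc α β,
        |(F (x + h) - F x) / h| ≤ J h x + (G (x + h) - G (x - h)) / (h * M) := by
      intro x hx
      have e1 : (F (x + h) - F x) / h = ∫ t in γ..δ, D h x t := by
        have c : ∀ s, Continuous fun t => w (s, t) := fun s => by fun_prop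
        simp only [hD, hF]
        rw [intervalIntegral.integral_div, intervalIntegral.integral_sub
          ((c _).intervalIntegrable _ _) ((c _).intervalIntegrable _ _)]
      have e2 : ∫ t in γ..δ, D h x t ^ 2 / M =
          (∫ t in γ..δ, (w (x + h, t) - w (x, t)) ^ 2) / (h ^ 2 * M) := by
        rw [← intervalIntegral.integral_div]
        refine intervalIntegral.integral_congr fun t _ => ?_
        simp only [hD]
        rw [div_pow, div_div]
      have c1 : Continuous fun t => min |D h x t| M := (cD1 h x).abs.min continuous_const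
      have c2 : Continuous fun t => D h x t ^ 2 / M := ((cD1 h x).pow 2).div_const M
      calc |(F (x + h) - F x) / h| ≤ ∫ t in γ..δ, |D h x t| := by
            rw [e1]
            exact intervalIntegral.abs_integral_le_integral_abs hγδ
        _ ≤ ∫ t in γ..δ, (min |D h x t| M + D h x t ^ 2 / M) :=
            intervalIntegral.integral_mono_on hγδ ((cD1 h x).abs.intervalIntegrable _ _)
              ((c1.add c2).intervalIntegrable _ _) fun t _ => kc_min hM
        _ = J h x + (∫ t in γ..δ, (w (x + h, t) - w (x, t)) ^ 2) / (h ^ 2 * M) := by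
            rw [intervalIntegral.integral_add (c1.intervalIntegrable _ _)
              (c2.intervalIntegrable _ _), e2]
        _ ≤ J h x + h * (G (x + h) - G (x - h)) / (h ^ 2 * M) := by
            gcongr
            exact hq x hx h hh
        _ = _ := by
            congr 1
            field_simp
    have c3 : Continuous fun x => |(F (x + h) - F x) / h| := by fun_prop
    calc |∫ x in α..β, (F (x + h) - F x) / h| ≤ ∫ x in α..β, |(F (x + h) - F x) / h| :=
          intervalIntegral.abs_integral_le_integral_abs hαβ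
      _ ≤ ∫ x in α..β, (J h x + (G (x + h) - G (x - h)) / (h * M)) :=
          intervalIntegral.integral_mono_on hαβ (c3.intervalIntegrable _ _)
            (((cJ h).intervalIntegrable _ _).add i3) pt
      _ = (∫ x in α..β, J h x) + (∫ x in α..β, (G (x + h) - G (x - h))) / (h * M) := by
          rw [intervalIntegral.integral_add ((cJ h).intervalIntegrable _ _) i3,
            intervalIntegral.integral_div]
      _ ≤ (∫ x in α..β, J h x) + 2 * h * B / (h * M) := by
          gcongr
          exact kc_shift hG hB hp.le α β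
      _ = _ := by
          congr 1
          field_simp
  have t : Tendsto (fun M : ℝ => 2 * B / M) atTop (𝓝 0) := tendsto_const_nhds.div_atTop tendsto_id
  have := ge_of_tendsto t ((eventually_gt_atTop 0).mono key)
  exact sub_eq_zero.1 (abs_nonpos_iff.1 this)

theorem kc_line {v : ℝ × ℝ → ℝ} {G : ℝ → ℝ} {B x₀ x₁ y₀ y₁ : ℝ}
    (hv : ContinuousOn v (Ioo x₀ x₁ ×ˢ Ioo y₀ y₁)) (hG : Monotone G)
    (hB : ∀ x, 0 ≤ G x ∧ G x ≤ B)
    (hq : ∀ s x x' y y', s < x → x₀ < x → x < x' → x' < x₁ → y₀ < y → y < y' → y' < y₁ →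
      ∫ t in y..y', (v (x', t) - v (x, t)) ^ 2 ≤ (x' - x) * (G x' - G s))
    (hd : ∀ᵐ x, ∀ᵐ t, x ∈ Ioo x₀ x₁ → t ∈ Ioo y₀ y₁ → HasDerivAt (fun s => v (s, t)) 0 x)
    {x x' y : ℝ} (hx : x ∈ Ioo x₀ x₁) (hx' : x' ∈ Ioo x₀ x₁) (hy : y ∈ Ioo y₀ y₁) :
    v (x, y) = v (x', y) := by
  wlog hlt : x ≤ x' generalizing x x'
  · exact (this hx' hx (not_le.1 hlt).le).symm
  obtain ⟨γ, g1, g2⟩ := exists_between hy.1
  obtain ⟨δ, d1, d2⟩ := exists_between hy.2
  obtain ⟨β, b1, b2⟩ := exists_between hx'.2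
  have hx0 := hx.1
  set w : ℝ × ℝ → ℝ := fun p => v (max x (min p.1 β), max γ (min p.2 δ)) with hw
  have cw : Continuous w := by
    refine hv.comp_continuous (by fun_prop) fun p => ⟨⟨?_, ?_⟩, ?_, ?_⟩
    · exact lt_max_of_lt_left hx0
    · exact max_lt hx.2 (min_lt_of_right_lt b2)
    · exact lt_max_of_lt_left g1
    · exact max_lt (by linarith) (min_lt_of_right_lt d2)
  have ew : ∀ s t, x ≤ s → s ≤ β → γ ≤ t → t ≤ δ → w (s, t) = v (s, t) := by
    intro s t h1 h2 h3 h4
    simp only [hw]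
    rw [min_eq_left h2, min_eq_left h4, max_eq_right h1, max_eq_right h3]
  have c1 : ∀ s, Continuous fun t => w (s, t) := fun s => cw.comp (Continuous.prodMk_right s)
  have main : ∀ s ∈ Ioo γ δ, ∫ t in γ..s, (w (x', t) - w (x, t)) = 0 := by
    intro s hs
    rw [intervalIntegral.integral_sub ((c1 _).intervalIntegrable _ _)
      ((c1 _).intervalIntegrable _ _), sub_eq_zero]
    refine kc_core cw hG hB hlt hs.1.le (sub_pos.2 b1) (fun r hr h hh => ?_) ?_
    · have h1 := hr.1
      have h2 := hr.2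
      have h3 := hh.1
      have h4 := hh.2
      have := hq (r - h) r (r + h) γ s (by linarith) (by linarith) (by linarith) (by linarith) g1
        hs.1 (hs.2.trans d2)
      rw [add_sub_cancel_left] at this
      refine le_trans (le_of_eq (intervalIntegral.integral_congr fun t ht => ?_)) this
      rw [uIcc_of_le hs.1.le] at ht
      have h5 := ht.2.trans hs.2.le
      change (w (r + h, t) - w (r, t)) ^ 2 = (v (r + h, t) - v (r, t)) ^ 2
      rw [ew _ _ (by linarith) (by linarith) ht.1 h5, ew _ _ h1 (by linarith) ht.1 h5]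
    · filter_upwards [hd] with r hr
      filter_upwards [hr] with t ht hrm htm
      have h1 := hrm.1
      have h2 := hrm.2
      have h5 := htm.2.trans hs.2.le
      refine (ht ⟨by linarith, by linarith⟩ ⟨g1.trans htm.1, by linarith⟩
        ).tendsto_slope_zero_right.congr' ?_
      filter_upwards [Ioc_mem_nhdsGT (sub_pos.2 b1)] with h hh
      have h3 := hh.1
      have h4 := hh.2
      rw [ew _ _ (by linarith) (by linarith) htm.1.le h5, ew _ _ h1.le (by linarith) htm.1.le h5,
        smul_eq_mul, inv_mul_eq_div]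
  have c2 : Continuous fun t => w (x', t) - w (x, t) := (c1 x').sub (c1 x)
  have d := (c2.integral_hasStrictDerivAt γ y).hasDerivAt
  have e : (fun s => ∫ t in γ..s, (w (x', t) - w (x, t))) =ᶠ[𝓝 y] fun _ => (0 : ℝ) := by
    filter_upwards [Ioo_mem_nhds g2 d1] with s hs using main s hs
  have := ((hasDerivAt_const y (0 : ℝ)).congr_of_eventuallyEq e).unique d
  rw [ew _ _ hlt b1.le g2.le d1.le, ew _ _ le_rfl (by linarith) g2.le d1.le] at this
  linarith

theorem kc_strip {Γ : Measure ℂ} [IsFiniteMeasure Γ] {f : ℂ → ℝ} (hf : Measurable f) {S : Set ℂ}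
    {s x : ℝ} (hsx : s ≤ x) (hS : ∀ z ∈ S, s < f z ∧ f z ≤ x) :
    Γ.real S ≤ Γ.real {z | f z ≤ x} - Γ.real {z | f z ≤ s} := by
  have h1 : {z | f z ≤ s} ⊆ {z | f z ≤ x} := fun z (hz : f z ≤ s) => hz.trans hsx
  have h2 : MeasurableSet {z | f z ≤ s} := hf measurableSet_Iic
  rw [← measureReal_sdiff h1 h2]
  exact measureReal_mono fun z hz => ⟨(hS z hz).2, not_le.2 (hS z hz).1⟩

/-- Zero gradient almost everywhere forces constancy on a rectangle. -/
theorem kg_const {u : ℂ → ℝ} {Γ : Measure ℂ} [IsFiniteMeasure Γ] {a x₀ x₁ y₀ y₁ : ℝ} (ha : 0 ≤ a)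
    (hu : ContinuousOn u (orect x₀ x₁ y₀ y₁)) (hq : DQ u Γ a (orect x₀ x₁ y₀ y₁))
    (h : ∀ᵐ z, z ∈ orect x₀ x₁ y₀ y₁ → HasFDerivAt u (0 : ℂ →L[ℝ] ℝ) z) :
    ∀ z ∈ orect x₀ x₁ y₀ y₁, ∀ w ∈ orect x₀ x₁ y₀ y₁, u z = u w := by
  have hm : ∀ f : ℂ → ℝ, Monotone fun x => a * Γ.real {z | f z ≤ x} := fun f x x' hx =>
    mul_le_mul_of_nonneg_left (measureReal_mono fun z (hz : f z ≤ x) => hz.trans hx) ha
  have hB : ∀ (f : ℂ → ℝ) x, 0 ≤ a * Γ.real {z | f z ≤ x} ∧
      a * Γ.real {z | f z ≤ x} ≤ a * Γ.real univ := fun f x =>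
    ⟨mul_nonneg ha measureReal_nonneg,
      mul_le_mul_of_nonneg_left (measureReal_mono (subset_univ _)) ha⟩
  have sub : ∀ {x x' y y'}, x₀ < x → x' < x₁ → y₀ < y → y' < y₁ →
      crect x x' y y' ⊆ orect x₀ x₁ y₀ y₁ := fun h1 h2 h3 h4 z hz =>
    ⟨⟨h1.trans_le hz.1.1, hz.1.2.trans_lt h2⟩, h3.trans_le hz.2.1, hz.2.2.trans_lt h4⟩
  have cmk : Continuous fun p : ℝ × ℝ => (⟨p.1, p.2⟩ : ℂ) :=
    Complex.equivRealProdCLM.symm.continuous
  have h1 : ∀ᵐ p : ℝ × ℝ, (⟨p.1, p.2⟩ : ℂ) ∈ orect x₀ x₁ y₀ y₁ →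
      HasFDerivAt u (0 : ℂ →L[ℝ] ℝ) ⟨p.1, p.2⟩ :=
    (Complex.volume_preserving_equiv_real_prod.symm _).quasiMeasurePreserving.ae h
  have h2 : ∀ᵐ p : ℝ × ℝ, (⟨p.2, p.1⟩ : ℂ) ∈ orect x₀ x₁ y₀ y₁ →
      HasFDerivAt u (0 : ℂ →L[ℝ] ℝ) ⟨p.2, p.1⟩ :=
    (Measure.measurePreserving_swap (μ := volume) (ν := volume)).quasiMeasurePreserving.ae h1
  have d1 : ∀ x t : ℝ, HasDerivAt (fun s : ℝ => (⟨s, t⟩ : ℂ)) 1 x := fun x t => by
    have e : (fun s : ℝ => (⟨s, t⟩ : ℂ)) = fun s : ℝ => (s : ℂ) + t * Complex.I :=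
      funext fun s => Complex.mk_eq_add_mul_I s t
    rw [e]
    exact Complex.ofRealCLM.hasDerivAt.add_const _
  have d2 : ∀ x t : ℝ, HasDerivAt (fun s : ℝ => (⟨t, s⟩ : ℂ)) (1 * Complex.I) x := fun x t => by
    have e : (fun s : ℝ => (⟨t, s⟩ : ℂ)) = fun s : ℝ => (t : ℂ) + s * Complex.I :=
      funext fun s => Complex.mk_eq_add_mul_I t s
    rw [e]
    exact (Complex.ofRealCLM.hasDerivAt.mul_const _).const_add _
  intro z hz w hw
  have a1 : u ⟨z.re, z.im⟩ = u ⟨w.re, z.im⟩ := by
    refine kc_line (v := fun p => u ⟨p.1, p.2⟩) (hu.comp cmk.continuousOn fun p hp => hp)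
      (hm Complex.re) (hB Complex.re) (fun s x x' y y' k0 k1 k2 k3 k4 k5 k6 => ?_) ?_ hz.1 hw.1 hz.2
    · refine (hq x x' y y' k2 k5 (sub k1 k3 k4 k6)).1.trans ?_
      rw [← mul_sub, mul_comm a, mul_assoc]
      gcongr
      exact kc_strip Complex.measurable_re (by linarith) fun z hz => ⟨k0.trans_le hz.1.1, hz.1.2⟩
    · filter_upwards [Measure.ae_ae_of_ae_prod h1] with x hx
      filter_upwards [hx] with t ht k1 k2
      exact (ht ⟨k1, k2⟩).comp_hasDerivAt x (d1 x t)
  have a2 : u ⟨w.re, z.im⟩ = u ⟨w.re, w.im⟩ := by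
    refine kc_line (v := fun p => u ⟨p.2, p.1⟩)
      (hu.comp (cmk.comp continuous_swap).continuousOn fun p hp => ⟨hp.2, hp.1⟩)
      (hm Complex.im) (hB Complex.im) (fun s x x' y y' k0 k1 k2 k3 k4 k5 k6 => ?_) ?_ hz.2 hw.2 hw.1
    · refine (hq y y' x x' k5 k2 (sub k4 k6 k1 k3)).2.trans ?_
      rw [← mul_sub, mul_comm a, mul_assoc]
      gcongr
      exact kc_strip Complex.measurable_im (by linarith) fun z hz => ⟨k0.trans_le hz.2.1, hz.2.2⟩
    · filter_upwards [Measure.ae_ae_of_ae_prod h2] with x hx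
      filter_upwards [hx] with t ht k1 k2
      exact (ht ⟨k2, k1⟩).comp_hasDerivAt x (d2 x t)
  exact a1.trans a2

end Pool.Agent.QL
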