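import Pool.Agent.P.MP_7a6434d8_pr.QL.KGDefs

open MeasureTheory Set Filter Topology Metric
open scoped ENNReal

namespace Pool.Agent.QL

open scoped Pointwise in
/-- Near a density point of `S` every point has a point of `S` much closer than the centre. -/
theorem kgStep_dens {S : Set ℂ} {z : ℂ} (hz : z ∈ S)
    (h : Tendsto (fun r => volume (S ∩ closedBall z r) / volume (closedBall z r)) (𝓝[>] 0) (𝓝 1))
    {ε : ℝ} (hε : 0 < ε) : ∀ᶠ y in 𝓝 z, ∃ y' ∈ S, ‖y - y'‖ ≤ ε * ‖y - z‖ := by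
  obtain ⟨T, -, hTf, hT⟩ := finite_cover_balls_of_compact (isCompact_sphere (0 : ℂ) 1)
    (half_pos hε)
  have h1 : ∀ t ∈ T, ∀ᶠ r in 𝓝[>] (0 : ℝ),
      (S ∩ ({z} + r • closedBall t (ε / 2))).Nonempty := by
    intro t _
    exact Measure.eventually_nonempty_inter_smul_of_density_one volume S z h _
      measurableSet_closedBall (measure_closedBall_pos volume t (half_pos hε)).ne'
  have h2 : ∀ᶠ r in 𝓝[>] (0 : ℝ), ∀ t ∈ T, (S ∩ ({z} + r • closedBall t (ε / 2))).Nonempty :=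
    (eventually_all_finite hTf).2 h1
  obtain ⟨δ, hδ, hδ'⟩ : ∃ δ > 0, ∀ r : ℝ, 0 < r → r < δ →
      ∀ t ∈ T, (S ∩ ({z} + r • closedBall t (ε / 2))).Nonempty := by
    rw [eventually_nhdsWithin_iff, Metric.eventually_nhds_iff] at h2
    obtain ⟨δ, hδ, h2⟩ := h2
    refine ⟨δ, hδ, fun r hr hrδ => h2 ?_ hr⟩
    rwa [Real.dist_eq, sub_zero, abs_of_pos hr]
  filter_upwards [ball_mem_nhds z hδ] with y hy
  rcases eq_or_ne y z with rfl | hne
  · exact ⟨y, hz, by simp⟩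
  have hr : 0 < ‖y - z‖ := norm_pos_iff.2 (sub_ne_zero.2 hne)
  have hw : (‖y - z‖⁻¹ • (y - z)) ∈ sphere (0 : ℂ) 1 := by
    simp [norm_smul, hr.ne']
  obtain ⟨t, ht, hwt⟩ := mem_iUnion₂.1 (hT hw)
  obtain ⟨y', hy'S, hy'⟩ := hδ' _ hr (by simpa [dist_eq_norm] using hy) t ht
  refine ⟨y', hy'S, ?_⟩
  rw [singleton_add] at hy'
  obtain ⟨v, ⟨w', hw', rfl⟩, rfl⟩ := hy'
  have e : y - (z + ‖y - z‖ • w') = ‖y - z‖ • (‖y - z‖⁻¹ • (y - z) - w') := by
    rw [smul_sub, smul_smul, mul_inv_cancel₀ hr.ne', one_smul]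
    abel
  show ‖y - (z + ‖y - z‖ • w')‖ ≤ _
  rw [e, norm_smul, Real.norm_eq_abs, abs_of_pos hr, mul_comm]
  refine mul_le_mul_of_nonneg_right ?_ hr.le
  have a1 : dist (‖y - z‖⁻¹ • (y - z)) t < ε / 2 := hwt
  have a2 : dist w' t ≤ ε / 2 := hw'
  rw [← dist_eq_norm]
  linarith [dist_triangle_right (‖y - z‖⁻¹ • (y - z)) w' t]

/-- The set of points at which `u` is `(n+1)`-Lipschitz at scale `1/(n+1)`. -/
def kgStepSet (u : ℂ → ℝ) (n : ℕ) : Set ℂ :=
  {z | ∀ y, ‖y - z‖ < 1 / ((n : ℝ) + 1) → |u y - u z| ≤ ((n : ℝ) + 1) * ‖y - z‖}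

theorem kgStep_piece (u : ℂ → ℝ) (n : ℕ) (q : ℂ) :
    ∀ᵐ z, z ∈ kgStepSet u n ∩ ball q (1 / (2 * ((n : ℝ) + 1))) → DifferentiableAt ℝ u z := by
  set S := kgStepSet u n ∩ ball q (1 / (2 * ((n : ℝ) + 1))) with hS
  have hn : (0 : ℝ) < (n : ℝ) + 1 := by positivity
  have hL : LipschitzOnWith (⟨(n : ℝ) + 1, hn.le⟩ : NNReal) u S := by
    refine LipschitzOnWith.of_dist_le_mul fun x hx y hy => ?_
    have a1 : dist x q < 1 / (2 * ((n : ℝ) + 1)) := hx.2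
    have a2 : dist y q < 1 / (2 * ((n : ℝ) + 1)) := hy.2
    have a3 : dist x y < 1 / ((n : ℝ) + 1) := by
      have e : 1 / ((n : ℝ) + 1) = 1 / (2 * ((n : ℝ) + 1)) + 1 / (2 * ((n : ℝ) + 1)) := by
        field_simp
        ring
      rw [e]
      linarith [dist_triangle_right x y q]
    rw [dist_eq_norm] at a3
    have := hy.1 x a3
    rw [Real.dist_eq, dist_eq_norm]
    exact this
  obtain ⟨g, hg, hug⟩ := hL.extend_real
  have h1 : ∀ᵐ z : ℂ, DifferentiableAt ℝ g z := hg.ae_differentiableAt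
  have h2 := ae_imp_of_ae_restrict (Besicovitch.ae_tendsto_measure_inter_div volume S)
  filter_upwards [h1, h2] with z hz1 hz2 hzS
  have hd := hz2 hzS
  have key : HasFDerivAt (fun y => u y - g y) (0 : ℂ →L[ℝ] ℝ) z := by
    rw [hasFDerivAt_iff_isLittleO, Asymptotics.isLittleO_iff]
    intro c hc
    have hε : 0 < c / (2 * ((n : ℝ) + 1)) := by positivity
    have hδ : 0 < (1 / ((n : ℝ) + 1)) / (c / (2 * ((n : ℝ) + 1))) := by positivity
    filter_upwards [kgStep_dens hzS hd hε, ball_mem_nhds z hδ] with y ⟨y', hy'S, hy'⟩ hy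
    have b1 : ‖y - z‖ < (1 / ((n : ℝ) + 1)) / (c / (2 * ((n : ℝ) + 1))) := by
      simpa [dist_eq_norm] using hy
    have b2 : ‖y - y'‖ < 1 / ((n : ℝ) + 1) := by
      rw [lt_div_iff₀ hε] at b1
      linarith [mul_comm ‖y - z‖ (c / (2 * ((n : ℝ) + 1)))]
    have b3 := hy'S.1 y b2
    have b4 : |g y - g y'| ≤ ((n : ℝ) + 1) * ‖y - y'‖ := by
      have := hg.dist_le_mul y y'
      rw [Real.dist_eq, dist_eq_norm] at this
      exact this
    have b5 : u y' = g y' := hug hy'S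
    have b6 : u z = g z := hug hzS
    have b7 : ((n : ℝ) + 1) * ‖y - y'‖ ≤ c / 2 * ‖y - z‖ := by
      calc ((n : ℝ) + 1) * ‖y - y'‖ ≤ ((n : ℝ) + 1) * (c / (2 * ((n : ℝ) + 1)) * ‖y - z‖) :=
            mul_le_mul_of_nonneg_left hy' hn.le
        _ = c / 2 * ‖y - z‖ := by field_simp
    have e : u y - g y - (u z - g z) - (0 : ℂ →L[ℝ] ℝ) (y - z)
        = (u y - u y') - (g y - g y') := by
      rw [b5, b6]
      simp
    rw [e, Real.norm_eq_abs]
    linarith [abs_sub (u y - u y') (g y - g y')]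
  have e : u = fun y => g y + (u y - g y) := by
    funext y
    ring
  rw [e]
  exact hz1.add key.differentiableAt

/-- Stepanov: a function that is Lipschitz at almost every point is differentiable almost
everywhere. -/
theorem kg_stepanov {u : ℂ → ℝ} {O : Set ℂ} (hO : IsOpen O) (hu : ContinuousOn u O)
    (h : ∀ᵐ z, z ∈ O → ∃ M : ℝ, ∀ᶠ y in 𝓝 z, |u y - u z| ≤ M * ‖y - z‖) :
    ∀ᵐ z, z ∈ O → DifferentiableAt ℝ u z := by
  obtain ⟨Q, hQc, hQ⟩ := TopologicalSpace.exists_countable_dense ℂ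
  have h1 : ∀ᵐ z, ∀ n : ℕ, ∀ q ∈ Q,
      z ∈ kgStepSet u n ∩ ball q (1 / (2 * ((n : ℝ) + 1))) → DifferentiableAt ℝ u z := by
    rw [ae_all_iff]
    intro n
    exact (ae_ball_iff hQc).2 fun q _ => kgStep_piece u n q
  filter_upwards [h, h1] with z hz hz1 hzO
  obtain ⟨M, hM⟩ := hz hzO
  obtain ⟨δ, hδ, hM⟩ := Metric.eventually_nhds_iff.1 hM
  obtain ⟨n, hn⟩ := exists_nat_gt (max M (1 / δ))
  have hn0 : (0 : ℝ) < (n : ℝ) + 1 := by positivity
  have hn1 : M ≤ (n : ℝ) + 1 := by linarith [le_max_left M (1 / δ)]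
  have hn2 : 1 / ((n : ℝ) + 1) < δ := by
    rw [one_div_lt hn0 hδ]
    linarith [le_max_right M (1 / δ)]
  obtain ⟨q, hq, hqQ⟩ := hQ.exists_mem_open isOpen_ball
    (nonempty_ball.2 (show (0 : ℝ) < 1 / (2 * ((n : ℝ) + 1)) by positivity) : (ball z _).Nonempty)
  refine hz1 n q hq ⟨fun y hy => ?_, mem_ball_comm.1 hqQ⟩
  have : dist y z < δ := by
    rw [dist_eq_norm]
    linarith
  exact (hM this).trans (mul_le_mul_of_nonneg_right hn1 (norm_nonneg _))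

end Pool.Agent.QL
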