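import Pool.Agent.P.MP_7a6434d8_pr.QL.KGOsc
import Pool.Agent.P.MP_7a6434d8_pr.QL.KGStep
import Pool.Agent.P.MP_7a6434d8_pr.QL.KGConst

open MeasureTheory Set Filter Topology Metric
open scoped ENNReal

namespace Pool.Agent.QL

theorem kk_dens (Γ : Measure ℂ) [IsFiniteMeasure Γ] :
    ∀ᵐ z : ℂ, ∃ ρ : ℝ, 0 ≤ ρ ∧ ∀ᶠ r in 𝓝[>] (0 : ℝ), Γ.real (closedBall z r) ≤ ρ * r ^ 2 := by
  filter_upwards [Besicovitch.ae_tendsto_rnDeriv Γ volume, Measure.rnDeriv_lt_top Γ volume]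
    with z h1 h2
  set D := Γ.rnDeriv volume z
  have hD : D + 1 ≠ ⊤ := ENNReal.add_ne_top.2 ⟨h2.ne, ENNReal.one_ne_top⟩
  refine ⟨(D + 1).toReal * Real.pi, by positivity, ?_⟩
  filter_upwards [h1.eventually_le_const (ENNReal.lt_add_right h2.ne one_ne_zero),
    self_mem_nhdsWithin] with r hr hp
  have hp' : (0 : ℝ) < r := hp
  have h3 : Γ (closedBall z r) ≤ (D + 1) * volume (closedBall z r) := by
    rwa [ENNReal.div_le_iff (measure_closedBall_pos volume z hp').ne'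
      measure_closedBall_lt_top.ne] at hr
  have h4 := ENNReal.toReal_mono (ENNReal.mul_ne_top hD measure_closedBall_lt_top.ne) h3
  rw [ENNReal.toReal_mul, Complex.volume_closedBall, ENNReal.toReal_mul, ENNReal.toReal_pow,
    ENNReal.toReal_ofReal hp'.le, ENNReal.coe_toReal, NNReal.coe_real_pi] at h4
  refine h4.trans (le_of_eq ?_)
  ring

theorem kk_open (x₀ x₁ y₀ y₁ : ℝ) : IsOpen (orect x₀ x₁ y₀ y₁) :=
  (isOpen_Ioo.preimage Complex.continuous_re).inter (isOpen_Ioo.preimage Complex.continuous_im)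

theorem kk_lip {u : ℂ → ℝ} {Γ : Measure ℂ} [IsFiniteMeasure Γ] {a ρ : ℝ} {O : Set ℂ} (ha : 0 ≤ a)
    (hu : ContinuousOn u O) (hq : DQ u Γ a O) (hm : Mono u O) {z : ℂ} (hz : O ∈ 𝓝 z) (hρ : 0 ≤ ρ)
    (hd : ∀ᶠ r in 𝓝[>] (0 : ℝ), Γ.real (closedBall z r) ≤ ρ * r ^ 2) :
    ∃ M : ℝ, ∀ᶠ y in 𝓝 z, |u y - u z| ≤ M * ‖y - z‖ := by
  have h1 := hd.and ((eventually_closedBall_subset hz).filter_mono nhdsWithin_le_nhds)
  obtain ⟨r, hr, h2⟩ := (nhdsGT_basis (0 : ℝ)).eventually_iff.1 h1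
  refine ⟨√(1152 * a * ρ), ?_⟩
  filter_upwards [ball_mem_nhds z (show 0 < r / 3 by positivity)] with y hy
  rcases eq_or_ne y z with rfl | hne
  · simp
  have hs : 0 < ‖y - z‖ := norm_pos_iff.2 (sub_ne_zero.2 hne)
  rw [mem_ball, dist_eq_norm] at hy
  obtain ⟨h3, h4⟩ := h2 (show 3 * ‖y - z‖ ∈ Ioo 0 r from ⟨by positivity, by linarith⟩)
  have h5 := kg_osc ha hu hq hm z _ hs h4 y z (mem_closedBall_iff_norm.2 le_rfl)
    (mem_closedBall_self hs.le)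
  have h6 : (u y - u z) ^ 2 ≤ 1152 * a * ρ * ‖y - z‖ ^ 2 := by
    refine h5.trans ((mul_le_mul_of_nonneg_left h3 (by positivity)).trans (le_of_eq ?_))
    ring
  have := Real.abs_le_sqrt h6
  rwa [Real.sqrt_mul (by positivity), Real.sqrt_sq hs.le] at this

theorem kk_norm {g : ℂ →L[ℝ] ℝ} {e : ℂ} {c K : ℝ} (hc : 0 < c) (he : c ≤ ‖e‖) (h1 : |g e| ≤ K)
    (h2 : |g (Complex.I * e)| ≤ K) : ‖g‖ * c ≤ 2 * K := by
  have hK : 0 ≤ K := (abs_nonneg _).trans h1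
  have hp : 0 < ‖e‖ := hc.trans_le he
  have he0 : e ≠ 0 := norm_pos_iff.1 hp
  rw [← le_div_iff₀ hc]
  refine g.opNorm_le_bound (by positivity) fun v => ?_
  have e1 : v = (v / e).re • e + (v / e).im • (Complex.I * e) := by
    rw [Complex.real_smul, Complex.real_smul, ← mul_assoc, ← add_mul, Complex.re_add_im,
      div_mul_cancel₀ _ he0]
  have e2 : g v = (v / e).re * g e + (v / e).im * g (Complex.I * e) := by
    conv_lhs => rw [e1]
    rw [map_add, map_smul, map_smul, smul_eq_mul, smul_eq_mul]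
  have b0 : ‖v / e‖ ≤ ‖v‖ / c := by
    rw [norm_div]
    gcongr
  have b1 := (Complex.abs_re_le_norm (v / e)).trans b0
  have b2 := (Complex.abs_im_le_norm (v / e)).trans b0
  rw [Real.norm_eq_abs, e2]
  calc _ ≤ |(v / e).re| * |g e| + |(v / e).im| * |g (Complex.I * e)| := by
        rw [← abs_mul, ← abs_mul]
        exact abs_add_le _ _
    _ ≤ ‖v‖ / c * K + ‖v‖ / c * K := by gcongr
    _ = _ := by ring

theorem kk_dir {u : ℂ → ℝ} {Γ : Measure ℂ} {g : ℂ →L[ℝ] ℝ} {z e : ℂ} {ρ c C κ : ℝ} (hC : 0 < C)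
    (hκ : 0 < κ) (hρ : 0 ≤ ρ) (hg : HasFDerivAt u g z)
    (hd : ∀ᶠ r in 𝓝[>] (0 : ℝ), Γ.real (closedBall z r) ≤ ρ * r ^ 2)
    (hk : ∃ᶠ r in 𝓝[>] (0 : ℝ), ∃ p ∈ closedBall z (C * r), ∃ q ∈ closedBall z (C * r),
      ‖p - q - r * e‖ ≤ r * c / 10 ∧
        (u p - u q) ^ 2 ≤ κ ^ 2 / (ρ + 1) * Γ.real (closedBall z (C * r))) :
    |g e| ≤ 3 * κ * C + ‖g‖ * c / 10 := by
  have t : Tendsto (fun r : ℝ => C * r) (𝓝[>] 0) (𝓝[>] 0) := by
    refine tendsto_nhdsWithin_iff.2 ⟨?_, ?_⟩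
    · have : Tendsto (fun r : ℝ => C * r) (𝓝 0) (𝓝 (C * 0)) := tendsto_id.const_mul C
      rw [mul_zero] at this
      exact this.mono_left nhdsWithin_le_nhds
    · filter_upwards [self_mem_nhdsWithin] with r hr using mul_pos hC hr
  have h1 := hd.and
    ((eventually_closedBall_subset (hg.isLittleO.def hκ)).filter_mono nhdsWithin_le_nhds)
  obtain ⟨r, ⟨p, hp, q, hq, k1, k2⟩, ⟨k3, k4⟩, hr⟩ :=
    (hk.and_eventually ((t.eventually h1).and self_mem_nhdsWithin)).exists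
  have hr' : (0 : ℝ) < r := hr
  have b : ∀ y ∈ closedBall z (C * r), |u y - u z - g (y - z)| ≤ κ * (C * r) := fun y hy =>
    (k4 hy).trans (mul_le_mul_of_nonneg_left (mem_closedBall_iff_norm.1 hy) hκ.le)
  have b0 : |u p - u q| ≤ κ * (C * r) := by
    refine abs_le_of_sq_le_sq (k2.trans ?_) (by positivity)
    calc _ ≤ κ ^ 2 / (ρ + 1) * ((ρ + 1) * (C * r) ^ 2) := by
          gcongr
          refine k3.trans ?_
          gcongr
          linarith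
      _ = _ := by field_simp
  have b1 : |g (p - q - r * e)| ≤ ‖g‖ * (r * c / 10) :=
    (g.le_opNorm _).trans (mul_le_mul_of_nonneg_left k1 (norm_nonneg _))
  have e1 : g (p - q - r * e) = g (p - z) - g (q - z) - r * g e := by
    rw [← Complex.real_smul, map_sub, map_smul, ← map_sub g (p - z), sub_sub_sub_cancel_right,
      smul_eq_mul]
  have b2 := abs_le.1 (b p hp)
  have b3 := abs_le.1 (b q hq)
  have b4 := abs_le.1 b0
  rw [e1] at b1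
  have b5 := abs_le.1 b1
  have b6 : |r * g e| ≤ r * (3 * κ * C + ‖g‖ * c / 10) :=
    abs_le.2 ⟨by nlinarith [b2.1, b2.2, b3.1, b3.2, b4.1, b4.2, b5.1, b5.2],
      by nlinarith [b2.1, b2.2, b3.1, b3.2, b4.1, b4.2, b5.1, b5.2]⟩
  rw [abs_mul, abs_of_pos hr'] at b6
  exact le_of_mul_le_mul_left b6 hr'

/-- Cheap crossings in two orthogonal directions at arbitrarily small scales kill the gradient. -/
theorem kill_gradient {u : ℂ → ℝ} {Γ : Measure ℂ} [IsFiniteMeasure Γ] {a x₀ x₁ y₀ y₁ c C : ℝ}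
    (ha : 0 ≤ a) (hc : 0 < c) (hC : 0 < C)
    (hu : ContinuousOn u (orect x₀ x₁ y₀ y₁)) (hq : DQ u Γ a (orect x₀ x₁ y₀ y₁))
    (hm : Mono u (orect x₀ x₁ y₀ y₁))
    (hk : ∀ᵐ z, z ∈ orect x₀ x₁ y₀ y₁ → ∀ ε > 0, ∃ e : ℂ, c ≤ ‖e‖ ∧ ∀ e' ∈ ({e, Complex.I * e} : Set ℂ),
      ∃ᶠ r in 𝓝[>] (0 : ℝ), ∃ p ∈ closedBall z (C * r), ∃ q ∈ closedBall z (C * r),
        ‖p - q - r * e'‖ ≤ r * c / 10 ∧ (u p - u q) ^ 2 ≤ ε * Γ.real (closedBall z (C * r))) :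
    ∀ z ∈ orect x₀ x₁ y₀ y₁, ∀ w ∈ orect x₀ x₁ y₀ y₁, u z = u w := by
  have hO := kk_open x₀ x₁ y₀ y₁
  have h1 := kg_stepanov hO hu (by
    filter_upwards [kk_dens Γ] with z ⟨ρ, hρ, hd⟩ hz
    exact kk_lip ha hu hq hm (hO.mem_nhds hz) hρ hd)
  refine kg_const ha hu hq ?_
  filter_upwards [kk_dens Γ, h1, hk] with z ⟨ρ, hρ, hd⟩ h2 h3 hz
  have hg := (h2 hz).hasFDerivAt
  set g := fderiv ℝ u z
  have key : ∀ κ : ℝ, 0 < κ → ‖g‖ * c ≤ 0 + κ := by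
    intro κ hκ
    have hκ' : 0 < κ / (8 * C) := by positivity
    obtain ⟨e, he, h4⟩ := h3 hz ((κ / (8 * C)) ^ 2 / (ρ + 1)) (by positivity)
    have h5 := kk_norm hc he (kk_dir hC hκ' hρ hg hd (h4 e (by simp)))
      (kk_dir hC hκ' hρ hg hd (h4 (Complex.I * e) (by simp)))
    have h6 : 3 * (κ / (8 * C)) * C = 3 / 8 * κ := by field_simp
    rw [h6] at h5
    linarith
  have h7 : ‖g‖ ≤ 0 := by
    have := le_of_forall_pos_le_add key
    by_contra h8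
    exact absurd this (not_le.2 (mul_pos (not_le.1 h8) hc))
  rwa [norm_le_zero_iff.1 h7] at hg

end Pool.Agent.QL
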