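import Pool.Agent.P.MP_7a6434d8_pr.QL.NPot
import Pool.Agent.P.MP_7a6434d8_pr.QL.NCond
import Pool.Agent.P.MP_7a6434d8_pr.QL.KGKill

open MeasureTheory Set Filter Topology Metric
open scoped ENNReal

namespace Pool.Agent.QL

open Pool.Agent.LGD

theorem nar_compact (x₀ x₁ y₀ y₁ : ℝ) : IsCompact (crect x₀ x₁ y₀ y₁) :=
  isCompact_Icc.reProdIm isCompact_Icc

theorem nar_bounded (x₀ x₁ y₀ y₁ : ℝ) : Bornology.IsBounded (orect x₀ x₁ y₀ y₁) :=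
  (nar_compact x₀ x₁ y₀ y₁).isBounded.subset fun _ hz =>
    ⟨Ioo_subset_Icc_self hz.1, Ioo_subset_Icc_self hz.2⟩

/-- two compact connected sets: a common value or separated ranges -/
theorem nar_ivt {u : ℂ → ℝ} {P Q : Set ℂ} (hP : IsCompact P) (hQ : IsCompact Q)
    (cP : IsPreconnected P) (cQ : IsPreconnected Q) (nP : P.Nonempty) (nQ : Q.Nonempty)
    (uP : ContinuousOn u P) (uQ : ContinuousOn u Q) :
    (∃ p ∈ P, ∃ q ∈ Q, u p = u q) ∨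
      (∃ s t, s < t ∧ (∀ x ∈ P, u x ≤ s) ∧ ∀ x ∈ Q, t ≤ u x) ∨
      ∃ s t, s < t ∧ (∀ x ∈ Q, u x ≤ s) ∧ ∀ x ∈ P, t ≤ u x := by
  obtain ⟨p0, hp0, m0⟩ := hP.exists_isMinOn nP uP
  obtain ⟨p1, hp1, m1⟩ := hP.exists_isMaxOn nP uP
  obtain ⟨q0, hq0, k0⟩ := hQ.exists_isMinOn nQ uQ
  obtain ⟨q1, hq1, k1⟩ := hQ.exists_isMaxOn nQ uQ
  rcases lt_or_ge (u p1) (u q0) with h1 | h1
  · exact Or.inr (Or.inl ⟨_, _, h1, fun x hx => m1 hx, fun x hx => k0 hx⟩)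
  rcases lt_or_ge (u q1) (u p0) with h2 | h2
  · exact Or.inr (Or.inr ⟨_, _, h2, fun x hx => k1 hx, fun x hx => m0 hx⟩)
  have a1 : u p0 ≤ u p1 := m0 hp1
  have a2 : u q0 ≤ u q1 := k0 hq1
  obtain ⟨p, hp, e1⟩ := cP.intermediate_value hp0 hp1 uP
    (show max (u p0) (u q0) ∈ Icc (u p0) (u p1) from ⟨le_max_left _ _, max_le a1 h1⟩)
  obtain ⟨q, hq, e2⟩ := cQ.intermediate_value hq0 hq1 uQ
    (show max (u p0) (u q0) ∈ Icc (u q0) (u q1) from ⟨le_max_right _ _, max_le h2 a2⟩)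
  exact Or.inl ⟨p, hp, q, hq, e1.trans e2.symm⟩

namespace FNet

variable (N : FNet)

/-- a gap between the values on two zones costs energy -/
theorem nar_cond {S K A B : Set ℂ} {M M' s t : ℝ} (h : N.CondGe S A B M') (hS : S ⊆ K)
    {v : ∀ m, (N.M m).D → ℝ}
    (hv : ∀ᶠ m in (N.U : Filter ℕ), Inv (N.M m).σ (v m) ∧ N.en m K (v m) (v m) ≤ M)
    (hA : ∀ᶠ m in (N.U : Filter ℕ), ∀ d, N.p m d ∈ A → v m d ≤ s)
    (hB : ∀ᶠ m in (N.U : Filter ℕ), ∀ d, N.p m d ∈ B → t ≤ v m d) (hst : s < t) :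
    M' * (t - s) ^ 2 ≤ M := by
  obtain ⟨m, h1, ⟨h2, h3⟩, h4, h5⟩ := (h.and (hv.and (hA.and hB))).exists
  have hd : 0 < t - s := sub_pos.2 hst
  have h6 := h1 (fun d => (t - s)⁻¹ * v m d + -((t - s)⁻¹ * s))
    (fun d => by simp only [h2 d])
    (fun d hd' => by
      have := mul_le_mul_of_nonneg_left (h4 d hd') (inv_pos.2 hd).le
      linarith)
    (fun d hd' => by
      have h7 := mul_le_mul_of_nonneg_left (h5 d hd') (inv_pos.2 hd).le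
      have h8 : (t - s)⁻¹ * (t - s) = 1 := inv_mul_cancel₀ hd.ne'
      nlinarith)
  rw [N.en_affine_left, N.en_comm, N.en_affine_left] at h6
  have h9 := (N.en_mono m hS (v m)).trans h3
  calc M' * (t - s) ^ 2 ≤ (t - s)⁻¹ * ((t - s)⁻¹ * N.en m S (v m) (v m)) * (t - s) ^ 2 :=
        mul_le_mul_of_nonneg_right h6 (sq_nonneg _)
    _ = N.en m S (v m) (v m) := by field_simp
    _ ≤ M := h9

theorem nar_up {v : ∀ m, (N.M m).D → ℝ} {u : ℂ → ℝ} {Q A : Set ℂ} (h : N.Conv v u Q)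
    (hA : A ⊆ Q) {s η : ℝ} (hη : 0 < η) (hs : ∀ x ∈ Q, u x ≤ s) :
    ∀ᶠ m in (N.U : Filter ℕ), ∀ d, N.p m d ∈ A → v m d ≤ s + η := by
  filter_upwards [h η hη] with m hm d hd
  have h1 := (abs_le.1 (hm.2 d (hA hd))).2
  have h2 := hs _ (hA hd)
  linarith

theorem nar_down {v : ∀ m, (N.M m).D → ℝ} {u : ℂ → ℝ} {Q A : Set ℂ} (h : N.Conv v u Q)
    (hA : A ⊆ Q) {s η : ℝ} (hη : 0 < η) (hs : ∀ x ∈ Q, s ≤ u x) :
    ∀ᶠ m in (N.U : Filter ℕ), ∀ d, N.p m d ∈ A → s - η ≤ v m d := by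
  filter_upwards [h η hη] with m hm d hd
  have h1 := (abs_le.1 (hm.2 d (hA hd))).1
  have h2 := hs _ (hA hd)
  linarith

/-- separated ranges contradict infinite conductance -/
theorem nar_sep {S K A B P Q : Set ℂ} {M s t : ℝ} (h : ∀ M', N.CondGe S A B M') (hS : S ⊆ K)
    {v : ∀ m, (N.M m).D → ℝ} {u : ℂ → ℝ}
    (hv : ∀ᶠ m in (N.U : Filter ℕ), Inv (N.M m).σ (v m) ∧ N.en m K (v m) (v m) ≤ M)
    (cP : N.Conv v u P) (cQ : N.Conv v u Q) (hA : A ⊆ P) (hB : B ⊆ Q) (hst : s < t)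
    (hs : ∀ x ∈ P, u x ≤ s) (ht : ∀ x ∈ Q, t ≤ u x) : False := by
  have hη : 0 < (t - s) / 4 := by linarith
  have hg : 0 < (t - (t - s) / 4 - (s + (t - s) / 4)) ^ 2 := pow_pos (by linarith) 2
  have h1 := N.nar_cond (h ((M + 1) / (t - (t - s) / 4 - (s + (t - s) / 4)) ^ 2)) hS hv
    (N.nar_up cP hA hη hs) (N.nar_down cQ hB hη ht) (by linarith)
  rw [div_mul_cancel₀ _ hg.ne'] at h1
  linarith

/-- equal values on two superconducting balls -/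
theorem nar_equal {S K O : Set ℂ} {M ρ : ℝ} {p q : ℂ} (hρ : 0 < ρ)
    (h : ∀ M', N.CondGe S (ball p ρ) (ball q ρ) M') (hS : S ⊆ K)
    {v : ∀ m, (N.M m).D → ℝ} {u : ℂ → ℝ}
    (hv : ∀ᶠ m in (N.U : Filter ℕ), Inv (N.M m).σ (v m) ∧ N.en m K (v m) (v m) ≤ M)
    (hu : ContinuousOn u O) (hc : ∀ Q, IsCompact Q → Q ⊆ O → N.Conv v u Q)
    (hp : closedBall p ρ ⊆ O) (hq : closedBall q ρ ⊆ O) :
    ∃ p' ∈ closedBall p ρ, ∃ q' ∈ closedBall q ρ, u p' = u q' := by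
  have cP := hc _ (isCompact_closedBall p ρ) hp
  have cQ := hc _ (isCompact_closedBall q ρ) hq
  rcases nar_ivt (isCompact_closedBall p ρ) (isCompact_closedBall q ρ)
    (convex_closedBall p ρ).isPreconnected (convex_closedBall q ρ).isPreconnected
    (nonempty_closedBall.2 hρ.le) (nonempty_closedBall.2 hρ.le) (hu.mono hp) (hu.mono hq) with
    h1 | ⟨s, t, hst, hs, ht⟩ | ⟨s, t, hst, hs, ht⟩
  · exact h1
  · exact (N.nar_sep h hS hv cP cQ ball_subset_closedBall ball_subset_closedBall hst hs ht).elim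
  · exact (N.nar_sep (fun M' => (h M').symm) hS hv cQ cP ball_subset_closedBall
      ball_subset_closedBall hst hs ht).elim

/-- the limit potential is constant -/
theorem nar_const {a x₁ x₂ y₀ y₁ c C M : ℝ} (ha : 0 ≤ a) (hc : 0 < c) (hC : 0 < C) {K : Set ℂ}
    (hKb : Bornology.IsBounded K) (hOK : orect x₁ x₂ y₀ y₁ ⊆ K) (hls : N.LS a K)
    (hk : ∀ᵐ z, z ∈ orect x₁ x₂ y₀ y₁ → ∃ e : ℂ, c ≤ ‖e‖ ∧
      ∀ e' ∈ ({e, Complex.I * e} : Set ℂ), ∃ᶠ (r : ℝ) in 𝓝[>] 0, ∃ p q : ℂ,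
        p - q = (r : ℂ) * e' ∧
        ball p (r * c / 20) ⊆ ball z (C * r) ∧ ball q (r * c / 20) ⊆ ball z (C * r) ∧
        ∀ M, N.CondGe (ball z (C * r)) (ball p (r * c / 20)) (ball q (r * c / 20)) M)
    {v : ∀ m, (N.M m).D → ℝ} {u : ℂ → ℝ} (hu : ContinuousOn u (orect x₁ x₂ y₀ y₁))
    (hm : Mono u (orect x₁ x₂ y₀ y₁))
    (hcv : ∀ Q, IsCompact Q → Q ⊆ orect x₁ x₂ y₀ y₁ → N.Conv v u Q)
    (hv : ∀ᶠ m in (N.U : Filter ℕ), Inv (N.M m).σ (v m) ∧ N.en m K (v m) (v m) ≤ M) :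
    ∀ z ∈ orect x₁ x₂ y₀ y₁, ∀ w ∈ orect x₁ x₂ y₀ y₁, u z = u w := by
  obtain ⟨Γ, hΓ, -, hD⟩ := N.exists_dom v K hKb (hv.mono fun m hm => hm.2)
  have hls' : N.LS a (orect x₁ x₂ y₀ y₁) := fun s₀ s₁ t₀ t₁ δ M' h1 h2 h3 h4 =>
    hls s₀ s₁ t₀ t₁ δ M' h1 h2 (h3.trans hOK) h4
  have hq := N.dq_of_ls ha (kk_open x₁ x₂ y₀ y₁) hOK hls' v u hu hcv Γ hD
  refine kill_gradient ha hc hC hu hq hm ?_
  filter_upwards [hk] with z hz hzO ε hε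
  obtain ⟨e, he, hz⟩ := hz hzO
  refine ⟨e, he, fun e' he' => ?_⟩
  obtain ⟨R, hR, hRO⟩ := Metric.isOpen_iff.1 (kk_open x₁ x₂ y₀ y₁) z hzO
  have ev : ∀ᶠ r : ℝ in 𝓝[>] 0, r ∈ Ioo 0 (R / C) := Ioo_mem_nhdsGT (div_pos hR hC)
  refine ((hz e' he').and_eventually ev).mono ?_
  rintro r ⟨⟨p, q, hpq, hp, hq', hM⟩, hr0, hr1⟩
  have hρ : 0 < r * c / 20 := by positivity
  have hCR : C * r < R := by
    rw [lt_div_iff₀ hC] at hr1
    linarith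
  have hzO' : closedBall z (C * r) ⊆ orect x₁ x₂ y₀ y₁ :=
    (closedBall_subset_ball hCR).trans hRO
  have cl : ∀ w : ℂ, ball w (r * c / 20) ⊆ ball z (C * r) →
      closedBall w (r * c / 20) ⊆ closedBall z (C * r) := fun w hw => by
    rw [← closure_ball w hρ.ne']
    exact closure_minimal (hw.trans ball_subset_closedBall) isClosed_closedBall
  obtain ⟨p', hp', q', hq'', e1⟩ := N.nar_equal hρ hM
    (ball_subset_closedBall.trans (hzO'.trans hOK)) hv hu hcv ((cl p hp).trans hzO')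
    ((cl q hq').trans hzO')
  refine ⟨p', cl p hp hp', q', cl q hq' hq'', ?_, ?_⟩
  · have e2 : p' - q' - r * e' = (p' - p) - (q' - q) := by rw [← hpq]; ring
    rw [e2]
    have n1 : ‖p' - p‖ ≤ r * c / 20 := by rwa [mem_closedBall, dist_eq_norm] at hp'
    have n2 : ‖q' - q‖ ≤ r * c / 20 := by rwa [mem_closedBall, dist_eq_norm] at hq''
    have := norm_sub_le (p' - p) (q' - q)
    linarith
  · rw [e1, sub_self, zero_pow two_ne_zero]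
    exact mul_nonneg hε.le measureReal_nonneg

/-- Superconducting short crossings in two directions around almost every point make the long
crossing superconducting. -/
theorem ar_det {a x₀ x₁ x₂ x₃ y₀ y₁ c C : ℝ} (ha : 0 ≤ a) (hc : 0 < c) (hC : 0 < C)
    (h01 : x₀ < x₁) (h12 : x₁ < x₂) (h23 : x₂ < x₃) (hy : y₀ < y₁)
    (hls : N.LS a (orect x₀ x₃ y₀ y₁)) (hsep : ∀ z ∈ orect x₁ x₂ y₀ y₁, N.SepAt z)
    (hk : ∀ᵐ z, z ∈ orect x₁ x₂ y₀ y₁ → ∃ e : ℂ, c ≤ ‖e‖ ∧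
      ∀ e' ∈ ({e, Complex.I * e} : Set ℂ), ∃ᶠ (r : ℝ) in 𝓝[>] 0, ∃ p q : ℂ,
        p - q = (r : ℂ) * e' ∧
        ball p (r * c / 20) ⊆ ball z (C * r) ∧ ball q (r * c / 20) ⊆ ball z (C * r) ∧
        ∀ M, N.CondGe (ball z (C * r)) (ball p (r * c / 20)) (ball q (r * c / 20)) M) (M : ℝ) :
    N.CondGe (orect x₀ x₃ y₀ y₁) (orect x₀ x₁ y₀ y₁) (orect x₂ x₃ y₀ y₁) M := by
  by_contra hM
  have hOK : orect x₁ x₂ y₀ y₁ ⊆ orect x₀ x₃ y₀ y₁ := fun z hz =>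
    ⟨⟨h01.trans hz.1.1, hz.1.2.trans h23⟩, hz.2⟩
  obtain ⟨v, u, hu, hm, hcv, hv⟩ := N.potential _ _ _ (orect x₁ x₂ y₀ y₁) (kk_open _ _ _ _)
    (nar_bounded _ _ _ _) hOK
    (Set.disjoint_left.2 fun z h1 h2 => lt_asymm h1.1.1 h2.1.2)
    (Set.disjoint_left.2 fun z h1 h2 => lt_asymm h1.1.2 h2.1.1) hsep hM
  have hv1 : ∀ᶠ m in (N.U : Filter ℕ), Inv (N.M m).σ (v m) ∧
      N.en m (orect x₀ x₃ y₀ y₁) (v m) (v m) ≤ M := hv.mono fun m h => ⟨h.1, h.2.1⟩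
  have hcst := N.nar_const ha hc hC (nar_bounded _ _ _ _) hOK hls hk hu hm hcv hv1
  set ya := y₀ + (y₁ - y₀) / 4 with hya
  set yb := y₁ - (y₁ - y₀) / 4 with hyb
  have y1 : y₀ < ya := by rw [hya]; linarith
  have y2 : ya < yb := by rw [hya, hyb]; linarith
  have y3 : yb < y₁ := by rw [hyb]; linarith
  set M' := 16 * |M| + 16 with hM'
  have hM0 : 0 < M' := by positivity
  have hMa : 0 < M' * a * 2 + 1 := by positivity
  obtain ⟨δ, hδ, d1, d2, d3, d4⟩ : ∃ δ > 0, δ < x₁ - x₀ ∧ δ < x₂ - x₁ ∧ δ < x₃ - x₂ ∧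
      M' * a * (2 * δ) < yb - ya := by
    have e1 : ∀ᶠ δ : ℝ in 𝓝[>] 0, δ ∈ Ioo 0 (x₁ - x₀) := Ioo_mem_nhdsGT (sub_pos.2 h01)
    have e2 : ∀ᶠ δ : ℝ in 𝓝[>] 0, δ ∈ Ioo 0 (x₂ - x₁) := Ioo_mem_nhdsGT (sub_pos.2 h12)
    have e3 : ∀ᶠ δ : ℝ in 𝓝[>] 0, δ ∈ Ioo 0 (x₃ - x₂) := Ioo_mem_nhdsGT (sub_pos.2 h23)
    have e4 : ∀ᶠ δ : ℝ in 𝓝[>] 0, δ ∈ Ioo 0 ((yb - ya) / (M' * a * 2 + 1)) :=
      Ioo_mem_nhdsGT (div_pos (sub_pos.2 y2) hMa)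
    obtain ⟨δ, f1, f2, f3, f4⟩ := (e1.and (e2.and (e3.and e4))).exists
    refine ⟨δ, f1.1, f1.2, f2.2, f3.2, ?_⟩
    have f5 := (lt_div_iff₀ hMa).1 f4.2
    nlinarith [f1.1]
  have hz0 : (⟨(x₁ + x₂) / 2, ya⟩ : ℂ) ∈ orect x₁ x₂ y₀ y₁ :=
    ⟨⟨by show x₁ < (x₁ + x₂) / 2; linarith, by show (x₁ + x₂) / 2 < x₂; linarith⟩,
      y1, y2.trans y3⟩
  set c0 := u ⟨(x₁ + x₂) / 2, ya⟩ with hc0
  have hlt : M < M' * (1 / 4) ^ 2 := by
    have := le_abs_self M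
    rw [hM']
    linarith
  have key : ∀ x : ℝ, x₀ < x - δ → x + δ < x₃ →
      N.CondGe (orect (x - δ) (x + δ) ya yb) (orect (x - δ) (x - δ + δ / 2) ya yb)
        (orect (x + δ - δ / 2) (x + δ) ya yb) M' ∧
      orect (x - δ) (x + δ) ya yb ⊆ orect x₀ x₃ y₀ y₁ := fun x g1 g2 => by
    refine ⟨(hls (x - δ) (x + δ) ya yb (δ / 2) M' (by linarith) y2 (fun z hz =>
      ⟨⟨g1.trans_le hz.1.1, hz.1.2.trans_lt g2⟩, y1.trans_le hz.2.1, hz.2.2.trans_lt y3⟩)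
      (half_pos hδ)).1 ?_, fun z hz =>
      ⟨⟨g1.trans hz.1.1, hz.1.2.trans g2⟩, y1.trans hz.2.1, hz.2.2.trans y3⟩⟩
    have : x + δ - (x - δ) = 2 * δ := by ring
    rwa [this]
  rcases le_total (1 / 2) c0 with hcase | hcase
  · obtain ⟨k1, k2⟩ := key x₁ (by linarith) (by linarith)
    have hQ : crect (x₁ + δ - δ / 2) (x₁ + δ) ya yb ⊆ orect x₁ x₂ y₀ y₁ := fun z hz =>
      ⟨⟨by linarith [hz.1.1], by linarith [hz.1.2]⟩, y1.trans_le hz.2.1, hz.2.2.trans_lt y3⟩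
    have h1 := N.nar_cond (s := 0) (t := 1 / 2 - 1 / 4) k1 k2 hv1
      (hv.mono fun m h d hd => h.2.2.1 d
        ⟨⟨by linarith [hd.1.1], by linarith [hd.1.2]⟩, y1.trans hd.2.1, hd.2.2.trans y3⟩)
      (N.nar_down (hcv _ (nar_compact _ _ _ _) hQ)
        (fun z hz => ⟨Ioo_subset_Icc_self hz.1, Ioo_subset_Icc_self hz.2⟩) (by norm_num)
        fun z hz => hcase.trans (hcst _ hz0 z (hQ hz)).le) (by norm_num)
    norm_num at h1 hlt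
    linarith
  · obtain ⟨k1, k2⟩ := key x₂ (by linarith) (by linarith)
    have hQ : crect (x₂ - δ) (x₂ - δ + δ / 2) ya yb ⊆ orect x₁ x₂ y₀ y₁ := fun z hz =>
      ⟨⟨by linarith [hz.1.1], by linarith [hz.1.2]⟩, y1.trans_le hz.2.1, hz.2.2.trans_lt y3⟩
    have h1 := N.nar_cond (s := 1 / 2 + 1 / 4) (t := 1) k1 k2 hv1
      (N.nar_up (hcv _ (nar_compact _ _ _ _) hQ)
        (fun z hz => ⟨Ioo_subset_Icc_self hz.1, Ioo_subset_Icc_self hz.2⟩) (by norm_num)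
        fun z hz => (hcst z (hQ hz) _ hz0).le.trans hcase)
      (hv.mono fun m h d hd => h.2.2.2 d
        ⟨⟨by linarith [hd.1.1], by linarith [hd.1.2]⟩, y1.trans hd.2.1, hd.2.2.trans y3⟩)
      (by norm_num)
    norm_num at h1 hlt
    linarith

end FNet

end Pool.Agent.QL
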