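import Pool.Agent.P.MP_7a6434d8_pr.QL.NBasic

open MeasureTheory Set Filter Topology Metric
open scoped ENNReal

namespace Pool.Agent.QL

open Pool.Agent.LGD

namespace FNet

variable (N : FNet)

open Classical in
/-- the squared increment on the edges inside `S` -/
noncomputable def glq (m : ℕ) (S : Set ℂ) (u : (N.M m).D → ℝ) (d : (N.M m).D) : ℝ :=
  if N.In m S d then N.dd m u d * N.dd m u d else 0

theorem glq_nonneg (m : ℕ) (S : Set ℂ) (u : (N.M m).D → ℝ) (d : (N.M m).D) :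
    0 ≤ N.glq m S u d := by
  unfold glq
  split_ifs
  · exact mul_self_nonneg _
  · exact le_rfl

theorem glq_pos {m : ℕ} {S : Set ℂ} (u : (N.M m).D → ℝ) {d : (N.M m).D} (h : N.In m S d) :
    N.glq m S u d = (u ((N.M m).α d) - u d) ^ 2 := by
  unfold glq
  rw [if_pos h, dd, sq]

theorem gl_en (m : ℕ) (S : Set ℂ) (u : (N.M m).D → ℝ) :
    N.en m S u u = N.κ m * (1 / 2 * ∑ d, N.glq m S u d) := rfl

theorem gl_le (m : ℕ) (S : Set ℂ) (v : (N.M m).D → ℝ) {ι : Type} (J : Finset ι) (T : ι → Set ℂ)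
    (u : ι → (N.M m).D → ℝ) (c : ι → ℝ) (O : Set ℂ) (w χ : (N.M m).D → ℝ) {a b : ℝ}
    (hc : ∀ i ∈ J, 0 ≤ c i) (ha : 0 ≤ a) (hb : 0 ≤ b)
    (h : ∀ d, N.In m S d → (v ((N.M m).α d) - v d) ^ 2 ≤
      ∑ i ∈ J, c i * N.glq m (T i) (u i) d + a * N.glq m O w d + b * N.glq m univ χ d) :
    N.en m S v v ≤ ∑ i ∈ J, c i * N.en m (T i) (u i) (u i) + a * N.en m O w w +
      b * N.en m univ χ χ := by
  have h1 : ∀ d, N.glq m S v d ≤
      ∑ i ∈ J, c i * N.glq m (T i) (u i) d + a * N.glq m O w d + b * N.glq m univ χ d := by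
    intro d
    by_cases hd : N.In m S d
    · rw [N.glq_pos v hd]; exact h d hd
    · have h2 : N.glq m S v d = 0 := by unfold glq; rw [if_neg hd]
      rw [h2]
      have h3 : 0 ≤ ∑ i ∈ J, c i * N.glq m (T i) (u i) d :=
        Finset.sum_nonneg fun i hi => mul_nonneg (hc i hi) (N.glq_nonneg _ _ _ _)
      have h4 := mul_nonneg ha (N.glq_nonneg m O w d)
      have h5 := mul_nonneg hb (N.glq_nonneg m univ χ d)
      linarith
  have h2 := Finset.sum_le_sum fun d (_ : d ∈ Finset.univ) => h1 d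
  rw [Finset.sum_add_distrib, Finset.sum_add_distrib, Finset.sum_comm, ← Finset.mul_sum,
    ← Finset.mul_sum] at h2
  simp only [gl_en]
  have h3 : ∑ i ∈ J, c i * (N.κ m * (1 / 2 * ∑ d, N.glq m (T i) (u i) d)) =
      N.κ m * (1 / 2 * ∑ i ∈ J, ∑ d, c i * N.glq m (T i) (u i) d) := by
    rw [Finset.mul_sum, Finset.mul_sum]
    refine Finset.sum_congr rfl fun i _ => ?_
    rw [← Finset.mul_sum]
    ring
  rw [h3]
  have h4 := mul_le_mul_of_nonneg_left h2 (N.κ_pos m).le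
  nlinarith [h4]

theorem gl_sc {D : Type} (π : Equiv.Perm D) (d y : D) : π.SameCycle (π d) y ↔ π.SameCycle d y :=
  Equiv.Perm.sameCycle_apply_left

/-- A Lipschitz function is approximated at the cost of the squared radii of good annuli. -/
theorem pou {f : ℂ → ℝ} {L : ℝ} (hL : 0 ≤ L) (hf : ∀ x y, |f x - f y| ≤ L * ‖x - y‖) (S : Set ℂ)
    (hS : Bornology.IsBounded S) {ι : Type} (J : Finset ι) (z : ι → ℂ) (r : ι → ℝ) {δ K C ρ : ℝ}
    (hδ : 0 < δ) (hK : 2 ≤ K) (hC : 0 ≤ C) (hr : ∀ j ∈ J, 2 * δ ≤ r j ∧ r j ≤ ρ)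
    (hcov : ∀ x ∈ S, ∃ j ∈ J, ‖x - z j‖ ≤ δ)
    (hcut : ∀ j ∈ J, N.Cut (closedBall (z j) (r j)) (ball (z j) (K * r j)) C) :
    ∀ᶠ m in (N.U : Filter ℕ), ∃ v, N.Close m v f S (L * (K + 2) * ρ) ∧
      N.en m S v v ≤ C * (L * (K + 2)) ^ 2 * ∑ j ∈ J, r j ^ 2 := by
  classical
  have _ := hC
  obtain ⟨R₀, hR₀⟩ := hS.exists_norm_le
  filter_upwards [(Filter.eventually_all_finset J).2 hcut, N.mesh R₀ (δ / 2) (by positivity)]
    with m hm hmesh
  choose! χ hχI hχ01 hχ1 hχ0 hχE using hm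
  set g : ι → (N.M m).D → ℝ := fun k d => f (z k) - L * (K + 2) * r k * (1 - χ k d) with hg
  set act : (N.M m).D → Set ι :=
    fun d => {k | k ∈ J ∧ ∃ y, (N.M m).σ.SameCycle d y ∧ ‖N.p m y - z k‖ < K * r k + δ} with hact
  set v : (N.M m).D → ℝ := fun d => sSup ((fun k => g k d) '' act d) with hv
  have hfin : ∀ d, ((fun k => g k d) '' act d).Finite := fun d =>
    (J.finite_toSet.subset fun k hk => hk.1).image _
  have hle : ∀ d k, k ∈ act d → g k d ≤ v d := fun d k hk =>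
    le_csSup (hfin d).bddAbove ⟨k, hk, rfl⟩
  have hM : ∀ k ∈ J, 0 ≤ L * (K + 2) * r k := fun k hk =>
    mul_nonneg (mul_nonneg hL (by linarith)) (by linarith [(hr k hk).1])
  have hnear : ∀ d, N.p m d ∈ S → ∃ j ∈ act d, ‖N.p m d - z j‖ ≤ δ ∧ χ j d = 1 := by
    intro d hd
    obtain ⟨j, hj, hj'⟩ := hcov _ hd
    have h1 := (hr j hj).1
    refine ⟨j, ⟨hj, d, Equiv.Perm.SameCycle.refl _ _, ?_⟩, hj', hχ1 j hj d ?_⟩
    · nlinarith
    · simp only [mem_closedBall, dist_eq_norm]; linarith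
  have hatt : ∀ d, N.p m d ∈ S → ∃ k ∈ act d, v d = g k d := by
    intro d hd
    obtain ⟨j, hj, -⟩ := hnear d hd
    obtain ⟨k, hk, hk'⟩ := Set.Nonempty.csSup_mem (Set.Nonempty.image _ ⟨j, hj⟩) (hfin d)
    exact ⟨k, hk, hk'.symm⟩
  have hdist : ∀ d, N.p m d ∈ S → ∀ k ∈ act d, ‖N.p m d - z k‖ ≤ K * r k + 3 / 2 * δ := by
    rintro d hd k ⟨-, y, hy, hy'⟩
    have h1 := hmesh d y (hR₀ _ hd) (Or.inr (Or.inr hy))
    have h2 : ‖N.p m d - z k‖ ≤ ‖N.p m d - N.p m y‖ + ‖N.p m y - z k‖ :=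
      norm_sub_le_norm_sub_add_norm_sub _ _ _
    rw [norm_sub_rev (N.p m d) (N.p m y)] at h2
    linarith
  have hatt' : ∀ d, N.p m d ∈ S → ∃ k ∈ act d, v d = g k d ∧ χ k d ≠ 0 := by
    intro d hd
    obtain ⟨k, hk, hk'⟩ := hatt d hd
    by_cases h0 : χ k d = 0
    · obtain ⟨j, hj, hj1, hj2⟩ := hnear d hd
      refine ⟨j, hj, le_antisymm ?_ (hle d j hj), by rw [hj2]; exact one_ne_zero⟩
      rw [hk']
      simp only [hg, h0, hj2]
      have h1 := hdist d hd k hk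
      have h2 : ‖z k - z j‖ ≤ ‖z k - N.p m d‖ + ‖N.p m d - z j‖ :=
        norm_sub_le_norm_sub_add_norm_sub _ _ _
      rw [norm_sub_rev (z k) (N.p m d)] at h2
      have h3 := (abs_le.1 (hf (z k) (z j))).2
      have h4 := (hr k hk.1).1
      have h5 : ‖z k - z j‖ ≤ (K + 2) * r k := by linarith
      have h6 := mul_le_mul_of_nonneg_left h5 hL
      linarith
    · exact ⟨k, hk, hk', h0⟩
  have hedge : ∀ x y, N.p m x ∈ S → N.p m y ∈ S → (N.M m).Adj x y → v y ≤ v x →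
      ∃ k ∈ J, (v x - v y) ^ 2 ≤ (L * (K + 2) * r k) ^ 2 * (χ k x - χ k y) ^ 2 := by
    intro x y hx hy hxy hvv
    obtain ⟨k, hk, hk1, hk2⟩ := hatt' x hx
    have h1 : N.p m x ∈ ball (z k) (K * r k) := by
      by_contra h
      exact hk2 (hχ0 k hk.1 x h)
    simp only [mem_ball, dist_eq_norm] at h1
    have h2 := hmesh x y (hR₀ _ hx) hxy
    have h3 : ‖N.p m y - z k‖ ≤ ‖N.p m y - N.p m x‖ + ‖N.p m x - z k‖ :=
      norm_sub_le_norm_sub_add_norm_sub _ _ _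
    have h4 := hle y k ⟨hk.1, y, Equiv.Perm.SameCycle.refl _ _, by linarith⟩
    refine ⟨k, hk.1, ?_⟩
    rw [← mul_pow]
    refine pow_le_pow_left₀ (by linarith) ?_ 2
    rw [hk1]
    simp only [hg] at h4 ⊢
    linarith
  refine ⟨v, ⟨fun d => ?_, fun d hd => ?_⟩, ?_⟩
  · have h1 : act ((N.M m).σ d) = act d := by
      simp only [hact, gl_sc]
    simp only [hv, h1]
    congr 1
    refine image_congr fun k hk => ?_
    simp only [hg, hχI k hk.1 d]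
  · obtain ⟨j, hj, hj1, hj2⟩ := hnear d hd
    obtain ⟨k, hk, hk'⟩ := hatt d hd
    have h1 := hle d j hj
    simp only [hg, hj2] at h1
    have h2 := (abs_le.1 (hf (N.p m d) (z j))).2
    have h3 := hr j hj.1
    have h4 := hr k hk.1
    have h5 := hdist d hd k hk
    have h6 := (abs_le.1 (hf (N.p m d) (z k))).1
    have h7 : ‖N.p m d - z j‖ ≤ (K + 2) * ρ := by nlinarith
    have h8 : ‖N.p m d - z k‖ ≤ (K + 2) * ρ := by nlinarith
    have h9 := mul_le_mul_of_nonneg_left h7 hL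
    have h10 := mul_le_mul_of_nonneg_left h8 hL
    have h11 : g k d ≤ f (z k) := by
      simp only [hg]
      have := mul_nonneg (hM k hk.1) (sub_nonneg.2 (hχ01 k hk.1 d).2)
      linarith
    rw [abs_le]
    constructor <;> linarith
  · have h1 := N.gl_le m S v J (fun _ => univ) χ (fun k => (L * (K + 2) * r k) ^ 2) univ v v
      (a := 0) (b := 0) (fun _ _ => sq_nonneg _) le_rfl le_rfl (by
        intro d hd
        have hu : N.In m univ d := ⟨mem_univ _, mem_univ _⟩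
        simp only [zero_mul, add_zero, N.glq_pos _ hu]
        have hs : ∀ k ∈ J, (L * (K + 2) * r k) ^ 2 * (χ k ((N.M m).α d) - χ k d) ^ 2 ≤
            ∑ i ∈ J, (L * (K + 2) * r i) ^ 2 * (χ i ((N.M m).α d) - χ i d) ^ 2 := fun k hk =>
          Finset.single_le_sum
            (f := fun i => (L * (K + 2) * r i) ^ 2 * (χ i ((N.M m).α d) - χ i d) ^ 2)
            (fun _ _ => by positivity) hk
        rcases le_total (v d) (v ((N.M m).α d)) with h | h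
        · obtain ⟨k, hk, hk'⟩ := hedge _ d hd.2 hd.1 (Or.inl ((N.M m).α_α d).symm) h
          exact hk'.trans (hs k hk)
        · obtain ⟨k, hk, hk'⟩ := hedge d _ hd.1 hd.2 (Or.inl rfl) h
          have := hs k hk
          nlinarith)
    simp only [zero_mul, add_zero] at h1
    refine h1.trans ?_
    rw [Finset.mul_sum]
    refine Finset.sum_le_sum fun k hk => ?_
    have h2 := mul_le_mul_of_nonneg_left (hχE k hk) (sq_nonneg (L * (K + 2) * r k))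
    nlinarith

theorem gl_mix {a b c c' wx wy ux uy θ η : ℝ} (hθ : 0 < θ) (hc : 0 ≤ c ∧ c ≤ 1)
    (hc' : 0 ≤ c' ∧ c' ≤ 1) (hx : |wx - ux| ≤ 2 * η) (hy : |wy - uy| ≤ 2 * η)
    (ha : a = c * wx + (1 - c) * ux) (hb : b = c' * wy + (1 - c') * uy) :
    (b - a) ^ 2 ≤ (1 + θ) * (uy - ux) ^ 2 + (1 + θ) * (wy - wx) ^ 2 +
      (1 + 1 / θ) * (4 * η ^ 2) * (c' - c) ^ 2 := by
  set p := (c + c') / 2 * (wy - wx) + (1 - (c + c') / 2) * (uy - ux) with hp
  set e := ((wx - ux) + (wy - uy)) / 2 with he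
  have h1 : b - a = p + e * (c' - c) := by rw [ha, hb, hp, he]; ring
  have h2 : p ^ 2 ≤ (uy - ux) ^ 2 + (wy - wx) ^ 2 := by
    have h3 : 0 ≤ (c + c') / 2 := by linarith [hc.1, hc'.1]
    have h4 : 0 ≤ 1 - (c + c') / 2 := by linarith [hc.2, hc'.2]
    set s := (c + c') / 2
    have h5 : p ^ 2 = s * (wy - wx) ^ 2 + (1 - s) * (uy - ux) ^ 2 -
        s * (1 - s) * ((wy - wx) - (uy - ux)) ^ 2 := by rw [hp]; ring
    have h6 := mul_nonneg (mul_nonneg h3 h4) (sq_nonneg ((wy - wx) - (uy - ux)))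
    have h7 := mul_nonneg h3 (sq_nonneg (uy - ux))
    have h8 := mul_nonneg h4 (sq_nonneg (wy - wx))
    nlinarith
  have h3 : e ^ 2 ≤ 4 * η ^ 2 := by
    have h4 := abs_le.1 hx
    have h5 := abs_le.1 hy
    have h6 : |e| ≤ 2 * η := by
      rw [abs_le]; constructor <;> linarith [h4.1, h4.2, h5.1, h5.2]
    have h7 := pow_le_pow_left₀ (abs_nonneg e) h6 2
    rw [sq_abs] at h7
    linarith
  set q := e * (c' - c) with hq
  have h4 : q ^ 2 ≤ 4 * η ^ 2 * (c' - c) ^ 2 := by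
    rw [hq, mul_pow]
    exact mul_le_mul_of_nonneg_right h3 (sq_nonneg _)
  have h5 : (p + q) ^ 2 ≤ (1 + θ) * p ^ 2 + (1 + 1 / θ) * q ^ 2 := by
    have h6 : (1 + θ) * p ^ 2 + (1 + 1 / θ) * q ^ 2 - (p + q) ^ 2 = (θ * p - q) ^ 2 / θ := by
      field_simp
      ring
    have h7 : 0 ≤ (θ * p - q) ^ 2 / θ := by positivity
    linarith
  have h6 := mul_le_mul_of_nonneg_left h2 (by linarith : 0 ≤ 1 + θ)
  have h7 := mul_le_mul_of_nonneg_left h4 (by positivity : 0 ≤ 1 + 1 / θ)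
  rw [h1]
  linarith

/-- one step of the gluing -/
theorem gl_step (f : ℂ → ℝ) (S : Set ℂ) {ι : Type} (J : Finset ι) (T : ι → Set ℂ)
    (hd : ∀ i ∈ J, ∀ j ∈ J, i ≠ j → Disjoint (T i) (T j)) (A B O : Set ℂ) {δ η θ : ℝ}
    (hδ : 0 < δ) (hθ : 0 < θ)
    (h1 : ∀ x ∈ S, (∃ i ∈ J, ball x δ ⊆ T i) ∨ ball x δ ⊆ A) (h2 : ∀ x ∈ B, ball x δ ⊆ O) (m : ℕ)
    (hmesh : ∀ d e, N.p m d ∈ S → (N.M m).Adj d e → ‖N.p m e - N.p m d‖ ≤ δ / 4)
    (χ w : (N.M m).D → ℝ) (u : ι → (N.M m).D → ℝ) (hχI : Inv (N.M m).σ χ)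
    (hχ01 : ∀ d, 0 ≤ χ d ∧ χ d ≤ 1) (hχ1 : ∀ d, N.p m d ∈ A → χ d = 1)
    (hχ0 : ∀ d, N.p m d ∉ B → χ d = 0) (hw : N.Close m w f O η)
    (hu : ∀ i ∈ J, N.Close m (u i) f (T i) η) :
    ∃ v, N.Close m v f S η ∧ N.en m S v v ≤ ∑ i ∈ J, (1 + θ) * N.en m (T i) (u i) (u i) +
      (1 + θ) * N.en m O w w + (1 + 1 / θ) * (4 * η ^ 2) * N.en m univ χ χ := by
  classical
  set I : (N.M m).D → ι → Prop :=
    fun d i => ∀ y, (N.M m).σ.SameCycle d y → ball (N.p m y) (δ / 2) ⊆ T i with hI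
  set U : (N.M m).D → ℝ := fun d => ∑ i ∈ J, if I d i then u i d else 0 with hU
  have hIσ : ∀ d i, I ((N.M m).σ d) i ↔ I d i := fun d i => by simp only [hI, gl_sc]
  have hIm : ∀ d i, I d i → N.p m d ∈ T i := fun d i h =>
    h d (Equiv.Perm.SameCycle.refl _ _) (mem_ball_self (by positivity))
  have hUe : ∀ d, ∀ i ∈ J, I d i → U d = u i d := by
    intro d i hi h
    simp only [hU]
    rw [Finset.sum_eq_single i, if_pos h]
    · intro j hj hne
      rw [if_neg]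
      intro h'
      exact disjoint_left.1 (hd j hj i hi hne) (hIm d j h') (hIm d i h)
    · intro h'; exact absurd hi h'
  have hT : ∀ x y, N.p m x ∈ S → N.p m y ∈ S → ‖N.p m y - N.p m x‖ ≤ δ / 4 → χ x ≠ 1 →
      ∃ i ∈ J, I x i ∧ I y i := by
    intro x y hx hy hxy hc
    rcases h1 _ hx with ⟨i, hi, hb⟩ | hb
    · have key : ∀ y, N.p m y ∈ S → ‖N.p m y - N.p m x‖ ≤ δ / 4 → I y i := by
        intro y hy hxy y' hy'
        refine (ball_subset_ball' ?_).trans hb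
        have h3 := hmesh y y' hy (Or.inr (Or.inr hy'))
        have h4 : ‖N.p m y' - N.p m x‖ ≤ ‖N.p m y' - N.p m y‖ + ‖N.p m y - N.p m x‖ :=
          norm_sub_le_norm_sub_add_norm_sub _ _ _
        rw [dist_eq_norm]
        linarith
      exact ⟨i, hi, key x hx (by simp; positivity), key y hy hxy⟩
    · exact absurd (hχ1 x (hb (mem_ball_self hδ))) hc
  have hO : ∀ x y, ‖N.p m y - N.p m x‖ ≤ δ / 4 → χ x ≠ 0 → N.p m x ∈ O ∧ N.p m y ∈ O := by
    intro x y hxy hc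
    have hb : N.p m x ∈ B := by
      by_contra h
      exact hc (hχ0 x h)
    refine ⟨h2 _ hb (mem_ball_self hδ), h2 _ hb ?_⟩
    rw [mem_ball, dist_eq_norm]
    linarith
  have hz : ∀ x, ‖N.p m x - N.p m x‖ ≤ δ / 4 := fun x => by simp; positivity
  refine ⟨fun d => χ d * w d + (1 - χ d) * U d, ⟨fun d => ?_, fun d hd' => ?_⟩, ?_⟩
  · have h3 : U ((N.M m).σ d) = U d := by
      simp only [hU]
      refine Finset.sum_congr rfl fun i hi => ?_
      simp only [hIσ, (hu i hi).1 d]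
    simp only [h3, hχI d, hw.1 d]
  · have hc := hχ01 d
    by_cases c1 : χ d = 1
    · have h3 := hw.2 d (hO d d (hz d) (by rw [c1]; exact one_ne_zero)).1
      simpa [c1] using h3
    · obtain ⟨i, hi, hIi, -⟩ := hT d d hd' hd' (hz d) c1
      have h3 := (hu i hi).2 d (hIm d i hIi)
      rw [← hUe d i hi hIi] at h3
      by_cases c0 : χ d = 0
      · simpa [c0] using h3
      · have h4 := hw.2 d (hO d d (hz d) c0).1
        have h5 := abs_le.1 h3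
        have h6 := abs_le.1 h4
        have h7 := mul_nonneg hc.1 (sub_nonneg.2 h6.1)
        have h8 := mul_nonneg hc.1 (sub_nonneg.2 h6.2)
        have h9 := mul_nonneg (sub_nonneg.2 hc.2) (sub_nonneg.2 h5.1)
        have h10 := mul_nonneg (sub_nonneg.2 hc.2) (sub_nonneg.2 h5.2)
        rw [abs_le]
        constructor <;> nlinarith
  · refine N.gl_le m S _ J T u (fun _ => 1 + θ) O w χ (fun _ _ => by linarith) (by linarith)
      (by positivity) fun d hS => ?_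
    have hxy := hmesh d _ hS.1 (Or.inl rfl)
    have hyx : ‖N.p m d - N.p m ((N.M m).α d)‖ ≤ δ / 4 := by rwa [norm_sub_rev]
    have hun : N.In m univ d := ⟨mem_univ _, mem_univ _⟩
    have n1 : 0 ≤ ∑ i ∈ J, (1 + θ) * N.glq m (T i) (u i) d :=
      Finset.sum_nonneg fun i _ => mul_nonneg (by linarith) (N.glq_nonneg _ _ _ _)
    have n2 : 0 ≤ (1 + θ) * N.glq m O w d := mul_nonneg (by linarith) (N.glq_nonneg _ _ _ _)
    have n3 : 0 ≤ (1 + 1 / θ) * (4 * η ^ 2) * N.glq m univ χ d :=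
      mul_nonneg (by positivity) (N.glq_nonneg _ _ _ _)
    have hTT : χ d ≠ 1 ∨ χ ((N.M m).α d) ≠ 1 → ∃ i ∈ J, I d i ∧ I ((N.M m).α d) i ∧
        (1 + θ) * (U ((N.M m).α d) - U d) ^ 2 ≤ ∑ i ∈ J, (1 + θ) * N.glq m (T i) (u i) d := by
      intro h
      have h3 : ∃ i ∈ J, I d i ∧ I ((N.M m).α d) i := by
        rcases h with h | h
        · exact hT _ _ hS.1 hS.2 hxy h
        · obtain ⟨i, hi, h4, h5⟩ := hT _ _ hS.2 hS.1 hyx h
          exact ⟨i, hi, h5, h4⟩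
      obtain ⟨i, hi, h4, h5⟩ := h3
      refine ⟨i, hi, h4, h5, ?_⟩
      rw [hUe _ i hi h4, hUe _ i hi h5, ← N.glq_pos (u i) (S := T i) ⟨hIm _ i h4, hIm _ i h5⟩]
      exact Finset.single_le_sum (f := fun i => (1 + θ) * N.glq m (T i) (u i) d)
        (fun i _ => mul_nonneg (by linarith) (N.glq_nonneg _ _ _ _)) hi
    have hOO : χ d ≠ 0 ∨ χ ((N.M m).α d) ≠ 0 → N.In m O d := by
      rintro (h | h)
      · exact hO _ _ hxy h
      · exact (hO _ _ hyx h).symm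
    by_cases c1 : χ d ≠ 1 ∨ χ ((N.M m).α d) ≠ 1
    · obtain ⟨i, hi, h4, h5, h6⟩ := hTT c1
      by_cases c0 : χ d ≠ 0 ∨ χ ((N.M m).α d) ≠ 0
      · have h7 := hOO c0
        have hcl : ∀ x, I x i → N.p m x ∈ O → |w x - U x| ≤ 2 * η := by
          intro x hx hx'
          have h8 := abs_le.1 ((hu i hi).2 x (hIm x i hx))
          have h9 := abs_le.1 (hw.2 x hx')
          rw [hUe x i hi hx, abs_le]
          constructor <;> linarith [h8.1, h8.2, h9.1, h9.2]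
        have h8 := gl_mix hθ (hχ01 d) (hχ01 ((N.M m).α d)) (hcl d h4 h7.1) (hcl _ h5 h7.2) rfl rfl
        rw [N.glq_pos w h7, N.glq_pos χ hun]
        linarith
      · push Not at c0
        simp only [c0.1, c0.2, zero_mul, zero_add, sub_zero, one_mul]
        have := mul_nonneg hθ.le (sq_nonneg (U ((N.M m).α d) - U d))
        linarith
    · push Not at c1
      have h7 := hOO (Or.inl (by rw [c1.1]; exact one_ne_zero))
      rw [N.glq_pos w h7]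
      simp only [c1.1, c1.2, one_mul, sub_self, zero_mul, add_zero]
      have := mul_nonneg hθ.le (sq_nonneg (w ((N.M m).α d) - w d))
      linarith

/-- Gluing along a region `O` that carries a cutoff of finite energy. -/
theorem glue (f : ℂ → ℝ) (hf : Continuous f) (S : Set ℂ) (hS : Bornology.IsBounded S) {ι : Type}
    (J : Finset ι) (T : ι → Set ℂ) (hd : ∀ i ∈ J, ∀ j ∈ J, i ≠ j → Disjoint (T i) (T j))
    (A B O : Set ℂ) {δ M : ℝ} (hδ : 0 < δ) (hcut : N.Cut A B M) (hAB : A ⊆ B)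
    (h1 : ∀ x ∈ S, (∃ i ∈ J, ball x δ ⊆ T i) ∨ ball x δ ⊆ A)
    (h2 : ∀ x ∈ B, ball x δ ⊆ O) :
    N.F f S ≤ ∑ i ∈ J, N.F f (T i) + N.F f O := by
  classical
  have _ := hf
  have _ := hAB
  by_cases htop : ∑ i ∈ J, N.F f (T i) + N.F f O = ⊤
  · rw [htop]; exact le_top
  have hO : N.F f O ≠ ⊤ := fun h => htop (by rw [h, add_top])
  have hsum : ∑ i ∈ J, N.F f (T i) ≠ ⊤ := fun h => htop (by rw [h, top_add])
  have hT : ∀ i ∈ J, N.F f (T i) ≠ ⊤ := fun i hi => ENNReal.sum_ne_top.1 hsum i hi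
  obtain ⟨a, ha⟩ : ∃ a : ι → ℝ, a = fun i => (N.F f (T i)).toReal := ⟨_, rfl⟩
  obtain ⟨b, hb⟩ : ∃ b : ℝ, b = (N.F f O).toReal := ⟨_, rfl⟩
  have ha0 : ∀ i, 0 ≤ a i := fun i => by rw [ha]; exact ENNReal.toReal_nonneg
  have hb0 : 0 ≤ b := by rw [hb]; exact ENNReal.toReal_nonneg
  have ha1 : ∀ i ∈ J, ENNReal.ofReal (a i) = N.F f (T i) := fun i hi => by
    rw [ha]; exact ENNReal.ofReal_toReal (hT i hi)
  have hb1 : ENNReal.ofReal b = N.F f O := by rw [hb]; exact ENNReal.ofReal_toReal hO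
  have hs0 : 0 ≤ ∑ i ∈ J, a i := Finset.sum_nonneg fun i _ => ha0 i
  have heq : ∑ i ∈ J, N.F f (T i) + N.F f O = ENNReal.ofReal (∑ i ∈ J, a i + b) := by
    rw [ENNReal.ofReal_add hs0 hb0, ENNReal.ofReal_sum_of_nonneg fun i _ => ha0 i, hb1]
    congr 1
    exact Finset.sum_congr rfl fun i hi => (ha1 i hi).symm
  rw [heq, N.F_le_iff f S (add_nonneg hs0 hb0)]
  intro η hη ε hε
  obtain ⟨E, hE⟩ : ∃ E : ℝ, E = ∑ i ∈ J, a i + b := ⟨_, rfl⟩
  have hE0 : 0 ≤ E := by rw [hE]; exact add_nonneg hs0 hb0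
  rw [← hE]
  obtain ⟨θ, hθ0, hθ1⟩ : ∃ θ : ℝ, 0 < θ ∧ θ * (E + ε) = ε / 3 :=
    ⟨ε / 3 / (E + ε), by positivity, by field_simp⟩
  obtain ⟨ε₁, hε₁0, hε₁1⟩ : ∃ ε₁ : ℝ, 0 < ε₁ ∧ ε₁ * (J.card + 1) = ε / 3 :=
    ⟨ε / 3 / (J.card + 1), by positivity, by field_simp⟩
  obtain ⟨Q, hQ⟩ : ∃ Q : ℝ, Q = (1 + 1 / θ) * 4 * max M 0 := ⟨_, rfl⟩
  have hQ0 : 0 ≤ Q := by rw [hQ]; positivity
  obtain ⟨η₁, hη₁0, hη₁1, hη₁2, hη₁3⟩ :
      ∃ η₁ : ℝ, 0 < η₁ ∧ η₁ ≤ η ∧ η₁ ≤ 1 ∧ η₁ * (Q + 1) ≤ ε / 3 :=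
    ⟨min η (min 1 (ε / 3 / (Q + 1))), by positivity, min_le_left _ _,
      (min_le_right _ _).trans (min_le_left _ _),
      (le_div_iff₀ (by positivity)).1 ((min_le_right _ _).trans (min_le_right _ _))⟩
  obtain ⟨R₀, hR₀⟩ := hS.exists_norm_le
  have e1 := (N.F_le_iff f O hb0).1 hb1.ge η₁ hη₁0 ε₁ hε₁0
  have e2 := (Filter.eventually_all_finset J).2 fun i hi =>
    (N.F_le_iff f (T i) (ha0 i)).1 (ha1 i hi).ge η₁ hη₁0 ε₁ hε₁0
  filter_upwards [hcut, e1, e2, N.mesh R₀ (δ / 4) (by positivity)] with m hm e1 e2 hmesh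
  obtain ⟨χ, hχI, hχ01, hχ1, hχ0, hχE⟩ := hm
  obtain ⟨w, hw, hwE⟩ := e1
  choose! u hu huE using e2
  obtain ⟨v, hv, hvE⟩ := N.gl_step f S J T hd A B O hδ hθ0 h1 h2 m
    (fun d e hd' ha' => hmesh d e (hR₀ _ hd') ha') χ w u hχI hχ01 hχ1 hχ0 hw hu
  refine ⟨v, ⟨hv.1, fun d hd' => (hv.2 d hd').trans hη₁1⟩, hvE.trans ?_⟩
  have h3 : ∑ i ∈ J, (1 + θ) * N.en m (T i) (u i) (u i) ≤
      (1 + θ) * (∑ i ∈ J, a i + J.card * ε₁) := by
    rw [← Finset.mul_sum]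
    refine mul_le_mul_of_nonneg_left ?_ (by linarith)
    refine (Finset.sum_le_sum huE).trans (le_of_eq ?_)
    rw [Finset.sum_add_distrib, Finset.sum_const, nsmul_eq_mul]
  have h4 := mul_le_mul_of_nonneg_left hwE (by linarith : 0 ≤ 1 + θ)
  have h5 : (1 + 1 / θ) * (4 * η₁ ^ 2) * N.en m univ χ χ ≤ ε / 3 := by
    have h6 := mul_le_mul_of_nonneg_left (hχE.trans (le_max_left M 0))
      (by positivity : 0 ≤ (1 + 1 / θ) * (4 * η₁ ^ 2))
    have h7 : (1 + 1 / θ) * (4 * η₁ ^ 2) * max M 0 = η₁ * (η₁ * Q) := by rw [hQ]; ring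
    have h8 : η₁ * (η₁ * Q) ≤ 1 * (η₁ * Q) :=
      mul_le_mul_of_nonneg_right hη₁2 (mul_nonneg hη₁0.le hQ0)
    linarith
  have h6 : (1 + θ) * (∑ i ∈ J, a i + J.card * ε₁) + (1 + θ) * (b + ε₁) =
      (1 + θ) * (E + ε / 3) := by rw [hE, ← hε₁1]; ring
  have h7 : θ * (E + ε / 3) ≤ ε / 3 := by
    rw [← hθ1]
    exact mul_le_mul_of_nonneg_left (by linarith) hθ0.le
  linarith

end FNet

end Pool.Agent.QL
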