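import Pool.Agent.P.MP_7a6434d8_pr.QL.ADefs

open MeasureTheory Set Filter Topology Metric
open scoped ENNReal

namespace Pool.Agent.QL

open Pool.Agent.LGD

namespace FNet

variable (N : FNet)

theorem free : (N.U : Filter ℕ) ≤ atTop := by
  rcases N.U.le_cofinite_or_eq_pure with h | ⟨a, h⟩
  · rwa [Nat.cofinite_eq_atTop] at h
  · exfalso
    have h1 : ∀ i : ℕ, ∃ d, ‖N.p a d - (i : ℂ)‖ ≤ 1 / 4 := fun i => by
      have := N.dense i (1 / 4) (by norm_num)
      rw [h] at this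
      exact this
    choose g hg using h1
    refine not_injective_infinite_finite g fun i j hij => ?_
    have h2 : ‖(i : ℂ) - j‖ ≤ 1 / 2 := by
      have h3 := hg i
      have h4 := hg j
      rw [hij] at h3
      calc ‖(i : ℂ) - j‖ = ‖(N.p a (g j) - j) - (N.p a (g j) - i)‖ := by congr 1; ring
        _ ≤ _ := norm_sub_le _ _
        _ ≤ _ := by linarith
    have h5 : ((i : ℂ) - j) = (((i : ℤ) - j : ℤ) : ℂ) := by push_cast; ring
    rw [h5, Complex.norm_intCast] at h2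
    have h6 : |(i : ℤ) - j| < 1 := by
      have : ((|(i : ℤ) - j| : ℤ) : ℝ) < 1 := by rw [Int.cast_abs]; linarith
      exact_mod_cast this
    have := Int.abs_lt_one_iff.1 h6
    omega

/-- diagonal choice -/
theorem diag (S : ℕ → Set ℕ) (hS : ∀ i, S i ∈ (N.U : Filter ℕ)) :
    ∃ I : ℕ → ℕ, Tendsto I N.U atTop ∧ ∀ m, ∀ i < I m, m ∈ S i := by
  classical
  refine ⟨fun m => Nat.findGreatest (fun I => ∀ i < I, m ∈ S i) m, tendsto_atTop.2 fun k => ?_,
    fun m => ?_⟩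
  · have h1 : ∀ᶠ m in (N.U : Filter ℕ), ∀ i ∈ Finset.range k, m ∈ S i :=
      (Filter.eventually_all_finset _).2 fun i _ => hS i
    filter_upwards [h1, N.free (eventually_ge_atTop k)] with m h2 h3
    exact Nat.le_findGreatest h3 fun i hi => h2 i (Finset.mem_range.2 hi)
  · exact Nat.findGreatest_spec (P := fun I => ∀ i < I, m ∈ S i) (Nat.zero_le m)
      fun i hi => absurd hi (Nat.not_lt_zero i)

theorem en_eq (m : ℕ) (S : Set ℂ) (v : (N.M m).D → ℝ) :
    N.en m S v v = N.κ m * (N.M m).en (N.p m ⁻¹' S) v := by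
  unfold en FMap.en
  congr 2
  refine Finset.sum_congr rfl fun d _ => ?_
  by_cases h : N.In m S d
  · rw [if_pos h, if_pos (show d ∈ N.p m ⁻¹' S ∧ (N.M m).α d ∈ N.p m ⁻¹' S from h), sq]
    rfl
  · rw [if_neg h, if_neg (show ¬(d ∈ N.p m ⁻¹' S ∧ (N.M m).α d ∈ N.p m ⁻¹' S) from h)]

theorem en_nonneg (m : ℕ) (S : Set ℂ) (v : (N.M m).D → ℝ) : 0 ≤ N.en m S v v := by
  unfold en
  refine mul_nonneg (N.κ_pos m).le (mul_nonneg (by norm_num) (Finset.sum_nonneg fun d _ => ?_))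
  split_ifs
  · exact mul_self_nonneg _
  · exact le_rfl

theorem en_mono (m : ℕ) {S T : Set ℂ} (h : S ⊆ T) (v : (N.M m).D → ℝ) :
    N.en m S v v ≤ N.en m T v v := by
  unfold en
  refine mul_le_mul_of_nonneg_left (mul_le_mul_of_nonneg_left
    (Finset.sum_le_sum fun d _ => ?_) (by norm_num)) (N.κ_pos m).le
  by_cases h1 : N.In m S d
  · rw [if_pos h1, if_pos (show N.In m T d from ⟨h h1.1, h h1.2⟩)]
  · rw [if_neg h1]
    split_ifs
    · exact mul_self_nonneg _
    · exact le_rfl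

theorem en_le_of_dd (m : ℕ) (S : Set ℂ) {u v : (N.M m).D → ℝ}
    (h : ∀ d, N.In m S d → |N.dd m u d| ≤ |N.dd m v d|) : N.en m S u u ≤ N.en m S v v := by
  unfold en
  refine mul_le_mul_of_nonneg_left (mul_le_mul_of_nonneg_left
    (Finset.sum_le_sum fun d _ => ?_) (by norm_num)) (N.κ_pos m).le
  split_ifs with h1
  · exact abs_le_iff_mul_self_le.1 (h d h1)
  · exact le_rfl

theorem en_cs (m : ℕ) (S : Set ℂ) (u v : (N.M m).D → ℝ) :
    N.en m S u v ^ 2 ≤ N.en m S u u * N.en m S v v := by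
  classical
  have h := Finset.sum_mul_sq_le_sq_mul_sq Finset.univ
    (fun d => if N.In m S d then N.dd m u d else 0) (fun d => if N.In m S d then N.dd m v d else 0)
  have e : ∀ u v : (N.M m).D → ℝ, N.en m S u v = N.κ m / 2 *
      ∑ d, (if N.In m S d then N.dd m u d else 0) * (if N.In m S d then N.dd m v d else 0) := by
    intro u v
    unfold en
    rw [← mul_assoc, mul_one_div]
    congr 1
    refine Finset.sum_congr rfl fun d _ => ?_
    split_ifs <;> simp
  rw [e u v, e u u, e v v, mul_pow, mul_mul_mul_comm, ← sq]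
  simp only [← sq]
  exact mul_le_mul_of_nonneg_left h (sq_nonneg _)

theorem en_comm (m : ℕ) (S : Set ℂ) (u v : (N.M m).D → ℝ) : N.en m S u v = N.en m S v u := by
  unfold en
  simp only [mul_comm (N.dd m u _)]

theorem en_add_left (m : ℕ) (S : Set ℂ) (u u' v : (N.M m).D → ℝ) :
    N.en m S (fun d => u d + u' d) v = N.en m S u v + N.en m S u' v := by
  unfold en
  rw [← mul_add, ← mul_add, ← Finset.sum_add_distrib]
  congr 2
  refine Finset.sum_congr rfl fun d _ => ?_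
  split_ifs
  · unfold dd; ring
  · simp

theorem en_affine_left (m : ℕ) (S : Set ℂ) (u v : (N.M m).D → ℝ) (a b : ℝ) :
    N.en m S (fun d => a * u d + b) v = a * N.en m S u v := by
  unfold en
  rw [mul_left_comm a, mul_left_comm a, Finset.mul_sum Finset.univ _ a]
  congr 2
  refine Finset.sum_congr rfl fun d _ => ?_
  split_ifs
  · unfold dd; ring
  · simp

theorem en_sum_le (m : ℕ) {ι : Type} (J : Finset ι) (T : ι → Set ℂ) (S : Set ℂ)
    (hT : ∀ i ∈ J, T i ⊆ S) (hd : ∀ i ∈ J, ∀ j ∈ J, i ≠ j → Disjoint (T i) (T j))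
    (v : (N.M m).D → ℝ) : ∑ i ∈ J, N.en m (T i) v v ≤ N.en m S v v := by
  classical
  unfold en
  rw [← Finset.mul_sum, ← Finset.mul_sum, Finset.sum_comm]
  refine mul_le_mul_of_nonneg_left (mul_le_mul_of_nonneg_left
    (Finset.sum_le_sum fun d _ => ?_) (by norm_num)) (N.κ_pos m).le
  by_cases h : ∃ i ∈ J, N.In m (T i) d
  · obtain ⟨i, hi, h1⟩ := h
    rw [Finset.sum_eq_single_of_mem i hi, if_pos h1,
      if_pos (show N.In m S d from ⟨hT i hi h1.1, hT i hi h1.2⟩)]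
    intro j hj hji
    exact if_neg fun h2 => Set.disjoint_left.1 (hd j hj i hi hji) h2.1 h1.1
  · rw [Finset.sum_eq_zero fun i hi => if_neg fun h1 => h ⟨i, hi, h1⟩]
    split_ifs
    · exact mul_self_nonneg _
    · exact le_rfl

theorem nbasic_tendsto (g : ℕ → ℝ≥0∞) : Tendsto g N.U (𝓝 (liminf g N.U)) := by
  obtain ⟨x, -, hx⟩ := isCompact_univ.ultrafilter_le_nhds (N.U.map g) (by simp)
  have h : Tendsto g N.U (𝓝 x) := hx
  rwa [h.liminf_eq]

theorem nbasic_close_mono {m : ℕ} {v : (N.M m).D → ℝ} {f : ℂ → ℝ} {S T : Set ℂ} {η η' : ℝ}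
    (h : N.Close m v f T η) (hS : S ⊆ T) (hη : η ≤ η') : N.Close m v f S η' :=
  ⟨h.1, fun d hd => (h.2 d (hS hd)).trans hη⟩

theorem nbasic_F_nat (f : ℂ → ℝ) (S : Set ℂ) : N.F f S = ⨆ n : ℕ, liminf
    (fun m => ⨅ (v : (N.M m).D → ℝ) (_ : N.Close m v f S (1 / (n + 1))),
      ENNReal.ofReal (N.en m S v v)) N.U := by
  refine le_antisymm (iSup₂_le fun η hη => ?_) (iSup_le fun n => ?_)
  · obtain ⟨n, hn⟩ := exists_nat_one_div_lt hη
    refine le_iSup_of_le n (liminf_le_liminf (.of_forall fun m => ?_))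
    exact le_iInf₂ fun v hv => iInf₂_le v (N.nbasic_close_mono hv subset_rfl hn.le)
  · exact le_iSup₂_of_le (1 / ((n : ℝ) + 1)) Nat.one_div_pos_of_nat le_rfl

theorem F_le_iff (f : ℂ → ℝ) (S : Set ℂ) {M : ℝ} (hM : 0 ≤ M) :
    N.F f S ≤ ENNReal.ofReal M ↔ ∀ η > 0, ∀ ε > 0, ∀ᶠ m in (N.U : Filter ℕ),
      ∃ v, N.Close m v f S η ∧ N.en m S v v ≤ M + ε := by
  constructor
  · intro h η hη ε hε
    have h1 := (le_iSup₂_of_le η hη le_rfl).trans h
    have h2 : ENNReal.ofReal M < ENNReal.ofReal (M + ε) :=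
      (ENNReal.ofReal_lt_ofReal_iff (by linarith)).2 (by linarith)
    filter_upwards [(N.nbasic_tendsto _).eventually (gt_mem_nhds (h1.trans_lt h2))] with m hm
    obtain ⟨v, hv⟩ := iInf_lt_iff.1 hm
    obtain ⟨hc, hv⟩ := iInf_lt_iff.1 hv
    exact ⟨v, hc, ((ENNReal.ofReal_lt_ofReal_iff (by linarith)).1 hv).le⟩
  · intro h
    refine iSup₂_le fun η hη => ENNReal.le_of_forall_pos_le_add fun ε hε _ => ?_
    refine le_of_tendsto (N.nbasic_tendsto _) ?_
    filter_upwards [h η hη ε hε] with m hm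
    obtain ⟨v, hc, hv⟩ := hm
    refine (iInf₂_le v hc).trans ((ENNReal.ofReal_le_ofReal hv).trans ?_)
    exact ENNReal.ofReal_add_le.trans (by rw [ENNReal.ofReal_coe_nnreal])

theorem le_F_iff (f : ℂ → ℝ) (S : Set ℂ) (M : ℝ) :
    ENNReal.ofReal M ≤ N.F f S ↔ ∀ ε > 0, ∃ η > 0, ∀ᶠ m in (N.U : Filter ℕ),
      ∀ v, N.Close m v f S η → M - ε ≤ N.en m S v v := by
  constructor
  · intro h ε hε
    rcases le_or_gt M 0 with hM | hM
    · exact ⟨1, one_pos, .of_forall fun m v _ => by linarith [N.en_nonneg m S v]⟩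
    have h2 : ENNReal.ofReal (M - ε) < ENNReal.ofReal M :=
      (ENNReal.ofReal_lt_ofReal_iff hM).2 (by linarith)
    obtain ⟨η, h3⟩ := lt_iSup_iff.1 (h2.trans_le h)
    obtain ⟨hη, h3⟩ := lt_iSup_iff.1 h3
    refine ⟨η, hη, ?_⟩
    filter_upwards [(N.nbasic_tendsto _).eventually (lt_mem_nhds h3)] with m hm v hv
    exact (ENNReal.ofReal_le_ofReal_iff (N.en_nonneg m S v)).1 (hm.le.trans (iInf₂_le v hv))
  · intro h
    refine ENNReal.le_of_forall_pos_le_add fun ε hε _ => ?_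
    obtain ⟨η, hη, h1⟩ := h ε hε
    have h2 : ENNReal.ofReal (M - ε) ≤ N.F f S := by
      refine le_iSup₂_of_le η hη (ge_of_tendsto (N.nbasic_tendsto _) ?_)
      filter_upwards [h1] with m hm
      exact le_iInf₂ fun v hv => ENNReal.ofReal_le_ofReal (hm v hv)
    calc ENNReal.ofReal M = ENNReal.ofReal (M - ε + ε) := by rw [sub_add_cancel]
      _ ≤ ENNReal.ofReal (M - ε) + ENNReal.ofReal ε := ENNReal.ofReal_add_le
      _ ≤ _ := by rw [ENNReal.ofReal_coe_nnreal]; exact add_le_add h2 le_rfl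

theorem F_mono (f : ℂ → ℝ) {S T : Set ℂ} (h : S ⊆ T) : N.F f S ≤ N.F f T := by
  refine iSup₂_mono fun η _ => liminf_le_liminf (.of_forall fun m => ?_)
  exact le_iInf₂ fun v hv => (iInf₂_le v (N.nbasic_close_mono hv h le_rfl)).trans
    (ENNReal.ofReal_le_ofReal (N.en_mono m h v))

theorem F_congr {f g : ℂ → ℝ} {S : Set ℂ} (h : EqOn f g S) : N.F f S = N.F g S := by
  have e : ∀ m v η, N.Close m v f S η ↔ N.Close m v g S η := fun m v η =>
    and_congr_right fun _ => forall_congr' fun d => forall_congr' fun hd => by rw [h hd]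
  unfold F
  simp only [e]

theorem F_superadd (f : ℂ → ℝ) {ι : Type} (J : Finset ι) (T : ι → Set ℂ) (S : Set ℂ)
    (hT : ∀ i ∈ J, T i ⊆ S) (hd : ∀ i ∈ J, ∀ j ∈ J, i ≠ j → Disjoint (T i) (T j)) :
    ∑ i ∈ J, N.F f (T i) ≤ N.F f S := by
  simp only [N.nbasic_F_nat]
  rw [ENNReal.finsetSum_iSup_of_monotone]
  · refine iSup_mono fun n => ?_
    refine le_of_tendsto_of_tendsto' (tendsto_finsetSum J fun i _ => N.nbasic_tendsto _)
      (N.nbasic_tendsto _) fun m => le_iInf₂ fun v hv => ?_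
    refine le_trans (Finset.sum_le_sum fun i hi =>
      iInf₂_le v (N.nbasic_close_mono hv (hT i hi) le_rfl)) ?_
    rw [← ENNReal.ofReal_sum_of_nonneg fun i _ => N.en_nonneg m (T i) v]
    exact ENNReal.ofReal_le_ofReal (N.en_sum_le m J T S hT hd v)
  · intro i n n' hn
    refine liminf_le_liminf (.of_forall fun m => ?_)
    exact le_iInf₂ fun v hv =>
      iInf₂_le v (N.nbasic_close_mono hv subset_rfl (Nat.one_div_le_one_div hn))

theorem nbasic_affine (f : ℂ → ℝ) (S : Set ℂ) (a b : ℝ) (ha : a ≠ 0) :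
    N.F (fun z => a * f z + b) S ≤ ENNReal.ofReal (a ^ 2) * N.F f S := by
  have ha' : 0 < |a| := abs_pos.2 ha
  have h0 : ENNReal.ofReal (a ^ 2) ≠ 0 := by
    rw [ne_eq, ENNReal.ofReal_eq_zero, not_le]; positivity
  refine iSup₂_le fun η hη => le_trans ?_
    (mul_le_mul_right (le_iSup₂_of_le (η / |a|) (div_pos hη ha') le_rfl) _)
  refine le_of_tendsto_of_tendsto' (N.nbasic_tendsto _)
    (ENNReal.Tendsto.const_mul (N.nbasic_tendsto _) (.inr ENNReal.ofReal_ne_top)) fun m => ?_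
  rw [ENNReal.mul_iInf_of_ne h0 ENNReal.ofReal_ne_top]
  refine le_iInf fun v => ?_
  rw [ENNReal.mul_iInf_of_ne h0 ENNReal.ofReal_ne_top]
  refine le_iInf fun hv => ?_
  have hc : N.Close m (fun d => a * v d + b) (fun z => a * f z + b) S η := by
    refine ⟨fun d => ?_, fun d hd => ?_⟩
    · show a * v _ + b = a * v d + b
      rw [hv.1 d]
    · have h1 := hv.2 d hd
      rw [le_div_iff₀ ha'] at h1
      show |a * v d + b - (a * f (N.p m d) + b)| ≤ η
      rw [show a * v d + b - (a * f (N.p m d) + b) = (v d - f (N.p m d)) * a by ring, abs_mul]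
      exact h1
  refine iInf₂_le_of_le _ hc ?_
  rw [en_affine_left, en_comm, en_affine_left, ← ENNReal.ofReal_mul (sq_nonneg a), ← mul_assoc,
    ← sq]

theorem F_affine (f : ℂ → ℝ) (S : Set ℂ) (a b : ℝ) (ha : a ≠ 0) :
    N.F (fun z => a * f z + b) S = ENNReal.ofReal (a ^ 2) * N.F f S := by
  refine le_antisymm (N.nbasic_affine f S a b ha) ?_
  have h := N.nbasic_affine (fun z => a * f z + b) S a⁻¹ (-(b / a)) (inv_ne_zero ha)
  have e : (fun z => a⁻¹ * (a * f z + b) + -(b / a)) = f := by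
    funext z; field_simp; ring
  rw [e] at h
  refine (mul_le_mul_right h _).trans (le_of_eq ?_)
  rw [← mul_assoc, ← ENNReal.ofReal_mul (sq_nonneg a), ← mul_pow, mul_inv_cancel₀ ha, one_pow,
    ENNReal.ofReal_one, one_mul]

/-- recovery sequences -/
theorem recovery (f : ℂ → ℝ) (S : Set ℂ) {M : ℝ} (hM : 0 ≤ M) (h : N.F f S ≤ ENNReal.ofReal M) :
    ∃ v : ∀ m, (N.M m).D → ℝ, N.Conv v f S ∧
      ∀ ε > 0, ∀ᶠ m in (N.U : Filter ℕ), N.en m S (v m) (v m) ≤ M + ε := by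
  obtain ⟨I, hI, hI'⟩ := N.diag
    (fun i => {m | ∃ v, N.Close m v f S (1 / (i + 1)) ∧ N.en m S v v ≤ M + 1 / (i + 1)})
    fun i => (N.F_le_iff f S hM).1 h _ Nat.one_div_pos_of_nat _ Nat.one_div_pos_of_nat
  have h1 : ∀ m, ∃ v : (N.M m).D → ℝ, ∀ i, I m = i + 1 →
      N.Close m v f S (1 / (i + 1)) ∧ N.en m S v v ≤ M + 1 / (i + 1) := by
    intro m
    rcases Nat.eq_zero_or_pos (I m) with h0 | h0
    · exact ⟨0, fun i hi => by omega⟩
    · obtain ⟨v, hv⟩ := hI' m (I m - 1) (by omega)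
      refine ⟨v, fun i hi => ?_⟩
      rwa [show I m - 1 = i by omega] at hv
  choose v hv using h1
  have h2 : ∀ η > 0, ∀ᶠ m in (N.U : Filter ℕ),
      N.Close m (v m) f S η ∧ N.en m S (v m) (v m) ≤ M + η := by
    intro η hη
    obtain ⟨n, hn⟩ := exists_nat_one_div_lt hη
    filter_upwards [hI.eventually (eventually_gt_atTop n)] with m hm
    obtain ⟨h3, h4⟩ := hv m (I m - 1) (by omega)
    have h5 : (1 : ℝ) / ((I m - 1 : ℕ) + 1) ≤ η :=
      (Nat.one_div_le_one_div (by omega)).trans hn.le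
    exact ⟨N.nbasic_close_mono h3 subset_rfl h5, by linarith⟩
  exact ⟨v, fun η hη => (h2 η hη).mono fun m h => h.1, fun ε hε => (h2 ε hε).mono fun m h => h.2⟩

end FNet

end Pool.Agent.QL
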