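import Mathlib

/-! Monotone functions with square-integrable difference quotients: oscillation bound,
differentiability almost everywhere, constancy when the gradient is killed. -/

open MeasureTheory Set Filter Topology Metric
open scoped ENNReal

namespace Pool.Agent.QL

/-- closed rectangle -/
def crect (x₀ x₁ y₀ y₁ : ℝ) : Set ℂ := {z | z.re ∈ Icc x₀ x₁ ∧ z.im ∈ Icc y₀ y₁}

/-- open rectangle -/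
def orect (x₀ x₁ y₀ y₁ : ℝ) : Set ℂ := {z | z.re ∈ Ioo x₀ x₁ ∧ z.im ∈ Ioo y₀ y₁}

/-- difference quotient bound on all closed rectangles inside `O` -/
def DQ (u : ℂ → ℝ) (Γ : Measure ℂ) (a : ℝ) (O : Set ℂ) : Prop :=
  ∀ x₀ x₁ y₀ y₁ : ℝ, x₀ < x₁ → y₀ < y₁ → crect x₀ x₁ y₀ y₁ ⊆ O →
    ∫ y in y₀..y₁, (u ⟨x₁, y⟩ - u ⟨x₀, y⟩) ^ 2 ≤ a * (x₁ - x₀) * Γ.real (crect x₀ x₁ y₀ y₁) ∧
    ∫ x in x₀..x₁, (u ⟨x, y₁⟩ - u ⟨x, y₀⟩) ^ 2 ≤ a * (y₁ - y₀) * Γ.real (crect x₀ x₁ y₀ y₁)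

/-- maximum and minimum principle on all closed rectangles inside `O` -/
def Mono (u : ℂ → ℝ) (O : Set ℂ) : Prop :=
  ∀ x₀ x₁ y₀ y₁ : ℝ, x₀ < x₁ → y₀ < y₁ → crect x₀ x₁ y₀ y₁ ⊆ O → ∀ z ∈ crect x₀ x₁ y₀ y₁,
    (∃ w ∈ crect x₀ x₁ y₀ y₁ \ orect x₀ x₁ y₀ y₁, u z ≤ u w) ∧
    ∃ w ∈ crect x₀ x₁ y₀ y₁ \ orect x₀ x₁ y₀ y₁, u w ≤ u z

end Pool.Agent.QL
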