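import Pool.Agent.P.MP_7a6434d8_pr.QL.KGDefs

open MeasureTheory Set Filter Topology Metric
open scoped ENNReal

namespace Pool.Agent.QL

theorem kgo_tel (g : ℕ → ℝ) (N : ℕ) :
    ∑ i ∈ Finset.range N, (g (i + 2) - g i) = g (N + 1) + g N - g 1 - g 0 := by
  induction N with
  | zero => simp
  | succ n ih => rw [Finset.sum_range_succ, ih]; ring

theorem kgo_cs (v : ℕ → ℝ) (N i j : ℕ) (hij : i ≤ j) (hj : j ≤ N) :
    (v j - v i) ^ 2 ≤ N * ∑ k ∈ Finset.range N, (v (k + 1) - v k) ^ 2 := by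
  have h1 : v j - v i = ∑ k ∈ Finset.Ico i j, (v (k + 1) - v k) := by
    rw [Finset.sum_Ico_sub _ hij]
  have h2 : (∑ k ∈ Finset.Ico i j, (v (k + 1) - v k)) ^ 2 ≤
      (Finset.Ico i j).card * ∑ k ∈ Finset.Ico i j, (v (k + 1) - v k) ^ 2 :=
    sq_sum_le_card_mul_sum_sq
  have h3 : ∑ k ∈ Finset.Ico i j, (v (k + 1) - v k) ^ 2 ≤
      ∑ k ∈ Finset.range N, (v (k + 1) - v k) ^ 2 := by
    refine Finset.sum_le_sum_of_subset_of_nonneg ?_ (fun _ _ _ => sq_nonneg _)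
    intro k hk
    rw [Finset.mem_Ico] at hk
    exact Finset.mem_range.2 (by omega)
  have h4 : ((Finset.Ico i j).card : ℝ) ≤ N := by
    rw [Nat.card_Ico]; exact_mod_cast (by omega : j - i ≤ N)
  rw [h1]
  refine h2.trans ?_
  exact mul_le_mul h4 h3 (Finset.sum_nonneg fun _ _ => sq_nonneg _) (Nat.cast_nonneg _)

theorem kgo_grid {x₀ x₁ δ p : ℝ} {N : ℕ} (hδ : 0 < δ) (hN : x₀ + N * δ = x₁)
    (hp : p ∈ Icc x₀ x₁) : ∃ i : ℕ, i ≤ N ∧ |p - (x₀ + i * δ)| ≤ δ := by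
  have h0 : 0 ≤ (p - x₀) / δ := div_nonneg (by linarith [hp.1]) hδ.le
  refine ⟨⌊(p - x₀) / δ⌋₊, ?_, ?_⟩
  · have : (p - x₀) / δ ≤ N := by
      rw [div_le_iff₀ hδ]; linarith [hp.2]
    exact_mod_cast (Nat.floor_le h0).trans this
  · have h1 := Nat.floor_le h0
    have h2 := Nat.lt_floor_add_one ((p - x₀) / δ)
    rw [le_div_iff₀ hδ] at h1
    rw [div_lt_iff₀ hδ] at h2
    rw [abs_le]; constructor <;> nlinarith

theorem kgo_line (f : ℝ → ℝ → ℝ) {x₀ x₁ y₀ y₁ a G ε : ℝ} (hx : x₀ < x₁) (hy : y₀ < y₁)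
    (ha : 0 ≤ a) (hε : 0 < ε)
    (hf : ContinuousOn (fun w : ℝ × ℝ => f w.1 w.2) (Icc x₀ x₁ ×ˢ Icc y₀ y₁))
    (g : ℝ → ℝ) (hg0 : ∀ t, 0 ≤ g t) (hgG : ∀ t, g t ≤ G)
    (hq : ∀ p' p q, p' < p → x₀ ≤ p → p < q → q ≤ x₁ →
      ∫ y in y₀..y₁, (f q y - f p y) ^ 2 ≤ a * (q - p) * (g q - g p')) :
    ∃ y ∈ Icc y₀ y₁, ∀ p ∈ Icc x₀ x₁, ∀ q ∈ Icc x₀ x₁,
      |f p y - f q y| ≤ √(2 * a * (x₁ - x₀) * G / (y₁ - y₀)) + 2 * ε := by
  have hK : IsCompact (Icc x₀ x₁ ×ˢ Icc y₀ y₁) := isCompact_Icc.prod isCompact_Icc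
  obtain ⟨η, hη, huc⟩ := Metric.uniformContinuousOn_iff.1
    (hK.uniformContinuousOn_of_continuous hf) ε hε
  obtain ⟨N, hN⟩ := exists_nat_gt ((x₁ - x₀) / η)
  have hL : 0 < x₁ - x₀ := by linarith
  have hNpos : (0 : ℝ) < N := lt_trans (div_pos hL hη) hN
  set δ : ℝ := (x₁ - x₀) / N with hδdef
  have hδ : 0 < δ := div_pos hL hNpos
  have hNδ : (N : ℝ) * δ = x₁ - x₀ := by rw [hδdef]; field_simp
  have hδη : δ < η := by
    rw [div_lt_iff₀ hη] at hN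
    rw [hδdef, div_lt_iff₀ hNpos]; linarith
  have hmem : ∀ i : ℕ, i ≤ N → x₀ + i * δ ∈ Icc x₀ x₁ := by
    intro i hi
    have h1 : (i : ℝ) ≤ N := by exact_mod_cast hi
    have h2 : (0 : ℝ) ≤ i := Nat.cast_nonneg _
    constructor <;> nlinarith
  have hsl : ∀ p ∈ Icc x₀ x₁, ContinuousOn (fun y => f p y) (Icc y₀ y₁) := by
    intro p hp
    exact hf.comp (Continuous.prodMk_right p).continuousOn (fun y hy => ⟨hp, hy⟩)
  set T : ℕ → ℝ → ℝ := fun k y => (f (x₀ + ((k + 1 : ℕ) : ℝ) * δ) y - f (x₀ + k * δ) y) ^ 2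
    with hT
  have hTc : ∀ k ∈ Finset.range N, ContinuousOn (T k) (Icc y₀ y₁) := by
    intro k hk
    have hk' := Finset.mem_range.1 hk
    exact ((hsl _ (hmem (k + 1) hk')).sub (hsl _ (hmem k hk'.le))).pow 2
  have hSc : ContinuousOn (fun y => ∑ k ∈ Finset.range N, T k y) (Icc y₀ y₁) :=
    continuousOn_finsetSum _ hTc
  obtain ⟨y, hyI, hmin⟩ := isCompact_Icc.exists_isMinOn (nonempty_Icc.2 hy.le) hSc
  have hTi : ∀ k ∈ Finset.range N, IntervalIntegrable (T k) volume y₀ y₁ := by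
    intro k hk
    exact (hTc k hk).intervalIntegrable_of_Icc hy.le
  have hint : ∫ t in y₀..y₁, ∑ k ∈ Finset.range N, T k t ≤ a * δ * (2 * G) := by
    rw [intervalIntegral.integral_finsetSum hTi]
    have h1 : ∀ k ∈ Finset.range N, ∫ t in y₀..y₁, T k t ≤
        a * δ * (g (x₀ + (((k + 2 : ℕ) : ℝ) - 1) * δ) - g (x₀ + ((k : ℝ) - 1) * δ)) := by
      intro k hk
      have hk' := Finset.mem_range.1 hk
      have h := hq (x₀ + ((k : ℝ) - 1) * δ) (x₀ + k * δ) (x₀ + ((k + 1 : ℕ) : ℝ) * δ)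
        (by nlinarith) (hmem k hk'.le).1 (by push_cast; nlinarith) (hmem (k + 1) hk').2
      have e1 : x₀ + ((k + 1 : ℕ) : ℝ) * δ - (x₀ + k * δ) = δ := by push_cast; ring
      have e2 : x₀ + (((k + 2 : ℕ) : ℝ) - 1) * δ = x₀ + ((k + 1 : ℕ) : ℝ) * δ := by
        push_cast; ring
      rw [e1] at h
      rw [e2]
      exact h
    refine (Finset.sum_le_sum h1).trans ?_
    rw [← Finset.mul_sum, kgo_tel (fun k => g (x₀ + ((k : ℝ) - 1) * δ)) N]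
    refine mul_le_mul_of_nonneg_left ?_ (mul_nonneg ha hδ.le)
    have a1 := hgG (x₀ + (((N + 1 : ℕ) : ℝ) - 1) * δ)
    have a2 := hgG (x₀ + ((N : ℝ) - 1) * δ)
    have a3 := hg0 (x₀ + (((1 : ℕ) : ℝ) - 1) * δ)
    have a4 := hg0 (x₀ + (((0 : ℕ) : ℝ) - 1) * δ)
    linarith
  have hlow : (y₁ - y₀) * ∑ k ∈ Finset.range N, T k y ≤
      ∫ t in y₀..y₁, ∑ k ∈ Finset.range N, T k t := by
    have h1 : ∫ _ in y₀..y₁, (∑ k ∈ Finset.range N, T k y) ≤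
        ∫ t in y₀..y₁, ∑ k ∈ Finset.range N, T k t :=
      intervalIntegral.integral_mono_on hy.le intervalIntegrable_const
        (hSc.intervalIntegrable_of_Icc hy.le) (fun t ht => hmin ht)
    simpa using h1
  have hH : 0 < y₁ - y₀ := by linarith
  have hS : (N : ℝ) * ∑ k ∈ Finset.range N, T k y ≤ 2 * a * (x₁ - x₀) * G / (y₁ - y₀) := by
    rw [le_div_iff₀ hH, ← hNδ]
    have := mul_le_mul_of_nonneg_left (hlow.trans hint) hNpos.le
    nlinarith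
  have hgrid : ∀ i j : ℕ, i ≤ N → j ≤ N → |f (x₀ + i * δ) y - f (x₀ + j * δ) y| ≤
      √(2 * a * (x₁ - x₀) * G / (y₁ - y₀)) := by
    intro i j hi hj
    refine Real.abs_le_sqrt ?_
    rcases le_total i j with h | h
    · have := (kgo_cs (fun k => f (x₀ + k * δ) y) N i j h hj).trans hS
      calc _ = (f (x₀ + j * δ) y - f (x₀ + i * δ) y) ^ 2 := by ring
        _ ≤ _ := this
    · exact (kgo_cs (fun k => f (x₀ + k * δ) y) N j i h hi).trans hS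
  have hnear : ∀ p ∈ Icc x₀ x₁, ∃ i : ℕ, i ≤ N ∧ |f p y - f (x₀ + i * δ) y| ≤ ε := by
    intro p hp
    obtain ⟨i, hi, hpi⟩ := kgo_grid hδ (by linarith : x₀ + N * δ = x₁) hp
    refine ⟨i, hi, ?_⟩
    have := huc (p, y) ⟨hp, hyI⟩ (x₀ + i * δ, y) ⟨hmem i hi, hyI⟩ (by
      rw [Prod.dist_eq, dist_self, Real.dist_eq]
      exact max_lt (lt_of_le_of_lt hpi hδη) hη)
    rw [Real.dist_eq] at this
    exact this.le
  refine ⟨y, hyI, fun p hp q hq' => ?_⟩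
  obtain ⟨i, hi, h1⟩ := hnear p hp
  obtain ⟨j, hj, h2⟩ := hnear q hq'
  have h3 := hgrid i j hi hj
  rw [abs_le] at h1 h2 h3 ⊢
  constructor <;> linarith [h1.1, h1.2, h2.1, h2.2, h3.1, h3.2]

theorem kgo_sub (z : ℂ) {s : ℝ} (hs : 0 < s) {w : ℂ} (h1 : w.re ∈ Icc (z.re - 2 * s) (z.re + 2 * s))
    (h2 : w.im ∈ Icc (z.im - 2 * s) (z.im + 2 * s)) : w ∈ closedBall z (3 * s) := by
  rw [mem_closedBall, Complex.dist_eq_re_im]
  refine Real.sqrt_le_iff.2 ⟨by linarith, ?_⟩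
  have a1 : (w.re - z.re) ^ 2 ≤ (2 * s) ^ 2 := sq_le_sq' (by linarith [h1.1]) (by linarith [h1.2])
  have a2 : (w.im - z.im) ^ 2 ≤ (2 * s) ^ 2 := sq_le_sq' (by linarith [h2.1]) (by linarith [h2.2])
  nlinarith

theorem kgo_meas {Γ : Measure ℂ} [IsFiniteMeasure Γ] {B R : Set ℂ} (φ : ℂ → ℝ)
    (hR : MeasurableSet R) (hRB : R ⊆ B) {p' q : ℝ} (hpq : p' ≤ q)
    (h1 : ∀ w ∈ R, p' < φ w) (h2 : ∀ w ∈ R, φ w ≤ q) :
    Γ.real R ≤ Γ.real (B ∩ {w | φ w ≤ q}) - Γ.real (B ∩ {w | φ w ≤ p'}) := by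
  have hd : Disjoint (B ∩ {w | φ w ≤ p'}) R := by
    rw [Set.disjoint_left]
    intro w hw hwR
    exact absurd (h1 w hwR) (not_lt.2 hw.2)
  have hu := measureReal_union (μ := Γ) hd hR
  have hs : (B ∩ {w | φ w ≤ p'}) ∪ R ⊆ B ∩ {w | φ w ≤ q} := by
    rintro w (hw | hw)
    · exact ⟨hw.1, le_trans hw.2 hpq⟩
    · exact ⟨hRB hw, h2 w hw⟩
  have := measureReal_mono (μ := Γ) hs
  linarith

theorem kgo_crect_meas (x₀ x₁ y₀ y₁ : ℝ) : MeasurableSet (crect x₀ x₁ y₀ y₁) :=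
  (Complex.measurable_re measurableSet_Icc).inter (Complex.measurable_im measurableSet_Icc)

theorem kgo_mk_cont : Continuous (fun w : ℝ × ℝ => (⟨w.1, w.2⟩ : ℂ)) :=
  Complex.equivRealProdCLM.symm.continuous

theorem kgo_hor {u : ℂ → ℝ} {Γ : Measure ℂ} [IsFiniteMeasure Γ] {a : ℝ} {O : Set ℂ} (ha : 0 ≤ a)
    (hu : ContinuousOn u O) (hq : DQ u Γ a O) (z : ℂ) (s : ℝ) (hs : 0 < s)
    (hO : closedBall z (3 * s) ⊆ O) {ε : ℝ} (hε : 0 < ε) (y₀ : ℝ) (h0 : z.im - 2 * s ≤ y₀)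
    (h1 : y₀ + s ≤ z.im + 2 * s) :
    ∃ y ∈ Icc y₀ (y₀ + s), ∀ p ∈ Icc (z.re - 2 * s) (z.re + 2 * s),
      ∀ q ∈ Icc (z.re - 2 * s) (z.re + 2 * s),
      |u ⟨p, y⟩ - u ⟨q, y⟩| ≤ √(8 * a * Γ.real (closedBall z (3 * s))) + 2 * ε := by
  have key := kgo_line (fun p y => u ⟨p, y⟩) (x₀ := z.re - 2 * s) (x₁ := z.re + 2 * s)
    (y₀ := y₀) (y₁ := y₀ + s) (a := a) (G := Γ.real (closedBall z (3 * s))) (ε := ε)
    (by linarith) (by linarith) ha hε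
    (hu.comp kgo_mk_cont.continuousOn (fun w hw => hO (kgo_sub z hs hw.1
      ⟨le_trans h0 hw.2.1, le_trans hw.2.2 h1⟩)))
    (fun t => Γ.real (closedBall z (3 * s) ∩ {w | w.re ≤ t})) (fun _ => measureReal_nonneg)
    (fun _ => measureReal_mono inter_subset_left)
    (fun p' p q hp' hp hpq hq' => by
      have hsub : crect p q y₀ (y₀ + s) ⊆ closedBall z (3 * s) := fun w hw =>
        kgo_sub z hs ⟨le_trans hp hw.1.1, le_trans hw.1.2 hq'⟩
          ⟨le_trans h0 hw.2.1, le_trans hw.2.2 h1⟩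
      refine (hq p q y₀ (y₀ + s) hpq (by linarith) (hsub.trans hO)).1.trans ?_
      refine mul_le_mul_of_nonneg_left ?_ (mul_nonneg ha (by linarith))
      exact kgo_meas Complex.re (kgo_crect_meas _ _ _ _) hsub (by linarith)
        (fun w hw => lt_of_lt_of_le hp' hw.1.1) (fun w hw => hw.1.2))
  have e : 2 * a * (z.re + 2 * s - (z.re - 2 * s)) * Γ.real (closedBall z (3 * s)) /
      (y₀ + s - y₀) = 8 * a * Γ.real (closedBall z (3 * s)) := by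
    have : y₀ + s - y₀ = s := by ring
    rw [this]; field_simp; ring
  rwa [e] at key

theorem kgo_ver {u : ℂ → ℝ} {Γ : Measure ℂ} [IsFiniteMeasure Γ] {a : ℝ} {O : Set ℂ} (ha : 0 ≤ a)
    (hu : ContinuousOn u O) (hq : DQ u Γ a O) (z : ℂ) (s : ℝ) (hs : 0 < s)
    (hO : closedBall z (3 * s) ⊆ O) {ε : ℝ} (hε : 0 < ε) (x₀ : ℝ) (h0 : z.re - 2 * s ≤ x₀)
    (h1 : x₀ + s ≤ z.re + 2 * s) :
    ∃ x ∈ Icc x₀ (x₀ + s), ∀ p ∈ Icc (z.im - 2 * s) (z.im + 2 * s),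
      ∀ q ∈ Icc (z.im - 2 * s) (z.im + 2 * s),
      |u ⟨x, p⟩ - u ⟨x, q⟩| ≤ √(8 * a * Γ.real (closedBall z (3 * s))) + 2 * ε := by
  have key := kgo_line (fun p x => u ⟨x, p⟩) (x₀ := z.im - 2 * s) (x₁ := z.im + 2 * s)
    (y₀ := x₀) (y₁ := x₀ + s) (a := a) (G := Γ.real (closedBall z (3 * s))) (ε := ε)
    (by linarith) (by linarith) ha hε
    (hu.comp (kgo_mk_cont.comp continuous_swap).continuousOn (fun w hw => hO (kgo_sub z hs
      ⟨le_trans h0 hw.2.1, le_trans hw.2.2 h1⟩ hw.1)))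
    (fun t => Γ.real (closedBall z (3 * s) ∩ {w | w.im ≤ t})) (fun _ => measureReal_nonneg)
    (fun _ => measureReal_mono inter_subset_left)
    (fun p' p q hp' hp hpq hq' => by
      have hsub : crect x₀ (x₀ + s) p q ⊆ closedBall z (3 * s) := fun w hw =>
        kgo_sub z hs ⟨le_trans h0 hw.1.1, le_trans hw.1.2 h1⟩
          ⟨le_trans hp hw.2.1, le_trans hw.2.2 hq'⟩
      refine (hq x₀ (x₀ + s) p q (by linarith) hpq (hsub.trans hO)).2.trans ?_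
      refine mul_le_mul_of_nonneg_left ?_ (mul_nonneg ha (by linarith))
      exact kgo_meas Complex.im (kgo_crect_meas _ _ _ _) hsub (by linarith)
        (fun w hw => lt_of_lt_of_le hp' hw.2.1) (fun w hw => hw.2.2))
  have e : 2 * a * (z.im + 2 * s - (z.im - 2 * s)) * Γ.real (closedBall z (3 * s)) /
      (x₀ + s - x₀) = 8 * a * Γ.real (closedBall z (3 * s)) := by
    have : x₀ + s - x₀ = s := by ring
    rw [this]; field_simp; ring
  rwa [e] at key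

/-- Oscillation bound. -/
theorem kg_osc {u : ℂ → ℝ} {Γ : Measure ℂ} [IsFiniteMeasure Γ] {a : ℝ} {O : Set ℂ} (ha : 0 ≤ a)
    (hu : ContinuousOn u O) (hq : DQ u Γ a O) (hm : Mono u O) (z : ℂ) (s : ℝ) (hs : 0 < s)
    (hO : closedBall z (3 * s) ⊆ O) (x y : ℂ) (hx : x ∈ closedBall z s) (hy : y ∈ closedBall z s) :
    (u x - u y) ^ 2 ≤ 128 * a * Γ.real (closedBall z (3 * s)) := by
  set K : ℝ := √(8 * a * Γ.real (closedBall z (3 * s))) with hK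
  have hE : 0 ≤ 8 * a * Γ.real (closedBall z (3 * s)) :=
    mul_nonneg (by linarith) measureReal_nonneg
  have main : ∀ ε : ℝ, 0 < ε → |u x - u y| ≤ 4 * K + 8 * ε := by
    intro ε hε
    obtain ⟨yT, hyT, hT⟩ := kgo_hor ha hu hq z s hs hO hε (z.im + s) (by linarith) (by linarith)
    obtain ⟨yB, hyB, hB⟩ := kgo_hor ha hu hq z s hs hO hε (z.im - 2 * s) le_rfl (by linarith)
    obtain ⟨xR, hxR, hR⟩ := kgo_ver ha hu hq z s hs hO hε (z.re + s) (by linarith) (by linarith)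
    obtain ⟨xL, hxL, hL⟩ := kgo_ver ha hu hq z s hs hO hε (z.re - 2 * s) le_rfl (by linarith)
    have mxL : xL ∈ Icc (z.re - 2 * s) (z.re + 2 * s) := ⟨hxL.1, by linarith [hxL.2]⟩
    have mxR : xR ∈ Icc (z.re - 2 * s) (z.re + 2 * s) := ⟨by linarith [hxR.1], by linarith [hxR.2]⟩
    have myB : yB ∈ Icc (z.im - 2 * s) (z.im + 2 * s) := ⟨hyB.1, by linarith [hyB.2]⟩
    have myT : yT ∈ Icc (z.im - 2 * s) (z.im + 2 * s) := ⟨by linarith [hyT.1], by linarith [hyT.2]⟩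
    have hsub : crect xL xR yB yT ⊆ O := fun w hw => hO (kgo_sub z hs
      ⟨le_trans mxL.1 hw.1.1, le_trans hw.1.2 mxR.2⟩ ⟨le_trans myB.1 hw.2.1, le_trans hw.2.2 myT.2⟩)
    have hin : ∀ w ∈ closedBall z s, w ∈ crect xL xR yB yT := by
      intro w hw
      rw [mem_closedBall, dist_eq_norm] at hw
      have a1 := (Complex.abs_re_le_norm (w - z)).trans hw
      have a2 := (Complex.abs_im_le_norm (w - z)).trans hw
      rw [Complex.sub_re, abs_le] at a1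
      rw [Complex.sub_im, abs_le] at a2
      exact ⟨⟨by linarith [hxL.2, a1.1], by linarith [hxR.1, a1.2]⟩,
        ⟨by linarith [hyB.2, a2.1], by linarith [hyT.1, a2.2]⟩⟩
    have hbd : ∀ w ∈ crect xL xR yB yT \ orect xL xR yB yT,
        |u w - u ⟨xL, yB⟩| ≤ 2 * (K + 2 * ε) := by
      rintro ⟨p, q⟩ ⟨⟨hp, hq'⟩, hn⟩
      have hK0 : 0 ≤ K := Real.sqrt_nonneg _
      have mp : p ∈ Icc (z.re - 2 * s) (z.re + 2 * s) := ⟨le_trans mxL.1 hp.1, le_trans hp.2 mxR.2⟩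
      have mq : q ∈ Icc (z.im - 2 * s) (z.im + 2 * s) :=
        ⟨le_trans myB.1 hq'.1, le_trans hq'.2 myT.2⟩
      have hcase : p = xL ∨ p = xR ∨ q = yB ∨ q = yT := by
        by_contra hc
        push Not at hc
        exact hn ⟨⟨lt_of_le_of_ne hp.1 (Ne.symm hc.1), lt_of_le_of_ne hp.2 hc.2.1⟩,
          ⟨lt_of_le_of_ne hq'.1 (Ne.symm hc.2.2.1), lt_of_le_of_ne hq'.2 hc.2.2.2⟩⟩
      rcases hcase with h | h | h | h
      · subst h
        have := hL q mq yB myB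
        linarith
      · subst h
        have b1 := hR q mq yB myB
        have b2 := hB p mp xL mxL
        rw [abs_le] at b1 b2 ⊢
        constructor <;> linarith [b1.1, b1.2, b2.1, b2.2]
      · subst h
        have := hB p mp xL mxL
        linarith
      · subst h
        have b1 := hT p mp xL mxL
        have b2 := hL q mq yB myB
        rw [abs_le] at b1 b2 ⊢
        constructor <;> linarith [b1.1, b1.2, b2.1, b2.2]
    have hxx : xL < xR := by linarith [hxL.2, hxR.1]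
    have hyy : yB < yT := by linarith [hyB.2, hyT.1]
    obtain ⟨⟨w1, hw1, e1⟩, w2, hw2, e2⟩ := hm xL xR yB yT hxx hyy hsub x (hin x hx)
    obtain ⟨⟨w3, hw3, e3⟩, w4, hw4, e4⟩ := hm xL xR yB yT hxx hyy hsub y (hin y hy)
    have c1 := hbd w1 hw1
    have c2 := hbd w2 hw2
    have c3 := hbd w3 hw3
    have c4 := hbd w4 hw4
    rw [abs_le] at c1 c2 c3 c4 ⊢
    constructor <;> linarith [c1.1, c1.2, c2.1, c2.2, c3.1, c3.2, c4.1, c4.2]
  have h4 : |u x - u y| ≤ 4 * K := by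
    refine le_of_forall_pos_le_add fun ε hε => ?_
    have := main (ε / 8) (by linarith)
    linarith
  have hK2 : K ^ 2 = 8 * a * Γ.real (closedBall z (3 * s)) := Real.sq_sqrt hE
  calc (u x - u y) ^ 2 = |u x - u y| ^ 2 := (sq_abs _).symm
    _ ≤ (4 * K) ^ 2 := pow_le_pow_left₀ (abs_nonneg _) h4 2
    _ = 128 * a * Γ.real (closedBall z (3 * s)) := by rw [mul_pow, hK2]; ring

end Pool.Agent.QL
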