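import Pool.Agent.P.MP_7a6434d8_pr.QL.NPath

open MeasureTheory Set Filter Topology Metric
open scoped ENNReal

namespace Pool.Agent.QL

open Pool.Agent.LGD

theorem ncross_compact (x₀ x₁ y₀ y₁ : ℝ) : IsCompact (crect x₀ x₁ y₀ y₁) :=
  (isCompact_Icc (a := x₀) (b := x₁)).reProdIm (isCompact_Icc (a := y₀) (b := y₁))

theorem ncross_convex (x₀ x₁ y₀ y₁ : ℝ) : Convex ℝ (crect x₀ x₁ y₀ y₁) :=
  ((convex_Icc x₀ x₁).linear_preimage Complex.reLm).inter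
    ((convex_Icc y₀ y₁).linear_preimage Complex.imLm)

/-- three sides of a rectangle: top, the vertical side at `s`, bottom -/
def ncrossRoute (u v s l h : ℝ) : Set ℂ := crect u v h h ∪ crect s s l h ∪ crect u v l l

theorem ncross_route_compact (u v s l h : ℝ) : IsCompact (ncrossRoute u v s l h) :=
  ((ncross_compact _ _ _ _).union (ncross_compact _ _ _ _)).union (ncross_compact _ _ _ _)

theorem ncross_route_conn {u v s l h : ℝ} (hs : s ∈ Icc u v) (hl : l ≤ h) :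
    IsPreconnected (ncrossRoute u v s l h) := by
  refine IsPreconnected.union (⟨s, l⟩ : ℂ) (Or.inr ⟨⟨le_rfl, le_rfl⟩, le_rfl, hl⟩)
    ⟨hs, le_rfl, le_rfl⟩ ?_ (ncross_convex _ _ _ _).isPreconnected
  exact IsPreconnected.union (⟨s, h⟩ : ℂ) ⟨hs, le_rfl, le_rfl⟩ ⟨⟨le_rfl, le_rfl⟩, hl, le_rfl⟩
    (ncross_convex _ _ _ _).isPreconnected (ncross_convex _ _ _ _).isPreconnected

theorem ncross_coord {z w : ℂ} {η : ℝ} (h : ‖z - w‖ ≤ η) :
    (w.re - η ≤ z.re ∧ z.re ≤ w.re + η) ∧ w.im - η ≤ z.im ∧ z.im ≤ w.im + η := by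
  have h1 := abs_le.1 ((Complex.abs_re_le_norm (z - w)).trans h)
  have h2 := abs_le.1 ((Complex.abs_im_le_norm (z - w)).trans h)
  simp only [Complex.sub_re, Complex.sub_im] at h1 h2
  refine ⟨⟨?_, ?_⟩, ?_, ?_⟩ <;> linarith [h1.1, h1.2, h2.1, h2.2]

theorem ncross_thick {u v l h η : ℝ} {z : ℂ} (hz : z ∈ thickening η (crect u v l h)) :
    (u - η ≤ z.re ∧ z.re ≤ v + η) ∧ l - η ≤ z.im ∧ z.im ≤ h + η := by
  obtain ⟨w, ⟨⟨a1, a2⟩, a3, a4⟩, hw⟩ := mem_thickening_iff.1 hz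
  rw [dist_eq_norm] at hw
  obtain ⟨⟨b1, b2⟩, b3, b4⟩ := ncross_coord hw.le
  refine ⟨⟨?_, ?_⟩, ?_, ?_⟩ <;> linarith

theorem ncross_route_thick {u v s l h η : ℝ} {z : ℂ}
    (hz : z ∈ thickening η (ncrossRoute u v s l h)) :
    ((u - η ≤ z.re ∧ z.re ≤ v + η) ∧ h - η ≤ z.im ∧ z.im ≤ h + η) ∨
    ((s - η ≤ z.re ∧ z.re ≤ s + η) ∧ l - η ≤ z.im ∧ z.im ≤ h + η) ∨
    ((u - η ≤ z.re ∧ z.re ≤ v + η) ∧ l - η ≤ z.im ∧ z.im ≤ l + η) := by
  rw [ncrossRoute, thickening_union, thickening_union] at hz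
  rcases hz with (hz | hz) | hz
  · exact Or.inl (ncross_thick hz)
  · exact Or.inr (Or.inl (ncross_thick hz))
  · exact Or.inr (Or.inr (ncross_thick hz))

namespace FNet

variable (N : FNet)

/-- the intersection count behind the crossing lemma -/
theorem ncross_abs (m : ℕ) (τ w JA JB : (N.M m).D → ℝ) (hτ : Inv (N.M m).φ τ)
    (hw : Inv (N.M m).σ w) (hA : ∀ x, JA ((N.M m).α x) = -JA x)
    (hB : ∀ x, JB ((N.M m).α x) = -JB x)
    (hAB : ∀ g, Inv (N.M m).φ g → ∑ x, JA x * g x = ∑ x, JB x * g x)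
    (hc : ∑ x, JB x * τ x ≠ 0)
    (K2 : ∀ x, JA x ≠ 0 → τ ((N.M m).α x) ≠ τ x → w x = 0)
    (K3 : ∀ x, JB x ≠ 0 → τ ((N.M m).α x) ≠ τ x → w x = 1)
    (Z : Set (N.M m).D) (K1 : ∀ x, τ ((N.M m).α x) ≠ τ x → w ((N.M m).α x) ≠ w x → x ∈ Z)
    (hZ : ∀ F, Inv (N.M m).σ F → (∀ x, JA x = 0 → JB x = 0 → F ((N.M m).α x) = F x) →
      ∀ d ∈ Z, ∀ e ∈ Z, F d = F e) : False := by
  set α := (N.M m).α with hα
  have hαα : ∀ x, α (α x) = x := (N.M m).α_α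
  obtain ⟨F, hF, hJ⟩ := (N.M m).hodge (fun x => JA x - JB x)
    (fun x => by rw [hA, hB]; ring)
    (fun g hg => by
      simp only [sub_mul, Finset.sum_sub_distrib]
      rw [hAB g hg, sub_self])
  have hZ' := hZ F hF fun x h1 h2 => by
    have := hJ x
    rw [h1, h2] at this
    linarith
  obtain ⟨F0, hF0⟩ : ∃ F0, ∀ d ∈ Z, F d = F0 := by
    rcases Z.eq_empty_or_nonempty with h | ⟨e, he⟩
    · exact ⟨0, by simp [h]⟩
    · exact ⟨F e, fun d hd => hZ' d hd e he⟩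
  have e1 : ∑ x, (τ (α x) - τ x) * (w x * (F x - F0)) = 0 :=
    N.div_grad m τ (fun x => w x * (F x - F0)) hτ fun x => by
      show w _ * (F _ - F0) = _
      rw [hw x, hF x]
  have e2 : ∑ x, (τ (α x) - τ x) * (w x * (F (α x) - F0)) =
      -∑ x, (τ (α x) - τ x) * (w x * (F x - F0)) := by
    rw [← Equiv.sum_comp α, ← Finset.sum_neg_distrib]
    refine Finset.sum_congr rfl fun x _ => ?_
    rw [hαα]
    by_cases h1 : τ (α x) = τ x
    · rw [h1]; ring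
    by_cases h2 : w (α x) = w x
    · rw [h2]; ring
    rw [hF0 x (K1 x h1 h2)]; ring
  have e3 : ∑ x, (τ (α x) - τ x) * (w x * (JA x - JB x)) = 0 := by
    have : ∀ x, (τ (α x) - τ x) * (w x * (JA x - JB x)) =
        (τ (α x) - τ x) * (w x * (F (α x) - F0)) - (τ (α x) - τ x) * (w x * (F x - F0)) := by
      intro x
      rw [hJ x]; ring
    simp only [this, Finset.sum_sub_distrib]
    rw [e2, e1]; ring
  have e4 : ∀ x, (τ (α x) - τ x) * (w x * (JA x - JB x)) = JB x * τ x - JB x * τ (α x) := by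
    intro x
    by_cases h1 : τ (α x) = τ x
    · rw [h1]; ring
    by_cases h2 : JA x = 0
    · by_cases h3 : JB x = 0
      · rw [h2, h3]; ring
      · rw [h2, K3 x h3 h1]; ring
    · by_cases h3 : JB x = 0
      · rw [h3, K2 x h2 h1]; ring
      · have := K2 x h2 h1
        rw [K3 x h3 h1] at this
        exact absurd this one_ne_zero
  have e5 : ∑ x, JB x * τ (α x) = -∑ x, JB x * τ x := by
    rw [← Equiv.sum_comp α, ← Finset.sum_neg_distrib]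
    refine Finset.sum_congr rfl fun x _ => ?_
    rw [hαα, hB]; ring
  simp only [e4, Finset.sum_sub_distrib] at e3
  rw [e5] at e3
  exact hc (by linarith)

theorem ncross_inv_cycle {D : Type} [Finite D] {π : Equiv.Perm D} {F : D → ℝ} (hF : Inv π F)
    {x y : D} (h : π.SameCycle x y) : F y = F x := by
  obtain ⟨i, rfl⟩ := h.exists_nat_pow_eq
  clear h
  induction i with
  | zero => rfl
  | succ i ih => rw [pow_succ', Equiv.Perm.mul_apply, hF, ih]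

theorem cut_cross_one {x₀ x₁ y₀ y₁ η : ℝ} (hη : 0 < η) (hx : 1000 * η < x₁ - x₀)
    (hy : 1000 * η < y₁ - y₀) : ∀ᶠ m in (N.U : Filter ℕ), ∀ T : Set (N.M m).D,
      (∀ d, (N.M m).φ d ∈ T ↔ d ∈ T) →
      (∀ d, N.p m d ∈ orect x₀ x₁ (y₁ - 100 * η) y₁ → d ∈ T) →
      (∀ d, N.p m d ∈ orect x₀ x₁ y₀ (y₀ + 100 * η) → d ∉ T) →
      N.Lnk m (fun d => N.In m (orect x₀ x₁ y₀ y₁) d ∧ ¬ (d ∈ T ↔ (N.M m).α d ∈ T))
        (orect x₀ (x₀ + 100 * η) y₀ y₁) (orect (x₁ - 100 * η) x₁ y₀ y₁) := by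
  classical
  set xm := (x₀ + x₁) / 2 with hxm
  set h := y₁ - 75 * η with hh
  set l := y₀ + 25 * η with hl
  set xr := x₁ - 50 * η with hxr
  set xl := x₀ + 50 * η with hxl
  have hlh : l ≤ h := by linarith
  have hmr : xm ≤ xr := by linarith
  have hlm : xl ≤ xm := by linarith
  obtain ⟨ηA, hηA, tA⟩ := N.dual.track (ncross_route_compact xm xr xr l h)
    (ncross_route_conn ⟨hmr, le_rfl⟩ hlh) hη
  obtain ⟨ηB, hηB, tB⟩ := N.dual.track (ncross_route_compact xl xm xl l h)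
    (ncross_route_conn ⟨le_rfl, hlm⟩ hlh) hη
  obtain ⟨ηZ, hηZ, tZ⟩ := N.track (ncross_compact (xm - 2 * η) (xm + 2 * η) (y₁ - 30 * η) (y₁ - 20 * η))
    (ncross_convex _ _ _ _).isPreconnected hη
  set e0 := min η (min ηA ηB) / 2 with he0
  have he0p : 0 < e0 := by positivity
  have e0η : e0 < η := by have := min_le_left η (min ηA ηB); linarith
  have e0A : e0 < ηA := by
    have := (min_le_right η (min ηA ηB)).trans (min_le_left ηA ηB)
    linarith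
  have e0B : e0 < ηB := by
    have := (min_le_right η (min ηA ηB)).trans (min_le_right ηA ηB)
    linarith
  filter_upwards [tA, tB, tZ, N.mesh (|x₀| + |x₁| + |y₀| + |y₁|) η hη,
    N.dense ⟨xm, h⟩ e0 he0p, N.dense ⟨xm, l⟩ e0 he0p] with m tA tB tZ hmesh ⟨a, ha⟩ ⟨b, hb⟩
  intro T hT htop hbot
  by_contra hno
  set α := (N.M m).α with hα
  set σ := (N.M m).σ with hσ
  set φ := (N.M m).φ with hφ
  set p := N.p m with hp
  have hαα : ∀ x, α (α x) = x := (N.M m).α_α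
  set R := orect x₀ x₁ y₀ y₁ with hR
  have near : ∀ d e, p d ∈ R → (N.M m).Adj d e →
      ((p d).re - η ≤ (p e).re ∧ (p e).re ≤ (p d).re + η) ∧
        (p d).im - η ≤ (p e).im ∧ (p e).im ≤ (p d).im + η := by
    intro d e hd hde
    refine ncross_coord (hmesh d e ?_ hde)
    obtain ⟨⟨a1, a2⟩, a3, a4⟩ := hd
    refine (Complex.norm_le_abs_re_add_abs_im _).trans ?_
    have b1 : |(p d).re| ≤ |x₀| + |x₁| := abs_le.2 ⟨by
      linarith [neg_abs_le x₀, abs_nonneg x₁], by linarith [le_abs_self x₁, abs_nonneg x₀]⟩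
    have b2 : |(p d).im| ≤ |y₀| + |y₁| := abs_le.2 ⟨by
      linarith [neg_abs_le y₀, abs_nonneg y₁], by linarith [le_abs_self y₁, abs_nonneg y₀]⟩
    linarith
  set G : (N.M m).D → Prop := fun d => N.In m R d ∧ ¬ (d ∈ T ↔ α d ∈ T) with hG
  have Gheight : ∀ d, G d → (p (α d)).im ≤ y₁ - 99 * η ∧ (p d).im ≤ y₁ - 99 * η := by
    rintro d ⟨⟨h1, h2⟩, h3⟩
    have n1 := near d (α d) h1 (Or.inl rfl)
    have low : ∀ e, p e ∈ R → e ∉ T → (p e).im ≤ y₁ - 100 * η := fun e he hn => by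
      by_contra hc
      exact hn (htop e ⟨he.1, not_le.1 hc, he.2.2⟩)
    by_cases hd : d ∈ T
    · have := low (α d) h2 fun h' => h3 ⟨fun _ => h', fun _ => hd⟩
      constructor <;> linarith [n1.2.1]
    · have := low d h1 hd
      constructor <;> linarith [n1.2.2]
  set R1 := orect (x₀ + 25 * η) (x₁ - 25 * η) (y₀ + 50 * η) (y₁ - 25 * η) with hR1
  have R1R : ∀ z ∈ R1, z ∈ R := by
    rintro z ⟨⟨a1, a2⟩, a3, a4⟩
    refine ⟨⟨?_, ?_⟩, ?_, ?_⟩ <;> linarith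
  set T' : Set (N.M m).D := {d | d ∈ T ∧ ∀ e, φ.SameCycle d e → p e ∈ R1} with hT'
  have T'inv : ∀ d, φ d ∈ T' ↔ d ∈ T' := fun d =>
    and_congr (hT d) (forall_congr' fun e => by rw [Equiv.Perm.sameCycle_apply_left])
  have T'R1 : ∀ d ∈ T', p d ∈ R1 := fun d hd => hd.2 d (Equiv.Perm.SameCycle.refl _ _)
  have T'in : ∀ d ∈ T, x₀ + 26 * η < (p d).re → (p d).re < x₁ - 26 * η →
      y₀ + 51 * η < (p d).im → (p d).im < y₁ - 26 * η → d ∈ T' := by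
    intro d hd a1 a2 a3 a4
    refine ⟨hd, fun e he => ?_⟩
    obtain ⟨⟨b1, b2⟩, b3, b4⟩ := near d e (by refine ⟨⟨?_, ?_⟩, ?_, ?_⟩ <;> linarith)
      (Or.inr (Or.inl he))
    refine ⟨⟨?_, ?_⟩, ?_, ?_⟩ <;> linarith
  set τ : (N.M m).D → ℝ := fun d => if d ∈ T' then 1 else 0 with hτ
  -- description of the edges where `τ` jumps
  have jump0 : ∀ d, d ∈ T' → α d ∉ T' →
      ((x₀ + 24 * η ≤ (p (α d)).re ∧ (p (α d)).re ≤ x₁ - 24 * η) ∧
        y₀ + 49 * η ≤ (p (α d)).im ∧ (p (α d)).im ≤ y₁ - 24 * η) ∧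
      (α d ∉ T ∨ (p (α d)).re ≤ x₀ + 26 * η ∨ x₁ - 26 * η ≤ (p (α d)).re ∨
        y₁ - 26 * η ≤ (p (α d)).im) := by
    intro d hd hn
    obtain ⟨⟨a1, a2⟩, a3, a4⟩ := T'R1 d hd
    obtain ⟨⟨b1, b2⟩, b3, b4⟩ := near d (α d) (R1R _ (T'R1 d hd)) (Or.inl rfl)
    refine ⟨by refine ⟨⟨?_, ?_⟩, ?_, ?_⟩ <;> linarith, ?_⟩
    by_contra hc
    push Not at hc
    obtain ⟨c1, c2, c3, c4⟩ := hc
    refine hn (T'in _ c1 c2 c3 ?_ c4)
    by_contra c5
    refine hbot (α d) ⟨⟨?_, ?_⟩, ?_, ?_⟩ c1 <;> linarith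
  have jump : ∀ d, τ (α d) ≠ τ d →
      (p d ∈ R ∧ p (α d) ∈ R) ∧ y₀ + 49 * η ≤ (p d).im ∧ (p d).im ≤ y₁ - 24 * η ∧
      (G d ∨ ((p d).re ≤ x₀ + 27 * η ∧ (p (α d)).re ≤ x₀ + 27 * η) ∨ x₁ - 27 * η ≤ (p d).re ∨
        (y₁ - 27 * η ≤ (p d).im ∧ y₁ - 27 * η ≤ (p (α d)).im)) := by
    intro d hd
    by_cases h1 : d ∈ T'
    · have h2 : α d ∉ T' := fun h2 => hd (by simp only [hτ, if_pos h1, if_pos h2])
      obtain ⟨⟨⟨a1, a2⟩, a3, a4⟩, a5⟩ := jump0 d h1 h2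
      have hdR := R1R _ (T'R1 d h1)
      obtain ⟨⟨c1, c2⟩, c3, c4⟩ := T'R1 d h1
      obtain ⟨⟨b1, b2⟩, b3, b4⟩ := near d (α d) hdR (Or.inl rfl)
      have hαR : p (α d) ∈ R := by refine ⟨⟨?_, ?_⟩, ?_, ?_⟩ <;> linarith
      refine ⟨⟨hdR, hαR⟩, by linarith, by linarith, ?_⟩
      rcases a5 with a5 | a5 | a5 | a5
      · exact Or.inl ⟨⟨hdR, hαR⟩, fun h' => a5 (h'.1 h1.1)⟩
      · exact Or.inr (Or.inl ⟨by linarith, by linarith⟩)
      · exact Or.inr (Or.inr (Or.inl (by linarith)))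
      · exact Or.inr (Or.inr (Or.inr ⟨by linarith, by linarith⟩))
    · have h2 : α d ∈ T' := by
        by_contra h2
        exact hd (by simp only [hτ, if_neg h1, if_neg h2])
      have := jump0 (α d) h2 (by rwa [hαα])
      rw [hαα] at this
      obtain ⟨⟨⟨a1, a2⟩, a3, a4⟩, a5⟩ := this
      have hαR := R1R _ (T'R1 _ h2)
      have hdR : p d ∈ R := by refine ⟨⟨?_, ?_⟩, ?_, ?_⟩ <;> linarith
      obtain ⟨⟨b1, b2⟩, b3, b4⟩ := near d (α d) hdR (Or.inl rfl)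
      refine ⟨⟨hdR, hαR⟩, a3, a4, ?_⟩
      rcases a5 with a5 | a5 | a5 | a5
      · exact Or.inl ⟨⟨hdR, hαR⟩, fun h' => a5 (h'.2 h2.1)⟩
      · exact Or.inr (Or.inl ⟨by linarith, by linarith⟩)
      · exact Or.inr (Or.inr (Or.inl (by linarith)))
      · exact Or.inr (Or.inr (Or.inr ⟨by linarith, by linarith⟩))
  set W1 : Set (N.M m).D := {d | ∃ e, p e ∈ orect x₀ (x₀ + 100 * η) y₀ y₁ ∧
    Relation.ReflTransGen (N.Step m G) e d} with hW1
  set W2 : Set (N.M m).D := {d | ∃ e, σ.SameCycle e d ∧ p e ∈ orect x₀ xm (y₁ - 50 * η) y₁}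
    with hW2
  have W1left : ∀ d, p d ∈ R → (p d).re < x₀ + 100 * η → d ∈ W1 := fun d hd h' =>
    ⟨d, ⟨⟨hd.1.1, h'⟩, hd.2⟩, Relation.ReflTransGen.refl⟩
  have W1right : ∀ d ∈ W1, p d ∈ R → (p d).re ≤ x₁ - 100 * η := by
    rintro d ⟨e, he, hed⟩ hd
    by_contra hc
    exact hno ⟨e, d, he, ⟨⟨not_le.1 hc, hd.1.2⟩, hd.2⟩, hed⟩
  have W1step : ∀ d ∈ W1, ∀ e, N.Step m G d e → e ∈ W1 := by
    rintro d ⟨c, hc, hcd⟩ e hs
    exact ⟨c, hc, hcd.tail hs⟩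
  have W1inv : ∀ d ∈ W1, (p d).re ≤ x₀ + 101 * η ∨ (p d).im ≤ y₁ - 98 * η := by
    rintro d ⟨c, hc, hcd⟩
    have : ∃ e, σ.SameCycle e d ∧ p e ∈ R ∧
        ((p e).re ≤ x₀ + 100 * η ∨ (p e).im ≤ y₁ - 99 * η) := by
      induction hcd with
      | refl =>
        exact ⟨c, Equiv.Perm.SameCycle.refl _ _, ⟨⟨hc.1.1, by linarith [hc.1.2]⟩, hc.2⟩,
          Or.inl hc.1.2.le⟩
      | tail _ hs ih =>
        rcases hs with ⟨rfl, hg⟩ | hs
        · exact ⟨_, Equiv.Perm.SameCycle.refl _ _, hg.1.2, Or.inr (Gheight _ hg).1⟩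
        · obtain ⟨e, h1, h2⟩ := ih
          exact ⟨e, h1.trans hs, h2⟩
    obtain ⟨e, h1, h2, h3⟩ := this
    obtain ⟨⟨b1, b2⟩, b3, b4⟩ := near e d h2 (Or.inr (Or.inr h1))
    rcases h3 with h3 | h3
    · exact Or.inl (by linarith)
    · exact Or.inr (by linarith)
  have W2inv : ∀ d ∈ W2, (p d).re ≤ xm + η ∧ y₁ - 51 * η ≤ (p d).im := by
    rintro d ⟨e, h1, ⟨a1, a2⟩, a3, a4⟩
    obtain ⟨⟨b1, b2⟩, b3, b4⟩ := near e d (by refine ⟨⟨?_, ?_⟩, ?_, ?_⟩ <;> linarith)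
      (Or.inr (Or.inr h1))
    constructor <;> linarith
  set w : (N.M m).D → ℝ := fun d => if d ∈ W1 ∪ W2 then 1 else 0 with hw
  have Winv : ∀ d, σ d ∈ W1 ∪ W2 ↔ d ∈ W1 ∪ W2 := by
    intro d
    have s1 : σ.SameCycle d (σ d) := by
      rw [Equiv.Perm.sameCycle_apply_right]
    constructor
    · rintro (h1 | ⟨e, h1, h2⟩)
      · exact Or.inl (W1step _ h1 _ (Or.inr s1.symm))
      · exact Or.inr ⟨e, h1.trans s1.symm, h2⟩
    · rintro (h1 | ⟨e, h1, h2⟩)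
      · exact Or.inl (W1step _ h1 _ (Or.inr s1))
      · exact Or.inr ⟨e, h1.trans s1, h2⟩
  have exit : ∀ d, τ (α d) ≠ τ d → d ∈ W1 ∪ W2 → α d ∉ W1 ∪ W2 →
      (xm ≤ (p (α d)).re ∧ (p d).re ≤ xm + η) ∧ y₁ - 27 * η ≤ (p d).im ∧
        y₁ - 27 * η ≤ (p (α d)).im := by
    intro d hj h1 h2
    obtain ⟨⟨hdR, hαR⟩, a1, a2, a3⟩ := jump d hj
    obtain ⟨⟨b1, b2⟩, b3, b4⟩ := near d (α d) hdR (Or.inl rfl)
    rcases a3 with a3 | a3 | a3 | a3
    · exfalso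
      rcases h1 with h1 | h1
      · exact h2 (Or.inl (W1step _ h1 _ (Or.inl ⟨rfl, a3⟩)))
      · linarith [(W2inv d h1).2, (Gheight d a3).2]
    · exact absurd (Or.inl (W1left _ hαR (by linarith [a3.2]))) h2
    · exfalso
      rcases h1 with h1 | h1
      · linarith [W1right d h1 hdR]
      · linarith [(W2inv d h1).1]
    · have c1 : xm ≤ (p (α d)).re := by
        by_contra hc
        exact h2 (Or.inr ⟨α d, Equiv.Perm.SameCycle.refl _ _,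
          ⟨hαR.1.1, not_le.1 hc⟩, by linarith [a3.2], hαR.2.2⟩)
      refine ⟨⟨c1, ?_⟩, a3⟩
      rcases h1 with h1 | h1
      · rcases W1inv d h1 with c2 | c2
        · linarith
        · linarith [a3.1]
      · exact (W2inv d h1).1
  obtain ⟨⟨a1, a2⟩, a3, a4⟩ := ncross_coord ha
  obtain ⟨⟨b1, b2⟩, b3, b4⟩ := ncross_coord hb
  simp only at a1 a2 a3 a4 b1 b2 b3 b4
  have haT : a ∈ T' := by
    refine T'in a (htop a ⟨⟨?_, ?_⟩, ?_, ?_⟩) ?_ ?_ ?_ ?_ <;> linarith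
  have hbT : b ∉ T' := fun h' => by linarith [(T'R1 b h').2.1]
  have mem : ∀ (d : (N.M m).D) (z : ℂ) (S : Set ℂ) (ε : ℝ), z ∈ S → ‖p d - z‖ ≤ e0 → e0 < ε →
      p d ∈ thickening ε S := fun d z S ε h1 h2 h3 =>
    mem_thickening_iff.2 ⟨z, h1, by rw [dist_eq_norm]; exact h2.trans_lt h3⟩
  obtain ⟨JA, hA, sA, fA⟩ := N.dual.path_flow m _ (tA a b
    (mem a _ _ _ (Or.inl (Or.inl ⟨⟨le_rfl, hmr⟩, le_rfl, le_rfl⟩)) ha e0A)
    (mem b _ _ _ (Or.inr ⟨⟨le_rfl, hmr⟩, le_rfl, le_rfl⟩) hb e0A))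
  obtain ⟨JB, hB, sB, fB⟩ := N.dual.path_flow m _ (tB a b
    (mem a _ _ _ (Or.inl (Or.inl ⟨⟨hlm, le_rfl⟩, le_rfl, le_rfl⟩)) ha e0B)
    (mem b _ _ _ (Or.inr ⟨⟨hlm, le_rfl⟩, le_rfl, le_rfl⟩) hb e0B))
  have sA' : ∀ x : (N.M m).D, JA x ≠ 0 → p x ∈ thickening η (ncrossRoute xm xr xr l h) := by
    intro x hx
    rcases sA x hx with h' | h'
    · exact h'.1
    · have := h'.2
      change p (α (α x)) ∈ _ at this
      rwa [hαα] at this
  have sB' : ∀ x : (N.M m).D, JB x ≠ 0 → p x ∈ thickening η (ncrossRoute xl xm xl l h) := by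
    intro x hx
    rcases sB x hx with h' | h'
    · exact h'.1
    · have := h'.2
      change p (α (α x)) ∈ _ at this
      rwa [hαα] at this
  have hτi : Inv φ τ := fun d => by simp only [hτ, T'inv]
  refine N.ncross_abs m τ w JA JB hτi (fun d => by simp only [hw]; exact if_congr (Winv d) rfl rfl)
    hA hB (fun g hg => (fA g hg).trans (fB g hg).symm) ?_ ?_ ?_
    {d | p d ∈ crect (xm - 2 * η) (xm + 2 * η) (y₁ - 30 * η) (y₁ - 20 * η)} ?_ ?_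
  · have := fB τ hτi
    change ∑ x : (N.M m).D, JB x * τ x = _ at this
    rw [this]
    simp only [hτ, if_pos haT, if_neg hbT]
    norm_num
  · intro x hx hj
    obtain ⟨⟨hdR, -⟩, c1, c2, c3⟩ := jump x hj
    refine if_neg ?_
    rcases ncross_route_thick (sA' x hx) with ⟨⟨d1, d2⟩, d3, d4⟩ | ⟨⟨d1, d2⟩, d3, d4⟩ |
      ⟨⟨d1, d2⟩, d3, d4⟩
    · exfalso
      rcases c3 with c3 | c3 | c3 | c3
      · linarith [(Gheight x c3).2]
      · linarith [c3.1]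
      · linarith
      · linarith [c3.1]
    · rintro (h1 | h1)
      · linarith [W1right x h1 hdR]
      · linarith [(W2inv x h1).1]
    · exfalso
      linarith
  · intro x hx hj
    obtain ⟨⟨hdR, -⟩, c1, c2, c3⟩ := jump x hj
    refine if_pos ?_
    rcases ncross_route_thick (sB' x hx) with ⟨⟨d1, d2⟩, d3, d4⟩ | ⟨⟨d1, d2⟩, d3, d4⟩ |
      ⟨⟨d1, d2⟩, d3, d4⟩
    · exfalso
      rcases c3 with c3 | c3 | c3 | c3
      · linarith [(Gheight x c3).2]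
      · linarith [c3.1]
      · linarith
      · linarith [c3.1]
    · exact Or.inl (W1left x hdR (by linarith))
    · exfalso
      linarith
  · intro x hj hwx
    obtain ⟨⟨hdR, -⟩, c1, c2, -⟩ := jump x hj
    obtain ⟨⟨d1, d2⟩, d3, d4⟩ := near x (α x) hdR (Or.inl rfl)
    by_cases h1 : x ∈ W1 ∪ W2
    · have h2 : α x ∉ W1 ∪ W2 := fun h2 => hwx (by
        show (if α x ∈ W1 ∪ W2 then (1 : ℝ) else 0) = if x ∈ W1 ∪ W2 then 1 else 0
        rw [if_pos h1, if_pos h2])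
      obtain ⟨⟨f1, f2⟩, f3, f4⟩ := exit x hj h1 h2
      refine ⟨⟨?_, ?_⟩, ?_, ?_⟩ <;> linarith
    · have h2 : α x ∈ W1 ∪ W2 := by
        by_contra h2
        exact hwx (by
          show (if α x ∈ W1 ∪ W2 then (1 : ℝ) else 0) = if x ∈ W1 ∪ W2 then 1 else 0
          rw [if_neg h1, if_neg h2])
      have := exit (α x) (by rw [hαα]; exact hj.symm) h2 (by rwa [hαα])
      rw [hαα] at this
      obtain ⟨⟨f1, f2⟩, f3, f4⟩ := this
      refine ⟨⟨?_, ?_⟩, ?_, ?_⟩ <;> linarith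
  · intro F hF hJ d hd e he
    have path := tZ d e (self_subset_thickening hηZ _ hd) (self_subset_thickening hηZ _ he)
    clear he
    induction path with
    | refl => rfl
    | @tail c c' _ hs ih =>
      rw [ih]
      rcases hs with ⟨rfl, hg⟩ | hs
      · obtain ⟨-, g1, -⟩ := ncross_thick hg.1
        have up : ∀ {u v s : ℝ}, p c ∉ thickening η (ncrossRoute u v s l h) := by
          intro u v s h'
          rcases ncross_route_thick h' with ⟨-, -, d4⟩ | ⟨-, -, d4⟩ | ⟨-, -, d4⟩ <;> linarith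
        refine (hJ c ?_ ?_).symm
        · by_contra hc
          exact up (sA' c hc)
        · by_contra hc
          exact up (sB' c hc)
      · exact (ncross_inv_cycle hF hs).symm

/-- the net in rotated coordinates -/
def ncrossRot {ζ : ℂ} (hζ : ‖ζ‖ = 1) : FNet where
  U := N.U
  M := N.M
  p m d := ζ * N.p m d
  κ := N.κ
  κ_pos := N.κ_pos
  mesh R η hη := (N.mesh R η hη).mono fun m h d e hd ha => by
    rw [← mul_sub, norm_mul, hζ, one_mul]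
    rw [norm_mul, hζ, one_mul] at hd
    exact h d e hd ha
  dense x η hη := (N.dense (ζ⁻¹ * x) η hη).mono fun m ⟨d, hd⟩ => ⟨d, by
    have h0 : ζ ≠ 0 := fun h => by simp [h] at hζ
    have : ζ * N.p m d - x = ζ * (N.p m d - ζ⁻¹ * x) := by field_simp
    rw [this, norm_mul, hζ, one_mul]
    exact hd⟩
  lift R η hη := by
    obtain ⟨η', h1, h2⟩ := N.lift R η hη
    refine ⟨η', h1, h2.mono fun m h d d' hd hd' => ?_⟩
    simp only [← mul_sub, norm_mul, hζ, one_mul] at hd hd' ⊢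
    exact h d d' hd hd'

/-- every face set containing the top strip and avoiding the bottom strip has a left-right
crossing along its boundary (coordinates `ζ z`) -/
theorem cut_cross {ζ : ℂ} (hζ : ‖ζ‖ = 1) {x₀ x₁ y₀ y₁ δ : ℝ} (hx : x₀ < x₁) (hy : y₀ < y₁)
    (hδ : 0 < δ) : ∀ᶠ m in (N.U : Filter ℕ), ∀ T : Set (N.M m).D,
      (∀ d, (N.M m).φ d ∈ T ↔ d ∈ T) →
      (∀ d, ζ * N.p m d ∈ orect x₀ x₁ (y₁ - δ) y₁ → d ∈ T) →
      (∀ d, ζ * N.p m d ∈ orect x₀ x₁ y₀ (y₀ + δ) → d ∉ T) →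
      N.Lnk m (fun d => N.In m {z | ζ * z ∈ orect x₀ x₁ y₀ y₁} d ∧ ¬ (d ∈ T ↔ (N.M m).α d ∈ T))
        {z | ζ * z ∈ orect x₀ (x₀ + δ) y₀ y₁} {z | ζ * z ∈ orect (x₁ - δ) x₁ y₀ y₁} := by
  set η := min δ (min (x₁ - x₀) (y₁ - y₀)) / 2000 with hη
  have h1 := min_le_left δ (min (x₁ - x₀) (y₁ - y₀))
  have h2 := (min_le_right δ (min (x₁ - x₀) (y₁ - y₀))).trans (min_le_left _ _)
  have h3 := (min_le_right δ (min (x₁ - x₀) (y₁ - y₀))).trans (min_le_right _ _)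
  have h0 : 0 < min δ (min (x₁ - x₀) (y₁ - y₀)) :=
    lt_min hδ (lt_min (sub_pos.2 hx) (sub_pos.2 hy))
  have hηp : 0 < η := by positivity
  have hδ' : 100 * η ≤ δ := by linarith
  filter_upwards [(N.ncrossRot hζ).cut_cross_one (x₀ := x₀) (x₁ := x₁) (y₀ := y₀) (y₁ := y₁) hηp
    (by linarith) (by linarith)] with m hm T hT htop hbot
  obtain ⟨d, e, hd, he, hde⟩ := hm T hT
    (fun d hd => htop d ⟨hd.1, lt_of_le_of_lt (by linarith) hd.2.1, hd.2.2⟩)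
    (fun d hd => hbot d ⟨hd.1, hd.2.1, lt_of_lt_of_le hd.2.2 (by linarith)⟩)
  exact ⟨d, e, ⟨⟨hd.1.1, lt_of_lt_of_le hd.1.2 (by linarith)⟩, hd.2⟩,
    ⟨⟨lt_of_le_of_lt (by linarith) he.1.1, he.1.2⟩, he.2⟩, hde⟩

end FNet

end Pool.Agent.QL
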