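import Pool.Agent.P.MP_7a6434d8_pr.QL.NBasic

open MeasureTheory Set Filter Topology Metric
open scoped ENNReal

namespace Pool.Agent.QL

open Pool.Agent.LGD

/-- an open box for two coordinate functions -/
def nlimB (f g : ℂ → ℝ) (s₀ s₁ t₀ t₁ : ℝ) : Set ℂ := {z | f z ∈ Ioo s₀ s₁ ∧ g z ∈ Ioo t₀ t₁}

theorem nlim_compact (x₀ x₁ y₀ y₁ : ℝ) : IsCompact (crect x₀ x₁ y₀ y₁) :=
  Metric.isCompact_of_isClosed_isBounded (isClosed_Icc.reProdIm isClosed_Icc)
    ((isBounded_Icc x₀ x₁).reProdIm (isBounded_Icc y₀ y₁))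

namespace FNet

variable (N : FNet)

open Classical in
/-- weight of a dart -/
noncomputable def nlimW (m : ℕ) (S : Set ℂ) (v : (N.M m).D → ℝ) (d : (N.M m).D) : ℝ :=
  if N.In m S d then N.κ m * (1 / 2 * (N.dd m v d * N.dd m v d)) else 0

theorem nlim_nonneg (m : ℕ) (S : Set ℂ) (v : (N.M m).D → ℝ) (d : (N.M m).D) :
    0 ≤ N.nlimW m S v d := by
  unfold nlimW
  split_ifs
  · exact mul_nonneg (N.κ_pos m).le (mul_nonneg (by norm_num) (mul_self_nonneg _))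
  · exact le_rfl

theorem nlim_en (m : ℕ) (S : Set ℂ) (v : (N.M m).D → ℝ) :
    ENNReal.ofReal (N.en m S v v) = ∑ d, ENNReal.ofReal (N.nlimW m S v d) := by
  rw [← ENNReal.ofReal_sum_of_nonneg fun d _ => N.nlim_nonneg m S v d]
  simp only [en, nlimW, Finset.mul_sum, mul_ite, mul_zero]

/-- the energy measure -/
noncomputable def nlimM (m : ℕ) (S : Set ℂ) (v : (N.M m).D → ℝ) : Measure ℂ :=
  ∑ d, ENNReal.ofReal (N.nlimW m S v d) • Measure.dirac (N.p m d)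

theorem nlim_apply (m : ℕ) (S : Set ℂ) (v : (N.M m).D → ℝ) (A : Set ℂ) :
    N.nlimM m S v A = ∑ d, ENNReal.ofReal (N.nlimW m S v d) * A.indicator 1 (N.p m d) := by
  simp only [nlimM, Measure.finsetSum_apply, Measure.smul_apply, Measure.dirac_apply, smul_eq_mul]

theorem nlim_univ (m : ℕ) (S : Set ℂ) (v : (N.M m).D → ℝ) :
    N.nlimM m S v univ = ENNReal.ofReal (N.en m S v v) := by
  simp only [nlim_apply, nlim_en, indicator_univ, Pi.one_apply, mul_one]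

/-- limit of the energy measures -/
theorem exists_dom (v : ∀ m, (N.M m).D → ℝ) (O : Set ℂ) (hO : Bornology.IsBounded O) {C : ℝ}
    (hC : ∀ᶠ m in (N.U : Filter ℕ), N.en m O (v m) (v m) ≤ C) :
    ∃ Γ : Measure ℂ, IsFiniteMeasure Γ ∧ Γ.real univ ≤ C ∧ N.Dom v O Γ := by
  have hC0 : 0 ≤ C := by
    obtain ⟨m, hm⟩ := hC.exists
    exact (N.en_nonneg m O _).trans hm
  let G : ℕ → FiniteMeasure ℂ := fun m =>
    ⟨N.nlimM m O (v m), ⟨by rw [nlim_univ]; exact ENNReal.ofReal_lt_top⟩⟩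
  have h1 : ∀ᶠ m in (N.U : Filter ℕ), (G m).mass ≤ C.toNNReal ∧ G m (closure O)ᶜ = 0 := by
    filter_upwards [hC] with m hm
    refine ⟨?_, ?_⟩
    · rw [← ENNReal.coe_le_coe, FiniteMeasure.ennreal_mass]
      exact (N.nlim_univ m O _).trans_le (ENNReal.ofReal_le_ofReal hm)
    · rw [FiniteMeasure.null_iff_toMeasure_null]
      refine (N.nlim_apply m O _ _).trans (Finset.sum_eq_zero fun d _ => ?_)
      by_cases h : N.In m O d
      · rw [indicator_of_notMem (notMem_compl_iff.2 (subset_closure h.1)), mul_zero]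
      · rw [nlimW, if_neg h, ENNReal.ofReal_zero, zero_mul]
  obtain ⟨Γ, hΓ, hl⟩ := (isCompact_setOfPred_finiteMeasure_le_of_isCompact C.toNNReal
    hO.isCompact_closure).ultrafilter_le_nhds' (N.U.map G) h1
  refine ⟨Γ, inferInstance, ?_, fun A hA ε hε => ?_⟩
  · refine ENNReal.toReal_le_of_le_ofReal hC0 ?_
    rw [← FiniteMeasure.ennreal_mass]
    exact ENNReal.coe_le_coe.2 hΓ.1
  · have h2 := FiniteMeasure.limsup_measure_closed_le_of_tendsto
      (show Tendsto G (N.U : Filter ℕ) (𝓝 Γ) from hl) hA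
    have h3 : (Γ : Measure ℂ) A < ENNReal.ofReal ((Γ : Measure ℂ).real A + ε) := by
      rw [ENNReal.ofReal_add measureReal_nonneg hε.le, ofReal_measureReal]
      exact ENNReal.lt_add_right (measure_ne_top _ _) (ENNReal.ofReal_pos.2 hε).ne'
    filter_upwards [eventually_lt_of_limsup_lt (h2.trans_lt h3)] with m hm
    refine (ENNReal.ofReal_le_ofReal_iff (by positivity)).1 (le_trans ?_ hm.le)
    refine (N.nlim_en m _ _).trans_le (le_trans ?_ (N.nlim_apply m O _ A).ge)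
    refine Finset.sum_le_sum fun d _ => ?_
    by_cases h : N.In m (A ∩ O) d
    · rw [indicator_of_mem h.1.1, Pi.one_apply, mul_one, nlimW, nlimW, if_pos h,
        if_pos ⟨h.1.2, h.2.2⟩]
    · rw [nlimW, if_neg h, ENNReal.ofReal_zero]
      exact bot_le

/-- Arzela-Ascoli along the ultrafilter -/
theorem exists_limit (v : ∀ m, (N.M m).D → ℝ) (hv : ∀ m, Inv (N.M m).σ (v m)) (O : Set ℂ)
    (hO : IsOpen O) {B : ℝ} (hB : ∀ m d, |v m d| ≤ B)
    (he : ∀ z ∈ O, ∀ ε > 0, ∃ r > 0, ∀ᶠ m in (N.U : Filter ℕ), ∀ d e, N.p m d ∈ ball z r →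
      N.p m e ∈ ball z r → |v m d - v m e| ≤ ε) :
    ∃ u : ℂ → ℝ, ContinuousOn u O ∧ ∀ K, IsCompact K → K ⊆ O → N.Conv v u K := by
  have _ := hO
  have h1 : ∀ m z, ∃ y ∈ Icc (-|B|) |B|, ∀ η, (∃ d, ‖N.p m d - z‖ ≤ η) →
      ∃ d, ‖N.p m d - z‖ ≤ η ∧ y = v m d := by
    intro m z
    rcases isEmpty_or_nonempty (N.M m).D with h | h
    · exact ⟨0, ⟨neg_nonpos.2 (abs_nonneg B), abs_nonneg B⟩, fun η ⟨d, _⟩ => h.elim d⟩
    · obtain ⟨d, hd⟩ := Finite.exists_min fun d => ‖N.p m d - z‖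
      exact ⟨v m d, abs_le.1 ((hB m d).trans (le_abs_self B)),
        fun η ⟨e, he⟩ => ⟨d, (hd e).trans he, rfl⟩⟩
  choose w hw hw' using h1
  have h2 : ∀ z, ∃ y, Tendsto (fun m => w m z) N.U (𝓝 y) := fun z => by
    obtain ⟨y, -, hy⟩ := isCompact_Icc.ultrafilter_le_nhds' (N.U.map fun m => w m z)
      (Eventually.of_forall (f := (N.U : Filter ℕ)) fun m => hw m z)
    exact ⟨y, hy⟩
  choose u hu using h2
  have h3 : ∀ z r, ∀ z' ∈ ball z r, ∀ᶠ m in (N.U : Filter ℕ),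
      ∃ d, N.p m d ∈ ball z r ∧ w m z' = v m d := by
    intro z r z' hz'
    have h4 : 0 < r - dist z' z := sub_pos.2 hz'
    filter_upwards [N.dense z' _ (half_pos h4)] with m hm
    obtain ⟨d, h5, h6⟩ := hw' m z' _ hm
    rw [← dist_eq_norm] at h5
    exact ⟨d, mem_ball.2 (by linarith [dist_triangle (N.p m d) z' z]), h6⟩
  have key : ∀ z ∈ O, ∀ ε > 0, ∃ r > 0, (∀ z' ∈ ball z r, |u z' - u z| ≤ ε) ∧
      ∀ᶠ m in (N.U : Filter ℕ), ∀ d, N.p m d ∈ ball z r → |v m d - u (N.p m d)| ≤ 3 * ε := by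
    intro z hz ε hε
    obtain ⟨r, hr, h4⟩ := he z hz ε hε
    have h5 : ∀ z' ∈ ball z r, |u z' - u z| ≤ ε := fun z' hz' => by
      refine le_of_tendsto ((hu z').sub (hu z)).abs ?_
      filter_upwards [h4, h3 z r z' hz', h3 z r z (mem_ball_self hr)] with m h ⟨d, hd, e⟩
        ⟨d', hd', e'⟩
      rw [e, e']
      exact h d d' hd hd'
    refine ⟨r, hr, h5, ?_⟩
    filter_upwards [h4, h3 z r z (mem_ball_self hr), (hu z).eventually (closedBall_mem_nhds _ hε)]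
      with m h ⟨e, he1, he2⟩ h6 d hd
    rw [he2, Real.dist_eq] at h6
    have h7 := abs_le.1 (h d e hd he1)
    have h8 := abs_le.1 (h5 _ hd)
    have h9 := abs_le.1 h6
    exact abs_le.2 ⟨by linarith [h7.1, h8.2, h9.1], by linarith [h7.2, h8.1, h9.2]⟩
  refine ⟨u, fun z hz => ContinuousAt.continuousWithinAt ?_, fun K hK hKO η hη => ?_⟩
  · refine Metric.continuousAt_iff.2 fun ε hε => ?_
    obtain ⟨r, hr, h4, -⟩ := key z hz _ (half_pos hε)
    exact ⟨r, hr, fun z' hz' => (h4 z' hz').trans_lt (half_lt_self hε)⟩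
  · choose! r hr _ h4 using fun z (hz : z ∈ K) => key z (hKO hz) (η / 3) (by positivity)
    obtain ⟨t, ht, hc⟩ := hK.elim_nhds_subcover (fun z => ball z (r z))
      fun z hz => ball_mem_nhds z (hr z hz)
    filter_upwards [(Finset.eventually_all t).2 fun z hz => h4 z (ht z hz)] with m hm
    refine ⟨hv m, fun d hd => ?_⟩
    obtain ⟨z, hz, h5⟩ := mem_iUnion₂.1 (hc hd)
    linarith [hm z hz d h5]

theorem nlim_gap {m : ℕ} {K A B : Set ℂ} {M : ℝ} (hM : 0 ≤ M)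
    (h : ∀ g : (N.M m).D → ℝ, Inv (N.M m).σ g → (∀ d, N.p m d ∈ A → g d ≤ 0) →
      (∀ d, N.p m d ∈ B → 1 ≤ g d) → M ≤ N.en m K g g)
    {v : (N.M m).D → ℝ} (hv : Inv (N.M m).σ v) {α β e : ℝ} (he : 0 ≤ e)
    (hA : ∀ d, N.p m d ∈ A → |v d - α| ≤ e) (hB : ∀ d, N.p m d ∈ B → |v d - β| ≤ e) :
    M * ((β - α) ^ 2 - 4 * e * |β - α|) ≤ N.en m K v v := by
  have h0 := abs_nonneg (β - α)
  have h1 := sq_abs (β - α)
  rcases le_or_gt |β - α| (2 * e) with h2 | h2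
  · exact (mul_nonpos_of_nonneg_of_nonpos hM (by nlinarith)).trans (N.en_nonneg m K v)
  obtain ⟨γ, hγ⟩ : ∃ γ, γ = |β - α| - 2 * e := ⟨_, rfl⟩
  have hγ0 : 0 < γ := by linarith
  have key : ∀ σ c : ℝ, σ ^ 2 = 1 → (∀ d, N.p m d ∈ A → σ * v d + c ≤ 0) →
      (∀ d, N.p m d ∈ B → γ ≤ σ * v d + c) → M * γ ^ 2 ≤ N.en m K v v := by
    intro σ c hσ g1 g2
    have e1 : ∀ d, σ / γ * v d + c / γ = (σ * v d + c) / γ := fun d => by ring
    have h3 := h (fun d => σ / γ * v d + c / γ) (fun d => congrArg (σ / γ * · + c / γ) (hv d))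
      (fun d hd => (e1 d).trans_le (div_nonpos_of_nonpos_of_nonneg (g1 d hd) hγ0.le))
      fun d hd => le_of_le_of_eq ((one_le_div hγ0).2 (g2 d hd)) (e1 d).symm
    rw [en_affine_left, en_comm, en_affine_left, ← mul_assoc, ← pow_two, div_pow, hσ,
      one_div_mul_eq_div, le_div_iff₀ (by positivity)] at h3
    exact h3
  have h3 : M * γ ^ 2 ≤ N.en m K v v := by
    rcases le_total α β with h3 | h3
    · rw [abs_of_nonneg (sub_nonneg.2 h3)] at hγ
      exact key 1 (-(α + e)) (by norm_num) (fun d hd => by linarith [(abs_le.1 (hA d hd)).2])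
        fun d hd => by linarith [(abs_le.1 (hB d hd)).1]
    · rw [abs_of_nonpos (sub_nonpos.2 h3)] at hγ
      exact key (-1) (α - e) (by norm_num) (fun d hd => by linarith [(abs_le.1 (hA d hd)).1])
        fun d hd => by linarith [(abs_le.1 (hB d hd)).2]
  refine le_trans (mul_le_mul_of_nonneg_left ?_ hM) h3
  rw [hγ]
  nlinarith

theorem nlim_dq {a : ℝ} (ha : 0 ≤ a) {f g : ℂ → ℝ} {P : ℝ → ℝ → ℂ} (hf : ∀ s t, f (P s t) = s)
    (hg : ∀ s t, g (P s t) = t) (hd : ∀ z z', dist z z' ≤ |f z - f z'| + |g z - g z'|)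
    {s₀ s₁ t₀ t₁ : ℝ} (hs : s₀ < s₁) (ht : t₀ < t₁) {R O' : Set ℂ} (hR : IsCompact R)
    (hRm : ∀ z, z ∈ R ↔ f z ∈ Icc s₀ s₁ ∧ g z ∈ Icc t₀ t₁) (hO : R ⊆ O')
    (hls : ∀ t t' δ M, t₀ ≤ t → t < t' → t' ≤ t₁ → 0 < δ → M * a * (s₁ - s₀) < t' - t →
      N.CondGe (nlimB f g s₀ s₁ t t') (nlimB f g s₀ (s₀ + δ) t t') (nlimB f g (s₁ - δ) s₁ t t') M)
    {v : ∀ m, (N.M m).D → ℝ} {u : ℂ → ℝ} (hu : ContinuousOn u R) (hv : N.Conv v u R)
    {Γ : Measure ℂ} (hΓ : N.Dom v O' Γ) :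
    ∫ t in t₀..t₁, (u (P s₁ t) - u (P s₀ t)) ^ 2 ≤ a * (s₁ - s₀) * Γ.real R := by
  have hP : ∀ s ∈ Icc s₀ s₁, ∀ t ∈ Icc t₀ t₁, P s t ∈ R := fun s hs t ht =>
    (hRm _).2 (by rw [hf, hg]; exact ⟨hs, ht⟩)
  have hP0 := hP s₀ ⟨le_rfl, hs.le⟩
  have hP1 := hP s₁ ⟨hs.le, le_rfl⟩
  have hPc : ∀ s, Continuous (P s) := fun s =>
    (LipschitzWith.of_dist_le' (K := 1) fun t t' => by
      simpa [hf, hg, Real.dist_eq] using hd (P s t) (P s t')).continuous
  have hc : ContinuousOn (fun t => (u (P s₁ t) - u (P s₀ t)) ^ 2) (Icc t₀ t₁) :=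
    ((hu.comp (hPc s₁).continuousOn hP1).sub (hu.comp (hPc s₀).continuousOn hP0)).pow 2
  obtain ⟨B, hB⟩ := hR.exists_bound_of_continuousOn hu
  have key : ∀ ε > 0, ∫ t in t₀..t₁, (u (P s₁ t) - u (P s₀ t)) ^ 2 ≤
      (a * (s₁ - s₀) + ε) * (Γ.real R + ε) + 16 * ε * B * (t₁ - t₀) := by
    intro ε hε
    obtain ⟨ρ, hρ, hρ'⟩ := Metric.uniformContinuousOn_iff.1
      (hR.uniformContinuousOn_of_continuous hu) ε hε
    obtain ⟨n, hn⟩ := exists_nat_gt ((t₁ - t₀) / (ρ / 2))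
    have hn0 : (0 : ℝ) < n := lt_trans (div_pos (sub_pos.2 ht) (half_pos hρ)) hn
    obtain ⟨h, hh⟩ : ∃ h, h = (t₁ - t₀) / n := ⟨_, rfl⟩
    have hh0 : 0 < h := hh ▸ div_pos (sub_pos.2 ht) hn0
    have hhn : n * h = t₁ - t₀ := by rw [hh]; field_simp
    have hh1 : h < ρ / 2 := by
      rw [div_lt_iff₀ (half_pos hρ)] at hn
      rw [hh, div_lt_iff₀ hn0]
      linarith
    have hA : 0 < a * (s₁ - s₀) + ε := add_pos_of_nonneg_of_pos (mul_nonneg ha (by linarith)) hε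
    let τ : ℕ → ℝ := fun j => t₀ + j * h
    have hτ : ∀ j, τ (j + 1) = τ j + h := fun j => by simp only [τ]; push_cast; ring
    have hτm : ∀ i j, i ≤ j → τ i ≤ τ j := fun i j hij => by
      have : (i : ℝ) ≤ j := by exact_mod_cast hij
      simp only [τ]
      nlinarith
    have hτ0 : τ 0 = t₀ := by simp [τ]
    have hτn : τ n = t₁ := by simp only [τ]; linarith
    have hlo : ∀ j, t₀ ≤ τ j := fun j => hτ0 ▸ hτm 0 j (Nat.zero_le j)
    have hhi : ∀ j < n, τ (j + 1) ≤ t₁ := fun j hj => hτn ▸ hτm _ _ hj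
    obtain ⟨δ, hδ0, hδ1, hδ2⟩ : ∃ δ, 0 < δ ∧ δ ≤ ρ / 2 ∧ δ ≤ s₁ - s₀ :=
      ⟨_, lt_min (half_pos hρ) (sub_pos.2 hs), min_le_left _ _, min_le_right _ _⟩
    have h1 := (Finset.eventually_all (Finset.range n)).2 fun j hj =>
      hls (τ j) (τ (j + 1)) δ (h / (a * (s₁ - s₀) + ε)) (hlo j) (by linarith [hτ j])
        (hhi j (Finset.mem_range.1 hj)) hδ0 (by
          rw [hτ, add_sub_cancel_left, mul_assoc, div_mul_eq_mul_div, div_lt_iff₀ hA]
          nlinarith)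
    obtain ⟨m, ⟨h2, h3⟩, h4⟩ := ((h1.and (hv ε hε)).and (hΓ R hR.isClosed ε hε)).exists
    have hsub : ∀ j < n, ∀ x x', s₀ ≤ x → x' ≤ s₁ → nlimB f g x x' (τ j) (τ (j + 1)) ⊆ R :=
      fun j hj x x' hx hx' z hz => (hRm z).2 ⟨⟨hx.trans hz.1.1.le, hz.1.2.le.trans hx'⟩,
        (hlo j).trans hz.2.1.le, hz.2.2.le.trans (hhi j hj)⟩
    have h5 : ∀ j < n, ∫ t in τ j..τ (j + 1), (u (P s₁ t) - u (P s₀ t)) ^ 2 ≤
        (a * (s₁ - s₀) + ε) * N.en m (nlimB f g s₀ s₁ (τ j) (τ (j + 1))) (v m) (v m) +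
          16 * ε * B * h := by
      intro j hj
      have hI : Icc (τ j) (τ (j + 1)) ⊆ Icc t₀ t₁ := Icc_subset_Icc (hlo j) (hhi j hj)
      have hle : τ j ≤ τ (j + 1) := hτm _ _ (Nat.le_succ j)
      refine (intervalIntegral.integral_mono_on hle ((hc.mono hI).intervalIntegrable_of_Icc hle)
        (intervalIntegrable_const (c := (a * (s₁ - s₀) + ε) / h *
          N.en m (nlimB f g s₀ s₁ (τ j) (τ (j + 1))) (v m) (v m) + 16 * ε * B))
        fun t ht' => ?_).trans_eq ?_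
      · have near : ∀ d s x x', s ∈ Icc s₀ s₁ → s₀ ≤ x → x' ≤ s₁ → x' ≤ s + δ → s - δ ≤ x →
            N.p m d ∈ nlimB f g x x' (τ j) (τ (j + 1)) → |v m d - u (P s t)| ≤ 2 * ε := by
          intro d s x x' e0 e1 e2 e3 e4 hz
          have g1 := hsub j hj x x' e1 e2 hz
          have g2 := abs_le.1 (h3.2 d g1)
          have g3 : |f (N.p m d) - s| ≤ δ := abs_le.2 ⟨by linarith [hz.1.1], by linarith [hz.1.2]⟩
          have g4 : |g (N.p m d) - t| ≤ h :=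
            abs_le.2 ⟨by linarith [hz.2.1, ht'.2, hτ j], by linarith [hz.2.2, ht'.1, hτ j]⟩
          have g5 := hd (N.p m d) (P s t)
          rw [hf, hg] at g5
          have g6 := abs_lt.1 (hρ' _ g1 _ (hP s e0 t (hI ht')) (by linarith))
          exact abs_le.2 ⟨by linarith [g2.1, g6.1], by linarith [g2.2, g6.2]⟩
        have g1 := N.nlim_gap (div_pos hh0 hA).le (h2 j (Finset.mem_range.2 hj)) h3.1
          (e := 2 * ε) (by linarith)
          (fun d => near d s₀ _ _ ⟨le_rfl, hs.le⟩ le_rfl (by linarith) le_rfl (by linarith))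
          fun d => near d s₁ _ _ ⟨hs.le, le_rfl⟩ (by linarith) le_rfl (by linarith) le_rfl
        rw [div_mul_eq_mul_div, div_le_iff₀ hA, mul_comm h, ← le_div_iff₀ hh0] at g1
        have g2 : |u (P s₁ t) - u (P s₀ t)| ≤ 2 * B :=
          (abs_sub _ _).trans (by
            linarith [hB _ (hP0 t (hI ht')), hB _ (hP1 t (hI ht')), Real.norm_eq_abs (u (P s₁ t)),
              Real.norm_eq_abs (u (P s₀ t))])
        rw [div_mul_eq_mul_div, mul_comm (a * (s₁ - s₀) + ε)]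
        nlinarith
      · rw [intervalIntegral.integral_const, hτ, add_sub_cancel_left, smul_eq_mul]
        field_simp
    have h6 : ∑ j ∈ Finset.range n, N.en m (nlimB f g s₀ s₁ (τ j) (τ (j + 1))) (v m) (v m) ≤
        Γ.real R + ε := by
      refine (N.en_sum_le m _ _ (R ∩ O') (fun j hj z hz => ?_) (fun i _ j _ hij => ?_) _).trans h4
      · have := hsub j (Finset.mem_range.1 hj) _ _ le_rfl le_rfl hz
        exact ⟨this, hO this⟩
      · refine Set.disjoint_left.2 fun z hz hz' => ?_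
        rcases lt_or_gt_of_ne hij with e | e
        · linarith [hτm _ _ (Nat.succ_le_of_lt e), hz.2.2, hz'.2.1]
        · linarith [hτm _ _ (Nat.succ_le_of_lt e), hz.2.1, hz'.2.2]
    have h7 := intervalIntegral.sum_integral_adjacent_intervals (μ := volume) (a := τ) (n := n)
      (f := fun t => (u (P s₁ t) - u (P s₀ t)) ^ 2) fun j hj =>
        (hc.mono (Icc_subset_Icc (hlo j) (hhi j hj))).intervalIntegrable_of_Icc
          (hτm _ _ (Nat.le_succ j))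
    rw [hτ0, hτn] at h7
    rw [← h7]
    refine (Finset.sum_le_sum fun j hj => h5 j (Finset.mem_range.1 hj)).trans ?_
    rw [Finset.sum_add_distrib, ← Finset.mul_sum, Finset.sum_const, Finset.card_range,
      nsmul_eq_mul, ← hhn]
    nlinarith [mul_le_mul_of_nonneg_left h6 hA.le]
  have h1 : Tendsto (fun ε : ℝ => (a * (s₁ - s₀) + ε) * (Γ.real R + ε) + 16 * ε * B * (t₁ - t₀))
      (𝓝[>] 0) (𝓝 (a * (s₁ - s₀) * Γ.real R)) := by
    refine tendsto_nhdsWithin_of_tendsto_nhds (Continuous.tendsto' (by fun_prop) _ _ ?_)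
    ring
  exact ge_of_tendsto h1 (eventually_nhdsWithin_of_forall key)

/-- difference quotients of a limit -/
theorem dq_of_ls {a : ℝ} (ha : 0 ≤ a) {O O' : Set ℂ} (hO : IsOpen O) (hO' : O ⊆ O')
    (hls : N.LS a O) (v : ∀ m, (N.M m).D → ℝ) (u : ℂ → ℝ) (hu : ContinuousOn u O)
    (hv : ∀ K, IsCompact K → K ⊆ O → N.Conv v u K) (Γ : Measure ℂ) [IsFiniteMeasure Γ]
    (hΓ : N.Dom v O' Γ) : DQ u Γ a O := by
  have _ := hO
  intro x₀ x₁ y₀ y₁ hx hy hR
  have hK := nlim_compact x₀ x₁ y₀ y₁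
  have hd : ∀ z z' : ℂ, dist z z' ≤ |z.re - z'.re| + |z.im - z'.im| := fun z z' => by
    rw [dist_eq_norm]
    exact Complex.norm_le_abs_re_add_abs_im _
  refine ⟨N.nlim_dq ha (P := fun s t => ⟨s, t⟩) (fun _ _ => rfl) (fun _ _ => rfl) hd hx hy hK
    (fun _ => Iff.rfl) (hR.trans hO') (fun t t' δ M h1 h2 h3 h4 => ?_) (hu.mono hR) (hv _ hK hR) hΓ,
    N.nlim_dq ha (f := Complex.im) (g := Complex.re) (P := fun s t => ⟨t, s⟩) (fun _ _ => rfl)
      (fun _ _ => rfl) (fun z z' => (hd z z').trans_eq (add_comm _ _)) hy hx hK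
      (fun _ => and_comm) (hR.trans hO') (fun t t' δ M h1 h2 h3 h4 => ?_) (hu.mono hR)
      (hv _ hK hR) hΓ⟩
  · exact (hls x₀ x₁ t t' δ M hx h2
      (fun z hz => hR ⟨hz.1, h1.trans hz.2.1, hz.2.2.trans h3⟩) h4).1
  · have e : ∀ s s' r r', nlimB Complex.im Complex.re s s' r r' = orect r r' s s' :=
      fun _ _ _ _ => Set.ext fun _ => and_comm
    rw [e, e, e]
    exact (hls t t' y₀ y₁ δ M h2 hy
      (fun z hz => hR ⟨⟨h1.trans hz.1.1, hz.1.2.trans h3⟩, hz.2⟩) h4).2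

end FNet

end Pool.Agent.QL
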