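import Pool.Agent.P.MP_7a6434d8_pr.QL.NBasic

open MeasureTheory Set Filter Topology Metric
open scoped ENNReal

namespace Pool.Agent.QL

open Pool.Agent.LGD

theorem Inv.np_pow {D : Type} {π : Equiv.Perm D} {f : D → ℝ} (hf : Inv π f) (k : ℕ) (d : D) :
    f ((π ^ k) d) = f d := by
  induction k with
  | zero => simp
  | succ k ih => rw [pow_succ', Equiv.Perm.mul_apply, hf, ih]

theorem Inv.np_cyc {D : Type} [Finite D] {π : Equiv.Perm D} {f : D → ℝ} (hf : Inv π f) {d e : D}
    (h : π.SameCycle d e) : f e = f d := by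
  obtain ⟨k, -, rfl⟩ := h.exists_pow_eq'
  exact hf.np_pow k d

theorem np_sameCycle_pow {D : Type} (π : Equiv.Perm D) (k : ℕ) (d : D) :
    π.SameCycle d ((π ^ k) d) := ⟨(k : ℤ), by simp⟩

namespace FNet

variable (N : FNet)

/-- one adjacency is a chain of steps inside a set that contains a double neighbourhood -/
theorem np_adj (m : ℕ) (S : Set ℂ) {e e' : (N.M m).D} (h : (N.M m).Adj e e')
    (he : N.p m e ∈ S) (he' : N.p m e' ∈ S)
    (hS : ∀ x, (N.M m).φ.SameCycle e x → N.In m S x) :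
    Relation.ReflTransGen (N.Step m (N.In m S)) e e' := by
  rcases h with h | h | h
  · exact Relation.ReflTransGen.single (Or.inl ⟨h, he, h ▸ he'⟩)
  · obtain ⟨k, -, rfl⟩ := h.exists_pow_eq'
    clear he' h
    induction k with
    | zero => exact Relation.ReflTransGen.refl
    | succ k ih =>
      refine (ih.tail (Or.inl ⟨rfl, hS _ (np_sameCycle_pow _ k e)⟩)).tail (Or.inr ?_)
      rw [pow_succ', Equiv.Perm.mul_apply, (N.M m).φ_eq]
      exact ⟨1, by simp⟩
  · exact Relation.ReflTransGen.single (Or.inr h)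

/-- local joins -/
theorem np_local {T : Set ℂ} (hT : IsCompact T) {η : ℝ} (hη : 0 < η) :
    ∃ η₁ > 0, ∀ᶠ m in (N.U : Filter ℕ), ∀ d e, (∃ x ∈ T, ‖N.p m d - x‖ ≤ η / 4) →
      ‖N.p m e - N.p m d‖ ≤ η₁ →
      Relation.ReflTransGen (N.Step m (N.In m (thickening η T))) d e := by
  obtain ⟨R, hR⟩ := hT.isBounded.exists_norm_le
  obtain ⟨η₁, h1, h2⟩ := N.lift (R + η) (η / 4) (by positivity)
  refine ⟨η₁, h1, ?_⟩
  filter_upwards [h2, N.mesh (R + η) (η / 8) (by positivity)] with m hl hm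
  rintro d e ⟨x, hx, hd⟩ he
  have hnorm : ∀ y : ℂ, ‖y - x‖ ≤ η → ‖y‖ ≤ R + η := fun y hy => by
    have h3 := hR x hx
    have h4 : ‖y‖ ≤ ‖x‖ + ‖y - x‖ := by simpa using norm_add_le x (y - x)
    linarith
  have hin : ∀ y : ℂ, ‖y - x‖ < η → y ∈ thickening η T := fun y hy =>
    mem_thickening_iff.2 ⟨x, hx, by rwa [dist_eq_norm]⟩
  have htri : ∀ a b c : ℂ, ‖a - c‖ ≤ ‖a - b‖ + ‖b - c‖ := fun a b c =>
    norm_sub_le_norm_sub_add_norm_sub a b c
  have h3 := hl d e (hnorm _ (by linarith)) he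
  have key : ‖N.p m e - N.p m d‖ ≤ η / 4 ∧
      Relation.ReflTransGen (N.Step m (N.In m (thickening η T))) d e := by
    clear he
    induction h3 with
    | refl => exact ⟨by simp; positivity, Relation.ReflTransGen.refl⟩
    | @tail b c _ hbc ih =>
      refine ⟨hbc.2, ih.2.trans ?_⟩
      have hb : ‖N.p m b - x‖ ≤ η / 2 := by linarith [htri (N.p m b) (N.p m d) x, ih.1]
      have hc : ‖N.p m c - x‖ ≤ η / 2 := by linarith [htri (N.p m c) (N.p m d) x, hbc.2]
      refine N.np_adj m _ hbc.1 (hin _ (by linarith)) (hin _ (by linarith)) fun y hy => ?_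
      have hy1 := hm b y (hnorm _ (by linarith)) (Or.inr (Or.inl hy))
      have hy2 : ‖N.p m y - x‖ ≤ 5 * η / 8 := by linarith [htri (N.p m y) (N.p m b) x]
      have hy3 := hm y ((N.M m).α y) (hnorm _ (by linarith)) (Or.inl rfl)
      exact ⟨hin _ (by linarith),
        hin _ (by linarith [htri (N.p m ((N.M m).α y)) (N.p m y) x])⟩
  exact key.2

/-- darts near the two ends of a compact connected set are joined near the set -/
theorem track {T : Set ℂ} (hT : IsCompact T) (hc : IsPreconnected T) {η : ℝ} (hη : 0 < η) :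
    ∃ η' > 0, ∀ᶠ m in (N.U : Filter ℕ), ∀ d e, N.p m d ∈ thickening η' T →
      N.p m e ∈ thickening η' T →
      Relation.ReflTransGen (N.Step m (N.In m (thickening η T))) d e := by
  obtain ⟨η₁, h1, h2⟩ := N.np_local hT hη
  obtain ⟨ε, hε, hε1, hε2⟩ : ∃ ε > 0, 2 * ε ≤ η / 4 ∧ 5 * ε ≤ η₁ :=
    ⟨min (η / 8) (η₁ / 5), by positivity, by linarith [min_le_left (η / 8) (η₁ / 5)],
      by linarith [min_le_right (η / 8) (η₁ / 5)]⟩
  obtain ⟨t, -, htf, hcov⟩ := finite_cover_balls_of_compact hT hε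
  have h3 : ∀ᶠ m in (N.U : Filter ℕ), ∀ z ∈ t, ∃ d, ‖N.p m d - z‖ ≤ ε :=
    (eventually_all_finite htf).2 fun z _ => N.dense z ε hε
  refine ⟨ε, hε, ?_⟩
  filter_upwards [h2, h3] with m hl hd
  have htri : ∀ a b c : ℂ, ‖a - c‖ ≤ ‖a - b‖ + ‖b - c‖ := fun a b c =>
    norm_sub_le_norm_sub_add_norm_sub a b c
  have hex : ∀ x ∈ T, ∃ d, ‖N.p m d - x‖ ≤ 2 * ε := fun x hx => by
    obtain ⟨z, hz, hxz⟩ := mem_iUnion₂.1 (hcov hx)
    obtain ⟨d, hd'⟩ := hd z hz
    rw [mem_ball, dist_comm, dist_eq_norm] at hxz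
    exact ⟨d, by linarith [htri (N.p m d) z x]⟩
  let P : ℂ → ℂ → Prop := fun x y => x ∈ T ∧ y ∈ T ∧ ∀ d e, ‖N.p m d - x‖ ≤ 2 * ε →
    ‖N.p m e - y‖ ≤ 2 * ε → Relation.ReflTransGen (N.Step m (N.In m (thickening η T))) d e
  have hP : ∀ x ∈ T, ∀ y ∈ T, ‖y - x‖ ≤ ε → P x y := fun x hx y hy hxy =>
    ⟨hx, hy, fun d e h4 h5 => hl d e ⟨x, hx, by linarith⟩ (by
      have h6 := htri (N.p m e) y x
      have h7 := htri (N.p m e) x (N.p m d)
      rw [norm_sub_rev x] at h7
      linarith)⟩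
  have hall : ∀ x ∈ T, ∀ y ∈ T, P x y := fun x hx y hy => by
    refine hc.induction₂' P (fun x hx => ?_) ?_ hx hy
    · have h4 : ∀ᶠ y in 𝓝[T] x, y ∈ closedBall x ε :=
        mem_nhdsWithin_of_mem_nhds (closedBall_mem_nhds x hε)
      filter_upwards [h4, self_mem_nhdsWithin] with y h5 h6
      rw [mem_closedBall, dist_eq_norm] at h5
      exact ⟨hP x hx y h6 h5, hP y h6 x hx (by rwa [norm_sub_rev])⟩
    · rintro a b c - - - ⟨ha, hb, hab⟩ ⟨-, hc', hbc⟩
      obtain ⟨d', hd'⟩ := hex b hb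
      exact ⟨ha, hc', fun d e h4 h5 => (hab d d' h4 hd').trans (hbc d' e hd' h5)⟩
  intro d e h4 h5
  obtain ⟨x, hx, hdx⟩ := mem_thickening_iff.1 h4
  obtain ⟨y, hy, hey⟩ := mem_thickening_iff.1 h5
  rw [dist_eq_norm] at hdx hey
  exact (hall x hx y hy).2.2 d e (by linarith) (by linarith)

/-- along a path the variation of a vertex function is at most the sum over the allowed edges -/
theorem var_le (m : ℕ) (G : (N.M m).D → Prop) [DecidablePred G] (v : (N.M m).D → ℝ)
    (hv : Inv (N.M m).σ v) {d e : (N.M m).D} (h : Relation.ReflTransGen (N.Step m G) d e) :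
    |v d - v e| ≤ ∑ x, if G x then |N.dd m v x| else 0 := by
  have hsub : uIoc (v e) (v d) ⊆
      ⋃ x ∈ Finset.univ.filter G, uIoc (v x) (v ((N.M m).α x)) := by
    induction h with
    | refl => simp
    | @tail b c _ hbc ih =>
      rcases hbc with ⟨rfl, hG⟩ | hbc
      · intro t ht
        by_cases h1 : t ∈ uIoc (v b) (v d)
        · exact ih h1
        · refine mem_iUnion₂.2 ⟨b, by simpa using hG, ?_⟩
          simp only [mem_uIoc] at ht h1 ⊢
          grind
      · rw [hv.np_cyc hbc]; exact ih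
  have h1 : volume.real (uIoc (v e) (v d)) ≤
      ∑ x ∈ Finset.univ.filter G, volume.real (uIoc (v x) (v ((N.M m).α x))) :=
    (measureReal_mono hsub (by
      refine ((measure_biUnion_finset_le _ _).trans_lt ?_).ne
      exact ENNReal.sum_lt_top.2 fun x _ => by simp [Real.volume_uIoc])).trans
      (measureReal_biUnion_finset_le _ _)
  simp only [Measure.real, Real.volume_uIoc, ENNReal.toReal_ofReal (abs_nonneg _)] at h1
  rw [Finset.sum_filter] at h1
  exact h1

theorem np_cut_iff (a b t : ℝ) : ¬ (t < a ↔ t < b) ↔ t ∈ Ico (min a b) (max a b) := by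
  simp only [mem_Ico, min_le_iff, lt_max_iff]
  grind

/-- coarea: if every level cut of the face function `ψ` carries variation `ω` of `v` -/
theorem coarea (m : ℕ) (S : Set ℂ) (ψ v : (N.M m).D → ℝ) {t₀ t₁ ω : ℝ} (ht : t₀ ≤ t₁) (hω : 0 ≤ ω)
    (h : ∀ t ∈ Ioo t₀ t₁, ω ≤ ∑ x, open Classical in
      if N.In m S x ∧ ¬ (t < ψ x ↔ t < ψ ((N.M m).α x)) then |N.dd m v x| else 0) :
    (ω * (t₁ - t₀)) ^ 2 ≤ 4 * N.dual.en m S ψ ψ * N.en m S v v := by
  classical
  let c : (N.M m).D → ℝ := fun x => if N.In m S x then |N.dd m v x| else 0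
  let b : (N.M m).D → ℝ := fun x => if N.In m S x then |N.dd m ψ x| else 0
  let I : (N.M m).D → Set ℝ := fun x =>
    Ico (min (ψ x) (ψ ((N.M m).α x))) (max (ψ x) (ψ ((N.M m).α x)))
  have hc : ∀ x, 0 ≤ c x := fun x => by simp only [c]; split_ifs <;> simp
  have hI : ∀ x, volume.real (I x) = |N.dd m ψ x| := fun x => by
    simp only [I, Real.volume_real_Ico, dd]
    rw [max_sub_min_eq_abs]
    exact max_eq_left (abs_nonneg _)
  have hint : ∀ x, Integrable ((I x).indicator fun _ : ℝ => c x) := fun x =>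
    (integrableOn_const (by simp [I])).integrable_indicator measurableSet_Ico
  have h1 : ∀ t, (Ioo t₀ t₁).indicator (fun _ => ω) t ≤
      ∑ x, (I x).indicator (fun _ : ℝ => c x) t := fun t => by
    by_cases h2 : t ∈ Ioo t₀ t₁
    · rw [indicator_of_mem h2]
      refine (h t h2).trans_eq (Finset.sum_congr rfl fun x _ => ?_)
      by_cases h3 : t ∈ I x
      · have h4 := (np_cut_iff _ _ _).2 h3
        rw [indicator_of_mem h3]
        simp only [c, h4, not_false_eq_true, and_true]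
      · have h4 := fun h5 => h3 ((np_cut_iff _ _ _).1 h5)
        rw [indicator_of_notMem h3, if_neg fun h5 => h4 h5.2]
    · rw [indicator_of_notMem h2]
      exact Finset.sum_nonneg fun x _ => indicator_nonneg (fun _ _ => hc x) t
  have h2 := integral_mono (μ := (volume : Measure ℝ))
    ((integrableOn_const (by simp)).integrable_indicator measurableSet_Ioo)
    (integrable_finsetSum _ fun x _ => hint x) h1
  rw [integral_finsetSum _ fun x _ => hint x, integral_indicator_const _ measurableSet_Ioo,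
    Real.volume_real_Ioo, max_eq_left (sub_nonneg.2 ht), smul_eq_mul, mul_comm] at h2
  have h3 : ∑ x, ∫ t : ℝ, (I x).indicator (fun _ : ℝ => c x) t = ∑ x, b x * c x :=
    Finset.sum_congr rfl fun x _ => by
      rw [integral_indicator_const _ measurableSet_Ico, smul_eq_mul]
      change volume.real (I x) * c x = _
      rw [hI]
      simp only [b, c]
      split_ifs <;> simp
  rw [h3] at h2
  have h4 := Finset.sum_mul_sq_le_sq_mul_sq Finset.univ b c
  have h5 : N.dual.en m S ψ ψ = (N.κ m)⁻¹ * (1 / 2 * ∑ x, b x ^ 2) := by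
    change (N.κ m)⁻¹ * (1 / 2 * ∑ x : (N.M m).D,
      if N.In m S x then N.dd m ψ x * N.dd m ψ x else 0) = _
    congr 2
    refine Finset.sum_congr rfl fun x _ => ?_
    simp only [b]
    split_ifs <;> simp [sq]
  have h6 : N.en m S v v = N.κ m * (1 / 2 * ∑ x, c x ^ 2) := by
    unfold en
    congr 2
    refine Finset.sum_congr rfl fun x _ => ?_
    simp only [c]
    split_ifs <;> simp [sq]
  have h7 := (N.κ_pos m).ne'
  calc (ω * (t₁ - t₀)) ^ 2 ≤ (∑ x, b x * c x) ^ 2 :=
        pow_le_pow_left₀ (mul_nonneg hω (sub_nonneg.2 ht)) h2 2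
    _ ≤ (∑ x, b x ^ 2) * ∑ x, c x ^ 2 := h4
    _ = _ := by rw [h5, h6]; field_simp; ring

/-- a divergence-free part of a cut is again a cut: if `W` is a set of darts closed under steps
along `G`, and `θ` is a divergence-free antisymmetric flow carried by `G`, then `θ` restricted
to `W` is the gradient of a face function -/
theorem part_exact (m : ℕ) (θ : (N.M m).D → ℝ) (hθ : ∀ d, θ ((N.M m).α d) = -θ d)
    (hdiv : ∀ g, Inv (N.M m).σ g → ∑ d, θ d * g d = 0) (W : Set (N.M m).D)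
    (hW : ∀ d ∈ W, ∀ e, N.Step m (fun x => θ x ≠ 0) d e → e ∈ W) :
    ∃ ψ, Inv (N.M m).φ ψ ∧ ∀ d, W.indicator θ d = ψ ((N.M m).α d) - ψ d := by
  refine (N.M m).hodge' _ (fun d => ?_) fun g hg => ?_
  · by_cases h0 : θ d = 0
    · have h1 : θ ((N.M m).α d) = 0 := by rw [hθ, h0, neg_zero]
      rw [indicator_apply_eq_zero.2 fun _ => h1, indicator_apply_eq_zero.2 fun _ => h0, neg_zero]
    · by_cases hd : d ∈ W
      · rw [indicator_of_mem hd, indicator_of_mem (hW d hd _ (Or.inl ⟨rfl, h0⟩)), hθ]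
      · have h1 : (N.M m).α d ∉ W := fun h2 => hd (hW _ h2 d
          (Or.inl ⟨((N.M m).α_α d).symm, by
            change θ _ ≠ 0
            rw [hθ]; exact neg_ne_zero.2 h0⟩))
        rw [indicator_of_notMem hd, indicator_of_notMem h1, neg_zero]
  · have h1 : Inv (N.M m).σ (W.indicator g) := fun d => by
      by_cases hd : d ∈ W
      · rw [indicator_of_mem hd, indicator_of_mem (hW d hd _ (Or.inr ⟨1, by simp⟩)), hg]
      · have h2 : (N.M m).σ d ∉ W := fun h3 => hd (hW _ h3 d (Or.inr ⟨-1, by simp⟩))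
        rw [indicator_of_notMem hd, indicator_of_notMem h2]
    rw [← hdiv _ h1]
    refine Finset.sum_congr rfl fun d _ => ?_
    by_cases hd : d ∈ W <;> simp [hd]

/-- the unit flow along a path -/
theorem path_flow (m : ℕ) (G : (N.M m).D → Prop) {d e : (N.M m).D}
    (h : Relation.ReflTransGen (N.Step m G) d e) :
    ∃ J : (N.M m).D → ℝ, (∀ x, J ((N.M m).α x) = -J x) ∧
      (∀ x, J x ≠ 0 → G x ∨ G ((N.M m).α x)) ∧
      ∀ g, Inv (N.M m).σ g → ∑ x, J x * g x = g e - g d := by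
  classical
  induction h with
  | refl => exact ⟨fun _ => 0, by simp, by simp, by simp⟩
  | @tail b c _ hbc ih =>
    obtain ⟨J, h1, h2, h3⟩ := ih
    rcases hbc with ⟨rfl, hG⟩ | hbc
    · refine ⟨fun x => J x + ((if x = (N.M m).α b then 1 else 0) - if x = b then 1 else 0),
        fun x => ?_, fun x hx => ?_, fun g hg => ?_⟩
      · have h4 : (N.M m).α x = (N.M m).α b ↔ x = b := (N.M m).α.injective.eq_iff
        have h5 : (N.M m).α x = b ↔ x = (N.M m).α b :=
          ⟨fun h => by rw [← h, (N.M m).α_α], fun h => by rw [h, (N.M m).α_α]⟩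
        simp only [h1, h4, h5]
        ring
      · by_cases h4 : x = b
        · exact Or.inl (h4 ▸ hG)
        · by_cases h5 : x = (N.M m).α b
          · exact Or.inr (by rw [h5, (N.M m).α_α]; exact hG)
          · exact h2 x (by simpa [h4, h5] using hx)
      · simp only [add_mul, sub_mul, Finset.sum_add_distrib, Finset.sum_sub_distrib, h3 g hg,
          ite_mul, one_mul, zero_mul, Finset.sum_ite_eq', Finset.mem_univ, if_true]
        ring
    · exact ⟨J, h1, h2, fun g hg => by rw [h3 g hg, hg.np_cyc hbc]⟩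

/-- a face function whose gradient vanishes on a set closed along a path is constant along it -/
theorem const_along (m : ℕ) (G : (N.M m).D → Prop) (ψ : (N.M m).D → ℝ) (hψ : Inv (N.M m).φ ψ)
    (Z : Set (N.M m).D) (hZ : ∀ x ∈ Z, ψ ((N.M m).α x) = ψ x)
    (hσ : ∀ x ∈ Z, ∀ y, (N.M m).σ.SameCycle x y → y ∈ Z)
    (hG : ∀ x ∈ Z, G x → (N.M m).α x ∈ Z) {d e : (N.M m).D} (hd : d ∈ Z)
    (h : Relation.ReflTransGen (N.Step m G) d e) : e ∈ Z ∧ ψ e = ψ d := by
  induction h with
  | refl => exact ⟨hd, rfl⟩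
  | @tail b c _ hbc ih =>
    rcases hbc with ⟨rfl, hb⟩ | hbc
    · exact ⟨hG b ih.1 hb, (hZ b ih.1).trans ih.2⟩
    · refine ⟨hσ b ih.1 c hbc, Eq.trans ?_ ih.2⟩
      obtain ⟨k, -, rfl⟩ := hbc.exists_pow_eq'
      clear hbc
      induction k with
      | zero => simp
      | succ k ihk =>
        rw [pow_succ', Equiv.Perm.mul_apply, (N.M m).σ_eq, hψ,
          hZ _ (hσ b ih.1 _ (np_sameCycle_pow _ k b)), ihk]

/-- the gradient of a face function is divergence free -/
theorem div_grad (m : ℕ) (ψ g : (N.M m).D → ℝ) (hψ : Inv (N.M m).φ ψ) (hg : Inv (N.M m).σ g) :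
    ∑ d, (ψ ((N.M m).α d) - ψ d) * g d = 0 := by
  have h1 : ∑ d, ψ ((N.M m).α d) * g d = ∑ d, ψ d * g d := by
    rw [← Equiv.sum_comp (N.M m).σ fun d => ψ d * g d]
    refine Finset.sum_congr rfl fun d _ => ?_
    rw [hg, (N.M m).σ_eq, hψ]
  simp only [sub_mul, Finset.sum_sub_distrib, h1, sub_self]

end FNet

end Pool.Agent.QL
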