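import Pool.Agent.P.MP_7a6434d8_pr.QL.NLim
import Pool.Agent.P.MP_7a6434d8_pr.QL.NPath

open MeasureTheory Set Filter Topology Metric
open scoped ENNReal

namespace Pool.Agent.QL

open Pool.Agent.LGD

theorem NPot_same {D : Type} [Finite D] {π : Equiv.Perm D} {f : D → ℝ} (hf : Inv π f) {d e : D}
    (h : π.SameCycle d e) : f e = f d := by
  obtain ⟨n, -, rfl⟩ := h.exists_pow_eq'
  induction n with
  | zero => rfl
  | succ n ih =>
    rw [pow_succ', Equiv.Perm.mul_apply, hf]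
    exact ih ⟨n, by simp⟩

theorem NPot_exit {D : Type} {r : D → D → Prop} {P I : D → Prop} (hI : ∀ x y, r x y → I x → I y)
    {d e : D} (h : Relation.ReflTransGen r d e) (hd : P d) (hId : I d) :
    (P e ∧ I e) ∨ ∃ x y, r x y ∧ P x ∧ I x ∧ ¬ P y := by
  induction h with
  | refl => exact Or.inl ⟨hd, hId⟩
  | @tail x y _ hxy ih =>
    rcases ih with ⟨h1, h2⟩ | h1
    · by_cases h3 : P y
      · exact Or.inl ⟨h3, hI x y hxy h2⟩
      · exact Or.inr ⟨x, y, hxy, h1, h2, h3⟩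
    · exact Or.inr h1

theorem NPot_crect_compact (x₀ x₁ y₀ y₁ : ℝ) : IsCompact (crect x₀ x₁ y₀ y₁) :=
  (isCompact_Icc (a := x₀) (b := x₁)).reProdIm (isCompact_Icc (a := y₀) (b := y₁))

theorem NPot_orect_open (x₀ x₁ y₀ y₁ : ℝ) : IsOpen (orect x₀ x₁ y₀ y₁) :=
  (isOpen_Ioo (a := x₀) (b := x₁)).reProdIm (isOpen_Ioo (a := y₀) (b := y₁))

theorem NPot_orect_sub (x₀ x₁ y₀ y₁ : ℝ) : orect x₀ x₁ y₀ y₁ ⊆ crect x₀ x₁ y₀ y₁ :=
  fun _ h => ⟨Ioo_subset_Icc_self h.1, Ioo_subset_Icc_self h.2⟩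

theorem NPot_cross {U C : Set ℂ} (hU : IsOpen U) (hC : IsClosed C) (hUC : U ⊆ C) {a b : ℂ}
    (ha : a ∈ U) (hb : b ∉ U) : ∃ w ∈ C \ U, ‖w - a‖ ≤ ‖b - a‖ := by
  by_contra h
  push Not at h
  have h1 : segment ℝ a b ⊆ closedBall a ‖b - a‖ :=
    (convex_closedBall a _).segment_subset (mem_closedBall_self (norm_nonneg _))
      (mem_closedBall_iff_norm.2 le_rfl)
  have h2 : segment ℝ a b ⊆ U ∪ Cᶜ := fun w hw => by
    by_contra h3
    simp only [mem_union, mem_compl_iff, not_or, not_not] at h3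
    exact (h w ⟨h3.2, h3.1⟩).not_ge (mem_closedBall_iff_norm.1 (h1 hw))
  have h3 := (convex_segment a b).isPreconnected.subset_left_of_subset_union hU hC.isOpen_compl
    (disjoint_left.2 fun w h4 h5 => h5 (hUC h4)) h2 ⟨a, left_mem_segment ℝ a b, ha⟩
  exact hb (h3 (right_mem_segment ℝ a b))

namespace FNet

variable (N : FNet)

/-- Admissible potentials. -/
def NPot_Adm (m : ℕ) (A B : Set ℂ) (g : (N.M m).D → ℝ) : Prop :=
  Inv (N.M m).σ g ∧ (∀ d, g d ∈ Icc (0 : ℝ) 1) ∧ (∀ d, N.p m d ∈ A → g d ≤ 0) ∧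
    ∀ d, N.p m d ∈ B → 1 ≤ g d

/-- Extremal potentials. -/
def NPot_Min (m : ℕ) (K A B : Set ℂ) (v : (N.M m).D → ℝ) : Prop :=
  N.NPot_Adm m A B v ∧ ∀ g, N.NPot_Adm m A B g → N.en m K v v ≤ N.en m K g g

/-- From every dart in `Ω` a path along which `v` does not drop below its initial value leaves
`Ω`. -/
def NPot_Up (m : ℕ) (Ω : Set ℂ) (v : (N.M m).D → ℝ) : Prop :=
  ∀ d, N.p m d ∈ Ω → ∃ e, N.p m e ∉ Ω ∧
    Relation.ReflTransGen (N.Step m fun x => v d ≤ v x ∧ v d ≤ v ((N.M m).α x)) d e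

variable {N}

theorem NPot_Adm.symm {m : ℕ} {A B : Set ℂ} {g : (N.M m).D → ℝ} (h : N.NPot_Adm m A B g) :
    N.NPot_Adm m B A fun d => 1 - g d :=
  ⟨fun d => by simp only [h.1 d], fun d => ⟨sub_nonneg.2 (h.2.1 d).2, sub_le_self _ (h.2.1 d).1⟩,
    fun d hd => sub_nonpos.2 (h.2.2.2 d hd), fun d hd => by linarith [h.2.2.1 d hd]⟩

theorem NPot_en_flip (m : ℕ) (K : Set ℂ) (g : (N.M m).D → ℝ) :
    N.en m K (fun d => 1 - g d) (fun d => 1 - g d) = N.en m K g g := by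
  have h : ∀ d, |N.dd m (fun d => 1 - g d) d| = |N.dd m g d| := fun d => by
    rw [← abs_neg]
    simp only [dd]
    congr 1
    ring
  exact le_antisymm (N.en_le_of_dd m K fun d _ => (h d).le) (N.en_le_of_dd m K fun d _ => (h d).ge)

theorem NPot_Min.symm {m : ℕ} {K A B : Set ℂ} {v : (N.M m).D → ℝ} (h : N.NPot_Min m K A B v) :
    N.NPot_Min m K B A fun d => 1 - v d := by
  refine ⟨h.1.symm, fun g hg => ?_⟩
  rw [NPot_en_flip, ← NPot_en_flip m K g]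
  exact h.2 _ hg.symm

theorem NPot_exists_min {m : ℕ} (K : Set ℂ) {A B : Set ℂ} {g : (N.M m).D → ℝ}
    (hg : Inv (N.M m).σ g) (hA : ∀ d, N.p m d ∈ A → g d ≤ 0) (hB : ∀ d, N.p m d ∈ B → 1 ≤ g d) :
    ∃ v, N.NPot_Min m K A B v ∧ N.en m K v v ≤ N.en m K g g := by
  have h1 : N.NPot_Adm m A B fun d => max 0 (min 1 (g d)) :=
    ⟨fun d => by simp only [hg d], fun d => ⟨le_max_left _ _, max_le zero_le_one (min_le_left _ _)⟩,
      fun d hd => max_le le_rfl ((min_le_right _ _).trans (hA d hd)),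
      fun d hd => le_max_of_le_right (le_min le_rfl (hB d hd))⟩
  have h2 : N.en m K (fun d => max 0 (min 1 (g d))) (fun d => max 0 (min 1 (g d))) ≤
      N.en m K g g := N.en_le_of_dd m K fun d _ => by
    simp only [dd]
    refine (abs_max_sub_max_le_max _ _ _ _).trans (max_le (by simp) ?_)
    exact (abs_min_sub_min_le_max _ _ _ _).trans (max_le (by simp) le_rfl)
  have h3 : IsClosed {v | N.NPot_Adm m A B v} := by
    simp only [NPot_Adm, Inv, mem_Icc, ofPred_and, ofPred_forall]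
    refine (isClosed_iInter fun d => isClosed_eq (by fun_prop) (by fun_prop)).inter
      ((isClosed_iInter fun d => (isClosed_le (by fun_prop) (by fun_prop)).inter
        (isClosed_le (by fun_prop) (by fun_prop))).inter
      ((isClosed_iInter fun d => isClosed_iInter fun _ => isClosed_le (by fun_prop)
        (by fun_prop)).inter
        (isClosed_iInter fun d => isClosed_iInter fun _ => isClosed_le (by fun_prop)
          (by fun_prop))))
  have h4 : IsCompact {v | N.NPot_Adm m A B v} :=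
    (isCompact_univ_pi fun _ : (N.M m).D => isCompact_Icc (a := (0 : ℝ)) (b := 1)).of_isClosed_subset
      h3 fun v hv d _ => hv.2.1 d
  have h5 : Continuous fun v : (N.M m).D → ℝ => N.en m K v v := by
    simp only [en, dd]
    refine continuous_const.mul (continuous_const.mul (continuous_finsetSum _ fun d _ => ?_))
    split_ifs
    · fun_prop
    · fun_prop
  obtain ⟨v, hv, h6⟩ := h4.exists_isMinOn ⟨_, h1⟩ h5.continuousOn
  exact ⟨v, ⟨hv, fun g' hg' => h6 hg'⟩, (h6 h1).trans h2⟩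

theorem NPot_step_le {m : ℕ} {v : (N.M m).D → ℝ} (hv : Inv (N.M m).σ v) (c : ℝ)
    (x y : (N.M m).D) (h : N.Step m (fun x => c ≤ v x ∧ c ≤ v ((N.M m).α x)) x y) (hx : c ≤ v x) :
    c ≤ v y := by
  rcases h with ⟨rfl, h⟩ | h
  · exact h.2
  · rwa [NPot_same hv h]

theorem NPot_Min.up {m : ℕ} {K A B Ω : Set ℂ} {v : (N.M m).D → ℝ} (h : N.NPot_Min m K A B v)
    (hA : Disjoint Ω A) (hB : Disjoint Ω B) (hin : ∀ x, N.p m x ∈ Ω → N.In m K x)
    {e₀ : (N.M m).D} (he₀ : N.p m e₀ ∉ Ω)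
    (hc : ∀ d, N.p m d ∈ Ω → Relation.ReflTransGen (N.Step m fun _ => True) d e₀) :
    N.NPot_Up m Ω v := by
  classical
  intro d hd
  by_contra hcon
  push Not at hcon
  set S : Set (N.M m).D := {e | Relation.ReflTransGen
    (N.Step m fun x => v d ≤ v x ∧ v d ≤ v ((N.M m).α x)) d e} with hS
  have hΩ : ∀ e ∈ S, N.p m e ∈ Ω := fun e he => by
    by_contra h1
    exact hcon e h1 he
  have hge : ∀ e ∈ S, v d ≤ v e := fun e he => by
    induction he with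
    | refl => exact le_rfl
    | tail _ hxy ih => exact NPot_step_le h.1.1 _ _ _ hxy ih
  have hσ : ∀ x ∈ S, ∀ y, (N.M m).σ.SameCycle x y → y ∈ S := fun x hx y hxy =>
    Relation.ReflTransGen.tail hx (Or.inr hxy)
  have hlt : ∀ x ∈ S, (N.M m).α x ∉ S → v ((N.M m).α x) < v d := fun x hx h1 => by
    by_contra h2
    exact h1 (Relation.ReflTransGen.tail hx (Or.inl ⟨rfl, hge x hx, not_lt.1 h2⟩))
  have hex : (Finset.univ.filter fun x => x ∈ S ∧ (N.M m).α x ∉ S).Nonempty := by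
    rcases NPot_exit (P := fun x => x ∈ S) (I := fun _ => True) (fun _ _ _ _ => trivial)
      (hc d hd) Relation.ReflTransGen.refl trivial with h1 | ⟨x, y, h1, h2, -, h3⟩
    · exact absurd (hΩ _ h1.1) he₀
    · rcases h1 with ⟨rfl, -⟩ | h1
      · exact ⟨x, by simp [h2, h3]⟩
      · exact absurd (hσ x h2 y h1) h3
  obtain ⟨x₀, hx₀, hmax⟩ := Finset.exists_max_image _ (fun x => v ((N.M m).α x)) hex
  simp only [Finset.mem_filter, Finset.mem_univ, true_and] at hx₀ hmax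
  set c := v ((N.M m).α x₀) with hc0
  have hcd : c < v d := hlt x₀ hx₀.1 hx₀.2
  have hadm : N.NPot_Adm m A B fun x => if x ∈ S then c else v x := by
    refine ⟨fun x => ?_, fun x => ?_, fun x hx => ?_, fun x hx => ?_⟩
    · have h1 : (N.M m).σ.SameCycle x ((N.M m).σ x) := ⟨1, by simp⟩
      have h2 : (N.M m).σ x ∈ S ↔ x ∈ S := ⟨fun h3 => hσ _ h3 _ h1.symm, fun h3 => hσ _ h3 _ h1⟩
      simp only [h2, h.1.1 x]
    · beta_reduce
      split_ifs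
      · exact h.1.2.1 _
      · exact h.1.2.1 _
    · beta_reduce
      rw [if_neg fun h1 => disjoint_left.1 hA (hΩ x h1) hx]
      exact h.1.2.2.1 x hx
    · beta_reduce
      rw [if_neg fun h1 => disjoint_left.1 hB (hΩ x h1) hx]
      exact h.1.2.2.2 x hx
  have hone : ∀ x ∈ S, (N.M m).α x ∉ S →
      (v ((N.M m).α x) - c) * (v ((N.M m).α x) - c) <
        (v ((N.M m).α x) - v x) * (v ((N.M m).α x) - v x) := fun x hx h1 => by
    have h2 := hmax x ⟨hx, h1⟩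
    have h3 := hge x hx
    nlinarith
  refine (h.2 _ hadm).not_gt ?_
  simp only [en]
  refine mul_lt_mul_of_pos_left (mul_lt_mul_of_pos_left (Finset.sum_lt_sum (fun x _ => ?_)
    ⟨x₀, Finset.mem_univ _, ?_⟩) (by norm_num)) (N.κ_pos m)
  · split_ifs
    · simp only [dd]
      by_cases h1 : x ∈ S <;> by_cases h2 : (N.M m).α x ∈ S
      · rw [if_pos h1, if_pos h2, sub_self, zero_mul]
        exact mul_self_nonneg _
      · rw [if_pos h1, if_neg h2]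
        exact (hone x h1 h2).le
      · have h3 := hone _ h2 (by rwa [(N.M m).α_α])
        rw [(N.M m).α_α] at h3
        rw [if_neg h1, if_pos h2]
        linarith
      · rw [if_neg h1, if_neg h2]
    · exact le_rfl
  · rw [if_pos (hin x₀ (hΩ x₀ hx₀.1)), if_pos (hin x₀ (hΩ x₀ hx₀.1))]
    simp only [dd]
    rw [if_pos hx₀.1, if_neg hx₀.2]
    exact hone x₀ hx₀.1 hx₀.2

theorem NPot_step_mono {m : ℕ} {G G' : (N.M m).D → Prop} (h : ∀ x, G x → G' x)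
    {d e : (N.M m).D} (hp : Relation.ReflTransGen (N.Step m G) d e) :
    Relation.ReflTransGen (N.Step m G') d e := by
  induction hp with
  | refl => exact .refl
  | tail _ hxy ih => exact ih.tail (hxy.imp_left fun h1 => ⟨h1.1, h _ h1.2⟩)

variable (N)

theorem NPot_escape {O : Set ℂ} (hOb : Bornology.IsBounded O) : ∀ᶠ m in (N.U : Filter ℕ),
    ∃ e₀, N.p m e₀ ∉ O ∧
      ∀ d, N.p m d ∈ O → Relation.ReflTransGen (N.Step m fun _ => True) d e₀ := by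
  obtain ⟨R, hR, hO⟩ := hOb.subset_ball_lt 0 (0 : ℂ)
  obtain ⟨η', h1, h2⟩ := N.track (isCompact_closedBall (0 : ℂ) (R + 2))
    (convex_closedBall _ _).isPreconnected one_pos
  filter_upwards [h2, N.dense ((R + 1 : ℝ) : ℂ) 1 one_pos] with m h3 ⟨e₀, h4⟩
  have h5 : ‖((R + 1 : ℝ) : ℂ)‖ = R + 1 := by
    rw [Complex.norm_real, Real.norm_of_nonneg (by linarith)]
  have h6 := abs_le.1 ((abs_norm_sub_norm_le _ _).trans h4)
  rw [h5] at h6
  refine ⟨e₀, fun h7 => ?_, fun d hd => NPot_step_mono (fun _ _ => trivial) (h3 d e₀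
    (self_subset_thickening h1 _ ?_) (self_subset_thickening h1 _ ?_))⟩
  · have := mem_ball_zero_iff.1 (hO h7)
    linarith
  · exact mem_closedBall_zero_iff.2 (by linarith [mem_ball_zero_iff.1 (hO hd)])
  · exact mem_closedBall_zero_iff.2 (by linarith)

theorem NPot_mesh {Q : Set ℂ} (hQ : IsCompact Q) {η : ℝ} (hη : 0 < η) :
    ∀ᶠ m in (N.U : Filter ℕ), ∀ d e, N.p m d ∈ Q → (N.M m).Adj d e → ‖N.p m e - N.p m d‖ ≤ η := by
  obtain ⟨R, hR⟩ := hQ.isBounded.subset_closedBall (0 : ℂ)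
  exact (N.mesh R η hη).mono fun m h d e hd => h d e (mem_closedBall_zero_iff.1 (hR hd))

theorem NPot_up {K A B O Q Ω : Set ℂ} (hO : IsOpen O) (hOb : Bornology.IsBounded O) (hOK : O ⊆ K)
    (hA : Disjoint O A) (hB : Disjoint O B) (hQ : IsCompact Q) (hQO : Q ⊆ O) (hΩ : Ω ⊆ Q) :
    ∀ᶠ m in (N.U : Filter ℕ), ∀ v, N.NPot_Min m K A B v → N.NPot_Up m Ω v := by
  obtain ⟨δ, hδ, h1⟩ := hQ.exists_cthickening_subset_open hO hQO
  filter_upwards [N.NPot_escape hOb, N.NPot_mesh hQ hδ] with m ⟨e₀, h2, h3⟩ h4 v hv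
  have h5 : Ω ⊆ O := hΩ.trans hQO
  refine hv.up (hA.mono_left h5) (hB.mono_left h5) (fun x hx => ⟨hOK (h5 hx), hOK (h1 ?_)⟩)
    (fun h => h2 (h5 h)) fun d hd => h3 d (h5 hd)
  exact mem_cthickening_of_dist_le _ _ _ _ (hΩ hx)
    (by rw [dist_eq_norm]; exact h4 x _ (hΩ hx) (Or.inl rfl))

theorem NPot_max {U C : Set ℂ} (hU : IsOpen U) (hC : IsCompact C) (hUC : U ⊆ C)
    (hne : (C \ U).Nonempty) {v : ∀ m, (N.M m).D → ℝ} {u : ℂ → ℝ} (hu : ContinuousOn u C)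
    (hv : N.Conv v u C) (hup : ∀ᶠ m in (N.U : Filter ℕ), N.NPot_Up m U (v m)) {z : ℂ}
    (hz : z ∈ C) : ∃ w ∈ C \ U, u z ≤ u w := by
  by_cases hzU : z ∈ U
  swap
  · exact ⟨z, ⟨hz, hzU⟩, le_rfl⟩
  obtain ⟨w, hw, hmax⟩ := (hC.diff hU).exists_isMaxOn hne (hu.mono sdiff_subset)
  refine ⟨w, hw, le_of_forall_pos_le_add fun ε hε => ?_⟩
  obtain ⟨η, hη, h1⟩ := Metric.uniformContinuousOn_iff_le.1
    (hC.uniformContinuousOn_of_continuous hu) (ε / 4) (by positivity)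
  obtain ⟨ρ, hρ, h2⟩ := Metric.nhds_basis_closedBall.mem_iff.1 (hU.mem_nhds hzU)
  obtain ⟨m, h3, h4, ⟨d, h5⟩, h6⟩ := ((hv (ε / 4) (by positivity)).and
    ((N.NPot_mesh hC hη).and ((N.dense z (min η ρ) (lt_min hη hρ)).and hup))).exists
  have hd : N.p m d ∈ U := h2 (mem_closedBall_iff_norm.2 (h5.trans (min_le_right _ _)))
  obtain ⟨e, he, h7⟩ := h6 d hd
  rcases NPot_exit (P := fun x => N.p m x ∈ U) (I := fun x => v m d ≤ v m x)
    (NPot_step_le h3.1 _) h7 hd le_rfl with h8 | ⟨x, y, h8, h9, h10, h11⟩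
  · exact absurd h8.1 he
  have h12 : (N.M m).Adj x y := h8.elim (fun h => Or.inl h.1) fun h => Or.inr (Or.inr h)
  obtain ⟨w', hw', h13⟩ := NPot_cross hU hC.isClosed hUC h9 h11
  have a1 := h1 _ (hUC hd) _ hz (by rw [dist_eq_norm]; exact h5.trans (min_le_left _ _))
  have a2 := h1 _ hw'.1 _ (hUC h9)
    (by rw [dist_eq_norm]; exact h13.trans (h4 x y (hUC h9) h12))
  have a3 := abs_le.1 (h3.2 d (hUC hd))
  have a4 := abs_le.1 (h3.2 x (hUC h9))
  have a5 : u w' ≤ u w := hmax hw'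
  rw [Real.dist_eq, abs_le] at a1 a2
  linarith [a1.1, a2.1, a3.1, a4.2]

theorem NPot_osc {m : ℕ} {v : (N.M m).D → ℝ} (hv : Inv (N.M m).σ v) {z : ℂ} {r R ε M : ℝ}
    (hε : 0 < ε) (hrR : r ≤ R) (h1 : N.NPot_Up m (ball z R) v)
    (h2 : N.NPot_Up m (ball z R) fun d => 1 - v d) (hM : N.en m (ball z R) v v ≤ M)
    (hs : ∀ g : (N.M m).D → ℝ, N.Two m g (ball z r) (ball z R)ᶜ →
      (M + 1) / ε ^ 2 ≤ N.en m (ball z R) g g) {d e : (N.M m).D} (hd : N.p m d ∈ ball z r)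
    (he : N.p m e ∈ ball z r) : v d - v e ≤ ε := by
  by_contra h3
  push Not at h3
  obtain ⟨d', hd', p1⟩ := h1 d (ball_subset_ball hrR hd)
  obtain ⟨e', he', p2⟩ := h2 e (ball_subset_ball hrR he)
  have b1 : ∀ t, v d ≤ t → 1 ≤ ε⁻¹ * t + -(ε⁻¹ * v e) := fun t ht => by
    rw [← sub_eq_add_neg, ← mul_sub, inv_mul_eq_div, one_le_div hε]
    linarith
  have b2 : ∀ t, 1 - v e ≤ 1 - t → ε⁻¹ * t + -(ε⁻¹ * v e) ≤ 0 := fun t ht => by
    rw [← sub_eq_add_neg, ← mul_sub]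
    exact mul_nonpos_of_nonneg_of_nonpos (by positivity) (by linarith)
  have h4 := hs (fun x => ε⁻¹ * v x + -(ε⁻¹ * v e)) ⟨fun x => by simp only [hv x],
    ⟨d, d', hd, hd', NPot_step_mono (fun x hx => ⟨b1 _ hx.1, b1 _ hx.2⟩) p1⟩,
    ⟨e, e', he, he', NPot_step_mono (fun x hx => ⟨b2 _ hx.1, b2 _ hx.2⟩) p2⟩⟩
  rw [N.en_affine_left, N.en_comm, N.en_affine_left, div_le_iff₀ (by positivity)] at h4
  have h5 : ε⁻¹ * (ε⁻¹ * N.en m (ball z R) v v) * ε ^ 2 = N.en m (ball z R) v v := by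
    field_simp
  linarith

/-- Limit of the extremal potentials of a crossing of `K` from `A` to `B`. -/
theorem potential (K A B O : Set ℂ) (hO : IsOpen O) (hOb : Bornology.IsBounded O) (hOK : O ⊆ K)
    (hA : Disjoint O A) (hB : Disjoint O B) (hsep : ∀ z ∈ O, N.SepAt z) {M : ℝ}
    (hM : ¬ N.CondGe K A B M) :
    ∃ (v : ∀ m, (N.M m).D → ℝ) (u : ℂ → ℝ), ContinuousOn u O ∧ Mono u O ∧
      (∀ Q, IsCompact Q → Q ⊆ O → N.Conv v u Q) ∧
      ∀ᶠ m in (N.U : Filter ℕ), Inv (N.M m).σ (v m) ∧ N.en m K (v m) (v m) ≤ M ∧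
        (∀ d, N.p m d ∈ A → v m d ≤ 0) ∧ ∀ d, N.p m d ∈ B → 1 ≤ v m d := by
  have h1 : ∀ m, ∃ v : (N.M m).D → ℝ, Inv (N.M m).σ v ∧ (∀ d, |v d| ≤ 1) ∧
      ((¬ ∀ g : (N.M m).D → ℝ, Inv (N.M m).σ g → (∀ d, N.p m d ∈ A → g d ≤ 0) →
        (∀ d, N.p m d ∈ B → 1 ≤ g d) → M ≤ N.en m K g g) →
        N.NPot_Min m K A B v ∧ N.en m K v v ≤ M) := fun m => by
    by_cases h : ∀ g : (N.M m).D → ℝ, Inv (N.M m).σ g → (∀ d, N.p m d ∈ A → g d ≤ 0) →
        (∀ d, N.p m d ∈ B → 1 ≤ g d) → M ≤ N.en m K g g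
    · exact ⟨0, fun _ => rfl, fun _ => by simp, fun h' => absurd h h'⟩
    · push Not at h
      obtain ⟨g, a1, a2, a3, a4⟩ := h
      obtain ⟨v, b1, b2⟩ := NPot_exists_min K a1 a2 a3
      exact ⟨v, b1.1.1, fun d => abs_le.2 ⟨by linarith [(b1.1.2.1 d).1], (b1.1.2.1 d).2⟩,
        fun _ => ⟨b1, b2.trans a4.le⟩⟩
  choose v hv hb hmin using h1
  have h2 : ∀ᶠ m in (N.U : Filter ℕ), N.NPot_Min m K A B (v m) ∧ N.en m K (v m) (v m) ≤ M :=
    (Ultrafilter.eventually_not.2 hM).mono hmin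
  have h3 : ∀ {Q Ω : Set ℂ}, IsCompact Q → Q ⊆ O → Ω ⊆ Q → ∀ᶠ m in (N.U : Filter ℕ),
      N.NPot_Up m Ω (v m) ∧ N.NPot_Up m Ω fun d => 1 - v m d := fun hQ hQO hΩ => by
    filter_upwards [h2, N.NPot_up hO hOb hOK hA hB hQ hQO hΩ,
      N.NPot_up hO hOb hOK hB hA hQ hQO hΩ] with m a1 a2 a3
    exact ⟨a2 _ a1.1, a3 _ a1.1.symm⟩
  obtain ⟨u, hu, hc⟩ := N.exists_limit v hv O hO hb fun z hz ε hε => by
    obtain ⟨R, hR, h4⟩ := Metric.nhds_basis_closedBall.mem_iff.1 (hO.mem_nhds hz)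
    obtain ⟨r, hr, h5⟩ := hsep z hz R ((M + 1) / ε ^ 2) hR
    refine ⟨min r R, lt_min hr hR, ?_⟩
    filter_upwards [h2, h5, h3 (isCompact_closedBall z R) h4 ball_subset_closedBall]
      with m a1 a2 a3 d e hd he
    have a4 : N.en m (ball z R) (v m) (v m) ≤ M :=
      (N.en_mono m (ball_subset_closedBall.trans (h4.trans hOK)) _).trans a1.2
    have a5 : ∀ g : (N.M m).D → ℝ, N.Two m g (ball z (min r R)) (ball z R)ᶜ →
        (M + 1) / ε ^ 2 ≤ N.en m (ball z R) g g := fun g ⟨b1, ⟨x, y, b2, b3⟩, x', y', b4, b5⟩ =>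
      a2 g ⟨b1, ⟨x, y, ball_subset_ball (min_le_left _ _) b2, b3⟩,
        x', y', ball_subset_ball (min_le_left _ _) b4, b5⟩
    exact abs_sub_le_iff.2 ⟨N.NPot_osc (hv m) hε (min_le_right _ _) a3.1 a3.2 a4 a5 hd he,
      N.NPot_osc (hv m) hε (min_le_right _ _) a3.1 a3.2 a4 a5 he hd⟩
  refine ⟨v, u, hu, fun x₀ x₁ y₀ y₁ hx hy hsub z hz => ?_, hc,
    h2.mono fun m h => ⟨hv m, h.2, h.1.1.2.2.1, h.1.1.2.2.2⟩⟩
  have hC := NPot_crect_compact x₀ x₁ y₀ y₁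
  have hU := NPot_orect_open x₀ x₁ y₀ y₁
  have hUC := NPot_orect_sub x₀ x₁ y₀ y₁
  have hne : (crect x₀ x₁ y₀ y₁ \ orect x₀ x₁ y₀ y₁).Nonempty :=
    ⟨⟨x₀, y₀⟩, ⟨⟨le_rfl, hx.le⟩, le_rfl, hy.le⟩, fun h => lt_irrefl _ h.1.1⟩
  have h4 := h3 hC hsub hUC
  refine ⟨N.NPot_max hU hC hUC hne (hu.mono hsub) (hc _ hC hsub) (h4.mono fun _ h => h.1) hz, ?_⟩
  obtain ⟨w, hw, h5⟩ := N.NPot_max hU hC hUC hne (v := fun m d => 1 - v m d)
    (u := fun z => 1 - u z) (continuousOn_const.sub (hu.mono hsub))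
    (fun η hη => (hc _ hC hsub η hη).mono fun m h => ⟨fun d => by simp only [h.1 d],
      fun d hd => by
        rw [← abs_neg]
        exact le_of_eq_of_le (congrArg _ (by ring)) (h.2 d hd)⟩)
    (h4.mono fun _ h => h.2) hz
  exact ⟨w, hw, by linarith⟩

end FNet

end Pool.Agent.QL
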