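import Pool.Agent.P.MP_7a6434d8_pr.QL.Stmt
import Pool.Agent.P.MP_7a6434d8_pr.Quad3

/-! Interface between the energy side and the walk side. -/

open MeasureTheory ProbabilityTheory Set Filter Topology Metric
open scoped ENNReal NNReal

namespace Pool.Agent.QL

open Pool.Agent.LGD Pool.Agent.P.MP_7a6434d8_pr

/-- edge length -/
noncomputable def cn (n : ℕ) : ℝ := (9 / 8 / n : ℝ) ^ (1 / 4 : ℝ)

/-- Dirichlet form with unit conductances: sum over edges, written as half the sum over darts -/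
noncomputable def dir {n : ℕ} (q : Quad n) (u v : q.Vertex → ℝ) : ℝ :=
  1 / 2 * ∑ e, (u (q.head e) - u (q.tail e)) * (v (q.head e) - v (q.tail e))

/-- the form of the walk sped up by `a`, on `L²(stat)` -/
noncomputable def form {n : ℕ} (q : Quad n) (a : ℝ) (u v : q.Vertex → ℝ) : ℝ :=
  a / (4 * n) * dir q u v

/-- generator of simple random walk -/
noncomputable def lap {n : ℕ} (q : Quad n) (u : q.Vertex → ℝ) (x : q.Vertex) : ℝ :=
  (∑ e ∈ q.out x, (u (q.head e) - u x)) / (q.out x).card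

/-- the mean exit time of the ball of radius `r` around `y`, started at `y`, is at most `ε a` -/
def NoTrap {n : ℕ} (q : Quad n) (a ε r : ℝ) (y : q.Vertex) : Prop :=
  ∃ w : q.Vertex → ℝ, (∀ x, 0 ≤ w x) ∧
    (∀ x, cn n * q.graph.dist y x ≤ r → 1 ≤ -(a * lap q w x)) ∧ w y ≤ ε

/-- a path inside `S` from a vertex of `A` to a vertex of `B` -/
def Cross {n : ℕ} (q : Quad n) (S A B : Set q.Vertex) : Prop :=
  ∃ x ∈ A, ∃ y ∈ B, x ∈ S ∧
    Relation.ReflTransGen (fun u v => v ∈ S ∧ ∃ e, q.tail e = u ∧ q.head e = v) x y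

/-- a sequence of maps with positions and speeds, along an ultrafilter -/
structure Net where
  U : Ultrafilter ℕ
  n : ℕ → ℕ
  q : ∀ m, Quad (n m)
  p : ∀ m, (q m).Vertex → Sph
  a : ℕ → ℝ

namespace Net

/-- uniform convergence in position -/
def Unif (N : Net) (v : ∀ m, (N.q m).Vertex → ℝ) (g : Sph → ℝ) : Prop :=
  ∀ ε > 0, ∀ᶠ m in (N.U : Filter ℕ), ∀ x, |v m x - g (N.p m x)| ≤ ε

/-- scaled energy -/
noncomputable def E (N : Net) (m : ℕ) (u v : (N.q m).Vertex → ℝ) : ℝ := form (N.q m) (N.a m) u v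

/-- Gromov-Hausdorff-Prokhorov convergence through the positions -/
structure Geo (N : Net) (d : Sph → Sph → ℝ) (μ : Measure ℂ) : Prop where
  n_top : Tendsto N.n N.U atTop
  dist : ∀ ε > 0, ∀ᶠ m in (N.U : Filter ℕ), ∀ x y,
    |cn (N.n m) * (N.q m).graph.dist x y - d (N.p m x) (N.p m y)| ≤ ε
  dense : ∀ ε > 0, ∀ᶠ m in (N.U : Filter ℕ), ∀ z, ∃ x, d z (N.p m x) ≤ ε
  meas : ∀ g : C(Sph, ℝ), Tendsto
    (fun m => (N.n m : ℝ)⁻¹ * ∑ᶠ x, g (N.p m x)) N.U (𝓝 (∫ z : ℂ, g z ∂μ))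

/-- the energy inputs -/
structure En (N : Net) (d : Sph → Sph → ℝ) : Prop where
  a_top : Tendsto N.a N.U atTop
  recov : ∀ φ : Test, tsupport φ ⊆ {0, 1}ᶜ → ∃ u : ∀ m, (N.q m).Vertex → ℝ,
    N.Unif u (fun s => OnePoint.rec 0 φ s) ∧
    ∀ (v : ∀ m, (N.q m).Vertex → ℝ) (g : C(Sph, ℝ)) (C : ℝ), N.Unif v g →
      (∀ᶠ m in (N.U : Filter ℕ), N.E m (v m) (v m) ≤ C) →
      Tendsto (fun m => N.E m (u m) (v m)) N.U
        (𝓝 (-(1 / 2) * ∫ z : ℂ, g z * Laplacian.laplacian (φ : ℂ → ℝ) z))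
  sep : ∀ (z : Sph) (R C : ℝ), 0 < R → ∃ r > 0, ∀ᶠ m in (N.U : Filter ℕ),
    ∀ g : (N.q m).Vertex → ℝ,
      Cross (N.q m) {x | 1 ≤ g x} {x | d z (N.p m x) < r} {x | R ≤ d z (N.p m x)} →
      Cross (N.q m) {x | g x ≤ 0} {x | d z (N.p m x) < r} {x | R ≤ d z (N.p m x)} →
      C ≤ N.E m g g

open Classical in
/-- no traps at typical points -/
def Trap (N : Net) : Prop :=
  ∀ ε > 0, ∀ η > 0, ∃ r > 0, ∀ᶠ m in (N.U : Filter ℕ),
    ∑ᶠ y, (if NoTrap (N.q m) (N.a m) ε r y then 0 else (N.q m).stat y) ≤ η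

end Net

/-- What the energy side delivers for a sphere `(d, μ)` over `(Ω, P)`. -/
def Inputs {Ω : Type} [MeasurableSpace Ω] (P : Measure Ω) (d : Ω → Sph → Sph → ℝ)
    (μ : Ω → Measure ℂ) : Prop :=
  ∀ n₀ : ℕ → ℕ, StrictMono n₀ → ∃ (σ : ℕ → ℕ) (a : ℕ → ℝ)
    (Γ : ∀ k, Measure (RootedQuad (n₀ (σ k)) × Ω)), StrictMono σ ∧ (∀ k, 0 < a k) ∧
    (∀ k, (Γ k).fst = uniformOn univ ∧ (Γ k).snd = P) ∧
    (∀ ε > 0, ∀ η : ℝ≥0∞, 0 < η → ∃ r > 0, ∀ᶠ k in atTop,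
      uniformOn univ {c : RootedQuad (n₀ (σ k)) |
        ¬ NoTrap (Quot.out c) (a k) ε r ((Quot.out c).tail (Quot.out c).root)} ≤ η) ∧
    ∀ η : ℝ≥0∞, 0 < η → ∃ G : ∀ k, Set (RootedQuad (n₀ (σ k)) × Ω),
      (∀ᶠ k in atTop, Γ k (G k)ᶜ ≤ η) ∧
      ∀ᵐ ω ∂P, ∀ (k : ℕ → ℕ) (c : ∀ m, RootedQuad (n₀ (σ (k m)))), StrictMono k →
        (∀ m, (c m, ω) ∈ G (k m)) →
        ∃ (U : Ultrafilter ℕ) (p : ∀ m, (Quot.out (c m) : Quad _).Vertex → Sph),
          (U : Filter ℕ) ≤ atTop ∧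
          Net.Geo ⟨U, fun m => n₀ (σ (k m)), fun m => Quot.out (c m), p, fun m => a (k m)⟩
            (d ω) (μ ω) ∧
          Net.En ⟨U, fun m => n₀ (σ (k m)), fun m => Quot.out (c m), p, fun m => a (k m)⟩ (d ω)

/-- Law of the darts of the stationary walk. -/
noncomputable def statLaw {n : ℕ} (q : Quad n) : Measure (ℕ → Fin (4 * n)) :=
  (uniformOn univ : Measure (Fin (4 * n))).bind fun e => walkLaw q (q.tail e)

namespace Net

/-- position of the walk after `j` steps -/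
def pos (N : Net) (m : ℕ) (e : ℕ → Fin (4 * N.n m)) (j : ℕ) : Sph :=
  N.p m ((N.q m).tail (e j))

/-- convergence of the finite-dimensional laws of the stationary walk to those of `L` -/
def Fdd (N : Net) (L : Measure Path) : Prop :=
  ∀ (k : ℕ) (t : Fin k → ℝ≥0) (g : Fin k → C(Sph, ℝ)), Monotone t →
    Tendsto (fun m => ∫ e, ∏ j, g j (N.pos m e ⌊N.a m * t j⌋₊) ∂statLaw (N.q m)) N.U
      (𝓝 (∫ w, ∏ j, g j (w.1 (t j)) ∂L))

/-- modulus of continuity of the stationary walk -/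
def Tight (N : Net) (d : Sph → Sph → ℝ) (ε T δ : ℝ) : Prop :=
  ∀ᶠ m in (N.U : Filter ℕ), statLaw (N.q m) {e | ∃ i j : ℕ, i ≤ j ∧ (j : ℝ) ≤ N.a m * T ∧
    (j : ℝ) - i ≤ N.a m * δ ∧ ε < d (N.pos m e i) (N.pos m e j)} ≤ ENNReal.ofReal ε

end Net

/-- The deterministic theorem of block W. -/
def WDet : Prop :=
  ∀ (d : Sph → Sph → ℝ) (μ : Measure ℂ) [IsProbabilityMeasure μ] (W L : Measure Path),
    IsGeoMetric d → μ {0} = 0 → μ {1} = 0 → IsWiener W → IsLBM W μ L →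
    (∀ N : Net, N.Geo d μ → N.En d → N.Trap → N.Fdd L) ∧
    ∀ ε > 0, ∀ T : ℝ, ∃ δ > 0, ∀ N : Net, N.Geo d μ → N.En d → N.Trap → N.Tight d ε T δ

end Pool.Agent.QL
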