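import Pool.Agent.P.MP_7a6434d8_pr.QL.Stmt
import Pool.Agent.P.MP_7a6434d8_pr.QL.BM.Dstar
import Pool.Agent.P.MP_7a6434d8_pr.QL.BM.ExcDens

/-! The Brownian snake, the Brownian map, and the statement. -/

open MeasureTheory ProbabilityTheory Set Filter Topology Metric
open scoped ENNReal NNReal unitInterval BoundedContinuousFunction

namespace Pool.Agent.QL

open Pool.Agent.LGD Pool.Agent.P.MP_7a6434d8_pr

/-- Pairs `(e, Z)` of continuous functions on `[0, 1]`. -/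
def Snake : Type := C(I, ℝ) × C(I, ℝ)

instance : TopologicalSpace Snake := inferInstanceAs (TopologicalSpace (C(I, ℝ) × C(I, ℝ)))

instance : MeasurableSpace Snake := borel Snake

/-- `S` is the law of the head `(e, Z)` of the Brownian snake: `e` is a normalised Brownian
excursion, and given `e` the process `Z` is centred Gaussian with covariance `min_{[s,t]} e`. -/
structure IsSnake (S : Measure Snake) : Prop where
  prob : IsProbabilityMeasure S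
  exc : ∀ (k : ℕ) (t : Fin (k + 1) → I), StrictMono t → (∀ i, 0 < t i ∧ t i < 1) →
    S.map (fun y i => y.1 (t i)) = volume.withDensity (excDens k t)
  lab : ∀ (k : ℕ) (t : Fin k → I) (l : Fin k → ℝ) (G : C(I, ℝ) →ᵇ ℂ),
    ∫ y, G y.1 * Complex.exp (Complex.I * (∑ i, l i * y.2 (t i) : ℝ)) ∂S =
      ∫ y, G y.1 * Real.exp (-(∑ i, ∑ j, l i * l j * mn y.1 (uIcc (t i) (t j))) / 2) ∂S

/-- `(Sph, d, μ, x)` is the Brownian map coded by `y = (e, Z)`: the quotient of `[0, 1]` by `D*`,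
with the image of Lebesgue measure, rooted at the point of minimal label. -/
def IsMapOf (y : Snake) (d : Sph → Sph → ℝ) (μ : Measure ℂ) (x : ℂ) : Prop :=
  ∃ π : I → Sph, Function.Surjective π ∧ (∀ s t, d (π s) (π t) = Dst y.1 y.2 s t) ∧
    (volume : Measure I).map π = μ.map (↑) ∧ ∃ s, (∀ t, y.2 s ≤ y.2 t) ∧ π s = x

/-- The statement. -/
def Target2 : Prop :=
  ∀ (c₀ : ℝ) (_ : 0 < c₀) (D : Dist → ℂ → ℂ → ℝ)
    (_ : IsLQGMetric (√(8 / 3)) (√(8 / 3) / 4) D) (θ : Test) (Θ : ℝ → ℂ → Test)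
    (_ : IsMollifier θ Θ) (Ω : Type) [MeasurableSpace Ω] (P₀ P : Measure Ω)
    [IsProbabilityMeasure P₀] [IsProbabilityMeasure P] (_ : P ≪ P₀) (_ : P₀ ≪ P)
    (h : Ω → Dist) (_ : IsGFF P₀ h) (μ₀ : Ω → Measure ℂ)
    (_ : IsLQGMeasure P₀ h (√(8 / 3)) c₀ Θ μ₀) (f : ℂ → ℝ)
    (_ : ContDiffOn ℝ (⊤ : ℕ∞) f {0, 1}ᶜ) (d : Ω → Sph → Sph → ℝ)
    (_ : ∀ x y, Measurable fun ω => d ω x y) (μ : Ω → Measure ℂ)
    (_ : ∀ᵐ ω ∂P, IsSphere (√(8 / 3)) D f (h ω) (μ₀ ω) (d ω) (μ ω))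
    (W : Measure Path) (_ : IsWiener W) (L : Kernel Ω Path) [IsMarkovKernel L]
    (_ : ∀ᵐ ω ∂P, IsLBM W (μ ω) (L ω))
    (Γ : Measure ((Ω × Path) × Snake)) (_ : Γ.fst = P ⊗ₘ L) (_ : IsSnake Γ.snd)
    (_ : ∀ᵐ p ∂Γ, IsMapOf p.2 (d p.1.1) (μ p.1.1) (p.1.2.1 0)),
    ∃ a : ℕ → ℝ≥0, (∀ n, 0 < a n) ∧ ConvLaw jointLaw (P ⊗ₘ L) fun n p r =>
      gh (mdist (Quot.out p.1)) (vmeas (Quot.out p.1)) (d r.1) ((μ r.1).map (↑))
        (curveTerm (fun t => curve p.2 (a n * t)) fun t => (r.2.1 t : Sph))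

end Pool.Agent.QL
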